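import Pool.Agent.Run7.h455.Peel

set_option autoImplicit false
open Matrix
open scoped ComplexOrder MatrixOrder Kronecker

namespace Run7.h455

section ker
variable {X ι : Type*}

/-- the all-ones kernel -/
def onesK (X : Type*) : Matrix X X ℂ := fun _ _ => 1

/-- a product of kernels -/
def prodK (S : Finset ι) (K : ι → Matrix X X ℂ) : Matrix X X ℂ := fun x y => ∏ j ∈ S, K j x y

lemma ones_psd [Finite X] : (onesK X).PosSemidef := by
  have h := Matrix.posSemidef_vecMulVec_self_star (R := ℂ) (n := X) (fun _ => (1:ℂ))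
  have e : onesK X = Matrix.vecMulVec (fun _ => (1:ℂ)) (star fun _ => (1:ℂ)) := by
    ext x y; simp [Matrix.vecMulVec_apply, onesK]
  rw [e]; exact h

lemma prodK_insert [DecidableEq ι] (S : Finset ι) (K : ι → Matrix X X ℂ) {j : ι} (hj : j ∉ S) :
    prodK (insert j S) K = K j ⊙ prodK S K := by
  ext x y; simp [Matrix.hadamard_apply, prodK, Finset.prod_insert hj]

lemma prod_psd [Finite X] [DecidableEq ι] (S : Finset ι) (K : ι → Matrix X X ℂ) (h : ∀ j, (K j).PosSemidef) :
    (prodK S K).PosSemidef := by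
  induction S using Finset.induction_on with
  | empty =>
    have e : prodK (∅ : Finset ι) K = onesK X := by ext x y; simp [prodK, onesK]
    rw [e]; exact ones_psd
  | insert j S hj ih =>
    rw [prodK_insert S K hj]; exact (h j).hadamard ih

lemma prod_psd_mono [Finite X] [DecidableEq ι] (S : Finset ι) (K K1 : ι → Matrix X X ℂ) (h : ∀ j, (K j).PosSemidef)
    (h1 : ∀ j, (K1 j - K j).PosSemidef) :
    (prodK S K1 - prodK S K).PosSemidef := by
  have hK1 : ∀ j, (K1 j).PosSemidef := fun j => by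
    have := (h1 j).add (h j); simpa using this
  induction S using Finset.induction_on with
  | empty =>
    have e : prodK (∅ : Finset ι) K1 - prodK (∅ : Finset ι) K = 0 := by
      ext x y; simp [prodK]
    rw [e]; exact Matrix.PosSemidef.zero
  | insert j S hj ih =>
    have a := (h1 j).hadamard (prod_psd S K1 hK1)
    have b := (h j).hadamard ih
    have e : prodK (insert j S) K1 - prodK (insert j S) K
        = (K1 j - K j) ⊙ prodK S K1 + K j ⊙ (prodK S K1 - prodK S K) := by
      rw [prodK_insert S K hj, prodK_insert S K1 hj]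
      ext x y
      simp only [Matrix.sub_apply, Matrix.add_apply, Matrix.hadamard_apply]
      ring
    rw [e]; exact a.add b

end ker

/-- `tr r • 1 - r` is positive semidefinite -/
lemma trace_sub_psd {X : Type*} [Fintype X] [DecidableEq X] {r : Matrix X X ℂ} (h : r.PosSemidef) :
    (r.trace • (1 : Matrix X X ℂ) - r).PosSemidef := by
  have hU : (h.1.eigenvectorUnitary : Matrix X X ℂ) * star (h.1.eigenvectorUnitary : Matrix X X ℂ) = 1 :=
    Unitary.coe_mul_star_self _
  have h3 := h.1.spectral_theorem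
  rw [Unitary.conjStarAlgAut_apply] at h3
  have e : r.trace • (1 : Matrix X X ℂ) - r = (h.1.eigenvectorUnitary : Matrix X X ℂ)
      * Matrix.diagonal (fun i => r.trace - (h.1.eigenvalues i : ℂ))
      * (h.1.eigenvectorUnitary : Matrix X X ℂ)ᴴ := by
    have h2 : Matrix.diagonal (fun i => r.trace - (h.1.eigenvalues i : ℂ))
        = r.trace • (1 : Matrix X X ℂ) - Matrix.diagonal (RCLike.ofReal ∘ h.1.eigenvalues) := by
      ext i j
      by_cases hij : i = j
      · subst hij; simp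
      · simp [hij]
    rw [h2, Matrix.mul_sub, Matrix.sub_mul, Matrix.mul_smul, Matrix.mul_one, Matrix.smul_mul,
      ← Matrix.star_eq_conjTranspose, hU, ← h3]
  rw [e]
  apply Matrix.PosSemidef.mul_mul_conjTranspose_same
  rw [Matrix.posSemidef_diagonal_iff]
  intro i
  rw [h.1.trace_eq_sum_eigenvalues]
  have h5 : h.1.eigenvalues i ≤ ∑ j, h.1.eigenvalues j :=
    Finset.single_le_sum (fun j _ => h.eigenvalues_nonneg j) (Finset.mem_univ i)
  have h6 : (∑ j, ((h.1.eigenvalues j : ℝ) : ℂ)) = ((∑ j, h.1.eigenvalues j : ℝ) : ℂ) := by push_cast; rfl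
  have h7 : (∑ j, ((h.1.eigenvalues j : ℝ) : ℂ)) - ((h.1.eigenvalues i : ℝ) : ℂ)
      = ((∑ j, h.1.eigenvalues j - h.1.eigenvalues i : ℝ) : ℂ) := by
    rw [h6]; push_cast; rfl
  have : (0 : ℂ) ≤ ((∑ j, h.1.eigenvalues j - h.1.eigenvalues i : ℝ) : ℂ) := by
    exact_mod_cast sub_nonneg.mpr h5
  rw [← h7] at this
  exact this

variable {κ : Type} [Fintype κ] [DecidableEq κ]

/-- the operator kernel carried by the sites outside the set `s` -/
def kerD (Q : Matrix κ κ ℂ) {n : ℕ} (s : Fin n → Bool) : Matrix (Fin n → κ) (Fin n → κ) ℂ :=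
  fun x y => ∏ j, if s j then 1 else Q (x j) (y j)

/-- the matrix depends only on the coordinates in `s` -/
def Loc {n : ℕ} (s : Fin n → Bool) (R : Matrix (Fin n → κ) (Fin n → κ) ℂ) : Prop :=
  ∀ x x' y y', (∀ j, s j = true → x j = x' j) → (∀ j, s j = true → y j = y' j) → R x y = R x' y'

/-- admissible (unnormalised) operators: positive on the sites of `s`, copies of `Q` elsewhere -/
def Adm (Q : Matrix κ κ ℂ) {n : ℕ} (s : Fin n → Bool) (σ : Matrix (Fin n → κ) (Fin n → κ) ℂ) : Prop :=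
  ∃ R : Matrix (Fin n → κ) (Fin n → κ) ℂ, R.PosSemidef ∧ Loc s R ∧ σ = R ⊙ kerD Q s

omit [DecidableEq κ] in
lemma kerD_psd {Q : Matrix κ κ ℂ} (hQ : Q.PosSemidef) {n : ℕ} (s : Fin n → Bool) :
    (kerD Q s).PosSemidef := by
  have h0 : ∀ j, (if s j then onesK (Fin n → κ) else Q.submatrix (fun x : Fin n → κ => x j)
      (fun x : Fin n → κ => x j)).PosSemidef := by
    intro j
    split_ifs
    · exact ones_psd
    · exact hQ.submatrix _
  have h1 := prod_psd (Finset.univ : Finset (Fin n)) _ h0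
  have e : kerD Q s = prodK (Finset.univ : Finset (Fin n)) (fun j => (if s j then onesK (Fin n → κ)
      else Q.submatrix (fun x : Fin n → κ => x j) (fun x : Fin n → κ => x j))) := by
    ext x y
    simp only [kerD, prodK]
    refine Finset.prod_congr rfl fun j _ => ?_
    split_ifs <;> rfl
  rw [e]; exact h1

omit [DecidableEq κ] in
lemma Adm.psd {Q : Matrix κ κ ℂ} (hQ : Q.PosSemidef) {n : ℕ} {s : Fin n → Bool}
    {σ : Matrix (Fin n → κ) (Fin n → κ) ℂ} (h : Adm Q s σ) : σ.PosSemidef := by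
  obtain ⟨R, hR, -, rfl⟩ := h
  exact hR.hadamard (kerD_psd hQ s)

omit [Fintype κ] [DecidableEq κ] in
lemma Adm.add {Q : Matrix κ κ ℂ} {n : ℕ} {s : Fin n → Bool}
    {σ τ : Matrix (Fin n → κ) (Fin n → κ) ℂ} (h : Adm Q s σ) (h' : Adm Q s τ) : Adm Q s (σ + τ) := by
  obtain ⟨R, hR, hl, rfl⟩ := h
  obtain ⟨R', hR', hl', rfl⟩ := h'
  exact ⟨R + R', hR.add hR', fun x x' y y' a b => by
    rw [Matrix.add_apply, Matrix.add_apply, hl x x' y y' a b, hl' x x' y y' a b],
    by rw [Matrix.add_hadamard]⟩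

omit [Fintype κ] [DecidableEq κ] in
lemma Adm.smul {Q : Matrix κ κ ℂ} {n : ℕ} {s : Fin n → Bool}
    {σ : Matrix (Fin n → κ) (Fin n → κ) ℂ} (h : Adm Q s σ) {c : ℝ} (hc : 0 ≤ c) :
    Adm Q s ((c : ℂ) • σ) := by
  obtain ⟨R, hR, hl, rfl⟩ := h
  exact ⟨(c : ℂ) • R, hR.smul (by exact_mod_cast hc), fun x x' y y' a b => by
    rw [Matrix.smul_apply, Matrix.smul_apply, hl x x' y y' a b],
    by rw [Matrix.smul_hadamard]⟩

omit [Fintype κ] [DecidableEq κ] in
lemma Adm.zero {Q : Matrix κ κ ℂ} {n : ℕ} (s : Fin n → Bool) :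
    Adm Q s (0 : Matrix (Fin n → κ) (Fin n → κ) ℂ) :=
  ⟨0, Matrix.PosSemidef.zero, fun _ _ _ _ _ _ => rfl, by rw [Matrix.zero_hadamard]⟩

/-- split off the first site -/
def tl {n : ℕ} (M : Matrix (Fin (n+1) → κ) (Fin (n+1) → κ) ℂ) :
    Matrix (κ × (Fin n → κ)) (κ × (Fin n → κ)) ℂ :=
  M.submatrix (Fin.consEquiv (fun _ => κ)) (Fin.consEquiv (fun _ => κ))

omit [Fintype κ] [DecidableEq κ] in
lemma tl_apply {n : ℕ} (M : Matrix (Fin (n+1) → κ) (Fin (n+1) → κ) ℂ) (p q : κ × (Fin n → κ)) :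
    tl M p q = M (Fin.cons p.1 p.2) (Fin.cons q.1 q.2) := rfl

omit [DecidableEq κ] in
lemma tl_trace {n : ℕ} (M : Matrix (Fin (n+1) → κ) (Fin (n+1) → κ) ℂ) : (tl M).trace = M.trace := by
  rw [Matrix.trace, Matrix.trace]
  exact Equiv.sum_comp (Fin.consEquiv (fun _ => κ)) (fun x => M x x)

omit [Fintype κ] [DecidableEq κ] in
lemma kerD_cons_false (Q : Matrix κ κ ℂ) {n : ℕ} (s : Fin n → Bool) (a b : κ) (x y : Fin n → κ) :
    kerD Q (Fin.cons false s : Fin (n+1) → Bool) (Fin.cons a x) (Fin.cons b y) = Q a b * kerD Q s x y := by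
  simp [kerD, Fin.prod_univ_succ]

omit [Fintype κ] [DecidableEq κ] in
lemma kerD_cons_true (Q : Matrix κ κ ℂ) {n : ℕ} (s : Fin n → Bool) (a b : κ) (x y : Fin n → κ) :
    kerD Q (Fin.cons true s : Fin (n+1) → Bool) (Fin.cons a x) (Fin.cons b y) = kerD Q s x y := by
  simp [kerD, Fin.prod_univ_succ]

omit [Fintype κ] [DecidableEq κ] in
/-- strip a site carrying `Q` -/
lemma Adm.strip {Q : Matrix κ κ ℂ} {n : ℕ} {s : Fin n → Bool} (k0 : κ)
    {σ : Matrix (Fin (n+1) → κ) (Fin (n+1) → κ) ℂ} (h : Adm Q (Fin.cons false s : Fin (n+1) → Bool) σ) :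
    ∃ τ, Adm Q s τ ∧ tl σ = Q ⊗ₖ τ := by
  obtain ⟨R, hR, hl, rfl⟩ := h
  refine ⟨(R.submatrix (fun x => (Fin.cons k0 x : Fin (n+1) → κ)) (fun x => Fin.cons k0 x)) ⊙ kerD Q s,
    ⟨_, hR.submatrix _, ?_, rfl⟩, ?_⟩
  · intro x x' y y' hx hy
    rw [Matrix.submatrix_apply, Matrix.submatrix_apply]
    apply hl
    · intro j hj
      refine Fin.cases ?_ (fun i hi => ?_) j hj
      · simp
      · simpa using hx i (by simpa using hi)
    · intro j hj
      refine Fin.cases ?_ (fun i hi => ?_) j hj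
      · simp
      · simpa using hy i (by simpa using hi)
  · ext ⟨a, x⟩ ⟨b, y⟩
    rw [tl_apply, Matrix.hadamard_apply, Matrix.kroneckerMap_apply, Matrix.hadamard_apply,
      Matrix.submatrix_apply]
    simp only
    rw [kerD_cons_false]
    have : R (Fin.cons a x) (Fin.cons b y) = R (Fin.cons k0 x) (Fin.cons k0 y) := by
      apply hl
      · intro j hj
        refine Fin.cases ?_ (fun i hi => ?_) j hj
        · intro h0; simp at h0
        · simp
      · intro j hj
        refine Fin.cases ?_ (fun i hi => ?_) j hj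
        · intro h0; simp at h0
        · simp
    rw [this]; ring

omit [DecidableEq κ] in
lemma cmp_apply {N : Type*} [Fintype N] [DecidableEq N] (x : κ → ℂ) (C : Matrix (κ × N) (κ × N) ℂ) (i j : N) :
    cmp x C i j = ∑ a, ∑ b, star (x a) * C (a, i) (b, j) * x b := by
  rw [cmp, Matrix.mul_apply, Fintype.sum_prod_type, Finset.sum_comm]
  rw [Finset.sum_eq_single j]
  · rw [Finset.sum_comm]
    refine Finset.sum_congr rfl fun b _ => ?_
    simp only [emb, if_true]
    rw [Matrix.mul_apply, Fintype.sum_prod_type, Finset.sum_mul]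
    refine Finset.sum_congr rfl fun a _ => ?_
    congr 1
    rw [Finset.sum_eq_single i]
    · simp [emb]
    · intro c _ hc; simp [emb, hc]
    · simp
  · intro c _ hc
    apply Finset.sum_eq_zero; intro a _
    simp [emb, hc]
  · simp

/-- contract a site in the set -/
lemma Adm.contract {Q : Matrix κ κ ℂ} {n : ℕ} {s : Fin n → Bool}
    {σ : Matrix (Fin (n+1) → κ) (Fin (n+1) → κ) ℂ} (h : Adm Q (Fin.cons true s : Fin (n+1) → Bool) σ)
    (x : κ → ℂ) : Adm Q s (cmp x (tl σ)) := by
  obtain ⟨R, hR, hl, rfl⟩ := h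
  refine ⟨cmp x (tl R), cmp_psd x (hR.submatrix _), ?_, ?_⟩
  · intro u u' v v' hu hv
    rw [cmp_apply, cmp_apply]
    refine Finset.sum_congr rfl fun a _ => Finset.sum_congr rfl fun b _ => ?_
    rw [tl_apply, tl_apply]
    congr 2
    apply hl
    · intro j hj
      refine Fin.cases ?_ (fun i hi => ?_) j hj
      · simp
      · simpa using hu i (by simpa using hi)
    · intro j hj
      refine Fin.cases ?_ (fun i hi => ?_) j hj
      · simp
      · simpa using hv i (by simpa using hi)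
  · ext u v
    rw [Matrix.hadamard_apply, cmp_apply, cmp_apply, Finset.sum_mul]
    refine Finset.sum_congr rfl fun a _ => ?_
    rw [Finset.sum_mul]
    refine Finset.sum_congr rfl fun b _ => ?_
    rw [tl_apply, tl_apply, Matrix.hadamard_apply]
    simp only
    rw [kerD_cons_true]
    ring

end Run7.h455
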