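import Pool.Agent.Run7.h455.Dsac

set_option autoImplicit false
open Matrix
open scoped ComplexOrder MatrixOrder Kronecker

namespace Run7.h455

variable {κ : Type} [Fintype κ] [DecidableEq κ]

/-- kernel with `P` on the sites of `s` and `Q` elsewhere -/
def al (Q P : Matrix κ κ ℂ) {n : ℕ} (s : Fin n → Bool) : Matrix (Fin n → κ) (Fin n → κ) ℂ :=
  fun x y => ∏ j, if s j then P (x j) (y j) else Q (x j) (y j)

omit [Fintype κ] [DecidableEq κ] in
lemma al_herm {Q P : Matrix κ κ ℂ} (hQ : Q.IsHermitian) (hP : P.IsHermitian) {n : ℕ} (s : Fin n → Bool) :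
    (al Q P s).IsHermitian := by
  ext x y
  rw [Matrix.conjTranspose_apply, al, al, star_prod]
  refine Finset.prod_congr rfl fun j _ => ?_
  split_ifs
  · exact hP.apply _ _
  · exact hQ.apply _ _

omit [Fintype κ] [DecidableEq κ] in
lemma tl_al_false (Q P : Matrix κ κ ℂ) {n : ℕ} (s : Fin n → Bool) :
    tl (al Q P (Fin.cons false s : Fin (n+1) → Bool)) = Q ⊗ₖ al Q P s := by
  ext ⟨a, x⟩ ⟨b, y⟩
  simp [tl_apply, al, Fin.prod_univ_succ, Matrix.kroneckerMap_apply]

omit [Fintype κ] [DecidableEq κ] in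
lemma tl_al_true (Q P : Matrix κ κ ℂ) {n : ℕ} (s : Fin n → Bool) :
    tl (al Q P (Fin.cons true s : Fin (n+1) → Bool)) = P ⊗ₖ al Q P s := by
  ext ⟨a, x⟩ ⟨b, y⟩
  simp [tl_apply, al, Fin.prod_univ_succ, Matrix.kroneckerMap_apply]

/-- the aligned operator has the expected shifted determinant -/
theorem al_dt {Q V P : Matrix κ κ ℂ} {lam : κ → ℝ} {k0 : κ} (hQh : Q.IsHermitian) (hPh : P.IsHermitian)
    (hV : V * star V = 1) (hQ : Q = V * Matrix.diagonal (fun k => (lam k : ℂ)) * star V)
    (hP : P = V * Matrix.diagonal (Pi.single k0 (1:ℂ)) * star V) (t : ℝ) :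
    ∀ (n : ℕ) (μ : (Fin n → Bool) → ℝ),
    dt ((t : ℂ) • (1 : Matrix (Fin n → κ) (Fin n → κ) ℂ) + ∑ s, (μ s : ℂ) • al Q P s)
      = ∏ x, (t + aw lam k0 μ x) := by
  intro n
  induction n with
  | zero =>
    intro μ
    have h1 : ∏ x : Fin 0 → κ, (t + aw lam k0 μ x) = t + μ (fun _ => false) := by
      rw [Fintype.prod_subsingleton _ (fun _ => k0 : Fin 0 → κ), aw,
        Fintype.sum_subsingleton _ (fun _ => false : Fin 0 → Bool), Fintype.prod_empty, mul_one]
    have h2 : dt ((t : ℂ) • (1 : Matrix (Fin 0 → κ) (Fin 0 → κ) ℂ) + ∑ s, (μ s : ℂ) • al Q P s)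
        = t + μ (fun _ => false) := by
      rw [dt, Matrix.det_eq_elem_of_subsingleton _ (fun _ => k0 : Fin 0 → κ),
        Fintype.sum_subsingleton _ (fun _ => false : Fin 0 → Bool), Matrix.add_apply, Complex.add_re,
        Matrix.smul_apply, Matrix.one_apply_eq, Matrix.smul_apply, al, Fintype.prod_empty]
      simp
    rw [h1, h2]
  | succ n ih =>
    intro μ
    have hsum : ∀ ν : (Fin n → Bool) → ℝ, (∑ s, (ν s : ℂ) • al Q P s).IsHermitian := by
      intro ν
      rw [Matrix.IsHermitian, Matrix.conjTranspose_sum]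
      refine Finset.sum_congr rfl fun s _ => ?_
      rw [Matrix.conjTranspose_smul, (al_herm hQh hPh s).eq]; simp
    have htl : tl (∑ s, (μ s : ℂ) • al Q P s)
        = Q ⊗ₖ (∑ s : Fin n → Bool, (μ (Fin.cons false s) : ℂ) • al Q P s)
          + P ⊗ₖ (∑ s : Fin n → Bool, (μ (Fin.cons true s) : ℂ) • al Q P s) := by
      rw [sum_cons, tl_add, tl_sum, tl_sum, add_comm]
      congr 1
      · ext ⟨a, x⟩ ⟨b, y⟩
        rw [Matrix.sum_apply, Matrix.kroneckerMap_apply, Matrix.sum_apply, Finset.mul_sum]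
        refine Finset.sum_congr rfl fun s _ => ?_
        have := congrFun (congrFun (tl_al_false Q P s) (a, x)) (b, y)
        rw [Matrix.kroneckerMap_apply] at this
        rw [tl_apply] at this ⊢
        rw [Matrix.smul_apply, this, Matrix.smul_apply, smul_eq_mul, smul_eq_mul]
        ring
      · ext ⟨a, x⟩ ⟨b, y⟩
        rw [Matrix.sum_apply, Matrix.kroneckerMap_apply, Matrix.sum_apply, Finset.mul_sum]
        refine Finset.sum_congr rfl fun s _ => ?_
        have := congrFun (congrFun (tl_al_true Q P s) (a, x)) (b, y)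
        rw [Matrix.kroneckerMap_apply] at this
        rw [tl_apply] at this ⊢
        rw [Matrix.smul_apply, this, Matrix.smul_apply, smul_eq_mul, smul_eq_mul]
        ring
    rw [tl_shift, htl, ← add_assoc, dt_block hV hQ hP t (hsum _) (hsum _), prod_cons]
    refine Finset.prod_congr rfl fun k _ => ?_
    simp only [aw_cons]
    rw [← ih, add_assoc]
    congr 2
    rw [Finset.smul_sum, Finset.smul_sum, ← Finset.sum_add_distrib]
    refine Finset.sum_congr rfl fun s _ => ?_
    rw [smul_smul, smul_smul, ← add_smul]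
    congr 1
    push_cast
    split_ifs <;> simp

end Run7.h455
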