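import Pool.Agent.Run7.h455.Adm

set_option autoImplicit false
open Matrix
open scoped ComplexOrder MatrixOrder Kronecker

namespace Run7.h455

/-- trace of an operator `ρ ⊗ Q^{⊗ rest}` -/
lemma trace_split {κ ι : Type*} [Fintype κ] [DecidableEq κ] [Fintype ι] [DecidableEq ι]
    (p : ι → Prop) [DecidablePred p] (Q : Matrix κ κ ℂ) (hQ : Q.trace = 1)
    (ρ : Matrix ({j // p j} → κ) ({j // p j} → κ) ℂ) :
    ∑ x : ι → κ, ρ (fun j => x j.1) (fun j => x j.1) * ∏ j, (if p j then 1 else Q (x j) (x j)) = ρ.trace := by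
  have h1 : ∀ x : ι → κ, ∏ j, (if p j then 1 else Q (x j) (x j))
      = ∏ j : {j // ¬ p j}, Q (x j.1) (x j.1) := by
    intro x
    rw [← Fintype.prod_subtype_mul_prod_subtype p]
    have a : ∏ j : {j // p j}, (if p j.1 then 1 else Q (x j.1) (x j.1)) = 1 :=
      Finset.prod_eq_one fun j _ => by simp [j.2]
    rw [a, one_mul]
    exact Finset.prod_congr rfl fun j _ => by simp [j.2]
  simp only [h1]
  rw [← Equiv.sum_comp (Equiv.piEquivPiSubtypeProd p (fun _ => κ)).symm, Fintype.sum_prod_type]
  have h2 : ∀ (f : {j // p j} → κ) (g : {j // ¬ p j} → κ),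
      (ρ (fun j => ((Equiv.piEquivPiSubtypeProd p (fun _ => κ)).symm (f, g)) j.1)
        (fun j => ((Equiv.piEquivPiSubtypeProd p (fun _ => κ)).symm (f, g)) j.1)
        * ∏ j : {j // ¬ p j}, Q (((Equiv.piEquivPiSubtypeProd p (fun _ => κ)).symm (f, g)) j.1)
          (((Equiv.piEquivPiSubtypeProd p (fun _ => κ)).symm (f, g)) j.1))
      = ρ f f * ∏ j : {j // ¬ p j}, Q (g j) (g j) := by
    intro f g
    have a : (fun j : {j // p j} => ((Equiv.piEquivPiSubtypeProd p (fun _ => κ)).symm (f, g)) j.1) = f := by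
      ext j; simp [Equiv.piEquivPiSubtypeProd, j.2]
    rw [a]
    congr 1
    refine Finset.prod_congr rfl fun j _ => ?_
    have b : ((Equiv.piEquivPiSubtypeProd p (fun _ => κ)).symm (f, g)) j.1 = g j := by
      simp [Equiv.piEquivPiSubtypeProd, j.2]
    rw [b]
  simp only [h2]
  have h3 : ∑ g : {j // ¬ p j} → κ, ∏ j : {j // ¬ p j}, Q (g j) (g j) = 1 := by
    have := Finset.prod_univ_sum (fun _ : {j // ¬ p j} => (Finset.univ : Finset κ)) (fun _ a => Q a a)
    rw [Fintype.piFinset_univ] at this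
    rw [← this]
    apply Finset.prod_eq_one
    intro _ _
    exact hQ
  rw [Matrix.trace]
  refine Finset.sum_congr rfl fun f _ => ?_
  rw [← Finset.mul_sum, h3, mul_one]; rfl

variable {κ : Type} [Fintype κ] [DecidableEq κ]

/-- the operator bound weight -/
noncomputable def lamS (c : ℝ) {n : ℕ} (s : Fin n → Bool) : ℝ := ∏ j, if s j then 1 else c

lemma Adm.bound {Q : Matrix κ κ ℂ} (hQ : Q.PosSemidef) (hQ1 : Q.trace = 1) {c : ℝ}
    (hc : ((c : ℂ) • (1 : Matrix κ κ ℂ) - Q).PosSemidef) {n : ℕ} {s : Fin n → Bool} (k0 : κ)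
    {σ : Matrix (Fin n → κ) (Fin n → κ) ℂ} (h : Adm Q s σ) :
    ((σ.trace * (lamS c s : ℂ)) • (1 : Matrix (Fin n → κ) (Fin n → κ) ℂ) - σ).PosSemidef := by
  obtain ⟨R, hR, hl, rfl⟩ := h
  -- the reduced matrix
  set ext : ({j // s j = true} → κ) → (Fin n → κ) := fun f j => if h : s j = true then f ⟨j, h⟩ else k0 with hext
  set ρ := R.submatrix ext ext with hρ
  have hρp : ρ.PosSemidef := hR.submatrix ext
  have hRρ : ∀ x y, R x y = ρ (fun j => x j.1) (fun j => y j.1) := by
    intro x y
    rw [hρ, Matrix.submatrix_apply]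
    apply hl
    · intro j hj; simp [hext, hj]
    · intro j hj; simp [hext, hj]
  -- trace
  have htr : (R ⊙ kerD Q s).trace = ρ.trace := by
    rw [← trace_split (fun j => s j = true) Q hQ1 ρ, Matrix.trace]
    refine Finset.sum_congr rfl fun x _ => ?_
    rw [Matrix.diag_apply, Matrix.hadamard_apply, hRρ]
    rfl
  rw [htr]
  -- kernel comparison
  set Kc : Fin n → Matrix (Fin n → κ) (Fin n → κ) ℂ := fun j => if s j then onesK (Fin n → κ)
    else ((c : ℂ) • (1 : Matrix κ κ ℂ)).submatrix (fun x : Fin n → κ => x j) (fun x : Fin n → κ => x j) with hKc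
  set Kq : Fin n → Matrix (Fin n → κ) (Fin n → κ) ℂ := fun j => if s j then onesK (Fin n → κ)
    else Q.submatrix (fun x : Fin n → κ => x j) (fun x : Fin n → κ => x j) with hKq
  have hKqp : ∀ j, (Kq j).PosSemidef := by
    intro j; simp only [hKq]; split_ifs
    · exact ones_psd
    · exact hQ.submatrix _
  have hKd : ∀ j, (Kc j - Kq j).PosSemidef := by
    intro j; simp only [hKq, hKc]; split_ifs
    · rw [sub_self]; exact Matrix.PosSemidef.zero
    · exact hc.submatrix _
  have hker : kerD Q s = prodK Finset.univ Kq := by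
    ext x y
    simp only [kerD, prodK, hKq]
    refine Finset.prod_congr rfl fun j _ => ?_
    split_ifs <;> rfl
  have h1 := hR.hadamard (prod_psd_mono Finset.univ Kq Kc hKqp hKd)
  -- delta kernel
  set δ : Matrix (Fin n → κ) (Fin n → κ) ℂ := prodK Finset.univ (fun j => if s j then onesK (Fin n → κ)
    else (1 : Matrix κ κ ℂ).submatrix (fun x : Fin n → κ => x j) (fun x : Fin n → κ => x j)) with hδ
  have hδp : δ.PosSemidef := by
    apply prod_psd
    intro j; split_ifs
    · exact ones_psd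
    · exact Matrix.PosSemidef.one.submatrix _
  have hcδ : prodK Finset.univ Kc = (lamS c s : ℂ) • δ := by
    ext x y
    rw [Matrix.smul_apply, hδ]
    simp only [prodK, hKc, lamS, smul_eq_mul]
    rw [Complex.ofReal_prod, ← Finset.prod_mul_distrib]
    refine Finset.prod_congr rfl fun j _ => ?_
    split_ifs
    · simp [onesK]
    · simp [Matrix.submatrix_apply, Matrix.smul_apply]
  have h2 := ((trace_sub_psd hρp).submatrix (fun x : Fin n → κ => (fun j : {j // s j = true} => x j.1))).hadamard hδp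
  have hδ1 : ∀ x y, (1 : Matrix ({j // s j = true} → κ) ({j // s j = true} → κ) ℂ)
      (fun j => x j.1) (fun j => y j.1) * δ x y = (1 : Matrix (Fin n → κ) (Fin n → κ) ℂ) x y := by
    intro x y
    by_cases hxy : x = y
    · subst hxy
      rw [Matrix.one_apply_eq, Matrix.one_apply_eq, one_mul, hδ]
      simp only [prodK]
      apply Finset.prod_eq_one
      intro j _
      split_ifs <;> simp [onesK]
    · rw [Matrix.one_apply_ne hxy]
      obtain ⟨j, hj⟩ := Function.ne_iff.mp hxy
      by_cases hs : s j = true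
      · rw [Matrix.one_apply_ne, zero_mul]
        intro he
        exact hj (congrFun he ⟨j, hs⟩)
      · have : δ x y = 0 := by
          rw [hδ]; simp only [prodK]
          apply Finset.prod_eq_zero (Finset.mem_univ j)
          simp [hs, hj]
        rw [this, mul_zero]
  have e2 : ((ρ.trace • (1 : Matrix ({j // s j = true} → κ) ({j // s j = true} → κ) ℂ) - ρ).submatrix
      (fun x : Fin n → κ => (fun j : {j // s j = true} => x j.1))
      (fun x : Fin n → κ => (fun j : {j // s j = true} => x j.1))) ⊙ δ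
      = ρ.trace • (1 : Matrix (Fin n → κ) (Fin n → κ) ℂ) - R ⊙ δ := by
    ext x y
    rw [Matrix.hadamard_apply, Matrix.submatrix_apply, Matrix.sub_apply, Matrix.sub_apply,
      Matrix.smul_apply, Matrix.smul_apply, Matrix.hadamard_apply, ← hRρ, sub_mul, ← hδ1 x y]
    simp only [smul_eq_mul, mul_assoc]
  rw [e2] at h2
  have hc0 : 0 ≤ c := by
    have a := hc.diag_nonneg (i := k0)
    have b := hQ.diag_nonneg (i := k0)
    rw [Matrix.sub_apply, Matrix.smul_apply, Matrix.one_apply_eq, smul_eq_mul, mul_one] at a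
    have : (0:ℂ) ≤ (c : ℂ) := by
      have := add_nonneg a b
      simpa using this
    exact_mod_cast this
  have hlam : (0:ℂ) ≤ (lamS c s : ℂ) := by
    have : 0 ≤ lamS c s := Finset.prod_nonneg fun j _ => by split_ifs; exact zero_le_one; exact hc0
    exact_mod_cast this
  have h3 := (h2.smul hlam).add h1
  have e3 : (lamS c s : ℂ) • (ρ.trace • (1 : Matrix (Fin n → κ) (Fin n → κ) ℂ) - R ⊙ δ)
      + R ⊙ (prodK Finset.univ Kc - prodK Finset.univ Kq)
      = (ρ.trace * (lamS c s : ℂ)) • (1 : Matrix (Fin n → κ) (Fin n → κ) ℂ) - R ⊙ kerD Q s := by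
    rw [hcδ, ← hker]
    ext x y
    simp only [Matrix.add_apply, Matrix.sub_apply, Matrix.smul_apply, Matrix.hadamard_apply, smul_eq_mul]
    ring
  rw [e3] at h3
  exact h3

end Run7.h455
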