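import Pool.Agent.Run7.h455.Main

set_option autoImplicit false

namespace Run7.h455

/-- the trace of `s` on the coordinates from `k` on -/
def trc {n : ℕ} (k : Fin n) (s : Fin n → Bool) : Fin n → Bool := fun j => if k ≤ j then s j else false

/-- the nontrivial traces at `k` -/
def Tr {n : ℕ} (P : (Fin n → Bool) → Prop) (k : Fin n) : Set (Fin n → Bool) :=
  {u | ∃ s, P s ∧ s k = true ∧ (∃ j, k < j ∧ s j = true) ∧ (∃ j, k < j ∧ s j = false) ∧ u = trc k s}

/-- the elimination condition in terms of traces -/
theorem good_of_tr : ∀ {n : ℕ} {P : (Fin n → Bool) → Prop}, (∀ k, (Tr P k).ncard ≤ 3) → Good n P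
  | 0, _, _ => trivial
  | n + 1, P, h => by
    refine ⟨?_, good_of_tr (P := fun s => P (Fin.cons false s) ∨ P (Fin.cons true s)) ?_⟩
    · refine le_trans ?_ (h 0)
      apply Set.ncard_le_ncard_of_injOn (fun s => (Fin.cons true s : Fin (n+1) → Bool))
      · rintro s ⟨h1, h2, h3⟩
        refine ⟨Fin.cons true s, h1, by simp, ?_, ?_, ?_⟩
        · obtain ⟨j, hj⟩ := Function.ne_iff.mp h2
          refine ⟨j.succ, Fin.succ_pos j, ?_⟩
          simpa using hj
        · obtain ⟨j, hj⟩ := Function.ne_iff.mp h3
          refine ⟨j.succ, Fin.succ_pos j, ?_⟩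
          simpa using hj
        · ext j; simp [trc]
      · intro s _ s' _ hss
        exact (Fin.cons_injective2 hss).2
    · intro k
      refine le_trans ?_ (h k.succ)
      apply Set.ncard_le_ncard_of_injOn (fun s => (Fin.cons false s : Fin (n+1) → Bool))
      · rintro u ⟨s, h1, h2, ⟨j, hj, hj2⟩, ⟨i, hi, hi2⟩, rfl⟩
        have key : ∀ b : Bool, P (Fin.cons b s) → (Fin.cons false (trc k s) : Fin (n+1) → Bool) ∈ Tr P k.succ := by
          intro b hb
          refine ⟨Fin.cons b s, hb, by simpa using h2, ⟨j.succ, by simpa using hj, by simpa using hj2⟩,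
            ⟨i.succ, by simpa using hi, by simpa using hi2⟩, ?_⟩
          ext l
          refine Fin.cases ?_ (fun l => ?_) l
          · have : ¬ (k.succ ≤ (0 : Fin (n+1))) := by
              rw [not_le]; exact Fin.succ_pos k
            simp [trc]
          · simp [trc, Fin.succ_le_succ_iff]
        rcases h1 with h1 | h1
        · exact key _ h1
        · exact key _ h1
      · intro s _ s' _ hss
        exact (Fin.cons_injective2 hss).2

end Run7.h455
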