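import Pool.Agent.Run7.h455.Step2

set_option autoImplicit false
open Matrix
open scoped ComplexOrder MatrixOrder Kronecker

namespace Run7.h455

variable {κ : Type} [Fintype κ] [DecidableEq κ]

section rc
variable {N : Type*} [Fintype N] [DecidableEq N]

lemma RC.add {C D : Matrix (κ × N) (κ × N) ℂ} (h : RC C) (h' : RC D) : RC (C + D) := by
  rw [RC, ptr_add, Matrix.kronecker_add]
  have e : (1 : Matrix κ κ ℂ) ⊗ₖ ptr C + (1 : Matrix κ κ ℂ) ⊗ₖ ptr D - (C + D)
      = ((1 : Matrix κ κ ℂ) ⊗ₖ ptr C - C) + ((1 : Matrix κ κ ℂ) ⊗ₖ ptr D - D) := by abel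
  rw [e]; exact Matrix.PosSemidef.add h h'

lemma RC.zero : RC (0 : Matrix (κ × N) (κ × N) ℂ) := by
  rw [RC, ptr_zero, Matrix.kronecker_zero, sub_zero]; exact Matrix.PosSemidef.zero

lemma RC.sum {ι : Type*} (S : Finset ι) (C : ι → Matrix (κ × N) (κ × N) ℂ) (h : ∀ s ∈ S, RC (C s)) :
    RC (∑ s ∈ S, C s) := by
  classical
  induction S using Finset.induction_on with
  | empty => rw [Finset.sum_empty]; exact RC.zero
  | insert a S ha ih =>
    rw [Finset.sum_insert ha]
    exact (h a (Finset.mem_insert_self a S)).add (ih fun s hs => h s (Finset.mem_insert_of_mem hs))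

lemma ptr_kron (r : Matrix κ κ ℂ) (Z : Matrix N N ℂ) : ptr (r ⊗ₖ Z) = r.trace • Z := by
  ext i j
  simp only [ptr, Matrix.kroneckerMap_apply, Matrix.smul_apply, smul_eq_mul, Matrix.trace, Matrix.diag_apply]
  rw [Finset.sum_mul]

lemma RC.kron {r : Matrix κ κ ℂ} (hr : r.PosSemidef) {Z : Matrix N N ℂ} (hZ : Z.PosSemidef) :
    RC (r ⊗ₖ Z) := by
  rw [RC, ptr_kron, Matrix.kronecker_smul]
  have e : r.trace • ((1 : Matrix κ κ ℂ) ⊗ₖ Z) - r ⊗ₖ Z = (r.trace • (1 : Matrix κ κ ℂ) - r) ⊗ₖ Z := by
    ext ⟨a, i⟩ ⟨b, j⟩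
    simp only [Matrix.sub_apply, Matrix.smul_apply, Matrix.kroneckerMap_apply, smul_eq_mul]
    ring
  rw [e]
  exact (trace_sub_psd hr).kronecker hZ

lemma ptr_eq_cmp (C : Matrix (κ × N) (κ × N) ℂ) :
    ptr C = ∑ a : κ, cmp (Pi.single a (1:ℂ)) C := by
  ext i j
  rw [Matrix.sum_apply, ptr]
  refine Finset.sum_congr rfl fun a _ => ?_
  rw [cmp_apply, Finset.sum_eq_single a]
  · rw [Finset.sum_eq_single a]
    · simp
    · intro b _ hb; simp [hb]
    · simp
  · intro b _ hb
    apply Finset.sum_eq_zero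
    intro c _
    simp [hb]
  · simp

end rc

omit [DecidableEq κ] in
lemma Adm.sum {Q : Matrix κ κ ℂ} {n : ℕ} {s : Fin n → Bool} {ι : Type*} (S : Finset ι)
    (σ : ι → Matrix (Fin n → κ) (Fin n → κ) ℂ) (h : ∀ i ∈ S, Adm Q s (σ i)) : Adm Q s (∑ i ∈ S, σ i) := by
  classical
  induction S using Finset.induction_on with
  | empty => rw [Finset.sum_empty]; exact Adm.zero s
  | insert a S ha ih =>
    rw [Finset.sum_insert ha]
    exact (h a (Finset.mem_insert_self a S)).add (ih fun i hi => h i (Finset.mem_insert_of_mem hi))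

lemma Adm.ptr {Q : Matrix κ κ ℂ} {n : ℕ} {s : Fin n → Bool}
    {σ : Matrix (Fin (n+1) → κ) (Fin (n+1) → κ) ℂ} (h : Adm Q (Fin.cons true s : Fin (n+1) → Bool) σ) :
    Adm Q s (Run7.h455.ptr (tl σ)) := by
  rw [ptr_eq_cmp]
  exact Adm.sum _ _ fun a _ => h.contract _

/-- elimination condition recording which sets may violate the reduction criterion -/
def Good2 : (n : ℕ) → ((Fin n → Bool) → Fin n → Prop) → Prop
  | 0, _ => True
  | n + 1, W => Set.ncard {s : Fin n → Bool | W (Fin.cons true s) 0 ∧ s ≠ (fun _ => false)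
        ∧ s ≠ (fun _ => true)} ≤ 3
      ∧ Good2 n (fun s j => W (Fin.cons false s) j.succ ∨ W (Fin.cons true s) j.succ)

/-- determinant form of spin alignment under the refined elimination condition -/
theorem dsac2 {Q V P : Matrix κ κ ℂ} {lam : κ → ℝ} {k0 : κ} (hQp : Q.PosSemidef) (hQ1 : Q.trace = 1)
    (hV : V * star V = 1) (hQ : Q = V * Matrix.diagonal (fun k => (lam k : ℂ)) * star V)
    (hP : P = V * Matrix.diagonal (Pi.single k0 (1:ℂ)) * star V)
    (hc : (((lam k0 : ℝ) : ℂ) • (1 : Matrix κ κ ℂ) - Q).PosSemidef) (hl : ∀ k, 0 ≤ lam k)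
    {t : ℝ} (ht : 0 < t) : ∀ (n : ℕ)
    (μ : (Fin n → Bool) → ℝ) (σ : (Fin n → Bool) → Matrix (Fin n → κ) (Fin n → κ) ℂ)
    (W : (Fin n → Bool) → Fin n → Prop),
    (∀ s, Adm Q s (σ s)) → (∀ s, (σ s).trace = (μ s : ℂ)) → Good2 n W →
    (∀ s j, s j = true → ¬ W s j → Rd j (σ s)) →
    ∏ x, (t + aw lam k0 μ x) ≤ dt ((t : ℂ) • (1 : Matrix (Fin n → κ) (Fin n → κ) ℂ) + ∑ s, σ s) := by
  classical
  intro n
  induction n with
  | zero =>
    intro μ σ W hσ hμ _ _
    have h1 : ∏ x : Fin 0 → κ, (t + aw lam k0 μ x) = t + μ (fun _ => false) := by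
      rw [Fintype.prod_subsingleton _ (fun _ => k0 : Fin 0 → κ), aw,
        Fintype.sum_subsingleton _ (fun _ => false : Fin 0 → Bool), Fintype.prod_empty, mul_one]
    have h2 : dt ((t : ℂ) • (1 : Matrix (Fin 0 → κ) (Fin 0 → κ) ℂ) + ∑ s, σ s) = t + μ (fun _ => false) := by
      have h3 := congrArg Complex.re (hμ (fun _ => false))
      rw [Matrix.trace, Fintype.sum_subsingleton _ (fun _ => k0 : Fin 0 → κ), Complex.ofReal_re,
        Matrix.diag_apply] at h3
      rw [dt, Matrix.det_eq_elem_of_subsingleton _ (fun _ => k0 : Fin 0 → κ),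
        Fintype.sum_subsingleton _ (fun _ => false : Fin 0 → Bool), Matrix.add_apply, Complex.add_re,
        Matrix.smul_apply, Matrix.one_apply_eq, h3]
      simp
    rw [h1, h2]
  | succ n ih =>
    intro μ σ W hσ hμ hG hR
    apply full_step hQp hQ1 hc hl μ σ hσ hμ ht
    set μ' := Function.update μ (fun _ => true) 0 with hμ'
    set σ' := Function.update σ (fun _ => true) 0 with hσ'
    have hσ'A : ∀ s, Adm Q s (σ' s) := by
      intro s
      by_cases hs : s = (fun _ => true)
      · rw [hs, hσ', Function.update_self]; exact Adm.zero _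
      · rw [hσ', Function.update_of_ne hs]; exact hσ s
    have hμ't : ∀ s, (σ' s).trace = (μ' s : ℂ) := by
      intro s
      by_cases hs : s = (fun _ => true)
      · rw [hs, hσ', hμ', Function.update_self, Function.update_self]; simp
      · rw [hσ', hμ', Function.update_of_ne hs, Function.update_of_ne hs]; exact hμ s
    have hR' : ∀ s j, s j = true → ¬ W s j → Rd j (σ' s) := by
      intro s j h1 h2
      by_cases hs : s = (fun _ => true)
      · rw [hs, hσ', Function.update_self]; exact Rd.zero j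
      · rw [hσ', Function.update_of_ne hs]; exact hR s j h1 h2
    have hfull : μ' (Fin.cons true (fun _ => true)) = 0 := by
      have : (Fin.cons true (fun _ : Fin n => true) : Fin (n+1) → Bool) = (fun _ => true) := by
        ext j; refine Fin.cases ?_ (fun i => ?_) j <;> simp
      rw [this, hμ', Function.update_self]
    clear_value μ' σ'
    obtain ⟨hG1, hG2⟩ := hG
    -- strip
    have hstrip : ∀ s : Fin n → Bool, ∃ τ, Adm Q s τ ∧ tl (σ' (Fin.cons false s)) = Q ⊗ₖ τ :=
      fun s => (hσ'A (Fin.cons false s)).strip k0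
    choose τ hτ1 hτ2 using hstrip
    have hτtr : ∀ s, (τ s).trace = (μ' (Fin.cons false s) : ℂ) := by
      intro s
      have h1 := hμ't (Fin.cons false s)
      rw [← tl_trace, hτ2, Matrix.trace_kronecker, hQ1, one_mul] at h1
      exact h1
    have hτR : ∀ s j, s j = true → ¬ W (Fin.cons false s) j.succ → Rd j (τ s) := by
      intro s j h1 h2
      have h3 := (hR' (Fin.cons false s) j.succ (by simpa using h1) h2).ptr
      rw [hτ2, ptr_kron, hQ1, one_smul] at h3
      exact h3
    obtain ⟨r, hr, hr2⟩ := (hσ'A (Fin.cons true (fun _ => false))).single k0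
    set C : (Fin n → Bool) → Matrix (κ × (Fin n → κ)) (κ × (Fin n → κ)) ℂ :=
      fun s => tl (σ' (Fin.cons true s)) with hCdef
    have hCp : ∀ s, (C s).PosSemidef := fun s => ((hσ'A _).psd hQp).submatrix _
    have hCtr : ∀ s, (C s).trace = (μ' (Fin.cons true s) : ℂ) := fun s => by
      rw [hCdef]; simp only; rw [tl_trace]; exact hμ't _
    set F : Finset (Fin n → Bool) := Finset.univ.filter (fun s => W (Fin.cons true s) 0
      ∧ s ≠ (fun _ => false) ∧ s ≠ (fun _ => true)) with hF
    have hFc : F.card ≤ 3 := by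
      have : (F : Set (Fin n → Bool)) = {s : Fin n → Bool | W (Fin.cons true s) 0 ∧ s ≠ (fun _ => false)
        ∧ s ≠ (fun _ => true)} := by ext s; simp [hF]
      rw [← Set.ncard_coe_finset, this]
      exact hG1
    have hRCs : ∀ s ∈ Fᶜ, RC (C s) := by
      intro s hs
      rw [Finset.mem_compl] at hs
      by_cases h0 : s = (fun _ => false)
      · rw [h0, hCdef]; simp only; rw [hr2]
        exact RC.kron hr (kerD_psd hQp _)
      by_cases h1 : s = (fun _ => true)
      · have : C s = 0 := by
          rw [← (hCp s).trace_eq_zero_iff, hCtr, h1, hfull]; simp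
        rw [this]; exact RC.zero
      have h2 : ¬ W (Fin.cons true s) 0 := by
        intro h
        exact hs (by rw [hF, Finset.mem_filter]; exact ⟨Finset.mem_univ _, h, h0, h1⟩)
      exact (hR' (Fin.cons true s) 0 (by simp) h2).first
    set Cr := ∑ s ∈ Fᶜ, C s with hCr
    have hCrp : Cr.PosSemidef := Matrix.posSemidef_sum _ fun s _ => hCp s
    have hCrR : RC Cr := RC.sum _ _ hRCs
    have hsumC : ∑ s, C s = Cr + ∑ s ∈ F, C s := by
      rw [hCr, Finset.sum_compl_add_sum]
    set B := ∑ s, τ s with hB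
    have hBp : B.PosSemidef := Matrix.posSemidef_sum _ fun s _ => (hτ1 s).psd hQp
    have htot : tl (∑ s, σ' s) = Q ⊗ₖ B + Cr + ∑ s ∈ F, C s := by
      rw [sum_cons, tl_add, tl_sum, tl_sum]
      have e1 : ∑ s, tl (σ' (Fin.cons false s)) = Q ⊗ₖ B := by
        simp only [hτ2]
        ext p q
        simp only [Matrix.sum_apply, Matrix.kroneckerMap_apply, hB, Finset.mul_sum]
      have e2 : ∑ s, tl (σ' (Fin.cons true s)) = Cr + ∑ s ∈ F, C s := by
        have : ∑ s, tl (σ' (Fin.cons true s)) = ∑ s, C s := rfl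
        rw [this, hsumC]
      rw [e1, e2]; abel
    obtain ⟨x, hx1, hx2⟩ := step2 hQp hV hQ hP hc (hl k0) hBp hCrp hCrR F hFc C (fun s _ => hCp s) ht
    rw [tl_shift, htot]
    refine le_trans ?_ hx2
    rw [prod_cons]
    simp only [aw_cons]
    rw [← Finset.prod_erase_mul _ _ (Finset.mem_univ k0)]
    have hn : ∀ s, 0 ≤ μ' s := by
      intro s
      have := ((hσ'A s).psd hQp).trace_nonneg
      rw [hμ't s] at this
      exact_mod_cast this
    have hawn : ∀ k y, 0 ≤ t + aw lam k0 (fun s => lam k * μ' (Fin.cons false s)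
        + (if k = k0 then 1 else 0) * μ' (Fin.cons true s)) y := by
      intro k y
      have : 0 ≤ aw lam k0 (fun s => lam k * μ' (Fin.cons false s)
          + (if k = k0 then 1 else 0) * μ' (Fin.cons true s)) y := by
        apply aw_nonneg lam hl
        intro s
        have := hn (Fin.cons false s)
        have := hn (Fin.cons true s)
        have := hl k
        split_ifs <;> positivity
      positivity
    apply mul_le_mul
    · apply Finset.prod_le_prod
      · intro k hk
        exact Finset.prod_nonneg fun y _ => hawn k y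
      · intro k hk
        have hk0 : k ≠ k0 := Finset.ne_of_mem_erase hk
        have h1 := ih (fun s => lam k * μ' (Fin.cons false s)
          + (if k = k0 then 1 else 0) * μ' (Fin.cons true s)) (fun s => (lam k : ℂ) • τ s)
          (fun s j => W (Fin.cons false s) j.succ ∨ W (Fin.cons true s) j.succ)
          (fun s => (hτ1 s).smul (hl k)) (fun s => by
            rw [Matrix.trace_smul, hτtr, if_neg hk0]; push_cast; simp)
          hG2 (fun s j h1 h2 => by
            push Not at h2
            exact (hτR s j h1 h2.1).smul (hl k))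
        rw [← Finset.smul_sum] at h1
        exact h1
    · set ν : (Fin n → Bool) → ℝ := fun s => lam k0 * μ' (Fin.cons false s)
        + (if k0 = k0 then 1 else 0) * μ' (Fin.cons true s) with hν
      set ω : (Fin n → Bool) → Matrix (Fin n → κ) (Fin n → κ) ℂ := fun s => ((lam k0 : ℝ) : ℂ) • τ s
        + (if s ∈ F then cmp x (C s) else ptr (C s)) with hω
      have hωA : ∀ s, Adm Q s (ω s) := by
        intro s
        refine ((hτ1 s).smul (hl k0)).add ?_
        split_ifs with h
        · exact (hσ'A (Fin.cons true s)).contract x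
        · exact (hσ'A (Fin.cons true s)).ptr
      have hωt : ∀ s, (ω s).trace = (ν s : ℂ) := by
        intro s
        rw [hω, hν]
        simp only [if_true, one_mul]
        rw [Matrix.trace_add, Matrix.trace_smul, hτtr]
        push_cast
        rw [smul_eq_mul]
        congr 1
        by_cases hs : s ∈ F
        · rw [if_pos hs, hx1 s hs, hCtr]
        · rw [if_neg hs, ptr_trace, hCtr]
      have hωR : ∀ s j, s j = true →
          ¬ (W (Fin.cons false s) j.succ ∨ W (Fin.cons true s) j.succ) → Rd j (ω s) := by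
        intro s j h1 h2
        push Not at h2
        refine ((hτR s j h1 h2.1).smul (hl k0)).add ?_
        have h3 := hR' (Fin.cons true s) j.succ (by simpa using h1) h2.2
        split_ifs with h
        · exact h3.cmp x
        · exact h3.ptr
      have h1 := ih ν ω (fun s j => W (Fin.cons false s) j.succ ∨ W (Fin.cons true s) j.succ)
        hωA hωt hG2 hωR
      have hsumω : ∑ s, ω s = ((lam k0 : ℝ) : ℂ) • B + ptr Cr + ∑ s ∈ F, cmp x (C s) := by
        rw [hω]
        simp only
        rw [Finset.sum_add_distrib, ← Finset.smul_sum, ← hB, add_assoc]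
        congr 1
        rw [hCr, ptr_sum, ← Finset.sum_compl_add_sum F]
        congr 1
        · refine Finset.sum_congr rfl fun s hs => ?_
          rw [if_neg (Finset.mem_compl.mp hs)]
        · refine Finset.sum_congr rfl fun s hs => ?_
          rw [if_pos hs]
      rw [hsumω] at h1
      exact h1
    · exact Finset.prod_nonneg fun y _ => hawn k0 y
    · apply Finset.prod_nonneg
      intro k _
      have htc : (0:ℂ) < (t:ℂ) := by exact_mod_cast ht
      have h1 : ((t : ℂ) • (1 : Matrix (Fin n → κ) (Fin n → κ) ℂ)).PosDef := Matrix.PosDef.one.smul htc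
      exact (dt_pos (h1.add_posSemidef (hBp.smul (by exact_mod_cast hl k)))).le

end Run7.h455
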