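import Pool.Agent.Run7.h455.StepS

set_option autoImplicit false
open Matrix
open scoped ComplexOrder MatrixOrder Kronecker

namespace Run7.h455

variable {κ : Type} [Fintype κ] [DecidableEq κ]

/-- partial trace over the sites outside `s` -/
def rdS {n : ℕ} (s : Fin n → Bool) (Ω : Matrix (Fin n → κ) (Fin n → κ) ℂ) :
    Matrix (Fin n → κ) (Fin n → κ) ℂ :=
  fun x y => ∑ z : Fin n → κ, if (∀ j, s j = true → z j = x j) then
    Ω z (fun j => if s j then y j else z j) else 0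

/-- the marginal on the sites of `s` together with `Q` on the other sites -/
def pr (Q : Matrix κ κ ℂ) {n : ℕ} (s : Fin n → Bool) (Ω : Matrix (Fin n → κ) (Fin n → κ) ℂ) :
    Matrix (Fin n → κ) (Fin n → κ) ℂ := rdS s Ω ⊙ kerD Q s

/-- a block -/
def blk {N : Type*} (a b : κ) (C : Matrix (κ × N) (κ × N) ℂ) : Matrix N N ℂ := fun i j => C (a, i) (b, j)

lemma rdS_cons_true {n : ℕ} (s : Fin n → Bool) (Ω : Matrix (Fin (n+1) → κ) (Fin (n+1) → κ) ℂ)
    (a b : κ) (x y : Fin n → κ) :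
    rdS (Fin.cons true s : Fin (n+1) → Bool) Ω (Fin.cons a x) (Fin.cons b y)
      = rdS s (blk a b (tl Ω)) x y := by
  rw [rdS, rdS, sum_consP, Finset.sum_eq_single a]
  · refine Finset.sum_congr rfl fun z _ => ?_
    have h1 : (∀ j, (Fin.cons true s : Fin (n+1) → Bool) j = true →
        (Fin.cons a z : Fin (n+1) → κ) j = (Fin.cons a x : Fin (n+1) → κ) j)
        ↔ (∀ j, s j = true → z j = x j) := by
      rw [Fin.forall_fin_succ]; simp
    have h2 : (fun j => if (Fin.cons true s : Fin (n+1) → Bool) j = true then (Fin.cons b y : Fin (n+1) → κ) j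
        else (Fin.cons a z : Fin (n+1) → κ) j) = Fin.cons b (fun j => if s j = true then y j else z j) := by
      funext j; refine Fin.cases ?_ (fun i => ?_) j <;> simp
    simp only [h1, h2]
    rfl
  · intro c _ hc
    apply Finset.sum_eq_zero
    intro z _
    rw [if_neg]
    intro h
    exact hc (by simpa using h 0 (by simp))
  · simp

lemma rdS_cons_false {n : ℕ} (s : Fin n → Bool) (Ω : Matrix (Fin (n+1) → κ) (Fin (n+1) → κ) ℂ)
    (a b : κ) (x y : Fin n → κ) :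
    rdS (Fin.cons false s : Fin (n+1) → Bool) Ω (Fin.cons a x) (Fin.cons b y)
      = rdS s (ptr (tl Ω)) x y := by
  rw [rdS, rdS, sum_consP, Finset.sum_comm]
  refine Finset.sum_congr rfl fun z _ => ?_
  have h1 : ∀ c : κ, (∀ j, (Fin.cons false s : Fin (n+1) → Bool) j = true →
      (Fin.cons c z : Fin (n+1) → κ) j = (Fin.cons a x : Fin (n+1) → κ) j)
      ↔ (∀ j, s j = true → z j = x j) := by
    intro c; rw [Fin.forall_fin_succ]; simp
  have h2 : ∀ c : κ, (fun j => if (Fin.cons false s : Fin (n+1) → Bool) j = true then (Fin.cons b y : Fin (n+1) → κ) j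
      else (Fin.cons c z : Fin (n+1) → κ) j) = Fin.cons c (fun j => if s j = true then y j else z j) := by
    intro c; funext j; refine Fin.cases ?_ (fun i => ?_) j <;> simp
  simp only [h1, h2]
  split_ifs
  · rfl
  · simp

lemma tl_pr_false {n : ℕ} (Q : Matrix κ κ ℂ) (s : Fin n → Bool)
    (Ω : Matrix (Fin (n+1) → κ) (Fin (n+1) → κ) ℂ) :
    tl (pr Q (Fin.cons false s) Ω) = Q ⊗ₖ pr Q s (ptr (tl Ω)) := by
  ext ⟨a, x⟩ ⟨b, y⟩
  rw [tl_apply, pr, Matrix.hadamard_apply, rdS_cons_false, kerD_cons_false, Matrix.kroneckerMap_apply,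
    pr, Matrix.hadamard_apply]
  ring

lemma tl_pr_true {n : ℕ} (Q : Matrix κ κ ℂ) (s : Fin n → Bool)
    (Ω : Matrix (Fin (n+1) → κ) (Fin (n+1) → κ) ℂ) (a b : κ) (x y : Fin n → κ) :
    tl (pr Q (Fin.cons true s) Ω) (a, x) (b, y) = pr Q s (blk a b (tl Ω)) x y := by
  rw [tl_apply, pr, Matrix.hadamard_apply, rdS_cons_true, kerD_cons_true, pr, Matrix.hadamard_apply]

lemma trace_pr {Q : Matrix κ κ ℂ} (hQ1 : Q.trace = 1) : ∀ (n : ℕ) (s : Fin n → Bool)
    (Ω : Matrix (Fin n → κ) (Fin n → κ) ℂ), (pr Q s Ω).trace = Ω.trace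
  | 0, s, Ω => by
    rw [Matrix.trace, Matrix.trace]
    refine Finset.sum_congr rfl fun x _ => ?_
    rw [Matrix.diag_apply, Matrix.diag_apply, pr, Matrix.hadamard_apply, rdS, kerD,
      Fintype.sum_subsingleton _ x, Fintype.prod_empty, mul_one, if_pos (fun j => j.elim0)]
    congr 1
    exact Subsingleton.elim _ _
  | n + 1, s, Ω => by
    have hs : s = Fin.cons (s 0) (fun j => s j.succ) := (Fin.cons_self_tail s).symm
    rw [hs, ← tl_trace (pr Q _ Ω), ← tl_trace Ω]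
    generalize s 0 = b
    generalize (fun j : Fin n => s j.succ) = s'
    cases b with
    | false => rw [tl_pr_false, Matrix.trace_kronecker, hQ1, one_mul, trace_pr hQ1 n, ptr_trace]
    | true =>
      rw [Matrix.trace, Matrix.trace, Fintype.sum_prod_type, Fintype.sum_prod_type]
      refine Finset.sum_congr rfl fun a _ => ?_
      simp only [Matrix.diag_apply, tl_pr_true]
      exact trace_pr hQ1 n s' (blk a a (tl Ω))

lemma mg_pr {Q : Matrix κ κ ℂ} (hQ1 : Q.trace = 1) {n : ℕ} (s : Fin n → Bool)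
    (Ω : Matrix (Fin (n+1) → κ) (Fin (n+1) → κ) ℂ) :
    mg (tl (pr Q (Fin.cons true s) Ω)) = mg (tl Ω) := by
  ext a b
  rw [mg, mg]
  simp only [tl_pr_true]
  exact trace_pr hQ1 n s (blk a b (tl Ω))

lemma pr_add (Q : Matrix κ κ ℂ) {n : ℕ} (s : Fin n → Bool) (Ω Ω' : Matrix (Fin n → κ) (Fin n → κ) ℂ) :
    pr Q s (Ω + Ω') = pr Q s Ω + pr Q s Ω' := by
  have h : rdS s (Ω + Ω') = rdS s Ω + rdS s Ω' := by
    ext x y
    simp only [rdS, Matrix.add_apply]
    rw [← Finset.sum_add_distrib]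
    refine Finset.sum_congr rfl fun z _ => ?_
    split_ifs <;> simp
  rw [pr, h, Matrix.add_hadamard]; rfl

lemma pr_smul (Q : Matrix κ κ ℂ) {n : ℕ} (s : Fin n → Bool) (c : ℂ) (Ω : Matrix (Fin n → κ) (Fin n → κ) ℂ) :
    pr Q s (c • Ω) = c • pr Q s Ω := by
  have h : rdS s (c • Ω) = c • rdS s Ω := by
    ext x y
    simp only [rdS, Matrix.smul_apply, smul_eq_mul, Finset.mul_sum]
    refine Finset.sum_congr rfl fun z _ => ?_
    split_ifs <;> simp
  rw [pr, h, Matrix.smul_hadamard]; rfl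

lemma pr_zero (Q : Matrix κ κ ℂ) {n : ℕ} (s : Fin n → Bool) : pr Q s 0 = 0 := by
  have := pr_smul Q s 0 (0 : Matrix (Fin n → κ) (Fin n → κ) ℂ)
  rwa [smul_zero, zero_smul] at this

lemma pr_sum (Q : Matrix κ κ ℂ) {n : ℕ} (s : Fin n → Bool) {ι : Type*} (S : Finset ι)
    (Ω : ι → Matrix (Fin n → κ) (Fin n → κ) ℂ) : pr Q s (∑ i ∈ S, Ω i) = ∑ i ∈ S, pr Q s (Ω i) := by
  classical
  induction S using Finset.induction_on with
  | empty => rw [Finset.sum_empty, Finset.sum_empty, pr_zero]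
  | insert a S ha ih => rw [Finset.sum_insert ha, Finset.sum_insert ha, pr_add, ih]

lemma cmp_blk {N : Type*} [Fintype N] [DecidableEq N] (x : κ → ℂ) (C : Matrix (κ × N) (κ × N) ℂ) :
    cmp x C = ∑ a, ∑ b, (star (x a) * x b) • blk a b C := by
  ext i j
  rw [cmp_apply, Matrix.sum_apply]
  refine Finset.sum_congr rfl fun a _ => ?_
  rw [Matrix.sum_apply]
  refine Finset.sum_congr rfl fun b _ => ?_
  rw [Matrix.smul_apply, smul_eq_mul]
  show star (x a) * C (a, i) (b, j) * x b = star (x a) * x b * C (a, i) (b, j)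
  ring

lemma cmp_pr (Q : Matrix κ κ ℂ) {n : ℕ} (s : Fin n → Bool)
    (Ω : Matrix (Fin (n+1) → κ) (Fin (n+1) → κ) ℂ) (x : κ → ℂ) :
    cmp x (tl (pr Q (Fin.cons true s) Ω)) = pr Q s (cmp x (tl Ω)) := by
  rw [cmp_blk, cmp_blk, pr_sum]
  refine Finset.sum_congr rfl fun a _ => ?_
  rw [pr_sum]
  refine Finset.sum_congr rfl fun b _ => ?_
  rw [pr_smul]
  congr 1
  ext i j
  exact tl_pr_true Q s Ω a b i j

lemma mg_add {N : Type*} [Fintype N] (C D : Matrix (κ × N) (κ × N) ℂ) : mg (C + D) = mg C + mg D := by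
  ext a b; simp [mg, Finset.sum_add_distrib]

lemma mg_smul {N : Type*} [Fintype N] (c : ℂ) (C : Matrix (κ × N) (κ × N) ℂ) : mg (c • C) = c • mg C := by
  ext a b; simp [mg, Finset.mul_sum]

lemma mg_sum {N : Type*} [Fintype N] {ι : Type*} (S : Finset ι) (C : ι → Matrix (κ × N) (κ × N) ℂ) :
    mg (∑ i ∈ S, C i) = ∑ i ∈ S, mg (C i) := by
  ext a b
  simp only [mg, Matrix.sum_apply]
  rw [Finset.sum_comm]

/-- cut condition on the weights -/
def GoodC : (n : ℕ) → (ℋ : Type) → (ℋ → (Fin n → Bool) → ℝ) → Prop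
  | 0, _, _ => True
  | n + 1, ℋ, ν => Module.finrank ℝ (Submodule.span ℝ {c : ℋ → ℝ | ∃ s : Fin n → Bool,
        s ≠ (fun _ => false) ∧ s ≠ (fun _ => true) ∧ c = fun H => ν H (Fin.cons true s)}) ≤ 3
      ∧ GoodC n (ℋ × Bool) (fun H s => ν H.1 (Fin.cons H.2 s))

end Run7.h455
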