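import Pool.Agent.Run7.h455.Dsac3

set_option autoImplicit false
open Matrix
open scoped ComplexOrder MatrixOrder Kronecker

namespace Run7.h455

section pt
variable {κ : Type} {N : Type*} [Fintype κ] [DecidableEq κ] [Fintype N] [DecidableEq N]

/-- an operator supported on one vector of an orthonormal basis of the first factor -/
lemma point_mass {e : Matrix κ κ ℂ} (he : e * star e = 1) {C : Matrix (κ × N) (κ × N) ℂ}
    (hC : C.PosSemidef) (b : κ) (h : ∀ a, a ≠ b → cmp (e a) C = 0) :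
    RC C ∧ ptr C = cmp (e b) C := by
  have hp : ptr C = cmp (e b) C := by
    rw [← sum_cmp_row he C, Finset.sum_eq_single b]
    · intro a _ ha; exact h a ha
    · simp
  refine ⟨?_, hp⟩
  obtain ⟨y, hy⟩ := posSemidef_exists hC
  have h0 : ∀ a, a ≠ b → C * emb N (e a) = 0 := by
    intro a ha
    have h1 := h a ha
    have h2 : (y * emb N (e a))ᴴ * (y * emb N (e a)) = 0 := by
      rw [← h1, cmp, hy, Matrix.conjTranspose_mul, Matrix.star_eq_conjTranspose]
      simp only [Matrix.mul_assoc]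
    rw [Matrix.conjTranspose_mul_self_eq_zero] at h2
    rw [hy, Matrix.mul_assoc, h2, Matrix.mul_zero]
  have hres : ∑ k : κ, emb N (e k) * (emb N (e k))ᴴ = 1 := by
    have h1 := sum_emb_row (N := N) he 1
    rw [Matrix.one_kronecker_one] at h1
    rw [← h1]
    exact Finset.sum_congr rfl fun k _ => by rw [Matrix.mul_one]
  have h1 : C = C * (emb N (e b) * (emb N (e b))ᴴ) := by
    conv_lhs => rw [← Matrix.mul_one C, ← hres, Matrix.mul_sum]
    rw [Finset.sum_eq_single b]
    · intro a _ ha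
      rw [← Matrix.mul_assoc, h0 a ha, Matrix.zero_mul]
    · simp
  have h2 : C = (emb N (e b) * (emb N (e b))ᴴ) * C := by
    have h3 := congrArg Matrix.conjTranspose h1
    rw [Matrix.conjTranspose_mul, Matrix.conjTranspose_mul, Matrix.conjTranspose_conjTranspose,
      hC.1.eq] at h3
    exact h3
  have h4 : C = emb N (e b) * cmp (e b) C * (emb N (e b))ᴴ := by
    conv_lhs => rw [h2, h1]
    rw [cmp]; simp only [Matrix.mul_assoc]
  have h5 : C = Matrix.vecMulVec (e b) (star (e b)) ⊗ₖ cmp (e b) C := by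
    conv_lhs => rw [h4]
    ext ⟨a, i⟩ ⟨c, j⟩
    rw [Matrix.kroneckerMap_apply, Matrix.vecMulVec_apply, Pi.star_apply]
    simp only [Matrix.mul_apply, emb, Matrix.conjTranspose_apply, ite_mul, zero_mul,
      Finset.sum_ite_eq, Finset.mem_univ, if_true]
    simp only [apply_ite star, star_zero, mul_ite, mul_zero,
      Finset.sum_ite_eq, Finset.mem_univ, if_true]
    ring
  rw [h5]
  exact RC.kron (Matrix.posSemidef_vecMulVec_self_star _) (cmp_psd _ hC)

end pt

variable {κ : Type} [Fintype κ] [DecidableEq κ]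

/-- diagonal entry in a product basis -/
def rd {n : ℕ} (e : Fin n → Matrix κ κ ℂ) (σ : Matrix (Fin n → κ) (Fin n → κ) ℂ)
    (x : Fin n → κ) : ℂ :=
  ∑ u, ∑ v, (∏ j, star (e j (x j) (u j))) * σ u v * ∏ j, e j (x j) (v j)

omit [DecidableEq κ] in
lemma sum_consK {M : Type*} [AddCommMonoid M] {n : ℕ} (f : (Fin (n+1) → κ) → M) :
    ∑ x, f x = ∑ k : κ, ∑ x : Fin n → κ, f (Fin.cons k x) := by
  rw [← Equiv.sum_comp (Fin.consEquiv (fun _ => κ)) f, Fintype.sum_prod_type]
  rfl

lemma rd_cons {n : ℕ} (e : Fin (n+1) → Matrix κ κ ℂ)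
    (σ : Matrix (Fin (n+1) → κ) (Fin (n+1) → κ) ℂ) (a : κ) (x : Fin n → κ) :
    rd e σ (Fin.cons a x) = rd (fun j => e j.succ) (cmp (e 0 a) (tl σ)) x := by
  have h1 : rd (fun j => e j.succ) (cmp (e 0 a) (tl σ)) x
      = ∑ u : Fin n → κ, ∑ v : Fin n → κ, ∑ b, ∑ c, (∏ j, star (e j.succ (x j) (u j)))
        * (star (e 0 a b) * σ (Fin.cons b u) (Fin.cons c v) * e 0 a c)
        * ∏ j, e j.succ (x j) (v j) := by
    rw [rd]
    refine Finset.sum_congr rfl fun u _ => Finset.sum_congr rfl fun v _ => ?_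
    rw [cmp_apply, Finset.mul_sum, Finset.sum_mul]
    refine Finset.sum_congr rfl fun b _ => ?_
    rw [Finset.mul_sum, Finset.sum_mul]
    refine Finset.sum_congr rfl fun c _ => ?_
    rw [tl_apply]
  rw [h1, rd, sum_consK]
  rw [Finset.sum_comm]
  refine Finset.sum_congr rfl fun u _ => ?_
  have h2 : ∀ b : κ, ∑ v : Fin (n+1) → κ, (∏ j, star (e j ((Fin.cons a x : Fin (n+1) → κ) j)
        ((Fin.cons b u : Fin (n+1) → κ) j))) * σ (Fin.cons b u) v
        * ∏ j, e j ((Fin.cons a x : Fin (n+1) → κ) j) (v j)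
      = ∑ v : Fin n → κ, ∑ c, (∏ j, star (e j.succ (x j) (u j)))
        * (star (e 0 a b) * σ (Fin.cons b u) (Fin.cons c v) * e 0 a c)
        * ∏ j, e j.succ (x j) (v j) := by
    intro b
    rw [sum_consK, Finset.sum_comm]
    refine Finset.sum_congr rfl fun v _ => Finset.sum_congr rfl fun c _ => ?_
    rw [Fin.prod_univ_succ, Fin.prod_univ_succ]
    simp only [Fin.cons_zero, Fin.cons_succ]
    ring
  simp only [h2]
  rw [Finset.sum_comm]

lemma rd_ptr {n : ℕ} (e : Fin (n+1) → Matrix κ κ ℂ) (he : e 0 * star (e 0) = 1)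
    (σ : Matrix (Fin (n+1) → κ) (Fin (n+1) → κ) ℂ) (x : Fin n → κ) :
    ∑ a, rd e σ (Fin.cons a x) = rd (fun j => e j.succ) (ptr (tl σ)) x := by
  simp only [rd_cons]
  rw [← sum_cmp_row he (tl σ)]
  simp only [rd]
  rw [Finset.sum_comm]
  refine Finset.sum_congr rfl fun u _ => ?_
  rw [Finset.sum_comm]
  refine Finset.sum_congr rfl fun v _ => ?_
  rw [Matrix.sum_apply, Finset.mul_sum, Finset.sum_mul]

lemma rd_trace : ∀ {n : ℕ} (e : Fin n → Matrix κ κ ℂ), (∀ j, e j * star (e j) = 1) →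
    ∀ (σ : Matrix (Fin n → κ) (Fin n → κ) ℂ), ∑ x, rd e σ x = σ.trace
  | 0, e, _, σ => by
    rw [Matrix.trace]
    refine Finset.sum_congr rfl fun x _ => ?_
    rw [rd, Fintype.sum_subsingleton _ x, Fintype.sum_subsingleton _ x]
    simp
  | n + 1, e, he, σ => by
    rw [sum_consK, Finset.sum_comm]
    simp only [rd_ptr e (he 0)]
    rw [rd_trace (fun j => e j.succ) (fun j => he j.succ), ptr_trace, tl_trace]

/-- diagonal weights in a product basis: the earlier sites of `s` are fixed by `y`, the site `k` is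
fixed to `a` -/
def wt {n : ℕ} (e : Fin n → Matrix κ κ ℂ) (s : Fin n → Bool)
    (σ : Matrix (Fin n → κ) (Fin n → κ) ℂ) (k : Fin n) (y : Fin n → κ) (a : κ) : ℂ :=
  ∑ x : Fin n → κ, if (∀ j, j < k → s j = true → x j = y j) ∧ x k = a then rd e σ x else 0

lemma wt_zero {n : ℕ} (e : Fin (n+1) → Matrix κ κ ℂ) (he : ∀ j, e j * star (e j) = 1)
    (s : Fin (n+1) → Bool) (σ : Matrix (Fin (n+1) → κ) (Fin (n+1) → κ) ℂ) (y : Fin (n+1) → κ) (a : κ) :
    wt e s σ 0 y a = (cmp (e 0 a) (tl σ)).trace := by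
  rw [wt, sum_consK, Finset.sum_eq_single a]
  · rw [← rd_trace (fun j => e j.succ) (fun j => he j.succ)]
    refine Finset.sum_congr rfl fun x _ => ?_
    rw [if_pos ⟨fun j hj => absurd hj (Fin.not_lt_zero j), by simp⟩, rd_cons]
  · intro b _ hb
    refine Finset.sum_eq_zero fun x _ => ?_
    rw [if_neg]
    rintro ⟨-, h⟩
    exact hb (by simpa using h)
  · simp

lemma wt_true {n : ℕ} (e : Fin (n+1) → Matrix κ κ ℂ)
    (u : Fin n → Bool) (σ : Matrix (Fin (n+1) → κ) (Fin (n+1) → κ) ℂ) (k : Fin n) (y : Fin n → κ)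
    (a0 a : κ) :
    wt e (Fin.cons true u : Fin (n+1) → Bool) σ k.succ (Fin.cons a0 y) a
      = wt (fun j => e j.succ) u (cmp (e 0 a0) (tl σ)) k y a := by
  rw [wt, sum_consK, Finset.sum_eq_single a0]
  · rw [wt]
    refine Finset.sum_congr rfl fun x _ => ?_
    have h : ((∀ j : Fin (n+1), j < k.succ → (Fin.cons true u : Fin (n+1) → Bool) j = true →
          (Fin.cons a0 x : Fin (n+1) → κ) j = (Fin.cons a0 y : Fin (n+1) → κ) j) ∧
          (Fin.cons a0 x : Fin (n+1) → κ) k.succ = a)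
        ↔ ((∀ j, j < k → u j = true → x j = y j) ∧ x k = a) := by
      constructor
      · rintro ⟨h1, h2⟩
        refine ⟨fun j hj hu => ?_, by simpa using h2⟩
        have := h1 j.succ (Fin.succ_lt_succ_iff.mpr hj) (by simpa using hu)
        simpa using this
      · rintro ⟨h1, h2⟩
        refine ⟨fun j => ?_, by simpa using h2⟩
        refine Fin.cases ?_ (fun i => ?_) j
        · intro _ _; simp
        · intro hi hu
          have := h1 i (Fin.succ_lt_succ_iff.mp hi) (by simpa using hu)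
          simpa using this
    rw [rd_cons]
    by_cases hc : (∀ j, j < k → u j = true → x j = y j) ∧ x k = a
    · rw [if_pos (h.mpr hc), if_pos hc]
    · rw [if_neg (fun h' => hc (h.mp h')), if_neg hc]
  · intro b _ hb
    refine Finset.sum_eq_zero fun x _ => ?_
    rw [if_neg]
    rintro ⟨h, -⟩
    have := h 0 (Fin.succ_pos k) (by simp)
    exact hb (by simpa using this)
  · simp

lemma wt_false {n : ℕ} (e : Fin (n+1) → Matrix κ κ ℂ) (he : ∀ j, e j * star (e j) = 1)
    (u : Fin n → Bool) (σ : Matrix (Fin (n+1) → κ) (Fin (n+1) → κ) ℂ) (k : Fin n) (y : Fin n → κ)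
    (a0 a : κ) :
    wt e (Fin.cons false u : Fin (n+1) → Bool) σ k.succ (Fin.cons a0 y) a
      = wt (fun j => e j.succ) u (ptr (tl σ)) k y a := by
  rw [wt, sum_consK, Finset.sum_comm, wt]
  refine Finset.sum_congr rfl fun x _ => ?_
  have h : ∀ b : κ, ((∀ j : Fin (n+1), j < k.succ → (Fin.cons false u : Fin (n+1) → Bool) j = true →
        (Fin.cons b x : Fin (n+1) → κ) j = (Fin.cons a0 y : Fin (n+1) → κ) j) ∧
        (Fin.cons b x : Fin (n+1) → κ) k.succ = a)
      ↔ ((∀ j, j < k → u j = true → x j = y j) ∧ x k = a) := by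
    intro b
    constructor
    · rintro ⟨h1, h2⟩
      refine ⟨fun j hj hu => ?_, by simpa using h2⟩
      have := h1 j.succ (Fin.succ_lt_succ_iff.mpr hj) (by simpa using hu)
      simpa using this
    · rintro ⟨h1, h2⟩
      refine ⟨fun j => ?_, by simpa using h2⟩
      refine Fin.cases ?_ (fun i => ?_) j
      · intro _ h0; simp at h0
      · intro hi hu
        have := h1 i (Fin.succ_lt_succ_iff.mp hi) (by simpa using hu)
        simpa using this
  rw [← rd_ptr e (he 0)]
  by_cases hc : (∀ j, j < k → u j = true → x j = y j) ∧ x k = a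
  · rw [if_pos hc]
    exact Finset.sum_congr rfl fun b _ => by rw [if_pos ((h b).mpr hc)]
  · rw [if_neg hc]
    exact Finset.sum_eq_zero fun b _ => by rw [if_neg (fun h' => hc ((h b).mp h'))]

/-- at each of the first `m` sites of `s` the diagonal weights are proportional to `p` or a point
mass -/
def FD {n : ℕ} (m : ℕ) (e : Fin n → Matrix κ κ ℂ) (p : Fin n → κ → ℝ) (s : Fin n → Bool)
    (σ : Matrix (Fin n → κ) (Fin n → κ) ℂ) : Prop :=
  ∀ k : Fin n, (k : ℕ) < m → s k = true → (∃ j, k < j ∧ s j = true) → (∃ j, k < j ∧ s j = false) →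
    ∀ y, (∀ a, wt e s σ k y a = (p k a : ℂ) * ∑ b, wt e s σ k y b) ∨
      ∃ b, ∀ a, a ≠ b → wt e s σ k y a = 0

/-- the reduction criterion at each of the first `m` sites of `s` -/
def FR {n : ℕ} (m : ℕ) (s : Fin n → Bool) (σ : Matrix (Fin n → κ) (Fin n → κ) ℂ) : Prop :=
  ∀ k : Fin n, (k : ℕ) < m → s k = true → (∃ j, k < j ∧ s j = true) → (∃ j, k < j ∧ s j = false) →
    Rd k σ

omit [Fintype κ] [DecidableEq κ] in
lemma exists_cons {n : ℕ} {s : Fin (n+1) → Bool} {b : Bool} (h : s 0 = b) :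
    ∃ u : Fin n → Bool, s = Fin.cons b u :=
  ⟨fun j => s j.succ, by
    ext j
    refine Fin.cases ?_ (fun i => ?_) j
    · simp [h]
    · simp⟩

lemma strip_ptr {Q : Matrix κ κ ℂ} (hQ1 : Q.trace = 1) (k0 : κ) {n : ℕ} {u : Fin n → Bool}
    {σ : Matrix (Fin (n+1) → κ) (Fin (n+1) → κ) ℂ}
    (h : Adm Q (Fin.cons false u : Fin (n+1) → Bool) σ) : Adm Q u (ptr (tl σ)) := by
  obtain ⟨τ, h1, h2⟩ := h.strip k0
  rw [h2, ptr_kron, hQ1, one_smul]
  exact h1

lemma tail_facts {n : ℕ} {u : Fin n → Bool}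
    (hu : u ≠ fun _ => false) (hfull : (Fin.cons true u : Fin (n+1) → Bool) ≠ fun _ => true) :
    (∃ j : Fin (n+1), 0 < j ∧ (Fin.cons true u : Fin (n+1) → Bool) j = true) ∧
    (∃ j : Fin (n+1), 0 < j ∧ (Fin.cons true u : Fin (n+1) → Bool) j = false) := by
  constructor
  · obtain ⟨j, hj⟩ := Function.ne_iff.mp hu
    exact ⟨j.succ, Fin.succ_pos j, by simpa using hj⟩
  · obtain ⟨j, hj⟩ := Function.ne_iff.mp hfull
    refine ⟨j, ?_, by simpa using hj⟩
    rcases Fin.eq_zero_or_eq_succ j with h0 | ⟨i, rfl⟩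
    · subst h0; simp at hj
    · exact Fin.succ_pos i

theorem cls_of_flat {Q : Matrix κ κ ℂ} (hQp : Q.PosSemidef) (hQ1 : Q.trace = 1) (k0 : κ) :
    ∀ (m n : ℕ) (e : Fin n → Matrix κ κ ℂ) (p : Fin n → κ → ℝ)
    (W : (Fin n → Bool) → Fin n → Prop) (s : Fin n → Bool)
    (σ : Matrix (Fin n → κ) (Fin n → κ) ℂ), (∀ j, e j * star (e j) = 1) → Adm Q s σ →
    FD m e p s σ → (∀ j, s j = true → ¬ W s j → Rd j σ) → Cls Q m n e p W s σ
  | 0, _, _, _, _, _, _ => fun _ _ _ h => h
  | _ + 1, 0, _, _, _, _, _ => fun _ _ _ _ => trivial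
  | m + 1, n + 1, e, p, W, s, σ => by
    intro he hA hF hR
    refine ⟨fun h0 hfull => ?_, fun h0 => ?_⟩
    · obtain ⟨u, rfl⟩ := exists_cons h0
      by_cases hu : u = fun _ => false
      · subst hu
        obtain ⟨r, hr, hr2⟩ := hA.single k0
        refine ⟨σ, 0, by rw [add_zero], hA, Adm.zero _, ?_, ?_, ?_, ?_⟩
        · rw [hr2]; exact RC.kron hr (kerD_psd hQp _)
        · exact Cls.bot Q m n _ _ _ _
        · intro a; rw [tl_zero, cmp_zero]; simp
        · intro a; rw [tl_zero, cmp_zero]; exact Cls.zero Q m n _ _ _ _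
      · obtain ⟨t1, t2⟩ := tail_facts hu hfull
        have hC : (tl σ).PosSemidef := (hA.psd hQp).submatrix _
        have hnext : ∀ a, Cls Q m n (fun j => e j.succ) (fun j => p j.succ) (nx W) u
            (cmp (e 0 a) (tl σ)) := by
          intro a
          apply cls_of_flat hQp hQ1 k0 m n _ _ _ _ _ (fun j => he j.succ) (hA.contract (e 0 a))
          · intro k hk hk1 hk2 hk3 y
            have h3 := hF k.succ (by simpa using hk) (by simpa using hk1)
              (by obtain ⟨j, hj, hj2⟩ := hk2; exact ⟨j.succ, Fin.succ_lt_succ_iff.mpr hj, by simpa using hj2⟩)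
              (by obtain ⟨j, hj, hj2⟩ := hk3; exact ⟨j.succ, Fin.succ_lt_succ_iff.mpr hj, by simpa using hj2⟩)
              (Fin.cons a y)
            simp only [wt_true] at h3
            exact h3
          · intro j hj hw
            exact (hR j.succ (by simpa using hj) (fun h => hw (Or.inr h))).cmp (e 0 a)
        rcases hF 0 (Nat.succ_pos m) (by simp) t1 t2 (fun _ => k0) with hp | ⟨b, hb⟩
        · simp only [wt_zero e he] at hp
          refine ⟨0, σ, by rw [zero_add], Adm.zero _, hA, ?_, ?_, ?_, hnext⟩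
          · rw [tl_zero]; exact RC.zero
          · rw [tl_zero, ptr_zero]; exact Cls.zero Q m n _ _ _ _
          · intro a
            rw [hp a]
            congr 1
            rw [← Matrix.trace_sum, sum_cmp_row (he 0), ptr_trace, tl_trace]
        · simp only [wt_zero e he] at hb
          have h6 : ∀ a, a ≠ b → cmp (e 0 a) (tl σ) = 0 := by
            intro a ha
            rw [← (cmp_psd _ hC).trace_eq_zero_iff]
            exact hb a ha
          obtain ⟨h7, h8⟩ := point_mass (he 0) hC b h6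
          refine ⟨σ, 0, by rw [add_zero], hA, Adm.zero _, h7, ?_, ?_, ?_⟩
          · rw [h8]; exact hnext b
          · intro a; rw [tl_zero, cmp_zero]; simp
          · intro a; rw [tl_zero, cmp_zero]; exact Cls.zero Q m n _ _ _ _
    · obtain ⟨u, rfl⟩ := exists_cons h0
      apply cls_of_flat hQp hQ1 k0 m n _ _ _ _ _ (fun j => he j.succ) (strip_ptr hQ1 k0 hA)
      · intro k hk hk1 hk2 hk3 y
        have h3 := hF k.succ (by simpa using hk) (by simpa using hk1)
          (by obtain ⟨j, hj, hj2⟩ := hk2; exact ⟨j.succ, Fin.succ_lt_succ_iff.mpr hj, by simpa using hj2⟩)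
          (by obtain ⟨j, hj, hj2⟩ := hk3; exact ⟨j.succ, Fin.succ_lt_succ_iff.mpr hj, by simpa using hj2⟩)
          (Fin.cons k0 y)
        simp only [wt_false e he] at h3
        exact h3
      · intro j hj hw
        exact (hR j.succ (by simpa using hj) (fun h => hw (Or.inl h))).ptr

theorem cls_of_red {Q : Matrix κ κ ℂ} (hQp : Q.PosSemidef) (hQ1 : Q.trace = 1) (k0 : κ) :
    ∀ (m n : ℕ) (e : Fin n → Matrix κ κ ℂ) (p : Fin n → κ → ℝ)
    (W : (Fin n → Bool) → Fin n → Prop) (s : Fin n → Bool)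
    (σ : Matrix (Fin n → κ) (Fin n → κ) ℂ), Adm Q s σ →
    FR m s σ → (∀ j, s j = true → ¬ W s j → Rd j σ) → Cls Q m n e p W s σ
  | 0, _, _, _, _, _, _ => fun _ _ h => h
  | _ + 1, 0, _, _, _, _, _ => fun _ _ _ => trivial
  | m + 1, n + 1, e, p, W, s, σ => by
    intro hA hF hR
    refine ⟨fun h0 hfull => ?_, fun h0 => ?_⟩
    · obtain ⟨u, rfl⟩ := exists_cons h0
      by_cases hu : u = fun _ => false
      · subst hu
        obtain ⟨r, hr, hr2⟩ := hA.single k0
        refine ⟨σ, 0, by rw [add_zero], hA, Adm.zero _, ?_, ?_, ?_, ?_⟩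
        · rw [hr2]; exact RC.kron hr (kerD_psd hQp _)
        · exact Cls.bot Q m n _ _ _ _
        · intro a; rw [tl_zero, cmp_zero]; simp
        · intro a; rw [tl_zero, cmp_zero]; exact Cls.zero Q m n _ _ _ _
      · obtain ⟨t1, t2⟩ := tail_facts hu hfull
        refine ⟨σ, 0, by rw [add_zero], hA, Adm.zero _,
          (hF 0 (Nat.succ_pos m) (by simp) t1 t2).first, ?_, ?_, ?_⟩
        · apply cls_of_red hQp hQ1 k0 m n _ _ _ _ _ hA.ptr
          · intro k hk hk1 hk2 hk3
            exact (hF k.succ (by simpa using hk) (by simpa using hk1)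
              (by obtain ⟨j, hj, hj2⟩ := hk2; exact ⟨j.succ, Fin.succ_lt_succ_iff.mpr hj, by simpa using hj2⟩)
              (by obtain ⟨j, hj, hj2⟩ := hk3; exact ⟨j.succ, Fin.succ_lt_succ_iff.mpr hj, by simpa using hj2⟩)).ptr
          · intro j hj hw
            exact (hR j.succ (by simpa using hj) (fun h => hw (Or.inr h))).ptr
        · intro a; rw [tl_zero, cmp_zero]; simp
        · intro a; rw [tl_zero, cmp_zero]; exact Cls.zero Q m n _ _ _ _
    · obtain ⟨u, rfl⟩ := exists_cons h0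
      apply cls_of_red hQp hQ1 k0 m n _ _ _ _ _ (strip_ptr hQ1 k0 hA)
      · intro k hk hk1 hk2 hk3
        exact (hF k.succ (by simpa using hk) (by simpa using hk1)
          (by obtain ⟨j, hj, hj2⟩ := hk2; exact ⟨j.succ, Fin.succ_lt_succ_iff.mpr hj, by simpa using hj2⟩)
          (by obtain ⟨j, hj, hj2⟩ := hk3; exact ⟨j.succ, Fin.succ_lt_succ_iff.mpr hj, by simpa using hj2⟩)).ptr
      · intro j hj hw
        exact (hR j.succ (by simpa using hj) (fun h => hw (Or.inl h))).ptr

end Run7.h455
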