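import Pool.Agent.Run7.h455.FinalR

set_option autoImplicit false
open Matrix
open scoped ComplexOrder

namespace Run7.h455.CutRankCase

variable {d n : ℕ}

/-- The marginal on the sites of `I` of an operator `Ω` on all the sites: the partial trace over the
sites outside `I`. Its entry at `x, y` is the sum, over the extensions `z` of `x` to all the sites,
of the entry of `Ω` at `z` and at the extension of `y` which agrees with `z` outside `I`. -/
def marginal (I : Finset (Fin n)) (Ω : Matrix (Fin n → Fin d) (Fin n → Fin d) ℂ) :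
    Matrix ({j // j ∈ I} → Fin d) ({j // j ∈ I} → Fin d) ℂ := fun x y =>
  ∑ z : Fin n → Fin d, if (∀ j : {j // j ∈ I}, z j.1 = x j) then
    Ω z (fun j => if h : j ∈ I then y ⟨j, h⟩ else z j) else 0

/-- The combination of the marginals on the sites of `I` of the operators `Ω a`, with the coefficients
`ν a I`. -/
def comb {m : ℕ} (ν : Fin m → Finset (Fin n) → ℝ)
    (Ω : Fin m → Matrix (Fin n → Fin d) (Fin n → Fin d) ℂ) (I : Finset (Fin n)) :
    Matrix ({j // j ∈ I} → Fin d) ({j // j ∈ I} → Fin d) ℂ :=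
  ∑ a, (ν a I : ℂ) • marginal I (Ω a)

/-- The reduction criterion of `M` at the site `k`: the operator `1 ⊗ tr_k M - M` is positive
semidefinite. -/
def Reduction {ι : Type} [DecidableEq ι] (k : ι) (M : Matrix (ι → Fin d) (ι → Fin d) ℂ) : Prop :=
  (Matrix.of fun x y : ι → Fin d =>
    (if x k = y k then ∑ a, M (Function.update x k a) (Function.update y k a) else 0)
      - M x y).PosSemidef

/-- The cut matrix of the functions `ν a` at the site `k`, the sites being ordered by `π`. Its rows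
are labelled by `a` and a set `H` of sites before `k`; its columns by a set `J` of sites from `k` on
which contains `k`, contains a site after `k` and misses a site after `k`; the entry is
`ν a (H ∪ J)`. -/
def cut {m : ℕ} (ν : Fin m → Finset (Fin n) → ℝ) (π : Equiv.Perm (Fin n)) (k : Fin n) :
    Matrix (Fin m × {H : Finset (Fin n) // ∀ i ∈ H, π i < π k})
      {J : Finset (Fin n) // k ∈ J ∧ (∀ i ∈ J, π k ≤ π i) ∧ (∃ i ∈ J, π k < π i) ∧
        ∃ i, i ∉ J ∧ π k < π i} ℝ :=
  Matrix.of fun H J => ν H.1 (H.2.1 ∪ J.1)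

lemma card_cols : ∀ n, n ≤ 5 → ∀ k : Fin n, n ≤ (k : ℕ) + 3 →
    Fintype.card {J : Finset (Fin n) // k ∈ J ∧ (∀ i ∈ J, Equiv.refl (Fin n) k ≤ Equiv.refl (Fin n) i) ∧
      (∃ i ∈ J, Equiv.refl (Fin n) k < Equiv.refl (Fin n) i) ∧
        ∃ i, i ∉ J ∧ Equiv.refl (Fin n) k < Equiv.refl (Fin n) i} ≤ 3 := by
  intro n hn
  interval_cases n <;> decide +kernel

lemma card_rows : ∀ n, n ≤ 5 → ∀ k : Fin n, (k : ℕ) ≤ 1 →
    Fintype.card {H : Finset (Fin n) // ∀ i ∈ H, Equiv.refl (Fin n) i < Equiv.refl (Fin n) k}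
      ≤ 2 ^ (k : ℕ) := by
  intro n hn
  interval_cases n <;> decide +kernel

/-- For few sites the cut matrices have at most three rows or at most three columns. -/
lemma small_rows {m : ℕ} (ν : Fin m → Finset (Fin n) → ℝ) (k : Fin n)
    (h : (n ≤ 4 ∧ m ≤ 3) ∨ (n ≤ 5 ∧ m ≤ 1)) : (cut ν (Equiv.refl _) k).rank ≤ 3 := by
  by_cases hk : n ≤ (k : ℕ) + 3
  · exact (Matrix.rank_le_card_width _).trans (card_cols n (by omega) k hk)
  · refine (Matrix.rank_le_card_height _).trans ?_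
    rw [Fintype.card_prod, Fintype.card_fin]
    have h1 := card_rows n (by omega) k (by omega)
    rcases h with ⟨h2, h3⟩ | ⟨h2, h3⟩
    · have h4 : (k : ℕ) = 0 := by omega
      rw [h4] at h1
      exact (Nat.mul_le_mul h3 h1).trans (by norm_num)
    · have h4 : 2 ^ (k : ℕ) ≤ 2 ^ 1 := Nat.pow_le_pow_right (by norm_num) (by omega)
      exact (Nat.mul_le_mul h3 (h1.trans h4)).trans (by norm_num)

/-- Spin alignment for the von Neumann entropy, for all numbers of sites, all local dimensions, all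
noise states and all weights, for the tuples of the following kind. For each `I` with at least two
sites, except the set of all sites, the operator `μ I • ρ I` is the sum of a positive semidefinite
operator which satisfies the reduction criterion at each site of `I` and of a positive semidefinite
combination, with coefficients `ν a I`, of the marginals of operators `Ω a` on all the sites, the cut
matrices of the coefficients having rank at most three (which is automatic for few sites and few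
operators `Ω a`). -/
theorem result :
    ∀ (d n : ℕ), 2 ≤ d → 1 ≤ n →
    ∀ (Q : Matrix (Fin d) (Fin d) ℂ), Q.PosSemidef → Q.trace = 1 →
    ∀ (q : Fin d → ℂ) (c : ℝ), star q ⬝ᵥ q = 1 → Q *ᵥ q = (c : ℂ) • q →
    (∀ v : Fin d → ℂ, (star v ⬝ᵥ (Q *ᵥ v)).re ≤ c * (star v ⬝ᵥ v).re) →
    ∀ (μ : Finset (Fin n) → ℝ), (∀ I, 0 ≤ μ I) → ∑ I, μ I = 1 →
    ∀ (ρ : (I : Finset (Fin n)) →
        Matrix ({j // j ∈ I} → Fin d) ({j // j ∈ I} → Fin d) ℂ),
    (∀ I, (ρ I).PosSemidef ∧ (ρ I).trace = 1) →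
    ∀ (m : ℕ) (Ω : Fin m → Matrix (Fin n → Fin d) (Fin n → Fin d) ℂ)
      (ν : Fin m → Finset (Fin n) → ℝ),
    (∀ I : Finset (Fin n), 2 ≤ I.card → I ≠ Finset.univ →
      (comb ν Ω I).PosSemidef ∧ ((μ I : ℂ) • ρ I - comb ν Ω I).PosSemidef ∧
        ∀ k, Reduction k ((μ I : ℂ) • ρ I - comb ν Ω I)) →
    ((n ≤ 4 ∧ m ≤ 3) ∨ (n ≤ 5 ∧ m ≤ 1) ∨
      ∃ π : Equiv.Perm (Fin n), ∀ k, (cut ν π k).rank ≤ 3) →
    ∀ (A A0 : Matrix (Fin n → Fin d) (Fin n → Fin d) ℂ),
    (∀ x y, A x y = ∑ I, (μ I : ℂ) * ρ I (fun i => x i.1) (fun i => y i.1)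
        * ∏ j ∈ Iᶜ, Q (x j) (y j)) →
    (∀ x y, A0 x y = ∑ I, (μ I : ℂ) * (∏ i ∈ I, q (x i) * star (q (y i)))
        * ∏ j ∈ Iᶜ, Q (x j) (y j)) →
    ∀ (hA : A.IsHermitian) (hA0 : A0.IsHermitian),
    ∑ x, Real.negMulLog (hA0.eigenvalues x) ≤ ∑ x, Real.negMulLog (hA.eigenvalues x) := by
  intro d n _ _ Q hQ hQ1 q c hq hc hmax μ hμ _ ρ hρ m Ω ν hΩ hcond A A0 hA hA0 hAh hA0h
  have hc2 : ∃ π : Equiv.Perm (Fin n), ∀ k, (cut ν π k).rank ≤ 3 := by
    rcases hcond with h | h | h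
    · exact ⟨Equiv.refl _, fun k => small_rows ν k (Or.inl h)⟩
    · exact ⟨Equiv.refl _, fun k => small_rows ν k (Or.inr h)⟩
    · exact h
  obtain ⟨π, hπ⟩ := hc2
  obtain ⟨h1, h2, h3, h4⟩ := Run7.h455.sac_red Q hQ hQ1 q c hq hc hmax μ hμ ρ hρ (comb ν Ω)
    (fun I h1 h2 => ⟨(hΩ I h1 h2).1, (hΩ I h1 h2).2.1, fun k h => (hΩ I h1 h2).2.2 ⟨k, h⟩⟩) m Ω ν
    (by
      intro I _ _ x y
      rw [comb, Matrix.sum_apply]
      refine Finset.sum_congr rfl fun a _ => ?_
      rw [Matrix.smul_apply, smul_eq_mul, marginal])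
    π hπ A A0 hA hA0
  exact Run7.h455.ent_of_dt h1 h2 h3 h4

end Run7.h455.CutRankCase
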