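import Mathlib

set_option autoImplicit false
open Matrix
open scoped ComplexOrder MatrixOrder

namespace Run7.h455

variable {N : Type*} [Fintype N] [DecidableEq N]

/-- real determinant -/
noncomputable def dt (X : Matrix N N ℂ) : ℝ := (X.det).re

lemma dt_coe {X : Matrix N N ℂ} (h : X.IsHermitian) : ((dt X : ℝ) : ℂ) = X.det := by
  have h1 : star X.det = X.det := by rw [← Matrix.det_conjTranspose, h.eq]
  exact Complex.conj_eq_iff_re.mp h1

lemma dt_pos {X : Matrix N N ℂ} (h : X.PosDef) : 0 < dt X := by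
  have h1 := h.det_pos
  rw [← dt_coe h.1] at h1
  exact_mod_cast h1

lemma dt_nonneg {X : Matrix N N ℂ} (h : X.PosSemidef) : 0 ≤ dt X := by
  have h1 := h.det_nonneg
  rw [← dt_coe h.1] at h1
  exact_mod_cast h1

/-- determinant of an affine function of a Hermitian matrix -/
lemma det_affine {D : Matrix N N ℂ} (h : D.IsHermitian) (a b : ℝ) :
    ((a : ℂ) • (1 : Matrix N N ℂ) + (b : ℂ) • D).det = ((∏ i, (a + b * h.eigenvalues i) : ℝ) : ℂ) := by
  have hU : (h.eigenvectorUnitary : Matrix N N ℂ) * star (h.eigenvectorUnitary : Matrix N N ℂ) = 1 :=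
    Unitary.coe_mul_star_self _
  have h1 : (a : ℂ) • (1 : Matrix N N ℂ) + (b : ℂ) • D
      = (h.eigenvectorUnitary : Matrix N N ℂ)
        * Matrix.diagonal (fun i => ((a + b * h.eigenvalues i : ℝ) : ℂ))
        * star (h.eigenvectorUnitary : Matrix N N ℂ) := by
    have h2 : Matrix.diagonal (fun i => ((a + b * h.eigenvalues i : ℝ) : ℂ))
        = (a : ℂ) • (1 : Matrix N N ℂ) + (b : ℂ) • Matrix.diagonal (fun i => ((h.eigenvalues i : ℝ) : ℂ)) := by
      ext i j
      by_cases hij : i = j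
      · subst hij; simp
      · simp [hij]
    rw [h2, Matrix.mul_add, Matrix.add_mul, Matrix.mul_smul, Matrix.mul_one, Matrix.smul_mul, hU,
      Matrix.mul_smul, Matrix.smul_mul]
    congr 2
    have h3 := h.spectral_theorem
    rw [Unitary.conjStarAlgAut_apply] at h3
    exact h3
  rw [h1, Matrix.det_mul, Matrix.det_mul, mul_right_comm, ← Matrix.det_mul, hU, Matrix.det_one,
    one_mul, Matrix.det_diagonal]
  push_cast
  rfl

lemma dt_affine {D : Matrix N N ℂ} (h : D.IsHermitian) (a b : ℝ) :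
    dt ((a : ℂ) • (1 : Matrix N N ℂ) + (b : ℂ) • D) = ∏ i, (a + b * h.eigenvalues i) := by
  rw [dt, det_affine h, Complex.ofReal_re]

/-- congruence: `det (star y * X * y) = |det y|^2 det X` -/
lemma dt_congr (y X : Matrix N N ℂ) (hX : X.IsHermitian) :
    dt (star y * X * y) = Complex.normSq y.det * dt X := by
  rw [dt, Matrix.det_mul, Matrix.det_mul, Matrix.star_eq_conjTranspose, Matrix.det_conjTranspose,
    ← dt_coe hX]
  have : star y.det * ((dt X : ℝ) : ℂ) * y.det = ((Complex.normSq y.det * dt X : ℝ) : ℂ) := by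
    rw [Complex.ofReal_mul, Complex.normSq_eq_conj_mul_self]
    simp only [RCLike.star_def]; ring
  rw [this, Complex.ofReal_re]

lemma posDef_exists {X : Matrix N N ℂ} (h : X.PosDef) :
    ∃ y : Matrix N N ℂ, IsUnit y.det ∧ X = star y * y := by
  obtain ⟨y, hy, rfl⟩ := CStarAlgebra.isStrictlyPositive_iff_eq_star_mul_self.mp
        h.isStrictlyPositive
  exact ⟨y, (Matrix.isUnit_iff_isUnit_det y).mp hy, rfl⟩

lemma posSemidef_exists {X : Matrix N N ℂ} (h : X.PosSemidef) :
    ∃ y : Matrix N N ℂ, X = star y * y := by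
  obtain ⟨y, rfl⟩ := CStarAlgebra.nonneg_iff_eq_star_mul_self.mp h.nonneg
  exact ⟨y, rfl⟩

/-- pull back by congruence -/
lemma congr_back (y X : Matrix N N ℂ) (hy : IsUnit y.det) :
    X = star y * (star y⁻¹ * X * y⁻¹) * y := by
  have h1 : y⁻¹ * y = 1 := Matrix.nonsing_inv_mul y hy
  have h2 : star y * star y⁻¹ = 1 := by rw [← star_mul, h1, star_one]
  calc X = (star y * star y⁻¹) * X * (y⁻¹ * y) := by rw [h1, h2, one_mul, mul_one]
    _ = _ := by simp only [mul_assoc]

lemma dt_one_add_mono_aux {D : Matrix N N ℂ} (h : D.PosSemidef) : 1 ≤ dt (1 + D) := by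
  have := dt_affine h.1 1 1
  simp only [Complex.ofReal_one, one_smul, one_mul] at this
  rw [this]
  have h2 := Finset.prod_le_prod (s := Finset.univ) (f := fun _ : N => (1:ℝ))
    (g := fun i => 1 + h.1.eigenvalues i) (fun i _ => zero_le_one)
    (fun i _ => by linarith [h.eigenvalues_nonneg i])
  simpa using h2

/-- monotonicity of the determinant -/
lemma dt_mono {X Y : Matrix N N ℂ} (hX : X.PosDef) (h : (Y - X).PosSemidef) : dt X ≤ dt Y := by
  obtain ⟨y, hy, rfl⟩ := posDef_exists hX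
  set D := star y⁻¹ * (Y - star y * y) * y⁻¹ with hD
  have hDp : D.PosSemidef := by
    have := h.conjTranspose_mul_mul_same y⁻¹
    simpa [hD, Matrix.star_eq_conjTranspose] using this
  have hYe : Y = star y * (1 + D) * y := by
    have := congr_back y (Y - star y * y) hy
    rw [← hD] at this
    rw [mul_add, add_mul, mul_one, ← this]; abel
  have hXe : star y * y = star y * 1 * y := by rw [mul_one]
  have h1 : (1 + D).IsHermitian := Matrix.isHermitian_one.add hDp.1
  rw [hYe, hXe, dt_congr _ _ h1, dt_congr _ _ Matrix.isHermitian_one]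
  have h2 := dt_one_add_mono_aux hDp
  have h3 : dt (1 : Matrix N N ℂ) = 1 := by simp [dt]
  rw [h3]
  exact mul_le_mul_of_nonneg_left h2 (Complex.normSq_nonneg _)

/-- quasi-concavity of the determinant -/
lemma dt_quasi {X Y : Matrix N N ℂ} (hX : X.PosDef) (hY : Y.PosDef) {θ : ℝ} (h0 : 0 ≤ θ) (h1 : θ ≤ 1) :
    min (dt X) (dt Y) ≤ dt ((θ : ℂ) • X + ((1 - θ : ℝ) : ℂ) • Y) := by
  obtain ⟨y, hy, rfl⟩ := posDef_exists hX
  set D := star y⁻¹ * Y * y⁻¹ with hD
  have hyi : IsUnit y⁻¹ := by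
    rw [Matrix.isUnit_iff_isUnit_det]; exact Matrix.isUnit_nonsing_inv_det y hy
  have hDp : D.PosDef := by
    have := (hyi.posDef_star_left_conjugate_iff (x := Y)).mpr hY
    simpa [hD] using this
  have hYe : Y = star y * D * y := congr_back y Y hy
  have hXe : star y * y = star y * 1 * y := by rw [mul_one]
  have hsum : (θ : ℂ) • (star y * y) + ((1 - θ : ℝ) : ℂ) • Y
      = star y * ((θ : ℂ) • (1 : Matrix N N ℂ) + ((1 - θ : ℝ) : ℂ) • D) * y := by
    rw [mul_add, add_mul, Matrix.mul_smul, Matrix.smul_mul, Matrix.mul_smul, Matrix.smul_mul,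
      ← hYe, mul_one]
  have hherm : ((θ : ℂ) • (1 : Matrix N N ℂ) + ((1 - θ : ℝ) : ℂ) • D).IsHermitian := by
    have a1 : ((θ : ℂ) • (1 : Matrix N N ℂ)).IsHermitian := by
      rw [Matrix.IsHermitian, Matrix.conjTranspose_smul]; simp
    have a2 : (((1 - θ : ℝ) : ℂ) • D).IsHermitian := by
      rw [Matrix.IsHermitian, Matrix.conjTranspose_smul, hDp.1.eq]; simp
    exact a1.add a2
  rw [hsum, dt_congr _ _ hherm, dt_affine hDp.1]
  have hYd : dt Y = Complex.normSq y.det * ∏ i, hDp.1.eigenvalues i := by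
    conv_lhs => rw [hYe]
    rw [dt_congr _ _ hDp.1]
    have := dt_affine hDp.1 0 1
    simp only [Complex.ofReal_zero, zero_smul, Complex.ofReal_one, one_smul, zero_add, one_mul] at this
    rw [this]
  have hXd : dt (star y * y) = Complex.normSq y.det := by
    rw [hXe, dt_congr _ _ Matrix.isHermitian_one]
    simp [dt]
  have hpos : ∀ i, 0 < hDp.1.eigenvalues i := fun i => hDp.eigenvalues_pos i
  have key : (∏ i, hDp.1.eigenvalues i) ^ (1 - θ) ≤ ∏ i, (θ + (1 - θ) * hDp.1.eigenvalues i) := by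
    rw [← Real.finsetProd_rpow _ _ (fun i _ => (hpos i).le)]
    apply Finset.prod_le_prod (fun i _ => Real.rpow_nonneg (hpos i).le _)
    intro i _
    have := Real.geom_mean_le_arith_mean2_weighted h0 (by linarith : (0:ℝ) ≤ 1 - θ) (zero_le_one)
      (hpos i).le (by ring)
    simpa using this
  have hn : 0 ≤ Complex.normSq y.det := Complex.normSq_nonneg _
  have hP : 0 < ∏ i, hDp.1.eigenvalues i := Finset.prod_pos (fun i _ => hpos i)
  have hmin : min 1 (∏ i, hDp.1.eigenvalues i) ≤ (∏ i, hDp.1.eigenvalues i) ^ (1 - θ) := by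
    rcases le_total 1 (∏ i, hDp.1.eigenvalues i) with h | h
    · rw [min_eq_left h]
      exact Real.one_le_rpow h (by linarith)
    · rw [min_eq_right h]
      calc (∏ i, hDp.1.eigenvalues i) = (∏ i, hDp.1.eigenvalues i) ^ (1:ℝ) := (Real.rpow_one _).symm
        _ ≤ _ := Real.rpow_le_rpow_of_exponent_ge hP h (by linarith)
  rw [hXd, hYd]
  calc min (Complex.normSq y.det) (Complex.normSq y.det * ∏ i, hDp.1.eigenvalues i)
      = Complex.normSq y.det * min 1 (∏ i, hDp.1.eigenvalues i) := by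
        rw [mul_min_of_nonneg _ _ hn, mul_one]
    _ ≤ _ := mul_le_mul_of_nonneg_left (hmin.trans key) hn

/-- inverse of `1 + C` is at most one -/
lemma one_sub_inv_psd {C : Matrix N N ℂ} (h : C.PosSemidef) : (1 - (1 + C)⁻¹).PosSemidef := by
  have hp : (1 + C).PosDef := Matrix.PosDef.one.add_posSemidef h
  have hu : IsUnit (1 + C).det := (Matrix.isUnit_iff_isUnit_det _).mp hp.isUnit
  have h1 : (1 + C)⁻¹ * (1 + C) = 1 := Matrix.nonsing_inv_mul _ hu
  have h2 : (1 + C) * (1 + C)⁻¹ = 1 := Matrix.mul_nonsing_inv _ hu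
  have hh : ((1 + C)⁻¹)ᴴ = (1 + C)⁻¹ := hp.1.inv.eq
  have h3 : 1 - (1 + C)⁻¹ = ((1 + C)⁻¹)ᴴ * (C + Cᴴ * C) * (1 + C)⁻¹ := by
    rw [hh, h.1.eq]
    have e1 : C + C * C = (1 + C) * (1 + C) - (1 + C) := by noncomm_ring
    rw [e1, mul_sub, sub_mul, ← mul_assoc, h1, one_mul, h2, one_mul]
  rw [h3]
  exact (h.add (Matrix.posSemidef_conjTranspose_mul_self C)).conjTranspose_mul_mul_same _

/-- `det (1 + C + D) ≤ det (1 + C) det (1 + D)` -/
lemma dt_submod_one {C D : Matrix N N ℂ} (hC : C.PosSemidef) (hD : D.PosSemidef) :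
    dt (1 + C + D) ≤ dt (1 + C) * dt (1 + D) := by
  obtain ⟨V, hV⟩ := posSemidef_exists hD
  have hp : (1 + C).PosDef := Matrix.PosDef.one.add_posSemidef hC
  have hu : IsUnit (1 + C).det := (Matrix.isUnit_iff_isUnit_det _).mp hp.isUnit
  have e1 : (1 + C + D).det = (1 + C).det * (1 + V * (1 + C)⁻¹ * star V).det := by
    rw [hV]; exact Matrix.det_add_mul _ _ hu
  have e2 : (1 + D).det = (1 + V * star V).det := by
    rw [hV]; exact Matrix.det_one_add_mul_comm _ _
  have p1 : (V * (1 + C)⁻¹ * star V).PosSemidef := by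
    have := hp.inv.posSemidef.mul_mul_conjTranspose_same V
    simpa [Matrix.star_eq_conjTranspose] using this
  have pd1 : (1 + V * (1 + C)⁻¹ * star V).PosDef := Matrix.PosDef.one.add_posSemidef p1
  have p2 : ((1 + V * star V) - (1 + V * (1 + C)⁻¹ * star V)).PosSemidef := by
    have := (one_sub_inv_psd hC).mul_mul_conjTranspose_same V
    have e : (1 + V * star V) - (1 + V * (1 + C)⁻¹ * star V) = V * (1 - (1 + C)⁻¹) * star V := by
      noncomm_ring
    rw [e]; simpa [Matrix.star_eq_conjTranspose] using this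
  have e3 : dt (1 + C + D) = dt (1 + C) * dt (1 + V * (1 + C)⁻¹ * star V) := by
    have : (1 + C + D).det = ((dt (1 + C) * dt (1 + V * (1 + C)⁻¹ * star V) : ℝ) : ℂ) := by
      rw [e1]; push_cast; rw [dt_coe hp.1, dt_coe pd1.1]
    rw [dt, this, Complex.ofReal_re]
  have e4 : dt (1 + D) = dt (1 + V * star V) := by rw [dt, dt, e2]
  rw [e3, e4]
  exact mul_le_mul_of_nonneg_left (dt_mono pd1 p2) (dt_pos hp).le

/-- determinant ratio: `X ≤ Y` gives `det(Y+C) det X ≤ det(X+C) det Y` -/
lemma dt_ratio {X Y C : Matrix N N ℂ} (hX : X.PosDef) (h : (Y - X).PosSemidef) (hC : C.PosSemidef) :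
    dt (Y + C) * dt X ≤ dt (X + C) * dt Y := by
  obtain ⟨y, hy, rfl⟩ := posDef_exists hX
  set D := star y⁻¹ * (Y - star y * y) * y⁻¹ with hD
  have hDp : D.PosSemidef := by
    have := h.conjTranspose_mul_mul_same y⁻¹
    simpa [hD, Matrix.star_eq_conjTranspose] using this
  set E := star y⁻¹ * C * y⁻¹ with hE
  have hEp : E.PosSemidef := by
    have := hC.conjTranspose_mul_mul_same y⁻¹
    simpa [hE, Matrix.star_eq_conjTranspose] using this
  have hYe : Y = star y * (1 + D) * y := by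
    have := congr_back y (Y - star y * y) hy
    rw [← hD] at this
    rw [mul_add, add_mul, mul_one, ← this]; abel
  have hCe : C = star y * E * y := congr_back y C hy
  have e1 : Y + C = star y * (1 + E + D) * y := by
    conv_lhs => rw [hYe, hCe]
    noncomm_ring
  have e2 : star y * y + C = star y * (1 + E) * y := by
    conv_lhs => rw [hCe]
    noncomm_ring
  have hXe : star y * y = star y * 1 * y := by rw [mul_one]
  have i1 : (1 + E + D).IsHermitian := (Matrix.isHermitian_one.add hEp.1).add hDp.1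
  have i2 : (1 + E).IsHermitian := (Matrix.isHermitian_one.add hEp.1)
  have i3 : (1 + D).IsHermitian := (Matrix.isHermitian_one.add hDp.1)
  have h3 : dt (1 : Matrix N N ℂ) = 1 := by simp [dt]
  have q1 : dt Y = Complex.normSq y.det * dt (1 + D) := by
    conv_lhs => rw [hYe]
    exact dt_congr _ _ i3
  have q2 : dt (star y * y) = Complex.normSq y.det := by
    rw [hXe, dt_congr _ _ Matrix.isHermitian_one, h3, mul_one]
  rw [e1, e2, dt_congr _ _ i1, dt_congr _ _ i2, q1, q2]
  have := dt_submod_one hEp hDp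
  have hn : 0 ≤ Complex.normSq y.det := Complex.normSq_nonneg _
  nlinarith [mul_nonneg hn hn]

end Run7.h455
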