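import Pool.Agent.Run7.h455.Step

set_option autoImplicit false
open Matrix
open scoped ComplexOrder MatrixOrder Kronecker

namespace Run7.h455

variable {κ : Type} [Fintype κ] [DecidableEq κ]

/-- adding back the full set -/
lemma full_step {Q : Matrix κ κ ℂ} {lam : κ → ℝ} {k0 : κ} (hQp : Q.PosSemidef) (hQ1 : Q.trace = 1)
    (hc : (((lam k0 : ℝ) : ℂ) • (1 : Matrix κ κ ℂ) - Q).PosSemidef) (hl : ∀ k, 0 ≤ lam k)
    {n : ℕ} (μ : (Fin n → Bool) → ℝ) (σ : (Fin n → Bool) → Matrix (Fin n → κ) (Fin n → κ) ℂ)
    (hσ : ∀ s, Adm Q s (σ s)) (hμ : ∀ s, (σ s).trace = (μ s : ℂ)) {t : ℝ} (ht : 0 < t)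
    (h : ∏ x, (t + aw lam k0 (Function.update μ (fun _ => true) 0) x)
      ≤ dt ((t : ℂ) • (1 : Matrix (Fin n → κ) (Fin n → κ) ℂ) + ∑ s, Function.update σ (fun _ => true) 0 s)) :
    ∏ x, (t + aw lam k0 μ x) ≤ dt ((t : ℂ) • (1 : Matrix (Fin n → κ) (Fin n → κ) ℂ) + ∑ s, σ s) := by
  set μ' := Function.update μ (fun _ => true) 0 with hμ'
  set σ' := Function.update σ (fun _ => true) 0 with hσ'
  have hμ0 : ∀ s, 0 ≤ μ s := by
    intro s
    have := ((hσ s).psd hQp).trace_nonneg
    rw [hμ s] at this
    exact_mod_cast this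
  have hμ'0 : ∀ s, 0 ≤ μ' s := by
    intro s
    by_cases hs : s = (fun _ => true)
    · rw [hs, hμ', Function.update_self]
    · rw [hμ', Function.update_of_ne hs]; exact hμ0 s
  have hσ'A : ∀ s, Adm Q s (σ' s) := by
    intro s
    by_cases hs : s = (fun _ => true)
    · rw [hs, hσ', Function.update_self]; exact Adm.zero _
    · rw [hσ', Function.update_of_ne hs]; exact hσ s
  have hμ't : ∀ s, (σ' s).trace = (μ' s : ℂ) := by
    intro s
    by_cases hs : s = (fun _ => true)
    · rw [hs, hσ', hμ', Function.update_self, Function.update_self]; simp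
    · rw [hσ', hμ', Function.update_of_ne hs, Function.update_of_ne hs]; exact hμ s
  set Λ := aw lam k0 μ' (fun _ => k0) with hΛ
  have hΛ0 : 0 ≤ Λ := aw_nonneg lam hl k0 μ' hμ'0 _
  have hApsd : (∑ s, σ' s).PosSemidef := Matrix.posSemidef_sum _ fun s _ => (hσ'A s).psd hQp
  have hbd : ((Λ : ℂ) • (1 : Matrix (Fin n → κ) (Fin n → κ) ℂ) - ∑ s, σ' s).PosSemidef := by
    have a : ∀ s, (((μ' s : ℂ) * (lamS (lam k0) s : ℂ)) • (1 : Matrix (Fin n → κ) (Fin n → κ) ℂ) - σ' s).PosSemidef := by
      intro s
      have := (hσ'A s).bound hQp hQ1 hc k0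
      rw [hμ't s] at this
      exact this
    have b := Matrix.posSemidef_sum (Finset.univ) fun s _ => a s
    rw [Finset.sum_sub_distrib, ← Finset.sum_smul] at b
    have e : ∑ s, ((μ' s : ℂ) * (lamS (lam k0) s : ℂ)) = (Λ : ℂ) := by
      rw [hΛ, aw_const]; push_cast; rfl
    rw [e] at b
    exact b
  have hrem := removal hApsd ((hσ (fun _ => true)).psd hQp) ht hΛ0 hbd
  have hsum : ∑ s, σ s = ∑ s, σ' s + σ (fun _ => true) := by
    rw [← Finset.sum_erase_add _ _ (Finset.mem_univ (fun _ => true)),
      ← Finset.sum_erase_add Finset.univ σ' (Finset.mem_univ (fun _ => true))]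
    have : σ' (fun _ => true) = 0 := by rw [hσ', Function.update_self]
    rw [this, add_zero]
    congr 1
    refine Finset.sum_congr rfl fun s hs => ?_
    rw [hσ', Function.update_of_ne (Finset.ne_of_mem_erase hs)]
  have hre : (σ (fun _ => true)).trace.re = μ (fun _ => true) := by
    rw [hμ]; simp
  rw [hre] at hrem
  rw [hsum, ← add_assoc]
  refine le_trans ?_ hrem
  have hprod : ∏ x, (t + aw lam k0 μ x) = (∏ x, (t + aw lam k0 μ' x)) * (1 + μ (fun _ => true) / (t + Λ)) := by
    rw [← Finset.prod_erase_mul _ _ (Finset.mem_univ (fun _ : Fin n => k0)),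
      ← Finset.prod_erase_mul Finset.univ (fun x => (t + aw lam k0 μ' x)) (Finset.mem_univ (fun _ : Fin n => k0)), mul_assoc]
    congr 1
    · refine Finset.prod_congr rfl fun x hx => ?_
      rw [aw_drop lam k0 μ x, if_neg (Finset.ne_of_mem_erase hx), add_zero]
    · rw [aw_drop lam k0 μ, if_pos rfl]
      have : t + Λ ≠ 0 := by positivity
      rw [← hΛ]
      field_simp
      ring
  rw [hprod]
  apply mul_le_mul_of_nonneg_right h
  have := hμ0 (fun _ => true)
  positivity

omit [Fintype κ] [DecidableEq κ] in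
lemma tl_add {n : ℕ} (M M' : Matrix (Fin (n+1) → κ) (Fin (n+1) → κ) ℂ) : tl (M + M') = tl M + tl M' := rfl

omit [Fintype κ] [DecidableEq κ] in
lemma tl_sum {n : ℕ} {ι : Type*} (S : Finset ι) (M : ι → Matrix (Fin (n+1) → κ) (Fin (n+1) → κ) ℂ) :
    tl (∑ i ∈ S, M i) = ∑ i ∈ S, tl (M i) := by
  ext p q
  simp [tl_apply, Matrix.sum_apply]

lemma tl_shift {n : ℕ} (t : ℂ) (M : Matrix (Fin (n+1) → κ) (Fin (n+1) → κ) ℂ) :
    dt (t • (1 : Matrix (Fin (n+1) → κ) (Fin (n+1) → κ) ℂ) + M)
      = dt (t • (1 : Matrix (κ × (Fin n → κ)) (κ × (Fin n → κ)) ℂ) + tl M) := by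
  have e : t • (1 : Matrix (κ × (Fin n → κ)) (κ × (Fin n → κ)) ℂ) + tl M
      = (t • (1 : Matrix (Fin (n+1) → κ) (Fin (n+1) → κ) ℂ) + M).submatrix
        (Fin.consEquiv (fun _ => κ)) (Fin.consEquiv (fun _ => κ)) := by
    rw [Matrix.submatrix_add, Matrix.submatrix_smul]
    simp only [Pi.add_apply, Pi.smul_apply, Matrix.submatrix_one_equiv]
    rfl
  rw [dt, dt, e, Matrix.det_submatrix_equiv_self]

/-- determinant form of spin alignment under the elimination condition -/
theorem dsac {Q V P : Matrix κ κ ℂ} {lam : κ → ℝ} {k0 : κ} (hQp : Q.PosSemidef) (hQ1 : Q.trace = 1)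
    (hV : V * star V = 1) (hQ : Q = V * Matrix.diagonal (fun k => (lam k : ℂ)) * star V)
    (hP : P = V * Matrix.diagonal (Pi.single k0 (1:ℂ)) * star V)
    (hc : (((lam k0 : ℝ) : ℂ) • (1 : Matrix κ κ ℂ) - Q).PosSemidef) (hl : ∀ k, 0 ≤ lam k)
    {t : ℝ} (ht : 0 < t) : ∀ (n : ℕ)
    (μ : (Fin n → Bool) → ℝ) (σ : (Fin n → Bool) → Matrix (Fin n → κ) (Fin n → κ) ℂ),
    (∀ s, Adm Q s (σ s)) → (∀ s, (σ s).trace = (μ s : ℂ)) → Good n (fun s => μ s ≠ 0) →
    ∏ x, (t + aw lam k0 μ x) ≤ dt ((t : ℂ) • (1 : Matrix (Fin n → κ) (Fin n → κ) ℂ) + ∑ s, σ s) := by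
  intro n
  induction n with
  | zero =>
    intro μ σ hσ hμ _
    have h1 : ∏ x : Fin 0 → κ, (t + aw lam k0 μ x) = t + μ (fun _ => false) := by
      rw [Fintype.prod_subsingleton _ (fun _ => k0 : Fin 0 → κ), aw,
        Fintype.sum_subsingleton _ (fun _ => false : Fin 0 → Bool), Fintype.prod_empty, mul_one]
    have h2 : dt ((t : ℂ) • (1 : Matrix (Fin 0 → κ) (Fin 0 → κ) ℂ) + ∑ s, σ s) = t + μ (fun _ => false) := by
      have h3 := congrArg Complex.re (hμ (fun _ => false))
      rw [Matrix.trace, Fintype.sum_subsingleton _ (fun _ => k0 : Fin 0 → κ), Complex.ofReal_re,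
        Matrix.diag_apply] at h3
      rw [dt, Matrix.det_eq_elem_of_subsingleton _ (fun _ => k0 : Fin 0 → κ),
        Fintype.sum_subsingleton _ (fun _ => false : Fin 0 → Bool), Matrix.add_apply, Complex.add_re,
        Matrix.smul_apply, Matrix.one_apply_eq, h3]
      simp
    rw [h1, h2]
  | succ n ih =>
    intro μ σ hσ hμ hG
    apply full_step hQp hQ1 hc hl μ σ hσ hμ ht
    -- now the family without the full set
    set μ' := Function.update μ (fun _ => true) 0 with hμ'
    set σ' := Function.update σ (fun _ => true) 0 with hσ'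
    have hσ'A : ∀ s, Adm Q s (σ' s) := by
      intro s
      by_cases hs : s = (fun _ => true)
      · rw [hs, hσ', Function.update_self]; exact Adm.zero _
      · rw [hσ', Function.update_of_ne hs]; exact hσ s
    have hμ't : ∀ s, (σ' s).trace = (μ' s : ℂ) := by
      intro s
      by_cases hs : s = (fun _ => true)
      · rw [hs, hσ', hμ', Function.update_self, Function.update_self]; simp
      · rw [hσ', hμ', Function.update_of_ne hs, Function.update_of_ne hs]; exact hμ s
    have hG' : Good (n+1) (fun s => μ' s ≠ 0) := by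
      refine Good.mono ?_ hG
      intro s hs
      by_cases h : s = (fun _ => true)
      · exact absurd (by rw [h, hμ', Function.update_self]) hs
      · rw [hμ', Function.update_of_ne h] at hs; exact hs
    have hfull : μ' (Fin.cons true (fun _ => true)) = 0 := by
      have : (Fin.cons true (fun _ : Fin n => true) : Fin (n+1) → Bool) = (fun _ => true) := by
        ext j; refine Fin.cases ?_ (fun i => ?_) j <;> simp
      rw [this, hμ', Function.update_self]
    clear_value μ' σ'
    obtain ⟨hG1, hG2⟩ := hG'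
    -- strip
    have hstrip : ∀ s : Fin n → Bool, ∃ τ, Adm Q s τ ∧ tl (σ' (Fin.cons false s)) = Q ⊗ₖ τ :=
      fun s => (hσ'A (Fin.cons false s)).strip k0
    choose τ hτ1 hτ2 using hstrip
    have hτtr : ∀ s, (τ s).trace = (μ' (Fin.cons false s) : ℂ) := by
      intro s
      have h1 := hμ't (Fin.cons false s)
      rw [← tl_trace, hτ2, Matrix.trace_kronecker, hQ1, one_mul] at h1
      exact h1
    obtain ⟨r, hr, hr2⟩ := (hσ'A (Fin.cons true (fun _ => false))).single k0
    have hrtr : r.trace = (μ' (Fin.cons true (fun _ => false)) : ℂ) := by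
      have h1 := hμ't (Fin.cons true (fun _ => false))
      rw [← tl_trace, hr2, Matrix.trace_kronecker, kerD_bot_trace hQ1, mul_one] at h1
      exact h1
    set C : (Fin n → Bool) → Matrix (κ × (Fin n → κ)) (κ × (Fin n → κ)) ℂ :=
      fun s => tl (σ' (Fin.cons true s)) with hCdef
    have hCp : ∀ s, (C s).PosSemidef := fun s => ((hσ'A _).psd hQp).submatrix _
    have hCtr : ∀ s, (C s).trace = (μ' (Fin.cons true s) : ℂ) := fun s => by
      rw [hCdef]; simp only; rw [tl_trace]; exact hμ't _
    set F : Finset (Fin n → Bool) := Finset.univ.filter (fun s => μ' (Fin.cons true s) ≠ 0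
      ∧ s ≠ (fun _ => false) ∧ s ≠ (fun _ => true)) with hF
    have hFc : F.card ≤ 3 := by
      have : (F : Set (Fin n → Bool)) = {s : Fin n → Bool | μ' (Fin.cons true s) ≠ 0 ∧ s ≠ (fun _ => false)
        ∧ s ≠ (fun _ => true)} := by ext s; simp [hF]
      rw [← Set.ncard_coe_finset, this]
      exact hG1
    have hC0 : ∀ s, s ∉ F → s ≠ (fun _ => false) → C s = 0 := by
      intro s hs hs0
      have h1 : μ' (Fin.cons true s) = 0 := by
        by_contra hne
        by_cases hs1 : s = (fun _ => true)
        · rw [hs1] at hne; exact hne hfull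
        · exact hs (by rw [hF, Finset.mem_filter]; exact ⟨Finset.mem_univ _, hne, hs0, hs1⟩)
      rw [← (hCp s).trace_eq_zero_iff, hCtr, h1]; simp
    have hbotF : (fun _ => false : Fin n → Bool) ∉ F := by simp [hF]
    have hsumC : ∑ s, C s = C (fun _ => false) + ∑ s ∈ F, C s := by
      rw [← Finset.sum_insert hbotF]
      symm
      apply Finset.sum_subset (Finset.subset_univ _)
      intro s _ hs
      rw [Finset.mem_insert, not_or] at hs
      exact hC0 s hs.2 hs.1
    set B := ∑ s, τ s with hB
    have hBp : B.PosSemidef := Matrix.posSemidef_sum _ fun s _ => (hτ1 s).psd hQp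
    have htot : tl (∑ s, σ' s) = Q ⊗ₖ B + r ⊗ₖ kerD Q (fun _ : Fin n => false) + ∑ s ∈ F, C s := by
      rw [sum_cons, tl_add, tl_sum, tl_sum]
      have e1 : ∑ s, tl (σ' (Fin.cons false s)) = Q ⊗ₖ B := by
        simp only [hτ2]
        ext p q
        simp only [Matrix.sum_apply, Matrix.kroneckerMap_apply, hB, Finset.mul_sum]
      have e2 : ∑ s, tl (σ' (Fin.cons true s)) = r ⊗ₖ kerD Q (fun _ : Fin n => false) + ∑ s ∈ F, C s := by
        have : ∑ s, tl (σ' (Fin.cons true s)) = ∑ s, C s := rfl
        rw [this, hsumC]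
        congr 1
      rw [e1, e2]; abel
    obtain ⟨x, hx1, hx2⟩ := step hQp hQ1 hV hQ hP hc (hl k0) hBp hr F hFc C (fun s _ => hCp s) ht
    rw [tl_shift, htot]
    refine le_trans ?_ hx2
    -- product formula
    rw [prod_cons]
    simp only [aw_cons]
    rw [← Finset.prod_erase_mul _ _ (Finset.mem_univ k0)]
    have hGsub : ∀ ν : (Fin n → Bool) → ℝ, (∀ s, ν s ≠ 0 → (μ' (Fin.cons false s) ≠ 0 ∨ μ' (Fin.cons true s) ≠ 0)) →
        Good n (fun s => ν s ≠ 0) := fun ν hν => Good.mono hν hG2
    apply mul_le_mul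
    · apply Finset.prod_le_prod
      · intro k hk
        apply Finset.prod_nonneg
        intro y _
        have : 0 ≤ aw lam k0 (fun s => lam k * μ' (Fin.cons false s) + (if k = k0 then 1 else 0) * μ' (Fin.cons true s)) y := by
          apply aw_nonneg lam hl
          intro s
          have hn : ∀ s, 0 ≤ μ' s := by
            intro s
            have := ((hσ'A s).psd hQp).trace_nonneg
            rw [hμ't s] at this
            exact_mod_cast this
          have := hn (Fin.cons false s)
          have := hn (Fin.cons true s)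
          have := hl k
          split_ifs <;> positivity
        positivity
      · intro k hk
        have hk0 : k ≠ k0 := Finset.ne_of_mem_erase hk
        have h1 := ih (fun s => lam k * μ' (Fin.cons false s)
          + (if k = k0 then 1 else 0) * μ' (Fin.cons true s)) (fun s => (lam k : ℂ) • τ s)
          (fun s => (hτ1 s).smul (hl k)) (fun s => by
            rw [Matrix.trace_smul, hτtr, if_neg hk0]; push_cast; simp)
          (hGsub _ (fun s hs => by
            left; intro h0; apply hs; rw [h0, if_neg hk0]; simp))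
        rw [← Finset.smul_sum] at h1
        exact h1
    · set ν : (Fin n → Bool) → ℝ := fun s => lam k0 * μ' (Fin.cons false s)
        + (if k0 = k0 then 1 else 0) * μ' (Fin.cons true s) with hν
      set ω : (Fin n → Bool) → Matrix (Fin n → κ) (Fin n → κ) ℂ := fun s => ((lam k0 : ℝ) : ℂ) • τ s
        + ((if s = (fun _ => false) then r.trace • kerD Q (fun _ : Fin n => false) else 0)
        + (if s ∈ F then cmp x (C s) else 0)) with hω
      have hrt : (r.trace : ℂ) = ((r.trace.re : ℝ) : ℂ) := by
        rw [hrtr]; simp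
      have hωA : ∀ s, Adm Q s (ω s) := by
        intro s
        refine ((hτ1 s).smul (hl k0)).add (Adm.add ?_ ?_)
        · split_ifs with h
          · subst h
            rw [hrt]
            exact (Adm.kerD_bot n).smul (Complex.nonneg_iff.mp hr.trace_nonneg).1
          · exact Adm.zero s
        · split_ifs with h
          · exact (hσ'A (Fin.cons true s)).contract x
          · exact Adm.zero s
      have hωt : ∀ s, (ω s).trace = (ν s : ℂ) := by
        intro s
        rw [hω, hν]
        simp only [if_true, one_mul]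
        rw [Matrix.trace_add, Matrix.trace_add, Matrix.trace_smul, hτtr]
        push_cast
        rw [smul_eq_mul]
        congr 1
        by_cases h : s = (fun _ => false)
        · subst h
          rw [if_pos rfl, if_neg hbotF, Matrix.trace_smul, kerD_bot_trace hQ1, hrtr]
          simp
        · rw [if_neg h]
          by_cases hs : s ∈ F
          · rw [if_pos hs, hx1 s hs, hCtr]; simp
          · rw [if_neg hs]
            have := hC0 s hs h
            have h2 := hCtr s
            rw [this] at h2
            simp at h2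
            simp [← h2]
      have h1 := ih ν ω hωA hωt (hGsub _ (fun s hs => by
            by_contra hcon
            push Not at hcon
            apply hs; rw [hν]; simp only; rw [hcon.1, hcon.2]; simp))
      have hsumω : ∑ s, ω s = ((lam k0 : ℝ) : ℂ) • B
          + r.trace • kerD Q (fun _ : Fin n => false) + ∑ s ∈ F, cmp x (C s) := by
        rw [hω]
        simp only
        rw [Finset.sum_add_distrib, Finset.sum_add_distrib, ← Finset.smul_sum, ← hB,
          Finset.sum_ite_eq' , if_pos (Finset.mem_univ _), Finset.sum_ite_mem, Finset.univ_inter]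
        abel
      rw [hsumω] at h1
      exact h1
    · apply Finset.prod_nonneg
      intro y _
      have : 0 ≤ aw lam k0 (fun s => lam k0 * μ' (Fin.cons false s) + (if k0 = k0 then 1 else 0) * μ' (Fin.cons true s)) y := by
        apply aw_nonneg lam hl
        intro s
        have hn : ∀ s, 0 ≤ μ' s := by
          intro s
          have := ((hσ'A s).psd hQp).trace_nonneg
          rw [hμ't s] at this
          exact_mod_cast this
        have := hn (Fin.cons false s)
        have := hn (Fin.cons true s)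
        have := hl k0
        split_ifs <;> positivity
      positivity
    · apply Finset.prod_nonneg
      intro k _
      have htc : (0:ℂ) < (t:ℂ) := by exact_mod_cast ht
      have h1 : ((t : ℂ) • (1 : Matrix (Fin n → κ) (Fin n → κ) ℂ)).PosDef := Matrix.PosDef.one.smul htc
      exact (dt_pos (h1.add_posSemidef (hBp.smul (by exact_mod_cast hl k)))).le

end Run7.h455
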