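import Pool.Agent.Run7.h455.Flat

set_option autoImplicit false
open Matrix
open scoped ComplexOrder MatrixOrder Kronecker

namespace Run7.h455

variable {κ : Type} [Fintype κ] [DecidableEq κ]

/-- the marking relation on the remaining sites -/
def nx {n : ℕ} (W : (Fin (n+1) → Bool) → Fin (n+1) → Prop) : (Fin n → Bool) → Fin n → Prop :=
  fun u j => W (Fin.cons false u) j.succ ∨ W (Fin.cons true u) j.succ

/-- the operators on the sites of `s` which can be removed at each of the first `m` sites: there they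
split into a part satisfying the reduction criterion, which is replaced by its partial trace, and a
part whose diagonal at the site is the given vector, which is replaced by one of its blocks; on the
later sites they satisfy the reduction criterion unless marked -/
def Cls (Q : Matrix κ κ ℂ) : (m n : ℕ) → (Fin n → Matrix κ κ ℂ) → (Fin n → κ → ℝ) → ((Fin n → Bool) → Fin n → Prop) →
    (Fin n → Bool) → Matrix (Fin n → κ) (Fin n → κ) ℂ → Prop
  | 0, _, _, _, W, s, σ => ∀ j, s j = true → ¬ W s j → Rd j σ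
  | _ + 1, 0, _, _, _, _, _ => True
  | m + 1, n + 1, e, p, W, s, σ =>
      (s 0 = true → s ≠ (fun _ => true) → ∃ σ1 σ2, σ = σ1 + σ2 ∧ Adm Q s σ1 ∧ Adm Q s σ2 ∧
        RC (tl σ1) ∧
        Cls Q m n (fun j => e j.succ) (fun j => p j.succ) (nx W) (fun j => s j.succ) (ptr (tl σ1)) ∧
        (∀ a, (cmp (e 0 a) (tl σ2)).trace = (p 0 a : ℂ) * σ2.trace) ∧
        ∀ a, Cls Q m n (fun j => e j.succ) (fun j => p j.succ) (nx W) (fun j => s j.succ)
          (cmp (e 0 a) (tl σ2))) ∧
      (s 0 = false → Cls Q m n (fun j => e j.succ) (fun j => p j.succ) (nx W) (fun j => s j.succ) (ptr (tl σ)))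

/-- after `m` sites the refined elimination condition holds -/
def Good3 : (m n : ℕ) → ((Fin n → Bool) → Fin n → Prop) → Prop
  | 0, n, W => Good2 n W
  | _ + 1, 0, _ => True
  | m + 1, n + 1, W => Good3 m n (nx W)

omit [Fintype κ] [DecidableEq κ] in
lemma tl_zero {n : ℕ} : tl (0 : Matrix (Fin (n+1) → κ) (Fin (n+1) → κ) ℂ) = 0 := by
  ext i j; rfl

omit [Fintype κ] [DecidableEq κ] in
lemma tl_smul {n : ℕ} (c : ℂ) (σ : Matrix (Fin (n+1) → κ) (Fin (n+1) → κ) ℂ) :
    tl (c • σ) = c • tl σ := by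
  ext i j; rfl

section cm
variable {N : Type*} [Fintype N] [DecidableEq N]

lemma cmp_zero (x : κ → ℂ) : cmp x (0 : Matrix (κ × N) (κ × N) ℂ) = 0 := by
  simp [cmp]

lemma cmp_add (x : κ → ℂ) (C D : Matrix (κ × N) (κ × N) ℂ) : cmp x (C + D) = cmp x C + cmp x D := by
  simp only [cmp, Matrix.mul_add, Matrix.add_mul]

lemma cmp_smul (x : κ → ℂ) (c : ℂ) (C : Matrix (κ × N) (κ × N) ℂ) : cmp x (c • C) = c • cmp x C := by
  simp only [cmp, Matrix.mul_smul, Matrix.smul_mul]

lemma ptr_smul (c : ℂ) (C : Matrix (κ × N) (κ × N) ℂ) : ptr (c • C) = c • ptr C := by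
  ext i j; simp [ptr, Finset.mul_sum]

lemma RC.smul {C : Matrix (κ × N) (κ × N) ℂ} (h : RC C) {c : ℝ} (hc : 0 ≤ c) : RC ((c : ℂ) • C) := by
  rw [RC, ptr_smul, Matrix.kronecker_smul, ← smul_sub]
  exact Matrix.PosSemidef.smul h (by exact_mod_cast hc)

end cm

lemma Cls.zero (Q : Matrix κ κ ℂ) : ∀ (m n : ℕ) (e : Fin n → Matrix κ κ ℂ) (p : Fin n → κ → ℝ)
    (W : (Fin n → Bool) → Fin n → Prop) (s : Fin n → Bool), Cls Q m n e p W s 0
  | 0, _, _, _, _, _ => fun j _ _ => Rd.zero j
  | _ + 1, 0, _, _, _, _ => trivial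
  | m + 1, n + 1, e, p, W, s => by
    refine ⟨fun _ _ => ⟨0, 0, by simp, Adm.zero s, Adm.zero s, ?_, ?_, ?_, ?_⟩, fun _ => ?_⟩
    · rw [tl_zero]; exact RC.zero
    · rw [tl_zero, ptr_zero]; exact Cls.zero Q m n _ _ _ _
    · intro a; rw [tl_zero, cmp_zero]; simp
    · intro a; rw [tl_zero, cmp_zero]; exact Cls.zero Q m n _ _ _ _
    · rw [tl_zero, ptr_zero]; exact Cls.zero Q m n _ _ _ _

lemma Cls.add (Q : Matrix κ κ ℂ) : ∀ (m n : ℕ) (e : Fin n → Matrix κ κ ℂ) (p : Fin n → κ → ℝ)
    (W : (Fin n → Bool) → Fin n → Prop) (s : Fin n → Bool)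
    (σ τ : Matrix (Fin n → κ) (Fin n → κ) ℂ), Cls Q m n e p W s σ → Cls Q m n e p W s τ →
    Cls Q m n e p W s (σ + τ)
  | 0, _, _, _, _, _, _, _ => fun h h' j h1 h2 => (h j h1 h2).add (h' j h1 h2)
  | _ + 1, 0, _, _, _, _, _, _ => fun _ _ => trivial
  | m + 1, n + 1, e, p, W, s, σ, τ => by
    rintro ⟨h1, h2⟩ ⟨h1', h2'⟩
    refine ⟨fun hs hs' => ?_, fun hs => ?_⟩
    · obtain ⟨σ1, σ2, rfl, a1, a2, a3, a4, a5, a6⟩ := h1 hs hs'
      obtain ⟨τ1, τ2, rfl, b1, b2, b3, b4, b5, b6⟩ := h1' hs hs'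
      refine ⟨σ1 + τ1, σ2 + τ2, by abel, a1.add b1, a2.add b2, ?_, ?_, ?_, ?_⟩
      · rw [tl_add]; exact a3.add b3
      · rw [tl_add, ptr_add]; exact Cls.add Q m n _ _ _ _ _ _ a4 b4
      · intro a; rw [tl_add, cmp_add, Matrix.trace_add, Matrix.trace_add, a5, b5]; ring
      · intro a; rw [tl_add, cmp_add]; exact Cls.add Q m n _ _ _ _ _ _ (a6 a) (b6 a)
    · rw [tl_add, ptr_add]; exact Cls.add Q m n _ _ _ _ _ _ (h2 hs) (h2' hs)

lemma Cls.smul (Q : Matrix κ κ ℂ) {c : ℝ} (hc : 0 ≤ c) : ∀ (m n : ℕ) (e : Fin n → Matrix κ κ ℂ) (p : Fin n → κ → ℝ)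
    (W : (Fin n → Bool) → Fin n → Prop) (s : Fin n → Bool)
    (σ : Matrix (Fin n → κ) (Fin n → κ) ℂ), Cls Q m n e p W s σ → Cls Q m n e p W s ((c : ℂ) • σ)
  | 0, _, _, _, _, _, _ => fun h j h1 h2 => (h j h1 h2).smul hc
  | _ + 1, 0, _, _, _, _, _ => fun _ => trivial
  | m + 1, n + 1, e, p, W, s, σ => by
    rintro ⟨h1, h2⟩
    refine ⟨fun hs hs' => ?_, fun hs => ?_⟩
    · obtain ⟨σ1, σ2, rfl, a1, a2, a3, a4, a5, a6⟩ := h1 hs hs'
      refine ⟨(c : ℂ) • σ1, (c : ℂ) • σ2, by rw [smul_add], a1.smul hc, a2.smul hc, ?_, ?_, ?_, ?_⟩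
      · rw [tl_smul]; exact a3.smul hc
      · rw [tl_smul, ptr_smul]; exact Cls.smul Q hc m n _ _ _ _ _ a4
      · intro a; rw [tl_smul, cmp_smul, Matrix.trace_smul, Matrix.trace_smul, a5]
        simp only [smul_eq_mul]; ring
      · intro a; rw [tl_smul, cmp_smul]; exact Cls.smul Q hc m n _ _ _ _ _ (a6 a)
    · rw [tl_smul, ptr_smul]; exact Cls.smul Q hc m n _ _ _ _ _ (h2 hs)

/-- the empty set of sites -/
lemma Cls.bot (Q : Matrix κ κ ℂ) : ∀ (m n : ℕ) (e : Fin n → Matrix κ κ ℂ) (p : Fin n → κ → ℝ)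
    (W : (Fin n → Bool) → Fin n → Prop)
    (σ : Matrix (Fin n → κ) (Fin n → κ) ℂ), Cls Q m n e p W (fun _ => false) σ
  | 0, _, _, _, _, _ => fun j h _ => by simp at h
  | _ + 1, 0, _, _, _, _ => trivial
  | m + 1, n + 1, e, p, W, σ => ⟨fun h => by simp at h, fun _ => Cls.bot Q m n _ _ _ _⟩

/-- determinant form of spin alignment for the refined classes -/
theorem dsac3 {Q V P : Matrix κ κ ℂ} {lam : κ → ℝ} {k0 : κ} (hQp : Q.PosSemidef) (hQ1 : Q.trace = 1)
    (hV : V * star V = 1) (hQ : Q = V * Matrix.diagonal (fun k => (lam k : ℂ)) * star V)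
    (hP : P = V * Matrix.diagonal (Pi.single k0 (1:ℂ)) * star V)
    (hc : (((lam k0 : ℝ) : ℂ) • (1 : Matrix κ κ ℂ) - Q).PosSemidef) (hl : ∀ k, 0 ≤ lam k)
    {t : ℝ} (ht : 0 < t) : ∀ (m n : ℕ) (e : Fin n → Matrix κ κ ℂ) (p : Fin n → κ → ℝ)
    (μ : (Fin n → Bool) → ℝ) (σ : (Fin n → Bool) → Matrix (Fin n → κ) (Fin n → κ) ℂ)
    (W : (Fin n → Bool) → Fin n → Prop), (∀ j, e j * star (e j) = 1) → (∀ j a, 0 ≤ p j a) → (∀ j, ∑ a, p j a = 1) →
    (∀ s, Adm Q s (σ s)) → (∀ s, (σ s).trace = (μ s : ℂ)) → Good3 m n W →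
    (∀ s, Cls Q m n e p W s (σ s)) →
    ∏ x, (t + aw lam k0 μ x) ≤ dt ((t : ℂ) • (1 : Matrix (Fin n → κ) (Fin n → κ) ℂ) + ∑ s, σ s) := by
  classical
  intro m
  induction m with
  | zero =>
    intro n e p μ σ W _ _ _ hσ hμ hG hC
    exact dsac2 hQp hQ1 hV hQ hP hc hl ht n μ σ W hσ hμ hG hC
  | succ m ih =>
    intro n
    cases n with
    | zero =>
      intro e p μ σ W _ _ _ hσ hμ _ _
      exact dsac2 hQp hQ1 hV hQ hP hc hl ht 0 μ σ W hσ hμ trivial (fun s j => j.elim0)
    | succ n =>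
      intro e p μ σ W he hp0 hp1 hσ hμ hG hC
      apply full_step hQp hQ1 hc hl μ σ hσ hμ ht
      set μ' := Function.update μ (fun _ => true) 0 with hμ'
      set σ' := Function.update σ (fun _ => true) 0 with hσ'
      have hσ'A : ∀ s, Adm Q s (σ' s) := by
        intro s
        by_cases hs : s = (fun _ => true)
        · rw [hs, hσ', Function.update_self]; exact Adm.zero _
        · rw [hσ', Function.update_of_ne hs]; exact hσ s
      have hμ't : ∀ s, (σ' s).trace = (μ' s : ℂ) := by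
        intro s
        by_cases hs : s = (fun _ => true)
        · rw [hs, hσ', hμ', Function.update_self, Function.update_self]; simp
        · rw [hσ', hμ', Function.update_of_ne hs, Function.update_of_ne hs]; exact hμ s
      have hC' : ∀ s, Cls Q (m+1) (n+1) e p W s (σ' s) := by
        intro s
        by_cases hs : s = (fun _ => true)
        · rw [hs, hσ', Function.update_self]; exact Cls.zero Q _ _ _ _ _ _
        · rw [hσ', Function.update_of_ne hs]; exact hC s
      have hfull : σ' (Fin.cons true (fun _ => true)) = 0 := by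
        have : (Fin.cons true (fun _ : Fin n => true) : Fin (n+1) → Bool) = (fun _ => true) := by
          ext j; refine Fin.cases ?_ (fun i => ?_) j <;> simp
        rw [this, hσ', Function.update_self]
      clear_value μ' σ'
      -- strip
      have hstrip : ∀ s : Fin n → Bool, ∃ τ, Adm Q s τ ∧ tl (σ' (Fin.cons false s)) = Q ⊗ₖ τ :=
        fun s => (hσ'A (Fin.cons false s)).strip k0
      choose τ hτ1 hτ2 using hstrip
      have hτtr : ∀ s, (τ s).trace = (μ' (Fin.cons false s) : ℂ) := by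
        intro s
        have h1 := hμ't (Fin.cons false s)
        rw [← tl_trace, hτ2, Matrix.trace_kronecker, hQ1, one_mul] at h1
        exact h1
      have hτC : ∀ s, Cls Q m n (fun j => e j.succ) (fun j => p j.succ) (nx W) s (τ s) := by
        intro s
        have h3 := (hC' (Fin.cons false s)).2 (by simp)
        rw [hτ2, ptr_kron, hQ1, one_smul] at h3
        exact h3
      have hdec : ∀ s : Fin n → Bool, ∃ σ1 σ2, σ' (Fin.cons true s) = σ1 + σ2 ∧
          Adm Q (Fin.cons true s : Fin (n+1) → Bool) σ1 ∧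
          Adm Q (Fin.cons true s : Fin (n+1) → Bool) σ2 ∧ RC (tl σ1) ∧
          Cls Q m n (fun j => e j.succ) (fun j => p j.succ) (nx W) s (ptr (tl σ1)) ∧
          (∀ a, (cmp (e 0 a) (tl σ2)).trace = (p 0 a : ℂ) * σ2.trace) ∧
          ∀ a, Cls Q m n (fun j => e j.succ) (fun j => p j.succ) (nx W) s (cmp (e 0 a) (tl σ2)) := by
        intro s
        by_cases hs : (Fin.cons true s : Fin (n+1) → Bool) = (fun _ => true)
        · have hs2 : s = (fun _ => true) := by
            ext j
            have := congrFun hs j.succ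
            simpa using this
          subst hs2
          refine ⟨0, 0, by rw [hfull, add_zero], Adm.zero _, Adm.zero _, ?_, ?_, ?_, ?_⟩
          · rw [tl_zero]; exact RC.zero
          · rw [tl_zero, ptr_zero]; exact Cls.zero Q m n _ _ _ _
          · intro a; rw [tl_zero, cmp_zero]; simp
          · intro a; rw [tl_zero, cmp_zero]; exact Cls.zero Q m n _ _ _ _
        · exact (hC' (Fin.cons true s)).1 (by simp) hs
      choose σ1 σ2 hd1 hd2 hd3 hd4 hd5 hd6 hd7 using hdec
      set Cr := ∑ s, tl (σ1 s) with hCr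
      set CD := ∑ s, tl (σ2 s) with hCD
      have hp1s : ∀ s, (tl (σ1 s)).PosSemidef := fun s => ((hd2 s).psd hQp).submatrix _
      have hp2s : ∀ s, (tl (σ2 s)).PosSemidef := fun s => ((hd3 s).psd hQp).submatrix _
      have hCrp : Cr.PosSemidef := Matrix.posSemidef_sum _ fun s _ => hp1s s
      have hCDp : CD.PosSemidef := Matrix.posSemidef_sum _ fun s _ => hp2s s
      have hCrR : RC Cr := RC.sum _ _ (fun s _ => hd4 s)
      have hz : ∀ a, p 0 a = 0 → cmp (e 0 a) CD = 0 := by
        intro a ha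
        rw [hCD, cmp_sum]
        refine Finset.sum_eq_zero fun s _ => ?_
        rw [← (cmp_psd _ (hp2s s)).trace_eq_zero_iff, hd6, ha]; simp
      set B := ∑ s, τ s with hB
      have hBp : B.PosSemidef := Matrix.posSemidef_sum _ fun s _ => (hτ1 s).psd hQp
      have htot : tl (∑ s, σ' s) = Q ⊗ₖ B + Cr + CD := by
        rw [sum_cons, tl_add, tl_sum, tl_sum]
        have e1 : ∑ s, tl (σ' (Fin.cons false s)) = Q ⊗ₖ B := by
          simp only [hτ2]
          ext p q
          simp only [Matrix.sum_apply, Matrix.kroneckerMap_apply, hB, Finset.mul_sum]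
        have e2 : ∑ s, tl (σ' (Fin.cons true s)) = Cr + CD := by
          rw [hCr, hCD, ← Finset.sum_add_distrib]
          refine Finset.sum_congr rfl fun s _ => ?_
          rw [hd1, tl_add]
        rw [e1, e2]; abel
      obtain ⟨a, hpa, hx2⟩ := step3 (he 0) hQp hV hQ hP hc (hl k0) hBp hCrp hCrR hCDp (p 0) (hp0 0)
        (hp1 0) hz ht
      rw [tl_shift, htot]
      refine le_trans ?_ hx2
      rw [prod_cons]
      simp only [aw_cons]
      rw [← Finset.prod_erase_mul _ _ (Finset.mem_univ k0)]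
      have hn : ∀ s, 0 ≤ μ' s := by
        intro s
        have := ((hσ'A s).psd hQp).trace_nonneg
        rw [hμ't s] at this
        exact_mod_cast this
      have hawn : ∀ k y, 0 ≤ t + aw lam k0 (fun s => lam k * μ' (Fin.cons false s)
          + (if k = k0 then 1 else 0) * μ' (Fin.cons true s)) y := by
        intro k y
        have : 0 ≤ aw lam k0 (fun s => lam k * μ' (Fin.cons false s)
            + (if k = k0 then 1 else 0) * μ' (Fin.cons true s)) y := by
          apply aw_nonneg lam hl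
          intro s
          have := hn (Fin.cons false s)
          have := hn (Fin.cons true s)
          have := hl k
          split_ifs <;> positivity
        positivity
      have hpinv : 0 ≤ (p 0 a)⁻¹ := (inv_pos.mpr hpa).le
      apply mul_le_mul
      · apply Finset.prod_le_prod
        · intro k hk
          exact Finset.prod_nonneg fun y _ => hawn k y
        · intro k hk
          have hk0 : k ≠ k0 := Finset.ne_of_mem_erase hk
          have h1 := ih n (fun j => e j.succ) (fun j => p j.succ) (fun s => lam k * μ' (Fin.cons false s)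
            + (if k = k0 then 1 else 0) * μ' (Fin.cons true s)) (fun s => (lam k : ℂ) • τ s)
            (nx W) (fun j => he j.succ) (fun j => hp0 j.succ) (fun j => hp1 j.succ)
            (fun s => (hτ1 s).smul (hl k)) (fun s => by
              rw [Matrix.trace_smul, hτtr, if_neg hk0]; push_cast; simp)
            hG (fun s => Cls.smul Q (hl k) _ _ _ _ _ _ _ (hτC s))
          rw [← Finset.smul_sum] at h1
          exact h1
      · set ν : (Fin n → Bool) → ℝ := fun s => lam k0 * μ' (Fin.cons false s)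
          + (if k0 = k0 then 1 else 0) * μ' (Fin.cons true s) with hν
        set ω : (Fin n → Bool) → Matrix (Fin n → κ) (Fin n → κ) ℂ := fun s => ((lam k0 : ℝ) : ℂ) • τ s
          + (ptr (tl (σ1 s)) + (((p 0 a)⁻¹ : ℝ) : ℂ) • cmp (e 0 a) (tl (σ2 s))) with hω
        have hωA : ∀ s, Adm Q s (ω s) := fun s =>
          ((hτ1 s).smul (hl k0)).add ((hd2 s).ptr.add (((hd3 s).contract _).smul hpinv))
        have hωt : ∀ s, (ω s).trace = (ν s : ℂ) := by
          intro s
          rw [hω, hν]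
          simp only [if_true, one_mul]
          rw [Matrix.trace_add, Matrix.trace_smul, hτtr, Matrix.trace_add, ptr_trace, tl_trace,
            Matrix.trace_smul, hd6]
          have h4 : (μ' (Fin.cons true s) : ℂ) = (σ1 s).trace + (σ2 s).trace := by
            rw [← hμ't, hd1, Matrix.trace_add]
          have hpc : ((p 0 a : ℝ) : ℂ) ≠ 0 := by exact_mod_cast hpa.ne'
          push_cast
          rw [h4, smul_eq_mul, smul_eq_mul, ← mul_assoc, inv_mul_cancel₀ hpc, one_mul]
        have h1 := ih n (fun j => e j.succ) (fun j => p j.succ) ν ω (nx W) (fun j => he j.succ) (fun j => hp0 j.succ) (fun j => hp1 j.succ)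
          hωA hωt hG (fun s => Cls.add Q _ _ _ _ _ _ _ _ (Cls.smul Q (hl k0) _ _ _ _ _ _ _ (hτC s))
            (Cls.add Q _ _ _ _ _ _ _ _ (hd5 s) (Cls.smul Q hpinv _ _ _ _ _ _ _ (hd7 s a))))
        have hsumω : ∑ s, ω s = ((lam k0 : ℝ) : ℂ) • B + ptr Cr
            + (((p 0 a)⁻¹ : ℝ) : ℂ) • cmp (e 0 a) CD := by
          rw [hω]
          simp only
          rw [Finset.sum_add_distrib, Finset.sum_add_distrib, ← Finset.smul_sum, ← hB, ← ptr_sum,
            ← Finset.smul_sum, ← cmp_sum, ← add_assoc]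
        rw [hsumω] at h1
        exact h1
      · exact Finset.prod_nonneg fun y _ => hawn k0 y
      · apply Finset.prod_nonneg
        intro k _
        have htc : (0:ℂ) < (t:ℂ) := by exact_mod_cast ht
        have h1 : ((t : ℂ) • (1 : Matrix (Fin n → κ) (Fin n → κ) ℂ)).PosDef := Matrix.PosDef.one.smul htc
        exact (dt_pos (h1.add_posSemidef (hBp.smul (by exact_mod_cast hl k)))).le

end Run7.h455
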