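import Pool.Agent.Run7.h455.Cons

set_option autoImplicit false
open Matrix
open scoped ComplexOrder MatrixOrder Kronecker

namespace Run7.h455

variable {κ : Type} [Fintype κ] [DecidableEq κ]

/-- determinant form of spin alignment for combinations of families of marginals -/
theorem dsacC {Q V P : Matrix κ κ ℂ} {lam : κ → ℝ} {k0 : κ} (hQp : Q.PosSemidef) (hQ1 : Q.trace = 1)
    (hV : V * star V = 1) (hQ : Q = V * Matrix.diagonal (fun k => (lam k : ℂ)) * star V)
    (hP : P = V * Matrix.diagonal (Pi.single k0 (1:ℂ)) * star V)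
    (hc : (((lam k0 : ℝ) : ℂ) • (1 : Matrix κ κ ℂ) - Q).PosSemidef) (hl : ∀ k, 0 ≤ lam k)
    {t : ℝ} (ht : 0 < t) : ∀ (n : ℕ) (ℋ : Type) [Fintype ℋ] (ν : ℋ → (Fin n → Bool) → ℝ)
    (Ω : ℋ → Matrix (Fin n → κ) (Fin n → κ) ℂ)
    (μ : (Fin n → Bool) → ℝ) (σ : (Fin n → Bool) → Matrix (Fin n → κ) (Fin n → κ) ℂ),
    (∀ s, Adm Q s (σ s)) → (∀ s, (σ s).trace = (μ s : ℂ)) → GoodC n ℋ ν →
    (∀ s, s ≠ (fun _ => false) → s ≠ (fun _ => true) → σ s = ∑ H, (ν H s : ℂ) • pr Q s (Ω H)) →
    ∏ x, (t + aw lam k0 μ x) ≤ dt ((t : ℂ) • (1 : Matrix (Fin n → κ) (Fin n → κ) ℂ) + ∑ s, σ s) := by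
  classical
  intro n
  induction n with
  | zero =>
    intro ℋ _ ν Ω μ σ hσ hμ _ _
    have h1 : ∏ x : Fin 0 → κ, (t + aw lam k0 μ x) = t + μ (fun _ => false) := by
      rw [Fintype.prod_subsingleton _ (fun _ => k0 : Fin 0 → κ), aw,
        Fintype.sum_subsingleton _ (fun _ => false : Fin 0 → Bool), Fintype.prod_empty, mul_one]
    have h2 : dt ((t : ℂ) • (1 : Matrix (Fin 0 → κ) (Fin 0 → κ) ℂ) + ∑ s, σ s) = t + μ (fun _ => false) := by
      have h3 := congrArg Complex.re (hμ (fun _ => false))
      rw [Matrix.trace, Fintype.sum_subsingleton _ (fun _ => k0 : Fin 0 → κ), Complex.ofReal_re,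
        Matrix.diag_apply] at h3
      rw [dt, Matrix.det_eq_elem_of_subsingleton _ (fun _ => k0 : Fin 0 → κ),
        Fintype.sum_subsingleton _ (fun _ => false : Fin 0 → Bool), Matrix.add_apply, Complex.add_re,
        Matrix.smul_apply, Matrix.one_apply_eq, h3]
      simp
    rw [h1, h2]
  | succ n ih =>
    intro ℋ _ ν Ω μ σ hσ hμ hG hfam
    apply full_step hQp hQ1 hc hl μ σ hσ hμ ht
    set μ' := Function.update μ (fun _ => true) 0 with hμ'
    set σ' := Function.update σ (fun _ => true) 0 with hσ'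
    have hσ'A : ∀ s, Adm Q s (σ' s) := by
      intro s
      by_cases hs : s = (fun _ => true)
      · rw [hs, hσ', Function.update_self]; exact Adm.zero _
      · rw [hσ', Function.update_of_ne hs]; exact hσ s
    have hμ't : ∀ s, (σ' s).trace = (μ' s : ℂ) := by
      intro s
      by_cases hs : s = (fun _ => true)
      · rw [hs, hσ', hμ', Function.update_self, Function.update_self]; simp
      · rw [hσ', hμ', Function.update_of_ne hs, Function.update_of_ne hs]; exact hμ s
    have hfam' : ∀ s, s ≠ (fun _ => false) → s ≠ (fun _ => true) →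
        σ' s = ∑ H, (ν H s : ℂ) • pr Q s (Ω H) := by
      intro s h1 h2
      rw [hσ', Function.update_of_ne h2]; exact hfam s h1 h2
    have hfull : μ' (Fin.cons true (fun _ => true)) = 0 := by
      rw [cons_full, hμ', Function.update_self]
    clear_value μ' σ'
    obtain ⟨hG1, hG2⟩ := hG
    -- strip
    have hstrip : ∀ s : Fin n → Bool, ∃ τ, Adm Q s τ ∧ tl (σ' (Fin.cons false s)) = Q ⊗ₖ τ :=
      fun s => (hσ'A (Fin.cons false s)).strip k0
    choose τ hτ1 hτ2 using hstrip
    have hτtr : ∀ s, (τ s).trace = (μ' (Fin.cons false s) : ℂ) := by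
      intro s
      have h1 := hμ't (Fin.cons false s)
      rw [← tl_trace, hτ2, Matrix.trace_kronecker, hQ1, one_mul] at h1
      exact h1
    have hτfam : ∀ s, s ≠ (fun _ => false) → τ s = ∑ H, (ν H (Fin.cons false s) : ℂ) • pr Q s (ptr (tl (Ω H))) := by
      intro s hs
      have h0 : (Fin.cons false s : Fin (n+1) → Bool) ≠ fun _ => false := by
        intro h
        apply hs
        funext j
        have := congrFun h j.succ
        simpa using this
      have h1 : τ s = ptr (tl (σ' (Fin.cons false s))) := by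
        rw [hτ2, ptr_kron, hQ1, one_smul]
      rw [h1, hfam' _ h0 (cons_false_ne s), tl_sum, ptr_sum]
      refine Finset.sum_congr rfl fun H _ => ?_
      have h2 : tl ((ν H (Fin.cons false s) : ℂ) • pr Q (Fin.cons false s) (Ω H))
          = (ν H (Fin.cons false s) : ℂ) • (Q ⊗ₖ pr Q s (ptr (tl (Ω H)))) := by
        rw [← tl_pr_false]; rfl
      have h3 : ptr ((ν H (Fin.cons false s) : ℂ) • (Q ⊗ₖ pr Q s (ptr (tl (Ω H)))))
          = (ν H (Fin.cons false s) : ℂ) • ptr (Q ⊗ₖ pr Q s (ptr (tl (Ω H)))) := by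
        ext i j; simp [ptr, Finset.mul_sum]
      rw [h2, h3, ptr_kron, hQ1, one_smul]
    obtain ⟨r, hr, hr2⟩ := (hσ'A (Fin.cons true (fun _ => false))).single k0
    set C : (Fin n → Bool) → Matrix (κ × (Fin n → κ)) (κ × (Fin n → κ)) ℂ :=
      fun s => tl (σ' (Fin.cons true s)) with hCdef
    have hCp : ∀ s, (C s).PosSemidef := fun s => ((hσ'A _).psd hQp).submatrix _
    have hCtr : ∀ s, (C s).trace = (μ' (Fin.cons true s) : ℂ) := fun s => by
      rw [hCdef]; simp only; rw [tl_trace]; exact hμ't _
    have hcne : ∀ s : Fin n → Bool, (Fin.cons true s : Fin (n+1) → Bool) ≠ fun _ => false := by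
      intro s h
      have := congrFun h 0
      simp at this
    have hCfam : ∀ s, s ≠ (fun _ => true) → C s = ∑ H, (ν H (Fin.cons true s) : ℂ) • tl (pr Q (Fin.cons true s) (Ω H)) := by
      intro s hs
      rw [hCdef]; simp only
      rw [hfam' _ (hcne s) (cons_ne_full hs true), tl_sum]
      rfl
    set F : Finset (Fin n → Bool) := Finset.univ.filter (fun s => s ≠ (fun _ => false) ∧ s ≠ (fun _ => true)) with hF
    have hRCs : ∀ s ∈ Fᶜ, RC (C s) := by
      intro s hs
      rw [Finset.mem_compl] at hs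
      by_cases h0 : s = (fun _ => false)
      · rw [h0, hCdef]; simp only; rw [hr2]
        exact RC.kron hr (kerD_psd hQp _)
      by_cases h1 : s = (fun _ => true)
      · have : C s = 0 := by
          rw [← (hCp s).trace_eq_zero_iff, hCtr, h1, hfull]; simp
        rw [this]; exact RC.zero
      exact absurd (by rw [hF, Finset.mem_filter]; exact ⟨Finset.mem_univ _, h0, h1⟩) hs
    -- the space of the marginals
    let Λ : (ℋ → ℝ) →ₗ[ℝ] Matrix κ κ ℂ :=
      { toFun := fun c => ∑ H, c H • mg (tl (Ω H))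
        map_add' := fun c c' => by
          simp only [Pi.add_apply, add_smul, Finset.sum_add_distrib]
        map_smul' := fun a c => by
          simp only [Pi.smul_apply, smul_eq_mul, mul_smul, Finset.smul_sum, RingHom.id_apply] }
    set Sp := Submodule.span ℝ {c : ℋ → ℝ | ∃ s : Fin n → Bool,
        s ≠ (fun _ => false) ∧ s ≠ (fun _ => true) ∧ c = fun H => ν H (Fin.cons true s)} with hSp
    have hL : Module.finrank ℝ (Sp.map Λ) ≤ 3 := le_trans (Submodule.finrank_map_le _ _) hG1
    have hFm : ∀ s ∈ F, mg (C s) ∈ Sp.map Λ := by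
      intro s hs
      rw [hF, Finset.mem_filter] at hs
      refine ⟨fun H => ν H (Fin.cons true s), Submodule.subset_span ⟨s, hs.2.1, hs.2.2, rfl⟩, ?_⟩
      rw [hCfam s hs.2.2, mg_sum]
      show ∑ H, ν H (Fin.cons true s) • mg (tl (Ω H)) = _
      refine Finset.sum_congr rfl fun H _ => ?_
      rw [mg_smul, mg_pr hQ1, Complex.coe_smul]
    set Cr := ∑ s ∈ Fᶜ, C s with hCr
    have hCrp : Cr.PosSemidef := Matrix.posSemidef_sum _ fun s _ => hCp s
    have hCrR : RC Cr := RC.sum _ _ hRCs
    have hsumC : ∑ s, C s = Cr + ∑ s ∈ F, C s := by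
      rw [hCr, Finset.sum_compl_add_sum]
    set B := ∑ s, τ s with hB
    have hBp : B.PosSemidef := Matrix.posSemidef_sum _ fun s _ => (hτ1 s).psd hQp
    have htot : tl (∑ s, σ' s) = Q ⊗ₖ B + Cr + ∑ s ∈ F, C s := by
      rw [sum_cons, tl_add, tl_sum, tl_sum]
      have e1 : ∑ s, tl (σ' (Fin.cons false s)) = Q ⊗ₖ B := by
        simp only [hτ2]
        ext p q
        simp only [Matrix.sum_apply, Matrix.kroneckerMap_apply, hB, Finset.mul_sum]
      have e2 : ∑ s, tl (σ' (Fin.cons true s)) = Cr + ∑ s ∈ F, C s := by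
        have : ∑ s, tl (σ' (Fin.cons true s)) = ∑ s, C s := rfl
        rw [this, hsumC]
      rw [e1, e2]; abel
    obtain ⟨x, hx1, hx2⟩ := stepS hQp hV hQ hP hc (hl k0) hBp hCrp hCrR F C (Sp.map Λ) hL hFm
      (fun s _ => hCp s) ht
    rw [tl_shift, htot]
    refine le_trans ?_ hx2
    rw [prod_cons]
    simp only [aw_cons]
    rw [← Finset.prod_erase_mul _ _ (Finset.mem_univ k0)]
    have hn : ∀ s, 0 ≤ μ' s := by
      intro s
      have := ((hσ'A s).psd hQp).trace_nonneg
      rw [hμ't s] at this
      exact_mod_cast this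
    have hawn : ∀ k y, 0 ≤ t + aw lam k0 (fun s => lam k * μ' (Fin.cons false s)
        + (if k = k0 then 1 else 0) * μ' (Fin.cons true s)) y := by
      intro k y
      have : 0 ≤ aw lam k0 (fun s => lam k * μ' (Fin.cons false s)
          + (if k = k0 then 1 else 0) * μ' (Fin.cons true s)) y := by
        apply aw_nonneg lam hl
        intro s
        have := hn (Fin.cons false s)
        have := hn (Fin.cons true s)
        have := hl k
        split_ifs <;> positivity
      positivity
    apply mul_le_mul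
    · apply Finset.prod_le_prod
      · intro k hk
        exact Finset.prod_nonneg fun y _ => hawn k y
      · intro k hk
        have hk0 : k ≠ k0 := Finset.ne_of_mem_erase hk
        have h1 := ih (ℋ × Bool) (fun H s => ν H.1 (Fin.cons H.2 s))
          (fun H => if H.2 then 0 else (lam k : ℂ) • ptr (tl (Ω H.1)))
          (fun s => lam k * μ' (Fin.cons false s)
          + (if k = k0 then 1 else 0) * μ' (Fin.cons true s)) (fun s => (lam k : ℂ) • τ s)
          (fun s => (hτ1 s).smul (hl k)) (fun s => by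
            rw [Matrix.trace_smul, hτtr, if_neg hk0]; push_cast; simp)
          hG2 (fun s h1 _ => by
            rw [hτfam s h1, Finset.smul_sum, Fintype.sum_prod_type]
            refine Finset.sum_congr rfl fun H _ => ?_
            rw [Fintype.sum_bool]
            simp only [if_true, Bool.false_eq_true, if_false]
            rw [pr_zero, smul_zero, zero_add, pr_smul, smul_comm])
        rw [← Finset.smul_sum] at h1
        exact h1
    · set ν1 : (Fin n → Bool) → ℝ := fun s => lam k0 * μ' (Fin.cons false s)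
        + (if k0 = k0 then 1 else 0) * μ' (Fin.cons true s) with hν1
      set ω : (Fin n → Bool) → Matrix (Fin n → κ) (Fin n → κ) ℂ := fun s => ((lam k0 : ℝ) : ℂ) • τ s
        + (if s ∈ F then cmp x (C s) else ptr (C s)) with hω
      have hωA : ∀ s, Adm Q s (ω s) := by
        intro s
        refine ((hτ1 s).smul (hl k0)).add ?_
        split_ifs with h
        · exact (hσ'A (Fin.cons true s)).contract x
        · exact (hσ'A (Fin.cons true s)).ptr
      have hωt : ∀ s, (ω s).trace = (ν1 s : ℂ) := by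
        intro s
        rw [hω, hν1]
        simp only [if_true, one_mul]
        rw [Matrix.trace_add, Matrix.trace_smul, hτtr]
        push_cast
        rw [smul_eq_mul]
        congr 1
        by_cases hs : s ∈ F
        · rw [if_pos hs, hx1 s hs, hCtr]
        · rw [if_neg hs, ptr_trace, hCtr]
      have hωfam : ∀ s, s ≠ (fun _ => false) → s ≠ (fun _ => true) →
          ω s = ∑ H : ℋ × Bool, ((fun (H : ℋ × Bool) (s : Fin n → Bool) => ν H.1 (Fin.cons H.2 s)) H s : ℂ)
            • pr Q s ((fun H : ℋ × Bool => if H.2 then cmp x (tl (Ω H.1))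
              else ((lam k0 : ℝ) : ℂ) • ptr (tl (Ω H.1))) H) := by
        intro s h1 h2
        have hsF : s ∈ F := by rw [hF, Finset.mem_filter]; exact ⟨Finset.mem_univ _, h1, h2⟩
        rw [hω]; simp only
        rw [if_pos hsF, hτfam s h1, hCfam s h2, Finset.smul_sum, Fintype.sum_prod_type]
        have e1 : cmp x (∑ H, (ν H (Fin.cons true s) : ℂ) • tl (pr Q (Fin.cons true s) (Ω H)))
            = ∑ H, (ν H (Fin.cons true s) : ℂ) • pr Q s (cmp x (tl (Ω H))) := by
          rw [cmp_sum]
          refine Finset.sum_congr rfl fun H _ => ?_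
          rw [← cmp_pr, cmp, cmp, Matrix.mul_smul, Matrix.smul_mul]
        rw [e1, ← Finset.sum_add_distrib]
        refine Finset.sum_congr rfl fun H _ => ?_
        rw [Fintype.sum_bool]
        simp only [if_true, Bool.false_eq_true, if_false]
        rw [pr_smul, smul_comm, add_comm]
      have h1 := ih (ℋ × Bool) (fun H s => ν H.1 (Fin.cons H.2 s))
        (fun H : ℋ × Bool => if H.2 then cmp x (tl (Ω H.1)) else ((lam k0 : ℝ) : ℂ) • ptr (tl (Ω H.1)))
        ν1 ω hωA hωt hG2 hωfam
      have hsumω : ∑ s, ω s = ((lam k0 : ℝ) : ℂ) • B + ptr Cr + ∑ s ∈ F, cmp x (C s) := by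
        rw [hω]
        simp only
        rw [Finset.sum_add_distrib, ← Finset.smul_sum, ← hB, add_assoc]
        congr 1
        rw [hCr, ptr_sum, ← Finset.sum_compl_add_sum F]
        congr 1
        · refine Finset.sum_congr rfl fun s hs => ?_
          rw [if_neg (Finset.mem_compl.mp hs)]
        · refine Finset.sum_congr rfl fun s hs => ?_
          rw [if_pos hs]
      rw [hsumω] at h1
      exact h1
    · exact Finset.prod_nonneg fun y _ => hawn k0 y
    · apply Finset.prod_nonneg
      intro k _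
      have htc : (0:ℂ) < (t:ℂ) := by exact_mod_cast ht
      have h1 : ((t : ℂ) • (1 : Matrix (Fin n → κ) (Fin n → κ) ℂ)).PosDef := Matrix.PosDef.one.smul htc
      exact (dt_pos (h1.add_posSemidef (hBp.smul (by exact_mod_cast hl k)))).le

end Run7.h455
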