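import Pool.Agent.Run7.h455.StepS

set_option autoImplicit false
open Matrix
open scoped ComplexOrder MatrixOrder Kronecker

namespace Run7.h455

variable {κ : Type} [Fintype κ] [DecidableEq κ]

lemma sum_upd {n : ℕ} (α β : (Fin n → Bool) → Matrix (Fin n → κ) (Fin n → κ) ℂ) (s0 : Fin n → Bool) :
    Function.update (fun s => α s + β s) s0 0
      = fun s => Function.update α s0 0 s + Function.update β s0 0 s := by
  funext s
  by_cases h : s = s0
  · subst h; simp
  · simp [Function.update_of_ne h]

/-- determinant form of spin alignment when the reduction criterion fails only for pairs, whose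
marginals lie in small spaces -/
theorem dsacP {Q V P : Matrix κ κ ℂ} {lam : κ → ℝ} {k0 : κ} (hQp : Q.PosSemidef) (hQ1 : Q.trace = 1)
    (hV : V * star V = 1) (hQ : Q = V * Matrix.diagonal (fun k => (lam k : ℂ)) * star V)
    (hP : P = V * Matrix.diagonal (Pi.single k0 (1:ℂ)) * star V)
    (hc : (((lam k0 : ℝ) : ℂ) • (1 : Matrix κ κ ℂ) - Q).PosSemidef) (hl : ∀ k, 0 ≤ lam k)
    {t : ℝ} (ht : 0 < t) : ∀ (n : ℕ)
    (μ : (Fin n → Bool) → ℝ) (α β : (Fin n → Bool) → Matrix (Fin n → κ) (Fin n → κ) ℂ)
    (L : Fin n → Submodule ℝ (Matrix κ κ ℂ)),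
    (∀ s, Adm Q s (α s)) → (∀ s, Adm Q s (β s)) → (∀ s, (α s + β s).trace = (μ s : ℂ)) →
    (∀ s j, s j = true → Rd j (α s)) →
    (∀ s, Three s → s ≠ (fun _ => true) → β s = 0) →
    (∀ j, Module.finrank ℝ (L j) ≤ 3) → Prs L β →
    ∏ x, (t + aw lam k0 μ x)
      ≤ dt ((t : ℂ) • (1 : Matrix (Fin n → κ) (Fin n → κ) ℂ) + ∑ s, (α s + β s)) := by
  classical
  intro n
  induction n with
  | zero =>
    intro μ α β L hα hβ hμ _ _ _ _
    have h1 : ∏ x : Fin 0 → κ, (t + aw lam k0 μ x) = t + μ (fun _ => false) := by
      rw [Fintype.prod_subsingleton _ (fun _ => k0 : Fin 0 → κ), aw,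
        Fintype.sum_subsingleton _ (fun _ => false : Fin 0 → Bool), Fintype.prod_empty, mul_one]
    have h2 : dt ((t : ℂ) • (1 : Matrix (Fin 0 → κ) (Fin 0 → κ) ℂ) + ∑ s, (α s + β s))
        = t + μ (fun _ => false) := by
      have h3 := congrArg Complex.re (hμ (fun _ => false))
      rw [Matrix.trace, Fintype.sum_subsingleton _ (fun _ => k0 : Fin 0 → κ), Complex.ofReal_re,
        Matrix.diag_apply] at h3
      rw [dt, Matrix.det_eq_elem_of_subsingleton _ (fun _ => k0 : Fin 0 → κ),
        Fintype.sum_subsingleton _ (fun _ => false : Fin 0 → Bool), Matrix.add_apply, Complex.add_re,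
        Matrix.smul_apply, Matrix.one_apply_eq, h3]
      simp
    rw [h1, h2]
  | succ n ih =>
    intro μ α β L hα hβ hμ hRα hT hL hPr
    have hσ : ∀ s, Adm Q s (α s + β s) := fun s => (hα s).add (hβ s)
    have hfs := full_step hQp hQ1 hc hl μ (fun s => α s + β s) hσ hμ ht
    apply hfs
    rw [sum_upd]
    clear hfs
    set μ' := Function.update μ (fun _ => true) 0 with hμ'
    set α' := Function.update α (fun _ => true) 0 with hα'
    set β' := Function.update β (fun _ => true) 0 with hβ'
    have hα'A : ∀ s, Adm Q s (α' s) := by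
      intro s
      by_cases hs : s = (fun _ => true)
      · rw [hs, hα', Function.update_self]; exact Adm.zero _
      · rw [hα', Function.update_of_ne hs]; exact hα s
    have hβ'A : ∀ s, Adm Q s (β' s) := by
      intro s
      by_cases hs : s = (fun _ => true)
      · rw [hs, hβ', Function.update_self]; exact Adm.zero _
      · rw [hβ', Function.update_of_ne hs]; exact hβ s
    have hμ't : ∀ s, (α' s + β' s).trace = (μ' s : ℂ) := by
      intro s
      by_cases hs : s = (fun _ => true)
      · rw [hs, hα', hβ', hμ', Function.update_self, Function.update_self, Function.update_self]; simp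
      · rw [hα', hβ', hμ', Function.update_of_ne hs, Function.update_of_ne hs, Function.update_of_ne hs]
        exact hμ s
    have hRα' : ∀ s j, s j = true → Rd j (α' s) := by
      intro s j h1
      by_cases hs : s = (fun _ => true)
      · rw [hs, hα', Function.update_self]; exact Rd.zero j
      · rw [hα', Function.update_of_ne hs]; exact hRα s j h1
    have hT' : ∀ s, Three s → β' s = 0 := by
      intro s h
      by_cases hs : s = (fun _ => true)
      · rw [hs, hβ', Function.update_self]
      · rw [hβ', Function.update_of_ne hs]; exact hT s h hs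
    have hPr' : Prs L β' := by
      intro s j h1 h2 h3 h4
      rw [hβ', Function.update_of_ne h4]
      exact hPr s j h1 h2 h3 h4
    have hβfull : β' (fun _ => true) = 0 := by rw [hβ', Function.update_self]
    have hfull : μ' (Fin.cons true (fun _ => true)) = 0 := by
      rw [cons_full, hμ', Function.update_self]
    clear_value μ' α' β'
    -- strip
    have hstripα : ∀ s : Fin n → Bool, ∃ τ, Adm Q s τ ∧ tl (α' (Fin.cons false s)) = Q ⊗ₖ τ :=
      fun s => (hα'A (Fin.cons false s)).strip k0
    choose τa hτa1 hτa2 using hstripα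
    have hstripβ : ∀ s : Fin n → Bool, ∃ τ, Adm Q s τ ∧ tl (β' (Fin.cons false s)) = Q ⊗ₖ τ :=
      fun s => (hβ'A (Fin.cons false s)).strip k0
    choose τb hτb1 hτb2 using hstripβ
    have hτtr : ∀ s, (τa s + τb s).trace = (μ' (Fin.cons false s) : ℂ) := by
      intro s
      have h1 := hμ't (Fin.cons false s)
      rw [← tl_trace, tl_add, hτa2, hτb2, Matrix.trace_add, Matrix.trace_kronecker,
        Matrix.trace_kronecker, hQ1, one_mul, one_mul] at h1
      rw [Matrix.trace_add]
      exact h1
    have hτaR : ∀ s j, s j = true → Rd j (τa s) := by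
      intro s j h1
      have h3 := (hRα' (Fin.cons false s) j.succ (by simpa using h1)).ptr
      rw [hτa2, ptr_kron, hQ1, one_smul] at h3
      exact h3
    have hτb0 : ∀ s, Three s → τb s = 0 := by
      intro s h
      have h1 := hT' _ (h.cons false)
      have h2 : (τb s).trace = 0 := by
        have h3 := congrArg Matrix.trace (hτb2 s)
        rw [h1, tl_zeroS, Matrix.trace_kronecker, hQ1, one_mul, Matrix.trace_zero] at h3
        exact h3.symm
      exact ((hτb1 s).psd hQp).trace_eq_zero_iff.mp h2
    have hτbP : Prs (fun j => L j.succ) τb := by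
      intro s j h1 h2 h3 h4
      have h5 := hPr' (Fin.cons false s) j.succ (by simpa using h1) (by
          intro i hi
          refine Fin.cases ?_ (fun i => ?_) i hi
          · intro _; simp
          · intro hi; simpa using h2 i (Fin.succ_lt_succ_iff.mp hi)) (by
          obtain ⟨i, hi, hi2⟩ := h3
          exact ⟨i.succ, Fin.succ_lt_succ_iff.mpr hi, by simpa using hi2⟩) (cons_false_ne s)
      rcases h5 with h | h
      · left
        have h3 := h.ptr
        rw [hτb2, ptr_kron, hQ1, one_smul] at h3
        exact h3
      · right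
        rw [marg_strip hQ1 (hτb2 s)]; exact h
    obtain ⟨r, hr, hr2⟩ := (hβ'A (Fin.cons true (fun _ => false))).single k0
    set Ca : (Fin n → Bool) → Matrix (κ × (Fin n → κ)) (κ × (Fin n → κ)) ℂ :=
      fun s => tl (α' (Fin.cons true s)) with hCa
    set C : (Fin n → Bool) → Matrix (κ × (Fin n → κ)) (κ × (Fin n → κ)) ℂ :=
      fun s => tl (β' (Fin.cons true s)) with hCdef
    have hCap : ∀ s, (Ca s).PosSemidef := fun s => ((hα'A _).psd hQp).submatrix _
    have hCp : ∀ s, (C s).PosSemidef := fun s => ((hβ'A _).psd hQp).submatrix _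
    have hCtr : ∀ s, (Ca s).trace + (C s).trace = (μ' (Fin.cons true s) : ℂ) := fun s => by
      rw [hCa, hCdef]; simp only; rw [tl_trace, tl_trace, ← Matrix.trace_add]; exact hμ't _
    set F : Finset (Fin n → Bool) := Finset.univ.filter (fun s => ¬ RC (C s)) with hF
    have hFne : ∀ s ∈ F, s ≠ (fun _ => false) ∧ s ≠ (fun _ => true) := by
      intro s hs
      rw [hF, Finset.mem_filter] at hs
      constructor
      · rintro rfl
        apply hs.2
        rw [hCdef]; simp only; rw [hr2]
        exact RC.kron hr (kerD_psd hQp _)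
      · rintro rfl
        apply hs.2
        rw [hCdef]; simp only; rw [cons_full, hβfull, tl_zeroS]; exact RC.zero
    have hFm : ∀ s ∈ F, mg (C s) ∈ L 0 := by
      intro s hs
      obtain ⟨h0, h1⟩ := hFne s hs
      rw [hF, Finset.mem_filter] at hs
      have h2 : ∃ i : Fin (n+1), 0 < i ∧ (Fin.cons true s : Fin (n+1) → Bool) i = true := by
        obtain ⟨i, hi⟩ := Function.ne_iff.mp h0
        refine ⟨i.succ, Fin.succ_pos i, ?_⟩
        simpa using hi
      rcases hPr' (Fin.cons true s) 0 (by simp) (fun i hi => absurd hi (by simp)) h2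
        (cons_ne_full h1 true) with h | h
      · exact absurd h.first hs.2
      · rw [hCdef]; simp only; rw [mg_tl]; exact h
    have hRCs : ∀ s ∈ Fᶜ, RC (C s) := by
      intro s hs
      rw [Finset.mem_compl] at hs
      by_contra h
      exact hs (by rw [hF, Finset.mem_filter]; exact ⟨Finset.mem_univ _, h⟩)
    have hRCa : ∀ s ∈ (Finset.univ : Finset (Fin n → Bool)), RC (Ca s) := fun s _ =>
      (hRα' (Fin.cons true s) 0 (by simp)).first
    set Cr := ∑ s, Ca s + ∑ s ∈ Fᶜ, C s with hCr
    have hCrp : Cr.PosSemidef := (Matrix.posSemidef_sum _ fun s _ => hCap s).add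
      (Matrix.posSemidef_sum _ fun s _ => hCp s)
    have hCrR : RC Cr := (RC.sum _ _ hRCa).add (RC.sum _ _ hRCs)
    set B := ∑ s, (τa s + τb s) with hB
    have hBp : B.PosSemidef := Matrix.posSemidef_sum _ fun s _ =>
      ((hτa1 s).psd hQp).add ((hτb1 s).psd hQp)
    have htot : tl (∑ s, (α' s + β' s)) = Q ⊗ₖ B + Cr + ∑ s ∈ F, C s := by
      rw [sum_cons, tl_add, tl_sum, tl_sum]
      have e1 : ∑ s, tl (α' (Fin.cons false s) + β' (Fin.cons false s)) = Q ⊗ₖ B := by
        simp only [tl_add, hτa2, hτb2]
        ext p q
        simp only [Matrix.sum_apply, Matrix.add_apply, Matrix.kroneckerMap_apply, hB, Finset.mul_sum,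
          mul_add]
      have e2 : ∑ s, tl (α' (Fin.cons true s) + β' (Fin.cons true s)) = Cr + ∑ s ∈ F, C s := by
        simp only [tl_add]
        rw [Finset.sum_add_distrib, hCr, add_assoc]
        congr 1
        exact (Finset.sum_compl_add_sum F _).symm
      rw [e1, e2]; abel
    obtain ⟨x, hx1, hx2⟩ := stepS hQp hV hQ hP hc (hl k0) hBp hCrp hCrR F C (L 0) (hL 0) hFm
      (fun s _ => hCp s) ht
    rw [tl_shift, htot]
    refine le_trans ?_ hx2
    rw [prod_cons]
    simp only [aw_cons]
    rw [← Finset.prod_erase_mul _ _ (Finset.mem_univ k0)]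
    have hn : ∀ s, 0 ≤ μ' s := by
      intro s
      have := (((hα'A s).psd hQp).add ((hβ'A s).psd hQp)).trace_nonneg
      rw [hμ't s] at this
      exact_mod_cast this
    have hawn : ∀ k y, 0 ≤ t + aw lam k0 (fun s => lam k * μ' (Fin.cons false s)
        + (if k = k0 then 1 else 0) * μ' (Fin.cons true s)) y := by
      intro k y
      have : 0 ≤ aw lam k0 (fun s => lam k * μ' (Fin.cons false s)
          + (if k = k0 then 1 else 0) * μ' (Fin.cons true s)) y := by
        apply aw_nonneg lam hl
        intro s
        have := hn (Fin.cons false s)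
        have := hn (Fin.cons true s)
        have := hl k
        split_ifs <;> positivity
      positivity
    have hPs : ∀ k, Prs (fun j => L j.succ) (fun s => (lam k : ℂ) • τb s) := by
      intro k s j h1 h2 h3 h4
      rcases hτbP s j h1 h2 h3 h4 with h | h
      · exact Or.inl (h.smul (hl k))
      · right
        rw [marg_smul]
        have := (L j.succ).smul_mem (lam k) h
        rwa [← Complex.coe_smul] at this
    apply mul_le_mul
    · apply Finset.prod_le_prod
      · intro k hk
        exact Finset.prod_nonneg fun y _ => hawn k y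
      · intro k hk
        have hk0 : k ≠ k0 := Finset.ne_of_mem_erase hk
        have h1 := ih (fun s => lam k * μ' (Fin.cons false s)
          + (if k = k0 then 1 else 0) * μ' (Fin.cons true s)) (fun s => (lam k : ℂ) • τa s)
          (fun s => (lam k : ℂ) • τb s) (fun j => L j.succ)
          (fun s => (hτa1 s).smul (hl k)) (fun s => (hτb1 s).smul (hl k)) (fun s => by
            rw [← smul_add, Matrix.trace_smul, hτtr, if_neg hk0]; push_cast; simp)
          (fun s j h1 => (hτaR s j h1).smul (hl k))
          (fun s h _ => by rw [hτb0 s h, smul_zero]) (fun j => hL j.succ) (hPs k)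
        simp only [← smul_add] at h1
        rw [← Finset.smul_sum] at h1
        exact h1
    · set ν : (Fin n → Bool) → ℝ := fun s => lam k0 * μ' (Fin.cons false s)
        + (if k0 = k0 then 1 else 0) * μ' (Fin.cons true s) with hν
      set ωa : (Fin n → Bool) → Matrix (Fin n → κ) (Fin n → κ) ℂ := fun s => ((lam k0 : ℝ) : ℂ) • τa s
        + ptr (Ca s) with hωa
      set ωb : (Fin n → Bool) → Matrix (Fin n → κ) (Fin n → κ) ℂ := fun s => ((lam k0 : ℝ) : ℂ) • τb s
        + (if s ∈ F then cmp x (C s) else ptr (C s)) with hωb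
      have hωaA : ∀ s, Adm Q s (ωa s) := fun s =>
        ((hτa1 s).smul (hl k0)).add (hα'A (Fin.cons true s)).ptr
      have hωbA : ∀ s, Adm Q s (ωb s) := by
        intro s
        refine ((hτb1 s).smul (hl k0)).add ?_
        split_ifs with h
        · exact (hβ'A (Fin.cons true s)).contract x
        · exact (hβ'A (Fin.cons true s)).ptr
      have hωt : ∀ s, (ωa s + ωb s).trace = (ν s : ℂ) := by
        intro s
        have e : (ωa s + ωb s).trace = ((lam k0 : ℝ) : ℂ) * (τa s + τb s).trace
            + ((Ca s).trace + (C s).trace) := by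
          rw [hωa, hωb]
          simp only
          rw [Matrix.trace_add, Matrix.trace_add, Matrix.trace_add, Matrix.trace_smul,
            Matrix.trace_smul, Matrix.trace_add, ptr_trace]
          have : (if s ∈ F then cmp x (C s) else ptr (C s)).trace = (C s).trace := by
            split_ifs with h
            · exact hx1 s h
            · exact ptr_trace _
          rw [this, smul_eq_mul, smul_eq_mul]; ring
        rw [e, hτtr, hCtr, hν]
        simp only [if_true, one_mul]
        push_cast
        ring
      have hωaR : ∀ s j, s j = true → Rd j (ωa s) := by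
        intro s j h1
        exact ((hτaR s j h1).smul (hl k0)).add (hRα' (Fin.cons true s) j.succ (by simpa using h1)).ptr
      have hz : ∀ s (i j : Fin n), i < j → s i = true → s j = true →
          (if s ∈ F then cmp x (C s) else ptr (C s)) = 0 := by
        intro s i j hij hi hj
        have h1 : C s = 0 := by
          rw [hCdef]; simp only
          rw [hT' _ (Three.two hij hi hj), tl_zeroS]
        rw [h1]
        split_ifs
        · rw [Run7.h455.cmp, Matrix.mul_zero, Matrix.zero_mul]
        · exact ptr_zero
      have hωb0 : ∀ s, Three s → s ≠ (fun _ => true) → ωb s = 0 := by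
        intro s h _
        rw [hωb]; simp only
        obtain ⟨i, j, k, h1, h2, h3, h4, h5⟩ := h
        rw [hz s i j h1 h3 h4, hτb0 s ⟨i, j, k, h1, h2, h3, h4, h5⟩, smul_zero, add_zero]
      have hωbP : Prs (fun j => L j.succ) ωb := by
        intro s j h1 h2 h3 h4
        obtain ⟨i, hi, hi2⟩ := h3
        have e : ωb s = ((lam k0 : ℝ) : ℂ) • τb s := by
          rw [hωb]; simp only
          rw [hz s j i hi h1 hi2, add_zero]
        rw [e]
        exact hPs k0 s j h1 h2 ⟨i, hi, hi2⟩ h4
      have h1 := ih ν ωa ωb (fun j => L j.succ) hωaA hωbA hωt hωaR hωb0 (fun j => hL j.succ) hωbP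
      have hsumω : ∑ s, (ωa s + ωb s) = ((lam k0 : ℝ) : ℂ) • B + ptr Cr + ∑ s ∈ F, cmp x (C s) := by
        rw [hωa, hωb]
        simp only
        rw [Finset.sum_add_distrib, Finset.sum_add_distrib, Finset.sum_add_distrib, hB,
          Finset.sum_add_distrib, ← Finset.smul_sum, ← Finset.smul_sum, hCr, ptr_add, ptr_sum, ptr_sum]
        have e3 : ∑ s, (if s ∈ F then cmp x (C s) else ptr (C s))
            = ∑ s ∈ Fᶜ, ptr (C s) + ∑ s ∈ F, cmp x (C s) := by
          rw [← Finset.sum_compl_add_sum F]
          congr 1
          · refine Finset.sum_congr rfl fun s hs => ?_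
            rw [if_neg (Finset.mem_compl.mp hs)]
          · refine Finset.sum_congr rfl fun s hs => ?_
            rw [if_pos hs]
        rw [e3, smul_add]
        abel
      rw [hsumω] at h1
      exact h1
    · exact Finset.prod_nonneg fun y _ => hawn k0 y
    · apply Finset.prod_nonneg
      intro k _
      have htc : (0:ℂ) < (t:ℂ) := by exact_mod_cast ht
      have h1 : ((t : ℂ) • (1 : Matrix (Fin n → κ) (Fin n → κ) ℂ)).PosDef := Matrix.PosDef.one.smul htc
      exact (dt_pos (h1.add_posSemidef (hBp.smul (by exact_mod_cast hl k)))).le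

end Run7.h455
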