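import Pool.Agent.Run7.h455.Cons
import Pool.Agent.Run7.h455.DsacP

set_option autoImplicit false
open Matrix
open scoped ComplexOrder MatrixOrder Kronecker

namespace Run7.h455

variable {κ : Type} [Fintype κ] [DecidableEq κ]

/-- two different sites -/
def Two {n : ℕ} (s : Fin n → Bool) : Prop := ∃ i j : Fin n, i < j ∧ s i = true ∧ s j = true

lemma Two.cons {n : ℕ} {s : Fin n → Bool} (h : Two s) (b : Bool) : Two (Fin.cons b s : Fin (n+1) → Bool) := by
  obtain ⟨i, j, h1, h2, h3⟩ := h
  exact ⟨i.succ, j.succ, Fin.succ_lt_succ_iff.mpr h1, by simpa using h2, by simpa using h3⟩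

lemma Two.cons_true {n : ℕ} {s : Fin n → Bool} (h : s ≠ fun _ => false) :
    Two (Fin.cons true s : Fin (n+1) → Bool) := by
  obtain ⟨i, hi⟩ := Function.ne_iff.mp h
  exact ⟨0, i.succ, Fin.succ_pos i, by simp, by simpa using hi⟩

lemma Two.ne {n : ℕ} {s : Fin n → Bool} (h : Two s) : s ≠ fun _ => false := by
  rintro rfl
  obtain ⟨i, j, _, h2, _⟩ := h
  simp at h2

/-- determinant form of spin alignment for operators satisfying the reduction criterion together with
combinations of families of marginals -/
theorem dsacR {Q V P : Matrix κ κ ℂ} {lam : κ → ℝ} {k0 : κ} (hQp : Q.PosSemidef) (hQ1 : Q.trace = 1)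
    (hV : V * star V = 1) (hQ : Q = V * Matrix.diagonal (fun k => (lam k : ℂ)) * star V)
    (hP : P = V * Matrix.diagonal (Pi.single k0 (1:ℂ)) * star V)
    (hc : (((lam k0 : ℝ) : ℂ) • (1 : Matrix κ κ ℂ) - Q).PosSemidef) (hl : ∀ k, 0 ≤ lam k)
    {t : ℝ} (ht : 0 < t) : ∀ (n : ℕ) (ℋ : Type) [Fintype ℋ] (ν : ℋ → (Fin n → Bool) → ℝ)
    (Ω : ℋ → Matrix (Fin n → κ) (Fin n → κ) ℂ)
    (μ : (Fin n → Bool) → ℝ) (α β : (Fin n → Bool) → Matrix (Fin n → κ) (Fin n → κ) ℂ),
    (∀ s, Adm Q s (α s)) → (∀ s, Adm Q s (β s)) → (∀ s, (α s + β s).trace = (μ s : ℂ)) →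
    (∀ s j, s j = true → Rd j (α s)) → GoodC n ℋ ν →
    (∀ s, Two s → s ≠ (fun _ => true) → β s = ∑ H, (ν H s : ℂ) • pr Q s (Ω H)) →
    ∏ x, (t + aw lam k0 μ x)
      ≤ dt ((t : ℂ) • (1 : Matrix (Fin n → κ) (Fin n → κ) ℂ) + ∑ s, (α s + β s)) := by
  classical
  intro n
  induction n with
  | zero =>
    intro ℋ _ ν Ω μ α β hα hβ hμ _ _ _
    have h1 : ∏ x : Fin 0 → κ, (t + aw lam k0 μ x) = t + μ (fun _ => false) := by
      rw [Fintype.prod_subsingleton _ (fun _ => k0 : Fin 0 → κ), aw,
        Fintype.sum_subsingleton _ (fun _ => false : Fin 0 → Bool), Fintype.prod_empty, mul_one]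
    have h2 : dt ((t : ℂ) • (1 : Matrix (Fin 0 → κ) (Fin 0 → κ) ℂ) + ∑ s, (α s + β s))
        = t + μ (fun _ => false) := by
      have h3 := congrArg Complex.re (hμ (fun _ => false))
      rw [Matrix.trace, Fintype.sum_subsingleton _ (fun _ => k0 : Fin 0 → κ), Complex.ofReal_re,
        Matrix.diag_apply] at h3
      rw [dt, Matrix.det_eq_elem_of_subsingleton _ (fun _ => k0 : Fin 0 → κ),
        Fintype.sum_subsingleton _ (fun _ => false : Fin 0 → Bool), Matrix.add_apply, Complex.add_re,
        Matrix.smul_apply, Matrix.one_apply_eq, h3]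
      simp
    rw [h1, h2]
  | succ n ih =>
    intro ℋ _ ν Ω μ α β hα hβ hμ hRα hG hfam
    have hσ : ∀ s, Adm Q s (α s + β s) := fun s => (hα s).add (hβ s)
    have hfs := full_step hQp hQ1 hc hl μ (fun s => α s + β s) hσ hμ ht
    apply hfs
    rw [sum_upd]
    clear hfs
    set μ' := Function.update μ (fun _ => true) 0 with hμ'
    set α' := Function.update α (fun _ => true) 0 with hα'
    set β' := Function.update β (fun _ => true) 0 with hβ'
    have hα'A : ∀ s, Adm Q s (α' s) := by
      intro s
      by_cases hs : s = (fun _ => true)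
      · rw [hs, hα', Function.update_self]; exact Adm.zero _
      · rw [hα', Function.update_of_ne hs]; exact hα s
    have hβ'A : ∀ s, Adm Q s (β' s) := by
      intro s
      by_cases hs : s = (fun _ => true)
      · rw [hs, hβ', Function.update_self]; exact Adm.zero _
      · rw [hβ', Function.update_of_ne hs]; exact hβ s
    have hμ't : ∀ s, (α' s + β' s).trace = (μ' s : ℂ) := by
      intro s
      by_cases hs : s = (fun _ => true)
      · rw [hs, hα', hβ', hμ', Function.update_self, Function.update_self, Function.update_self]; simp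
      · rw [hα', hβ', hμ', Function.update_of_ne hs, Function.update_of_ne hs, Function.update_of_ne hs]
        exact hμ s
    have hRα' : ∀ s j, s j = true → Rd j (α' s) := by
      intro s j h1
      by_cases hs : s = (fun _ => true)
      · rw [hs, hα', Function.update_self]; exact Rd.zero j
      · rw [hα', Function.update_of_ne hs]; exact hRα s j h1
    have hfam' : ∀ s, Two s → s ≠ (fun _ => true) → β' s = ∑ H, (ν H s : ℂ) • pr Q s (Ω H) := by
      intro s h1 h2
      rw [hβ', Function.update_of_ne h2]; exact hfam s h1 h2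
    have hβfull : β' (fun _ => true) = 0 := by rw [hβ', Function.update_self]
    have hfull : μ' (Fin.cons true (fun _ => true)) = 0 := by
      rw [cons_full, hμ', Function.update_self]
    clear_value μ' α' β'
    obtain ⟨hG1, hG2⟩ := hG
    -- strip
    have hstripα : ∀ s : Fin n → Bool, ∃ τ, Adm Q s τ ∧ tl (α' (Fin.cons false s)) = Q ⊗ₖ τ :=
      fun s => (hα'A (Fin.cons false s)).strip k0
    choose τa hτa1 hτa2 using hstripα
    have hstripβ : ∀ s : Fin n → Bool, ∃ τ, Adm Q s τ ∧ tl (β' (Fin.cons false s)) = Q ⊗ₖ τ :=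
      fun s => (hβ'A (Fin.cons false s)).strip k0
    choose τb hτb1 hτb2 using hstripβ
    have hτtr : ∀ s, (τa s + τb s).trace = (μ' (Fin.cons false s) : ℂ) := by
      intro s
      have h1 := hμ't (Fin.cons false s)
      rw [← tl_trace, tl_add, hτa2, hτb2, Matrix.trace_add, Matrix.trace_kronecker,
        Matrix.trace_kronecker, hQ1, one_mul, one_mul] at h1
      rw [Matrix.trace_add]
      exact h1
    have hτaR : ∀ s j, s j = true → Rd j (τa s) := by
      intro s j h1
      have h3 := (hRα' (Fin.cons false s) j.succ (by simpa using h1)).ptr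
      rw [hτa2, ptr_kron, hQ1, one_smul] at h3
      exact h3
    have hτfam : ∀ s, Two s → τb s = ∑ H, (ν H (Fin.cons false s) : ℂ) • pr Q s (ptr (tl (Ω H))) := by
      intro s hs
      have h1 : τb s = ptr (tl (β' (Fin.cons false s))) := by
        rw [hτb2, ptr_kron, hQ1, one_smul]
      rw [h1, hfam' _ (hs.cons false) (cons_false_ne s), tl_sum, ptr_sum]
      refine Finset.sum_congr rfl fun H _ => ?_
      have h2 : tl ((ν H (Fin.cons false s) : ℂ) • pr Q (Fin.cons false s) (Ω H))
          = (ν H (Fin.cons false s) : ℂ) • (Q ⊗ₖ pr Q s (ptr (tl (Ω H)))) := by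
        rw [← tl_pr_false]; rfl
      have h3 : ptr ((ν H (Fin.cons false s) : ℂ) • (Q ⊗ₖ pr Q s (ptr (tl (Ω H)))))
          = (ν H (Fin.cons false s) : ℂ) • ptr (Q ⊗ₖ pr Q s (ptr (tl (Ω H)))) := by
        ext i j; simp [ptr, Finset.mul_sum]
      rw [h2, h3, ptr_kron, hQ1, one_smul]
    obtain ⟨r, hr, hr2⟩ := (hβ'A (Fin.cons true (fun _ => false))).single k0
    set Ca : (Fin n → Bool) → Matrix (κ × (Fin n → κ)) (κ × (Fin n → κ)) ℂ :=
      fun s => tl (α' (Fin.cons true s)) with hCa
    set C : (Fin n → Bool) → Matrix (κ × (Fin n → κ)) (κ × (Fin n → κ)) ℂ :=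
      fun s => tl (β' (Fin.cons true s)) with hCdef
    have hCap : ∀ s, (Ca s).PosSemidef := fun s => ((hα'A _).psd hQp).submatrix _
    have hCp : ∀ s, (C s).PosSemidef := fun s => ((hβ'A _).psd hQp).submatrix _
    have hCtr : ∀ s, (Ca s).trace + (C s).trace = (μ' (Fin.cons true s) : ℂ) := fun s => by
      rw [hCa, hCdef]; simp only; rw [tl_trace, tl_trace, ← Matrix.trace_add]; exact hμ't _
    have hCfam : ∀ s, s ≠ (fun _ => false) → s ≠ (fun _ => true) →
        C s = ∑ H, (ν H (Fin.cons true s) : ℂ) • tl (pr Q (Fin.cons true s) (Ω H)) := by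
      intro s h0 hs
      rw [hCdef]; simp only
      rw [hfam' _ (Two.cons_true h0) (cons_ne_full hs true), tl_sum]
      rfl
    set F : Finset (Fin n → Bool) := Finset.univ.filter (fun s => s ≠ (fun _ => false) ∧ s ≠ (fun _ => true)) with hF
    have hRCs : ∀ s ∈ Fᶜ, RC (C s) := by
      intro s hs
      rw [Finset.mem_compl] at hs
      by_cases h0 : s = (fun _ => false)
      · rw [h0, hCdef]; simp only; rw [hr2]
        exact RC.kron hr (kerD_psd hQp _)
      by_cases h1 : s = (fun _ => true)
      · rw [h1, hCdef]; simp only; rw [cons_full, hβfull, tl_zeroS]; exact RC.zero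
      exact absurd (by rw [hF, Finset.mem_filter]; exact ⟨Finset.mem_univ _, h0, h1⟩) hs
    -- the space of the marginals
    let Λ : (ℋ → ℝ) →ₗ[ℝ] Matrix κ κ ℂ :=
      { toFun := fun c => ∑ H, c H • mg (tl (Ω H))
        map_add' := fun c c' => by
          simp only [Pi.add_apply, add_smul, Finset.sum_add_distrib]
        map_smul' := fun a c => by
          simp only [Pi.smul_apply, smul_eq_mul, mul_smul, Finset.smul_sum, RingHom.id_apply] }
    set Sp := Submodule.span ℝ {c : ℋ → ℝ | ∃ s : Fin n → Bool,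
        s ≠ (fun _ => false) ∧ s ≠ (fun _ => true) ∧ c = fun H => ν H (Fin.cons true s)} with hSp
    have hL : Module.finrank ℝ (Sp.map Λ) ≤ 3 := le_trans (Submodule.finrank_map_le _ _) hG1
    have hFm : ∀ s ∈ F, mg (C s) ∈ Sp.map Λ := by
      intro s hs
      rw [hF, Finset.mem_filter] at hs
      refine ⟨fun H => ν H (Fin.cons true s), Submodule.subset_span ⟨s, hs.2.1, hs.2.2, rfl⟩, ?_⟩
      rw [hCfam s hs.2.1 hs.2.2, mg_sum]
      show ∑ H, ν H (Fin.cons true s) • mg (tl (Ω H)) = _
      refine Finset.sum_congr rfl fun H _ => ?_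
      rw [mg_smul, mg_pr hQ1, Complex.coe_smul]
    have hRCa : ∀ s ∈ (Finset.univ : Finset (Fin n → Bool)), RC (Ca s) := fun s _ =>
      (hRα' (Fin.cons true s) 0 (by simp)).first
    set Cr := ∑ s, Ca s + ∑ s ∈ Fᶜ, C s with hCr
    have hCrp : Cr.PosSemidef := (Matrix.posSemidef_sum _ fun s _ => hCap s).add
      (Matrix.posSemidef_sum _ fun s _ => hCp s)
    have hCrR : RC Cr := (RC.sum _ _ hRCa).add (RC.sum _ _ hRCs)
    set B := ∑ s, (τa s + τb s) with hB
    have hBp : B.PosSemidef := Matrix.posSemidef_sum _ fun s _ =>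
      ((hτa1 s).psd hQp).add ((hτb1 s).psd hQp)
    have htot : tl (∑ s, (α' s + β' s)) = Q ⊗ₖ B + Cr + ∑ s ∈ F, C s := by
      rw [sum_cons, tl_add, tl_sum, tl_sum]
      have e1 : ∑ s, tl (α' (Fin.cons false s) + β' (Fin.cons false s)) = Q ⊗ₖ B := by
        simp only [tl_add, hτa2, hτb2]
        ext p q
        simp only [Matrix.sum_apply, Matrix.add_apply, Matrix.kroneckerMap_apply, hB, Finset.mul_sum,
          mul_add]
      have e2 : ∑ s, tl (α' (Fin.cons true s) + β' (Fin.cons true s)) = Cr + ∑ s ∈ F, C s := by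
        simp only [tl_add]
        rw [Finset.sum_add_distrib, hCr, add_assoc]
        congr 1
        exact (Finset.sum_compl_add_sum F _).symm
      rw [e1, e2]; abel
    obtain ⟨x, hx1, hx2⟩ := stepS hQp hV hQ hP hc (hl k0) hBp hCrp hCrR F C (Sp.map Λ) hL hFm
      (fun s _ => hCp s) ht
    rw [tl_shift, htot]
    refine le_trans ?_ hx2
    rw [prod_cons]
    simp only [aw_cons]
    rw [← Finset.prod_erase_mul _ _ (Finset.mem_univ k0)]
    have hn : ∀ s, 0 ≤ μ' s := by
      intro s
      have := (((hα'A s).psd hQp).add ((hβ'A s).psd hQp)).trace_nonneg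
      rw [hμ't s] at this
      exact_mod_cast this
    have hawn : ∀ k y, 0 ≤ t + aw lam k0 (fun s => lam k * μ' (Fin.cons false s)
        + (if k = k0 then 1 else 0) * μ' (Fin.cons true s)) y := by
      intro k y
      have : 0 ≤ aw lam k0 (fun s => lam k * μ' (Fin.cons false s)
          + (if k = k0 then 1 else 0) * μ' (Fin.cons true s)) y := by
        apply aw_nonneg lam hl
        intro s
        have := hn (Fin.cons false s)
        have := hn (Fin.cons true s)
        have := hl k
        split_ifs <;> positivity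
      positivity
    apply mul_le_mul
    · apply Finset.prod_le_prod
      · intro k hk
        exact Finset.prod_nonneg fun y _ => hawn k y
      · intro k hk
        have hk0 : k ≠ k0 := Finset.ne_of_mem_erase hk
        have h1 := ih (ℋ × Bool) (fun H s => ν H.1 (Fin.cons H.2 s))
          (fun H => if H.2 then 0 else (lam k : ℂ) • ptr (tl (Ω H.1)))
          (fun s => lam k * μ' (Fin.cons false s)
          + (if k = k0 then 1 else 0) * μ' (Fin.cons true s)) (fun s => (lam k : ℂ) • τa s)
          (fun s => (lam k : ℂ) • τb s)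
          (fun s => (hτa1 s).smul (hl k)) (fun s => (hτb1 s).smul (hl k)) (fun s => by
            rw [← smul_add, Matrix.trace_smul, hτtr, if_neg hk0]; push_cast; simp)
          (fun s j h1 => (hτaR s j h1).smul (hl k))
          hG2 (fun s h1 _ => by
            rw [hτfam s h1, Finset.smul_sum, Fintype.sum_prod_type]
            refine Finset.sum_congr rfl fun H _ => ?_
            rw [Fintype.sum_bool]
            simp only [if_true, Bool.false_eq_true, if_false]
            rw [pr_zero, smul_zero, zero_add, pr_smul, smul_comm])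
        simp only [← smul_add] at h1
        rw [← Finset.smul_sum] at h1
        exact h1
    · set ν1 : (Fin n → Bool) → ℝ := fun s => lam k0 * μ' (Fin.cons false s)
        + (if k0 = k0 then 1 else 0) * μ' (Fin.cons true s) with hν1
      set ωa : (Fin n → Bool) → Matrix (Fin n → κ) (Fin n → κ) ℂ := fun s => ((lam k0 : ℝ) : ℂ) • τa s
        + ptr (Ca s) with hωa
      set ωb : (Fin n → Bool) → Matrix (Fin n → κ) (Fin n → κ) ℂ := fun s => ((lam k0 : ℝ) : ℂ) • τb s
        + (if s ∈ F then cmp x (C s) else ptr (C s)) with hωb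
      have hωaA : ∀ s, Adm Q s (ωa s) := fun s =>
        ((hτa1 s).smul (hl k0)).add (hα'A (Fin.cons true s)).ptr
      have hωbA : ∀ s, Adm Q s (ωb s) := by
        intro s
        refine ((hτb1 s).smul (hl k0)).add ?_
        split_ifs with h
        · exact (hβ'A (Fin.cons true s)).contract x
        · exact (hβ'A (Fin.cons true s)).ptr
      have hωt : ∀ s, (ωa s + ωb s).trace = (ν1 s : ℂ) := by
        intro s
        have e : (ωa s + ωb s).trace = ((lam k0 : ℝ) : ℂ) * (τa s + τb s).trace
            + ((Ca s).trace + (C s).trace) := by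
          rw [hωa, hωb]
          simp only
          rw [Matrix.trace_add, Matrix.trace_add, Matrix.trace_add, Matrix.trace_smul,
            Matrix.trace_smul, Matrix.trace_add, ptr_trace]
          have : (if s ∈ F then cmp x (C s) else ptr (C s)).trace = (C s).trace := by
            split_ifs with h
            · exact hx1 s h
            · exact ptr_trace _
          rw [this, smul_eq_mul, smul_eq_mul]; ring
        rw [e, hτtr, hCtr, hν1]
        simp only [if_true, one_mul]
        push_cast
        ring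
      have hωaR : ∀ s j, s j = true → Rd j (ωa s) := by
        intro s j h1
        exact ((hτaR s j h1).smul (hl k0)).add (hRα' (Fin.cons true s) j.succ (by simpa using h1)).ptr
      have hωfam : ∀ s, Two s → s ≠ (fun _ => true) →
          ωb s = ∑ H : ℋ × Bool, ((fun (H : ℋ × Bool) (s : Fin n → Bool) => ν H.1 (Fin.cons H.2 s)) H s : ℂ)
            • pr Q s ((fun H : ℋ × Bool => if H.2 then cmp x (tl (Ω H.1))
              else ((lam k0 : ℝ) : ℂ) • ptr (tl (Ω H.1))) H) := by
        intro s h1 h2
        have hsF : s ∈ F := by rw [hF, Finset.mem_filter]; exact ⟨Finset.mem_univ _, h1.ne, h2⟩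
        rw [hωb]; simp only
        rw [if_pos hsF, hτfam s h1, hCfam s h1.ne h2, Finset.smul_sum, Fintype.sum_prod_type]
        have e1 : cmp x (∑ H, (ν H (Fin.cons true s) : ℂ) • tl (pr Q (Fin.cons true s) (Ω H)))
            = ∑ H, (ν H (Fin.cons true s) : ℂ) • pr Q s (cmp x (tl (Ω H))) := by
          rw [cmp_sum]
          refine Finset.sum_congr rfl fun H _ => ?_
          rw [← cmp_pr, cmp, cmp, Matrix.mul_smul, Matrix.smul_mul]
        rw [e1, ← Finset.sum_add_distrib]
        refine Finset.sum_congr rfl fun H _ => ?_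
        rw [Fintype.sum_bool]
        simp only [if_true, Bool.false_eq_true, if_false]
        rw [pr_smul, smul_comm, add_comm]
      have h1 := ih (ℋ × Bool) (fun H s => ν H.1 (Fin.cons H.2 s))
        (fun H : ℋ × Bool => if H.2 then cmp x (tl (Ω H.1)) else ((lam k0 : ℝ) : ℂ) • ptr (tl (Ω H.1)))
        ν1 ωa ωb hωaA hωbA hωt hωaR hG2 hωfam
      have hsumω : ∑ s, (ωa s + ωb s) = ((lam k0 : ℝ) : ℂ) • B + ptr Cr + ∑ s ∈ F, cmp x (C s) := by
        rw [hωa, hωb]
        simp only
        rw [Finset.sum_add_distrib, Finset.sum_add_distrib, Finset.sum_add_distrib, hB,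
          Finset.sum_add_distrib, ← Finset.smul_sum, ← Finset.smul_sum, hCr, ptr_add, ptr_sum, ptr_sum]
        have e3 : ∑ s, (if s ∈ F then cmp x (C s) else ptr (C s))
            = ∑ s ∈ Fᶜ, ptr (C s) + ∑ s ∈ F, cmp x (C s) := by
          rw [← Finset.sum_compl_add_sum F]
          congr 1
          · refine Finset.sum_congr rfl fun s hs => ?_
            rw [if_neg (Finset.mem_compl.mp hs)]
          · refine Finset.sum_congr rfl fun s hs => ?_
            rw [if_pos hs]
        rw [e3, smul_add]
        abel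
      rw [hsumω] at h1
      exact h1
    · exact Finset.prod_nonneg fun y _ => hawn k0 y
    · apply Finset.prod_nonneg
      intro k _
      have htc : (0:ℂ) < (t:ℂ) := by exact_mod_cast ht
      have h1 : ((t : ℂ) • (1 : Matrix (Fin n → κ) (Fin n → κ) ℂ)).PosDef := Matrix.PosDef.one.smul htc
      exact (dt_pos (h1.add_posSemidef (hBp.smul (by exact_mod_cast hl k)))).le

end Run7.h455
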