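import Pool.Agent.Run7.h455.Det

set_option autoImplicit false
open Matrix
open scoped ComplexOrder MatrixOrder

namespace Run7.h455

/-- entropy comparison from shifted products -/
lemma ent_of_prod {N : Type*} [Fintype N] (x y : N → ℝ) (hx : ∀ i, 0 ≤ x i) (hy : ∀ i, 0 ≤ y i)
    (hs : ∑ i, x i = ∑ i, y i) (h : ∀ t : ℝ, 0 < t → ∏ i, (t + y i) ≤ ∏ i, (t + x i)) :
    ∑ i, Real.negMulLog (y i) ≤ ∑ i, Real.negMulLog (x i) := by
  set φ : ℝ → ℝ := fun T => ∑ i, (T + x i) * Real.log (T + x i) - ∑ i, (T + y i) * Real.log (T + y i) with hφ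
  have hcont : Continuous φ := by
    apply Continuous.sub <;> refine continuous_finsetSum _ fun i _ => ?_
    · exact Real.continuous_mul_log.comp (continuous_id.add continuous_const)
    · exact Real.continuous_mul_log.comp (continuous_id.add continuous_const)
  have hder : ∀ T : ℝ, 0 < T → HasDerivAt φ (∑ i, (Real.log (T + x i) + 1) - ∑ i, (Real.log (T + y i) + 1)) T := by
    intro T hT
    have aux : ∀ c : ℝ, 0 ≤ c → HasDerivAt (fun T => (T + c) * Real.log (T + c)) (Real.log (T + c) + 1) T := by
      intro c hc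
      have h1 := Real.hasDerivAt_mul_log (x := T + c) (by positivity)
      have h2 : HasDerivAt (fun T : ℝ => T + c) 1 T := (hasDerivAt_id T).add_const c
      have h3 := h1.comp T h2
      rw [mul_one] at h3
      exact h3
    exact (HasDerivAt.fun_sum fun i _ => aux (x i) (hx i)).sub (HasDerivAt.fun_sum fun i _ => aux (y i) (hy i))
  have hnn : ∀ T : ℝ, 0 < T → 0 ≤ ∑ i, (Real.log (T + x i) + 1) - ∑ i, (Real.log (T + y i) + 1) := by
    intro T hT
    have l1 : ∑ i, Real.log (T + x i) = Real.log (∏ i, (T + x i)) :=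
      (Real.log_prod fun i _ => by have := hx i; positivity).symm
    have l2 : ∑ i, Real.log (T + y i) = Real.log (∏ i, (T + y i)) :=
      (Real.log_prod fun i _ => by have := hy i; positivity).symm
    rw [Finset.sum_add_distrib, Finset.sum_add_distrib, l1, l2]
    have hp : 0 < ∏ i, (T + y i) := Finset.prod_pos fun i _ => by have := hy i; positivity
    have := Real.log_le_log hp (h T hT)
    linarith
  have hmono : MonotoneOn φ (Set.Ici 0) := by
    apply monotoneOn_of_deriv_nonneg (convex_Ici 0) hcont.continuousOn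
    · intro T hT
      rw [interior_Ici] at hT
      exact (hder T hT).differentiableAt.differentiableWithinAt
    · intro T hT
      rw [interior_Ici] at hT
      rw [(hder T hT).deriv]
      exact hnn T hT
  have hbound : ∀ T : ℝ, 0 < T → φ T ≤ (∑ i, (x i) ^ 2) / T := by
    intro T hT
    have e1 : φ T = ∑ i, (T + x i) * (Real.log (T + x i) - Real.log T)
        - ∑ i, (T + y i) * (Real.log (T + y i) - Real.log T) := by
      simp only [hφ, mul_sub, Finset.sum_sub_distrib, ← Finset.sum_mul, Finset.sum_add_distrib, hs]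
      ring
    have b1 : ∀ i, (T + x i) * (Real.log (T + x i) - Real.log T) ≤ x i + (x i) ^ 2 / T := by
      intro i
      have hxi := hx i
      rw [← Real.log_div (by positivity) (by positivity)]
      have h1 := Real.log_le_sub_one_of_pos (x := (T + x i) / T) (by positivity)
      calc (T + x i) * Real.log ((T + x i) / T) ≤ (T + x i) * ((T + x i) / T - 1) :=
            mul_le_mul_of_nonneg_left h1 (by positivity)
        _ = _ := by field_simp; ring
    have b2 : ∀ i, y i ≤ (T + y i) * (Real.log (T + y i) - Real.log T) := by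
      intro i
      have hyi := hy i
      rw [← Real.log_div (by positivity) (by positivity)]
      have h1 := Real.one_sub_inv_le_log_of_pos (x := (T + y i) / T) (by positivity)
      calc y i = (T + y i) * (1 - ((T + y i) / T)⁻¹) := by field_simp; ring
        _ ≤ _ := mul_le_mul_of_nonneg_left h1 (by positivity)
    rw [e1]
    have c1 := Finset.sum_le_sum (s := Finset.univ) fun i _ => b1 i
    have c2 := Finset.sum_le_sum (s := Finset.univ) fun i _ => b2 i
    rw [Finset.sum_add_distrib, ← Finset.sum_div] at c1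
    linarith
  have h0 : φ 0 ≤ 0 := by
    by_contra hc
    push Not at hc
    set K := ∑ i, (x i) ^ 2 with hK
    have hK0 : 0 ≤ K := Finset.sum_nonneg fun i _ => sq_nonneg _
    have hT : 0 < (K + 1) / φ 0 := by positivity
    have h1 := hmono (Set.mem_Ici.mpr le_rfl) (Set.mem_Ici.mpr hT.le) hT.le
    have h2 := hbound _ hT
    have h3 : K / ((K + 1) / φ 0) < φ 0 := by
      rw [div_div_eq_mul_div, div_lt_iff₀ (by positivity)]
      nlinarith
    linarith
  have h00 : φ 0 = ∑ i, Real.negMulLog (y i) - ∑ i, Real.negMulLog (x i) := by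
    simp only [hφ, zero_add, Real.negMulLog_def]
    simp only [neg_mul, Finset.sum_neg_distrib]
    ring
  rw [h00] at h0
  linarith

lemma dt_shift {N : Type*} [Fintype N] [DecidableEq N] {A : Matrix N N ℂ} (hA : A.IsHermitian) (t : ℝ) :
    dt ((t : ℂ) • (1 : Matrix N N ℂ) + A) = ∏ i, (t + hA.eigenvalues i) := by
  have := dt_affine hA t 1
  simpa using this

/-- entropy comparison from shifted determinants -/
theorem ent_of_dt {N : Type*} [Fintype N] [DecidableEq N] {A A0 : Matrix N N ℂ}
    (hA : A.PosSemidef) (hA0 : A0.PosSemidef) (htr : A.trace = A0.trace)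
    (h : ∀ t : ℝ, 0 < t → dt ((t : ℂ) • (1 : Matrix N N ℂ) + A0) ≤ dt ((t : ℂ) • (1 : Matrix N N ℂ) + A)) :
    ∑ i, Real.negMulLog (hA0.1.eigenvalues i) ≤ ∑ i, Real.negMulLog (hA.1.eigenvalues i) := by
  apply ent_of_prod _ _ (fun i => hA.eigenvalues_nonneg i) (fun i => hA0.eigenvalues_nonneg i)
  · rw [hA.1.trace_eq_sum_eigenvalues, hA0.1.trace_eq_sum_eigenvalues] at htr
    exact_mod_cast htr
  · intro t ht
    rw [← dt_shift hA.1, ← dt_shift hA0.1]
    exact h t ht

end Run7.h455
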