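import Pool.Agent.Run7.h455.Det

set_option autoImplicit false
open Matrix
open scoped ComplexOrder MatrixOrder

namespace Run7.h455

variable {κ : Type*} [Fintype κ] [DecidableEq κ]

lemma single_quad (M : Matrix κ κ ℂ) (k : κ) :
    star (Pi.single k (1:ℂ)) ⬝ᵥ (M *ᵥ Pi.single k 1) = M k k := by
  simp [dotProduct, Pi.single_apply, apply_ite (starRingEnd ℂ)]

/-- an eigenbasis of `Q` containing the top eigenvector `q` -/
theorem spectral_top {Q : Matrix κ κ ℂ} (hQ : Q.PosSemidef) {q : κ → ℂ} {c : ℝ}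
    (hq : star q ⬝ᵥ q = 1) (hc : Q *ᵥ q = (c : ℂ) • q)
    (hmax : ∀ v : κ → ℂ, (star v ⬝ᵥ (Q *ᵥ v)).re ≤ c * (star v ⬝ᵥ v).re) :
    ∃ (V : Matrix κ κ ℂ) (lam : κ → ℝ) (k0 : κ), V * star V = 1 ∧
      Q = V * Matrix.diagonal (fun k => (lam k : ℂ)) * star V ∧
      Matrix.vecMulVec q (star q) = V * Matrix.diagonal (Pi.single k0 (1:ℂ)) * star V ∧
      (∀ k, 0 ≤ lam k) ∧ lam k0 = c := by
  set P := Matrix.vecMulVec q (star q) with hP
  have hPh : P.PosSemidef := Matrix.posSemidef_vecMulVec_self_star q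
  set H := Q + P with hH
  have hHh : H.IsHermitian := hQ.1.add hPh.1
  set V : Matrix κ κ ℂ := (hHh.eigenvectorUnitary : Matrix κ κ ℂ) with hV
  set e : κ → ℝ := hHh.eigenvalues with he
  have hVV : V * star V = 1 := Unitary.coe_mul_star_self _
  have hVV' : star V * V = 1 := Unitary.coe_star_mul_self _
  have hspec : H = V * Matrix.diagonal (fun k => (e k : ℂ)) * star V := by
    have h3 := hHh.spectral_theorem
    rw [Unitary.conjStarAlgAut_apply] at h3
    exact h3
  -- coordinates of q
  set w : κ → ℂ := star V *ᵥ q with hw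
  have hconj : star V * P * V = Matrix.vecMulVec w (star w) := by
    rw [hP, Matrix.mul_vecMulVec, Matrix.vecMulVec_mul]
    congr 1
    rw [hw, Matrix.star_mulVec, Matrix.star_eq_conjTranspose, Matrix.conjTranspose_conjTranspose]
  have hHV : star V * H * V = Matrix.diagonal (fun k => (e k : ℂ)) := by
    rw [hspec]
    calc star V * (V * Matrix.diagonal (fun k => (e k : ℂ)) * star V) * V
        = (star V * V) * Matrix.diagonal (fun k => (e k : ℂ)) * (star V * V) := by
          simp only [mul_assoc]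
      _ = _ := by rw [hVV', one_mul, mul_one]
  have hQV : star V * Q * V = Matrix.diagonal (fun k => (e k : ℂ)) - Matrix.vecMulVec w (star w) := by
    have : Q = H - P := by rw [hH]; abel
    rw [this, mul_sub, sub_mul, hHV, hconj]
  -- H q = (c+1) q
  have hPq : P *ᵥ q = q := by
    rw [hP, Matrix.vecMulVec_mulVec, hq]; simp
  have hHq : H *ᵥ q = ((c : ℂ) + 1) • q := by
    rw [hH, Matrix.add_mulVec, hc, hPq, add_smul, one_smul]
  have hDw : Matrix.diagonal (fun k => (e k : ℂ)) *ᵥ w = ((c : ℂ) + 1) • w := by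
    rw [← hHV, hw, ← Matrix.mulVec_mulVec, Matrix.mulVec_mulVec (M := V) , hVV, Matrix.one_mulVec,
      ← Matrix.mulVec_mulVec, hHq, Matrix.mulVec_smul]
  have hwk : ∀ k, (e k : ℂ) * w k = ((c : ℂ) + 1) * w k := by
    intro k
    have := congrFun hDw k
    rw [Matrix.mulVec_diagonal] at this
    simpa using this
  -- norm of w
  have hwn : ∑ k, Complex.normSq (w k) = 1 := by
    have h1 : star w ⬝ᵥ w = 1 := by
      rw [hw, Matrix.star_mulVec, ← Matrix.dotProduct_mulVec, Matrix.mulVec_mulVec,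
        Matrix.star_eq_conjTranspose, Matrix.conjTranspose_conjTranspose, ← Matrix.star_eq_conjTranspose, hVV,
        Matrix.one_mulVec, hq]
    have h2 := congrArg Complex.re h1
    rw [dotProduct, Complex.re_sum] at h2
    rw [Complex.one_re] at h2
    rw [← h2]
    refine Finset.sum_congr rfl fun k _ => ?_
    simp [Complex.normSq_apply]
  -- diagonal entries
  have hdiag : ∀ k, (star (V *ᵥ Pi.single k 1) ⬝ᵥ (Q *ᵥ (V *ᵥ Pi.single k 1))).re = e k - Complex.normSq (w k) := by
    intro k
    have h1 : star (V *ᵥ Pi.single k (1:ℂ)) ⬝ᵥ (Q *ᵥ (V *ᵥ Pi.single k 1)) = (star V * Q * V) k k := by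
      rw [Matrix.star_mulVec, ← Matrix.dotProduct_mulVec, Matrix.mulVec_mulVec, Matrix.mulVec_mulVec,
        ← Matrix.star_eq_conjTranspose]
      exact single_quad _ k
    rw [h1, hQV, Matrix.sub_apply, Matrix.diagonal_apply_eq, Matrix.vecMulVec_apply]
    simp [Complex.normSq_apply]
  have hnrm : ∀ k, (star (V *ᵥ Pi.single k (1:ℂ)) ⬝ᵥ (V *ᵥ Pi.single k 1)).re = 1 := by
    intro k
    have h1 : star (V *ᵥ Pi.single k (1:ℂ)) ⬝ᵥ (V *ᵥ Pi.single k 1) = (star V * V) k k := by
      rw [Matrix.star_mulVec, ← Matrix.dotProduct_mulVec, Matrix.mulVec_mulVec,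
        ← Matrix.star_eq_conjTranspose]
      exact single_quad _ k
    rw [h1, hVV']; simp
  have hge : ∀ k, w k ≠ 0 → 1 ≤ Complex.normSq (w k) := by
    intro k hk
    have h1 : (e k : ℂ) = (c : ℂ) + 1 := mul_right_cancel₀ hk (hwk k)
    have h2 : e k = c + 1 := by exact_mod_cast h1
    have h3 := hmax (V *ᵥ Pi.single k 1)
    rw [hdiag, hnrm, h2] at h3
    linarith
  -- the unique coordinate
  obtain ⟨k0, hk0⟩ : ∃ k, w k ≠ 0 := by
    by_contra hcon
    push Not at hcon
    simp [hcon] at hwn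
  have hk0e : e k0 = c + 1 := by
    have h1 : (e k0 : ℂ) = (c : ℂ) + 1 := mul_right_cancel₀ hk0 (hwk k0)
    exact_mod_cast h1
  have hzero : ∀ k, k ≠ k0 → w k = 0 := by
    intro k hk
    by_contra hne
    have h1 := hge k hne
    have h2 := hge k0 hk0
    have h3 : Complex.normSq (w k) + Complex.normSq (w k0) ≤ ∑ j, Complex.normSq (w j) := by
      rw [← Finset.sum_pair (f := fun j => Complex.normSq (w j)) hk]
      exact Finset.sum_le_sum_of_subset_of_nonneg (Finset.subset_univ _) (fun j _ _ => Complex.normSq_nonneg _)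
    linarith
  have hone : Complex.normSq (w k0) = 1 := by
    rw [← hwn]
    symm
    apply Finset.sum_eq_single k0
    · intro k _ hk; rw [hzero k hk]; simp
    · simp
  have hww : Matrix.vecMulVec w (star w) = Matrix.diagonal (Pi.single k0 (1:ℂ)) := by
    ext a b
    rw [Matrix.vecMulVec_apply, Pi.star_apply]
    by_cases ha : a = k0
    · by_cases hb : b = k0
      · subst ha; subst hb
        rw [Matrix.diagonal_apply_eq, Pi.single_eq_same, RCLike.star_def, Complex.mul_conj, hone]; simp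
      · rw [hzero b hb, star_zero, mul_zero, Matrix.diagonal_apply_ne]
        rw [ha]; exact fun h => hb h.symm
    · rw [hzero a ha, zero_mul]
      by_cases hab : a = b
      · subst hab; rw [Matrix.diagonal_apply_eq, Pi.single_eq_of_ne ha]
      · rw [Matrix.diagonal_apply_ne _ hab]
  have back : ∀ X : Matrix κ κ ℂ, X = V * (star V * X * V) * star V := by
    intro X
    calc X = (V * star V) * X * (V * star V) := by rw [hVV, one_mul, mul_one]
      _ = _ := by simp only [mul_assoc]
  set lam : κ → ℝ := fun k => e k - (if k = k0 then 1 else 0) with hlam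
  have hdl : Matrix.diagonal (fun k => (e k : ℂ)) - Matrix.diagonal (Pi.single k0 (1:ℂ))
      = Matrix.diagonal (fun k => (lam k : ℂ)) := by
    rw [Matrix.diagonal_sub]
    congr 1
    ext k
    rw [hlam, Pi.single_apply]
    push_cast
    split_ifs <;> simp
  refine ⟨V, lam, k0, hVV, ?_, ?_, ?_, ?_⟩
  · rw [← hdl, ← hww, ← hQV]; exact back Q
  · rw [← hww, ← hconj]; exact back P
  · intro k
    have h1 := (hQ.re_dotProduct_nonneg (V *ᵥ Pi.single k 1))
    have h2 := hdiag k
    have h3 : Complex.normSq (w k) = if k = k0 then 1 else 0 := by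
      split_ifs with h
      · rw [h, hone]
      · rw [hzero k h]; simp
    have h4 : (0:ℝ) ≤ (star (V *ᵥ Pi.single k (1:ℂ)) ⬝ᵥ (Q *ᵥ (V *ᵥ Pi.single k 1))).re := h1
    rw [h2, h3] at h4
    exact h4
  · rw [hlam]; simp [hk0e]

end Run7.h455
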