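import Pool.Agent.Run7.h455.Align
import Pool.Agent.Run7.h455.Spec
import Pool.Agent.Run7.h455.Ent
import Pool.Agent.Run7.h455.Cond

set_option autoImplicit false
open Matrix
open scoped ComplexOrder MatrixOrder Kronecker

namespace Run7.h455

section al
variable {κ : Type} [Fintype κ] [DecidableEq κ]

omit [DecidableEq κ] in
lemma al_psd {Q P : Matrix κ κ ℂ} (hQ : Q.PosSemidef) (hP : P.PosSemidef) {n : ℕ} (s : Fin n → Bool) :
    (al Q P s).PosSemidef := by
  have h0 : ∀ j, (if s j then P.submatrix (fun x : Fin n → κ => x j) (fun x : Fin n → κ => x j)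
      else Q.submatrix (fun x : Fin n → κ => x j) (fun x : Fin n → κ => x j)).PosSemidef := by
    intro j
    split_ifs
    · exact hP.submatrix _
    · exact hQ.submatrix _
  have h1 := prod_psd (Finset.univ : Finset (Fin n)) _ h0
  have e : al Q P s = prodK (Finset.univ : Finset (Fin n)) (fun j => (if s j then
      P.submatrix (fun x : Fin n → κ => x j) (fun x : Fin n → κ => x j)
      else Q.submatrix (fun x : Fin n → κ => x j) (fun x : Fin n → κ => x j))) := by
    ext x y
    simp only [al, prodK]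
    refine Finset.prod_congr rfl fun j _ => ?_
    split_ifs <;> rfl
  rw [e]; exact h1

omit [DecidableEq κ] in
lemma al_trace {Q P : Matrix κ κ ℂ} (hQ1 : Q.trace = 1) (hP1 : P.trace = 1) {n : ℕ} (s : Fin n → Bool) :
    (al Q P s).trace = 1 := by
  rw [Matrix.trace]
  have h : ∀ x : Fin n → κ, (al Q P s).diag x = ∏ j, (if s j then P (x j) (x j) else Q (x j) (x j)) := by
    intro x; rfl
  simp only [h]
  classical
  have := Finset.prod_univ_sum (fun _ : Fin n => (Finset.univ : Finset κ))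
    (fun j a => (if s j then P a a else Q a a))
  rw [Fintype.piFinset_univ] at this
  rw [← this]
  apply Finset.prod_eq_one
  intro j _
  by_cases hs : s j = true
  · simp only [hs, if_true]; exact hP1
  · simp only [hs]; exact hQ1

end al

variable {d n : ℕ}

/-- sets of sites and Boolean functions on positions -/
def setEquiv (π : Equiv.Perm (Fin n)) : (Fin n → Bool) ≃ Finset (Fin n) where
  toFun s := Finset.univ.filter (fun j => s (π j) = true)
  invFun I := fun i => decide (π.symm i ∈ I)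
  left_inv s := by
    ext i
    simp
  right_inv I := by
    ext j
    simp

lemma mem_setEquiv (π : Equiv.Perm (Fin n)) (s : Fin n → Bool) (j : Fin n) :
    j ∈ setEquiv π s ↔ s (π j) = true := by
  simp [setEquiv]

/-- reindexing of configurations -/
def cfgEquiv (d : ℕ) (π : Equiv.Perm (Fin n)) : (Fin n → Fin d) ≃ (Fin n → Fin d) :=
  Equiv.arrowCongr π.symm (Equiv.refl (Fin d))

lemma cfgEquiv_apply (π : Equiv.Perm (Fin n)) (x : Fin n → Fin d) (j : Fin n) :
    cfgEquiv d π x j = x (π j) := rfl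

lemma prod_compl {M : Type*} [CommMonoid M] (I : Finset (Fin n)) (f : Fin n → M) :
    ∏ j ∈ Iᶜ, f j = ∏ j, (if j ∈ I then 1 else f j) := by
  rw [Finset.prod_ite, Finset.prod_const_one, one_mul]
  refine Finset.prod_congr ?_ fun _ _ => rfl
  ext j; simp

lemma prod_two {M : Type*} [CommMonoid M] (I : Finset (Fin n)) (f g : Fin n → M) :
    (∏ j ∈ I, g j) * ∏ j ∈ Iᶜ, f j = ∏ j, (if j ∈ I then g j else f j) := by
  rw [Finset.prod_ite]
  congr 1
  · refine Finset.prod_congr ?_ fun _ _ => rfl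
    ext j; simp
  · refine Finset.prod_congr ?_ fun _ _ => rfl
    ext j; simp

/-- `trace_split` for any instance on the local configurations -/
lemma trace_split_inst {κ ι : Type*} [Fintype κ] [DecidableEq κ] [Fintype ι] [DecidableEq ι]
    (p : ι → Prop) [DecidablePred p] (Q : Matrix κ κ ℂ) (hQ : Q.trace = 1)
    (ρ : Matrix ({j // p j} → κ) ({j // p j} → κ) ℂ) (F : Fintype ({j // p j} → κ)) :
    ∑ x : ι → κ, ρ (fun j => x j.1) (fun j => x j.1) * ∏ j, (if p j then 1 else Q (x j) (x j))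
      = @Matrix.trace _ _ F _ ρ := by
  have h : F = Pi.instFintype := Subsingleton.elim _ _
  rw [h]
  exact trace_split p Q hQ ρ

/-- the determinant and entropy form of spin alignment for families satisfying the trace condition -/
theorem sac_order
    (Q : Matrix (Fin d) (Fin d) ℂ) (hQ : Q.PosSemidef) (hQ1 : Q.trace = 1)
    (q : Fin d → ℂ) (c : ℝ) (hq : star q ⬝ᵥ q = 1) (hc : Q *ᵥ q = (c : ℂ) • q)
    (hmax : ∀ v : Fin d → ℂ, (star v ⬝ᵥ (Q *ᵥ v)).re ≤ c * (star v ⬝ᵥ v).re)
    (μ : Finset (Fin n) → ℝ) (hμ : ∀ I, 0 ≤ μ I)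
    (π : Equiv.Perm (Fin n))
    (hcond : ∀ k : Fin n, ((Finset.univ.filter (fun I : Finset (Fin n) => μ I ≠ 0 ∧ k ∈ I ∧
          (∃ j ∈ I, π k < π j) ∧ (∃ j, j ∉ I ∧ π k < π j))).image
        (fun I => I.filter (fun j => π k ≤ π j))).card ≤ 3)
    (ρ : (I : Finset (Fin n)) → Matrix ({j // j ∈ I} → Fin d) ({j // j ∈ I} → Fin d) ℂ)
    (hρ : ∀ I, (ρ I).PosSemidef ∧ (ρ I).trace = 1)
    (A A0 : Matrix (Fin n → Fin d) (Fin n → Fin d) ℂ)
    (hA : ∀ x y, A x y = ∑ I, (μ I : ℂ) * ρ I (fun i => x i.1) (fun i => y i.1)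
        * ∏ j ∈ Iᶜ, Q (x j) (y j))
    (hA0 : ∀ x y, A0 x y = ∑ I, (μ I : ℂ) * (∏ i ∈ I, q (x i) * star (q (y i)))
        * ∏ j ∈ Iᶜ, Q (x j) (y j)) :
    A.PosSemidef ∧ A0.PosSemidef ∧ A.trace = A0.trace ∧
      ∀ t : ℝ, 0 < t → dt ((t : ℂ) • (1 : Matrix (Fin n → Fin d) (Fin n → Fin d) ℂ) + A0)
        ≤ dt ((t : ℂ) • (1 : Matrix (Fin n → Fin d) (Fin n → Fin d) ℂ) + A) := by
  classical
  obtain ⟨V, lam, k0, hV, hQV, hPV, hlam, hlam0⟩ := spectral_top hQ hq hc hmax
  set P := Matrix.vecMulVec q (star q) with hP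
  have hPp : P.PosSemidef := Matrix.posSemidef_vecMulVec_self_star q
  have hP1 : P.trace = 1 := by
    rw [hP, Matrix.trace_vecMulVec, dotProduct_comm, hq]
  have hcQ : (((lam k0 : ℝ) : ℂ) • (1 : Matrix (Fin d) (Fin d) ℂ) - Q).PosSemidef := by
    rw [hlam0]
    have hherm : (((c : ℝ) : ℂ) • (1 : Matrix (Fin d) (Fin d) ℂ) - Q).IsHermitian := by
      have a1 : (((c : ℝ) : ℂ) • (1 : Matrix (Fin d) (Fin d) ℂ)).IsHermitian := by
        rw [Matrix.IsHermitian, Matrix.conjTranspose_smul]; simp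
      exact a1.sub hQ.1
    refine Matrix.PosSemidef.of_dotProduct_mulVec_nonneg hherm fun v => ?_
    have h1 := hmax v
    have him : (star v ⬝ᵥ ((((c : ℝ) : ℂ) • (1 : Matrix (Fin d) (Fin d) ℂ) - Q) *ᵥ v)).im = 0 := by
      have := hherm.im_star_dotProduct_mulVec_self v
      exact this
    rw [Complex.nonneg_iff]
    refine ⟨?_, him.symm⟩
    rw [Matrix.sub_mulVec, Matrix.smul_mulVec, Matrix.one_mulVec, dotProduct_sub, dotProduct_smul,
      Complex.sub_re, smul_eq_mul, Complex.re_ofReal_mul]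
    linarith
  set e := cfgEquiv d π with he
  set μb : (Fin n → Bool) → ℝ := fun s => μ (setEquiv π s) with hμb
  -- the operators
  set R : (Fin n → Bool) → Matrix (Fin n → Fin d) (Fin n → Fin d) ℂ := fun s =>
    (ρ (setEquiv π s)).submatrix (fun x i => x (π i.1)) (fun x i => x (π i.1)) with hR
  set σ : (Fin n → Bool) → Matrix (Fin n → Fin d) (Fin n → Fin d) ℂ := fun s =>
    (μb s : ℂ) • (R s ⊙ kerD Q s) with hσ
  have hAdm : ∀ s, Adm Q s (σ s) := by
    intro s
    have h1 : Adm Q s (R s ⊙ kerD Q s) := by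
      refine ⟨R s, (hρ _).1.submatrix _, ?_, rfl⟩
      intro x x' y y' hx hy
      rw [hR]
      simp only [Matrix.submatrix_apply]
      congr 1
      · funext i; exact hx _ ((mem_setEquiv π s i.1).mp i.2)
      · funext i; exact hy _ ((mem_setEquiv π s i.1).mp i.2)
    exact h1.smul (hμ _)
  have hker : ∀ (s : Fin n → Bool) (x y : Fin n → Fin d), kerD Q s x y
      = ∏ j, (if j ∈ setEquiv π s then 1 else Q (x (π j)) (y (π j))) := by
    intro s x y
    rw [kerD, ← Equiv.prod_comp π]
    refine Finset.prod_congr rfl fun j _ => ?_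
    simp only [mem_setEquiv]
  have htr : ∀ s, (σ s).trace = (μb s : ℂ) := by
    intro s
    rw [hσ]
    simp only
    rw [Matrix.trace_smul]
    have h1 : (R s ⊙ kerD Q s).trace = 1 := by
      have h2 := (trace_split_inst (fun j => j ∈ setEquiv π s) Q hQ1 (ρ (setEquiv π s)) _).trans
        (hρ (setEquiv π s)).2
      rw [← Equiv.sum_comp e] at h2
      rw [← h2, Matrix.trace]
      refine Finset.sum_congr rfl fun x _ => ?_
      rw [Matrix.diag_apply, Matrix.hadamard_apply, hker]
      rfl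
    rw [h1, smul_eq_mul, mul_one]
  have hsumA : A.submatrix e e = ∑ s, σ s := by
    ext x y
    rw [Matrix.submatrix_apply, hA, Matrix.sum_apply, ← Equiv.sum_comp (setEquiv π)]
    refine Finset.sum_congr rfl fun s _ => ?_
    rw [hσ]
    simp only
    rw [Matrix.smul_apply, Matrix.hadamard_apply, hker, prod_compl, smul_eq_mul, mul_assoc]
    rfl
  have hsumA0 : A0.submatrix e e = ∑ s, (μb s : ℂ) • al Q P s := by
    ext x y
    rw [Matrix.submatrix_apply, hA0, Matrix.sum_apply, ← Equiv.sum_comp (setEquiv π)]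
    refine Finset.sum_congr rfl fun s _ => ?_
    rw [mul_assoc, prod_two, Matrix.smul_apply, smul_eq_mul]
    congr 1
    have h2 : al Q P s x y = ∏ j, (if s (π j) then P (x (π j)) (y (π j)) else Q (x (π j)) (y (π j))) := by
      rw [al]
      exact (Equiv.prod_comp π (fun j => if s j then P (x j) (y j) else Q (x j) (y j))).symm
    rw [h2]
    refine Finset.prod_congr rfl fun j _ => ?_
    simp only [mem_setEquiv]
    rfl
  have hGood : Good n (fun s => μb s ≠ 0) := by
    apply good_of_tr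
    intro k
    refine le_trans ?_ (hcond (π.symm k))
    rw [← Set.ncard_coe_finset]
    apply Set.ncard_le_ncard_of_injOn (setEquiv π)
    · rintro u ⟨s, h1, h2, ⟨j, hj, hj2⟩, ⟨i, hi, hi2⟩, rfl⟩
      rw [Finset.mem_coe, Finset.mem_image]
      refine ⟨setEquiv π s, ?_, ?_⟩
      · rw [Finset.mem_filter]
        refine ⟨Finset.mem_univ _, h1, ?_, ⟨π.symm j, ?_, ?_⟩, ⟨π.symm i, ?_, ?_⟩⟩
        · rw [mem_setEquiv, Equiv.apply_symm_apply]; exact h2
        · rw [mem_setEquiv, Equiv.apply_symm_apply]; exact hj2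
        · simpa using hj
        · rw [mem_setEquiv, Equiv.apply_symm_apply, hi2]; simp
        · simpa using hi
      · ext l
        rw [Finset.mem_filter, mem_setEquiv, mem_setEquiv, Equiv.apply_symm_apply, trc]
        by_cases hk : k ≤ π l
        · simp [hk]
        · simp [hk]
    · exact (setEquiv π).injective.injOn
  have hApsd' : (A.submatrix e e).PosSemidef := by
    rw [hsumA]; exact Matrix.posSemidef_sum _ fun s _ => (hAdm s).psd hQ
  have hA0psd' : (A0.submatrix e e).PosSemidef := by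
    rw [hsumA0]
    exact Matrix.posSemidef_sum _ fun s _ => (al_psd hQ hPp s).smul (by
      have := hμ (setEquiv π s)
      exact_mod_cast this)
  have back : ∀ M : Matrix (Fin n → Fin d) (Fin n → Fin d) ℂ, (M.submatrix e e).submatrix e.symm e.symm = M := by
    intro M; ext x y; simp
  have htrM : ∀ M : Matrix (Fin n → Fin d) (Fin n → Fin d) ℂ, (M.submatrix e e).trace = M.trace := by
    intro M
    rw [Matrix.trace, Matrix.trace]
    exact Equiv.sum_comp e (fun x => M x x)
  have hdtM : ∀ (t : ℝ) (M : Matrix (Fin n → Fin d) (Fin n → Fin d) ℂ),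
      dt ((t : ℂ) • (1 : Matrix (Fin n → Fin d) (Fin n → Fin d) ℂ) + M)
        = dt ((t : ℂ) • (1 : Matrix (Fin n → Fin d) (Fin n → Fin d) ℂ) + M.submatrix e e) := by
    intro t M
    have e1 : (t : ℂ) • (1 : Matrix (Fin n → Fin d) (Fin n → Fin d) ℂ) + M.submatrix e e
        = ((t : ℂ) • (1 : Matrix (Fin n → Fin d) (Fin n → Fin d) ℂ) + M).submatrix e e := by
      rw [Matrix.submatrix_add, Matrix.submatrix_smul]
      simp only [Pi.add_apply, Pi.smul_apply, Matrix.submatrix_one_equiv]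
    rw [dt, dt, e1, Matrix.det_submatrix_equiv_self]
  refine ⟨?_, ?_, ?_, ?_⟩
  · rw [← back A]; exact hApsd'.submatrix _
  · rw [← back A0]; exact hA0psd'.submatrix _
  · rw [← htrM A, ← htrM A0, hsumA, hsumA0, Matrix.trace_sum, Matrix.trace_sum]
    refine Finset.sum_congr rfl fun s _ => ?_
    rw [htr, Matrix.trace_smul, al_trace hQ1 hP1, smul_eq_mul, mul_one]
  · intro t ht
    rw [hdtM t A, hdtM t A0, hsumA, hsumA0, al_dt hQ.1 hPp.1 hV hQV hPV t n μb]
    exact dsac hQ hQ1 hV hQV hPV hcQ hlam ht n μb σ hAdm htr hGood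

/-- the trace condition is automatic for at most three sites -/
lemma cond_small (hn : n ≤ 3) (μ : Finset (Fin n) → ℝ) (k : Fin n) :
    ((Finset.univ.filter (fun I : Finset (Fin n) => μ I ≠ 0 ∧ k ∈ I ∧
          (∃ j ∈ I, k < j) ∧ (∃ j, j ∉ I ∧ k < j))).image
        (fun I => I.filter (fun j => k ≤ j))).card ≤ 3 := by
  classical
  have key : ((Finset.univ.filter (fun I : Finset (Fin n) => k ∈ I ∧
          (∃ j ∈ I, k < j) ∧ (∃ j, j ∉ I ∧ k < j))).image
        (fun I => I.filter (fun j => k ≤ j))).card ≤ 3 := by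
    interval_cases n <;> revert k <;> decide
  refine le_trans (Finset.card_le_card ?_) key
  apply Finset.image_subset_image
  intro I hI
  rw [Finset.mem_filter] at hI ⊢
  exact ⟨hI.1, hI.2.2⟩

end Run7.h455
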