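import Pool.Agent.Run7.h455.Final
import Pool.Agent.Run7.h455.Cond2

set_option autoImplicit false
open Matrix
open scoped ComplexOrder MatrixOrder Kronecker

namespace Run7.h455

variable {d n : ℕ}

/-- the difference between the identity times the partial trace over the site `k` and the matrix -/
def rdm {d : ℕ} {ι : Type*} [DecidableEq ι] (k : ι)
    (ρ : Matrix (ι → Fin d) (ι → Fin d) ℂ) : Matrix (ι → Fin d) (ι → Fin d) ℂ :=
  Matrix.of fun x y =>
    (if x k = y k then ∑ a, ρ (Function.update x k a) (Function.update y k a) else 0) - ρ x y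

/-- transfer of the reduction criterion to the full system -/
lemma rd_of_rdm {Q : Matrix (Fin d) (Fin d) ℂ} (hQ : Q.PosSemidef) (π : Equiv.Perm (Fin n))
    (s : Fin n → Bool) (j : Fin n) (hs : s j = true)
    (ρ : Matrix ({i // i ∈ setEquiv π s} → Fin d) ({i // i ∈ setEquiv π s} → Fin d) ℂ)
    (hk : π.symm j ∈ setEquiv π s) (h : (rdm ⟨π.symm j, hk⟩ ρ).PosSemidef) :
    Rd j ((ρ.submatrix (fun (x : Fin n → Fin d) i => x (π i.1)) (fun (x : Fin n → Fin d) i => x (π i.1)))
      ⊙ kerD Q s) := by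
  classical
  set f : (Fin n → Fin d) → ({i // i ∈ setEquiv π s} → Fin d) := fun x i => x (π i.1) with hf
  have hup : ∀ (x : Fin n → Fin d) (a : Fin d), f (Function.update x j a)
      = Function.update (f x) ⟨π.symm j, hk⟩ a := by
    intro x a
    funext i
    rw [hf]
    simp only
    by_cases hi : i = ⟨π.symm j, hk⟩
    · subst hi
      rw [Function.update_self, Equiv.apply_symm_apply, Function.update_self]
    · rw [Function.update_of_ne hi, Function.update_of_ne]
      intro h1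
      apply hi
      apply Subtype.ext
      show i.1 = π.symm j
      rw [← Equiv.symm_apply_apply π i.1, h1]
  have hkD : ∀ (x y : Fin n → Fin d) (a : Fin d),
      kerD Q s (Function.update x j a) (Function.update y j a) = kerD Q s x y := by
    intro x y a
    rw [kerD, kerD]
    refine Finset.prod_congr rfl fun i _ => ?_
    by_cases hij : i = j
    · subst hij; simp [hs]
    · rw [Function.update_of_ne hij, Function.update_of_ne hij]
  have e : spread j (ρ.submatrix f f ⊙ kerD Q s) - ρ.submatrix f f ⊙ kerD Q s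
      = ((rdm ⟨π.symm j, hk⟩ ρ).submatrix f f) ⊙ kerD Q s := by
    ext x y
    rw [Matrix.sub_apply, spread, Matrix.hadamard_apply, Matrix.hadamard_apply, Matrix.submatrix_apply,
      Matrix.submatrix_apply, rdm, Matrix.of_apply]
    have hx : (f x ⟨π.symm j, hk⟩ = f y ⟨π.symm j, hk⟩) ↔ x j = y j := by
      rw [hf]; simp only [Equiv.apply_symm_apply]
    by_cases hxy : x j = y j
    · rw [if_pos hxy, if_pos (hx.mpr hxy), sub_mul, Finset.sum_mul]
      congr 1
      refine Finset.sum_congr rfl fun a _ => ?_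
      rw [Matrix.hadamard_apply, Matrix.submatrix_apply, hup, hup, hkD]
    · rw [if_neg hxy, if_neg (fun h => hxy (hx.mp h))]
      ring
  rw [Rd, e]
  exact (h.submatrix f).hadamard (kerD_psd hQ s)

/-- the determinant form of spin alignment under the refined trace condition -/
theorem sac_order2
    (Q : Matrix (Fin d) (Fin d) ℂ) (hQ : Q.PosSemidef) (hQ1 : Q.trace = 1)
    (q : Fin d → ℂ) (c : ℝ) (hq : star q ⬝ᵥ q = 1) (hc : Q *ᵥ q = (c : ℂ) • q)
    (hmax : ∀ v : Fin d → ℂ, (star v ⬝ᵥ (Q *ᵥ v)).re ≤ c * (star v ⬝ᵥ v).re)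
    (μ : Finset (Fin n) → ℝ) (hμ : ∀ I, 0 ≤ μ I)
    (ρ : (I : Finset (Fin n)) → Matrix ({j // j ∈ I} → Fin d) ({j // j ∈ I} → Fin d) ℂ)
    (hρ : ∀ I, (ρ I).PosSemidef ∧ (ρ I).trace = 1)
    (π : Equiv.Perm (Fin n))
    (hcond : ∀ k : Fin n, Set.ncard {J : Finset (Fin n) | ∃ I : Finset (Fin n), μ I ≠ 0 ∧
        (∃ h : k ∈ I, ¬ (rdm ⟨k, h⟩ (ρ I)).PosSemidef) ∧
        (∃ j ∈ I, π k < π j) ∧ (∃ j, j ∉ I ∧ π k < π j) ∧
        J = I.filter (fun j => π k ≤ π j)} ≤ 3)
    (A A0 : Matrix (Fin n → Fin d) (Fin n → Fin d) ℂ)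
    (hA : ∀ x y, A x y = ∑ I, (μ I : ℂ) * ρ I (fun i => x i.1) (fun i => y i.1)
        * ∏ j ∈ Iᶜ, Q (x j) (y j))
    (hA0 : ∀ x y, A0 x y = ∑ I, (μ I : ℂ) * (∏ i ∈ I, q (x i) * star (q (y i)))
        * ∏ j ∈ Iᶜ, Q (x j) (y j)) :
    A.PosSemidef ∧ A0.PosSemidef ∧ A.trace = A0.trace ∧
      ∀ t : ℝ, 0 < t → dt ((t : ℂ) • (1 : Matrix (Fin n → Fin d) (Fin n → Fin d) ℂ) + A0)
        ≤ dt ((t : ℂ) • (1 : Matrix (Fin n → Fin d) (Fin n → Fin d) ℂ) + A) := by
  classical
  obtain ⟨V, lam, k0, hV, hQV, hPV, hlam, hlam0⟩ := spectral_top hQ hq hc hmax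
  set P := Matrix.vecMulVec q (star q) with hP
  have hPp : P.PosSemidef := Matrix.posSemidef_vecMulVec_self_star q
  have hP1 : P.trace = 1 := by
    rw [hP, Matrix.trace_vecMulVec, dotProduct_comm, hq]
  have hcQ : (((lam k0 : ℝ) : ℂ) • (1 : Matrix (Fin d) (Fin d) ℂ) - Q).PosSemidef := by
    rw [hlam0]
    have hherm : (((c : ℝ) : ℂ) • (1 : Matrix (Fin d) (Fin d) ℂ) - Q).IsHermitian := by
      have a1 : (((c : ℝ) : ℂ) • (1 : Matrix (Fin d) (Fin d) ℂ)).IsHermitian := by
        rw [Matrix.IsHermitian, Matrix.conjTranspose_smul]; simp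
      exact a1.sub hQ.1
    refine Matrix.PosSemidef.of_dotProduct_mulVec_nonneg hherm fun v => ?_
    have h1 := hmax v
    have him : (star v ⬝ᵥ ((((c : ℝ) : ℂ) • (1 : Matrix (Fin d) (Fin d) ℂ) - Q) *ᵥ v)).im = 0 := by
      have := hherm.im_star_dotProduct_mulVec_self v
      exact this
    rw [Complex.nonneg_iff]
    refine ⟨?_, him.symm⟩
    rw [Matrix.sub_mulVec, Matrix.smul_mulVec, Matrix.one_mulVec, dotProduct_sub, dotProduct_smul,
      Complex.sub_re, smul_eq_mul, Complex.re_ofReal_mul]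
    linarith
  set e := cfgEquiv d π with he
  set μb : (Fin n → Bool) → ℝ := fun s => μ (setEquiv π s) with hμb
  -- the operators
  set R : (Fin n → Bool) → Matrix (Fin n → Fin d) (Fin n → Fin d) ℂ := fun s =>
    (ρ (setEquiv π s)).submatrix (fun x i => x (π i.1)) (fun x i => x (π i.1)) with hR
  set σ : (Fin n → Bool) → Matrix (Fin n → Fin d) (Fin n → Fin d) ℂ := fun s =>
    (μb s : ℂ) • (R s ⊙ kerD Q s) with hσ
  have hAdm : ∀ s, Adm Q s (σ s) := by
    intro s
    have h1 : Adm Q s (R s ⊙ kerD Q s) := by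
      refine ⟨R s, (hρ _).1.submatrix _, ?_, rfl⟩
      intro x x' y y' hx hy
      rw [hR]
      simp only [Matrix.submatrix_apply]
      congr 1
      · funext i; exact hx _ ((mem_setEquiv π s i.1).mp i.2)
      · funext i; exact hy _ ((mem_setEquiv π s i.1).mp i.2)
    exact h1.smul (hμ _)
  have hker : ∀ (s : Fin n → Bool) (x y : Fin n → Fin d), kerD Q s x y
      = ∏ j, (if j ∈ setEquiv π s then 1 else Q (x (π j)) (y (π j))) := by
    intro s x y
    rw [kerD, ← Equiv.prod_comp π]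
    refine Finset.prod_congr rfl fun j _ => ?_
    simp only [mem_setEquiv]
  have htr : ∀ s, (σ s).trace = (μb s : ℂ) := by
    intro s
    rw [hσ]
    simp only
    rw [Matrix.trace_smul]
    have h1 : (R s ⊙ kerD Q s).trace = 1 := by
      have h2 := (trace_split_inst (fun j => j ∈ setEquiv π s) Q hQ1 (ρ (setEquiv π s)) _).trans
        (hρ (setEquiv π s)).2
      rw [← Equiv.sum_comp e] at h2
      rw [← h2, Matrix.trace]
      refine Finset.sum_congr rfl fun x _ => ?_
      rw [Matrix.diag_apply, Matrix.hadamard_apply, hker]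
      rfl
    rw [h1, smul_eq_mul, mul_one]
  have hsumA : A.submatrix e e = ∑ s, σ s := by
    ext x y
    rw [Matrix.submatrix_apply, hA, Matrix.sum_apply, ← Equiv.sum_comp (setEquiv π)]
    refine Finset.sum_congr rfl fun s _ => ?_
    rw [hσ]
    simp only
    rw [Matrix.smul_apply, Matrix.hadamard_apply, hker, prod_compl, smul_eq_mul, mul_assoc]
    rfl
  have hsumA0 : A0.submatrix e e = ∑ s, (μb s : ℂ) • al Q P s := by
    ext x y
    rw [Matrix.submatrix_apply, hA0, Matrix.sum_apply, ← Equiv.sum_comp (setEquiv π)]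
    refine Finset.sum_congr rfl fun s _ => ?_
    rw [mul_assoc, prod_two, Matrix.smul_apply, smul_eq_mul]
    congr 1
    have h2 : al Q P s x y = ∏ j, (if s (π j) then P (x (π j)) (y (π j)) else Q (x (π j)) (y (π j))) := by
      rw [al]
      exact (Equiv.prod_comp π (fun j => if s j then P (x j) (y j) else Q (x j) (y j))).symm
    rw [h2]
    refine Finset.prod_congr rfl fun j _ => ?_
    simp only [mem_setEquiv]
    rfl
  set W : (Fin n → Bool) → Fin n → Prop := fun s j => μb s ≠ 0 ∧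
    ∃ h : π.symm j ∈ setEquiv π s, ¬ (rdm ⟨π.symm j, h⟩ (ρ (setEquiv π s))).PosSemidef with hW
  have hGood : Good2 n W := by
    apply good2_of_tr
    intro k
    refine le_trans ?_ (hcond (π.symm k))
    apply Set.ncard_le_ncard_of_injOn (setEquiv π)
    · rintro u ⟨s, ⟨h1, h1'⟩, h2, ⟨j, hj, hj2⟩, ⟨i, hi, hi2⟩, rfl⟩
      refine ⟨setEquiv π s, h1, h1', ⟨π.symm j, ?_, ?_⟩, ⟨π.symm i, ?_, ?_⟩, ?_⟩
      · rw [mem_setEquiv, Equiv.apply_symm_apply]; exact hj2
      · simpa using hj
      · rw [mem_setEquiv, Equiv.apply_symm_apply, hi2]; simp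
      · simpa using hi
      · ext l
        rw [Finset.mem_filter, mem_setEquiv, mem_setEquiv, Equiv.apply_symm_apply, trc]
        by_cases hk : k ≤ π l
        · simp [hk]
        · simp [hk]
    · exact (setEquiv π).injective.injOn
  have hRd : ∀ s j, s j = true → ¬ W s j → Rd j (σ s) := by
    intro s j hs hw
    by_cases h0 : μb s = 0
    · rw [hσ]; simp only; rw [h0, Complex.ofReal_zero, zero_smul]; exact Rd.zero j
    · have hk : π.symm j ∈ setEquiv π s := by
        rw [mem_setEquiv, Equiv.apply_symm_apply]; exact hs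
      have h1 : (rdm ⟨π.symm j, hk⟩ (ρ (setEquiv π s))).PosSemidef := by
        by_contra h2
        exact hw ⟨h0, hk, h2⟩
      exact (rd_of_rdm hQ π s j hs (ρ (setEquiv π s)) hk h1).smul (hμ _)
  have hApsd' : (A.submatrix e e).PosSemidef := by
    rw [hsumA]; exact Matrix.posSemidef_sum _ fun s _ => (hAdm s).psd hQ
  have hA0psd' : (A0.submatrix e e).PosSemidef := by
    rw [hsumA0]
    exact Matrix.posSemidef_sum _ fun s _ => (al_psd hQ hPp s).smul (by
      have := hμ (setEquiv π s)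
      exact_mod_cast this)
  have back : ∀ M : Matrix (Fin n → Fin d) (Fin n → Fin d) ℂ, (M.submatrix e e).submatrix e.symm e.symm = M := by
    intro M; ext x y; simp
  have htrM : ∀ M : Matrix (Fin n → Fin d) (Fin n → Fin d) ℂ, (M.submatrix e e).trace = M.trace := by
    intro M
    rw [Matrix.trace, Matrix.trace]
    exact Equiv.sum_comp e (fun x => M x x)
  have hdtM : ∀ (t : ℝ) (M : Matrix (Fin n → Fin d) (Fin n → Fin d) ℂ),
      dt ((t : ℂ) • (1 : Matrix (Fin n → Fin d) (Fin n → Fin d) ℂ) + M)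
        = dt ((t : ℂ) • (1 : Matrix (Fin n → Fin d) (Fin n → Fin d) ℂ) + M.submatrix e e) := by
    intro t M
    have e1 : (t : ℂ) • (1 : Matrix (Fin n → Fin d) (Fin n → Fin d) ℂ) + M.submatrix e e
        = ((t : ℂ) • (1 : Matrix (Fin n → Fin d) (Fin n → Fin d) ℂ) + M).submatrix e e := by
      rw [Matrix.submatrix_add, Matrix.submatrix_smul]
      simp only [Pi.add_apply, Pi.smul_apply, Matrix.submatrix_one_equiv]
    rw [dt, dt, e1, Matrix.det_submatrix_equiv_self]
  refine ⟨?_, ?_, ?_, ?_⟩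
  · rw [← back A]; exact hApsd'.submatrix _
  · rw [← back A0]; exact hA0psd'.submatrix _
  · rw [← htrM A, ← htrM A0, hsumA, hsumA0, Matrix.trace_sum, Matrix.trace_sum]
    refine Finset.sum_congr rfl fun s _ => ?_
    rw [htr, Matrix.trace_smul, al_trace hQ1 hP1, smul_eq_mul, mul_one]
  · intro t ht
    rw [hdtM t A, hdtM t A0, hsumA, hsumA0, al_dt hQ.1 hPp.1 hV hQV hPV t n μb]
    exact dsac2 hQ hQ1 hV hQV hPV hcQ hlam ht n μb σ W hAdm htr hGood hRd

end Run7.h455
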