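import Pool.Agent.Run7.h455.Bound

set_option autoImplicit false
open Matrix
open scoped ComplexOrder MatrixOrder Kronecker

namespace Run7.h455

section sp
variable {κ ι : Type*} [Fintype κ] [DecidableEq κ] [Fintype ι] [DecidableEq ι]

lemma prod_sum_fun (f : ι → κ → ℂ) : ∏ i, ∑ a, f i a = ∑ g : ι → κ, ∏ i, f i (g i) := by
  have := Finset.prod_univ_sum (fun _ : ι => (Finset.univ : Finset κ)) f
  rw [Fintype.piFinset_univ] at this
  exact this

/-- sums over configurations split -/
lemma sum_split (p : ι → Prop) [DecidablePred p] (F : (ι → κ) → ℂ) :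
    ∑ x, F x = ∑ f : {j // p j} → κ, ∑ g : {j // ¬ p j} → κ,
      F ((Equiv.piEquivPiSubtypeProd p (fun _ => κ)).symm (f, g)) := by
  rw [← Equiv.sum_comp (Equiv.piEquivPiSubtypeProd p (fun _ => κ)).symm, Fintype.sum_prod_type]

omit [Fintype κ] [DecidableEq κ] [Fintype ι] [DecidableEq ι] in
lemma glue_pos (p : ι → Prop) [DecidablePred p] (f : {j // p j} → κ) (g : {j // ¬ p j} → κ)
    (j : {j // p j}) : (Equiv.piEquivPiSubtypeProd p (fun _ => κ)).symm (f, g) j.1 = f j := by
  simp [Equiv.piEquivPiSubtypeProd, j.2]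

omit [Fintype κ] [DecidableEq κ] [Fintype ι] [DecidableEq ι] in
lemma glue_neg (p : ι → Prop) [DecidablePred p] (f : {j // p j} → κ) (g : {j // ¬ p j} → κ)
    (j : {j // ¬ p j}) : (Equiv.piEquivPiSubtypeProd p (fun _ => κ)).symm (f, g) j.1 = g j := by
  simp [Equiv.piEquivPiSubtypeProd, j.2]

/-- a function of the coordinates in `p` times a product over the others -/
lemma sum_weight (p : ι → Prop) [DecidablePred p] (G : ({j // p j} → κ) → ℂ)
    (q : {j // ¬ p j} → κ → ℂ) (hq : ∀ j, ∑ a, q j a = 1) :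
    ∑ x : ι → κ, G (fun j => x j.1) * ∏ j : {j // ¬ p j}, q j (x j.1) = ∑ f, G f := by
  rw [sum_split p]
  refine Finset.sum_congr rfl fun f _ => ?_
  have h : ∀ g : {j // ¬ p j} → κ, G (fun j : {j // p j} =>
      (Equiv.piEquivPiSubtypeProd p (fun _ => κ)).symm (f, g) j.1)
      * ∏ j : {j // ¬ p j}, q j ((Equiv.piEquivPiSubtypeProd p (fun _ => κ)).symm (f, g) j.1)
      = G f * ∏ j, q j (g j) := by
    intro g
    congr 1
    · congr 1
      funext j
      exact glue_pos p f g j
    · exact Finset.prod_congr rfl fun j _ => by rw [glue_neg p f g j]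
  simp only [h]
  rw [← Finset.mul_sum, ← prod_sum_fun q, Finset.prod_eq_one (fun j _ => hq j), mul_one]

/-- splitting of a sesquilinear expression -/
lemma dg_split (p : ι → Prop) [DecidablePred p] (A B : ι → κ → ℂ) (Q : Matrix κ κ ℂ)
    (ρ : Matrix ({j // p j} → κ) ({j // p j} → κ) ℂ) :
    ∑ u : ι → κ, ∑ v : ι → κ, (∏ j, A j (u j))
        * (ρ (fun j => u j.1) (fun j => v j.1) * ∏ j, (if p j then 1 else Q (u j) (v j)))
        * ∏ j, B j (v j)
      = (∑ u : {j // p j} → κ, ∑ v : {j // p j} → κ, (∏ j, A j.1 (u j)) * ρ u v * ∏ j, B j.1 (v j))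
        * ∏ j : {j // ¬ p j}, ∑ a, ∑ b, A j.1 a * Q a b * B j.1 b := by
  have hprod : ∀ (F : ι → ℂ), ∏ j, F j = (∏ j : {j // p j}, F j.1) * ∏ j : {j // ¬ p j}, F j.1 :=
    fun F => (Fintype.prod_subtype_mul_prod_subtype p F).symm
  have hQ : ∀ u v : ι → κ, ∏ j, (if p j then 1 else Q (u j) (v j))
      = ∏ j : {j // ¬ p j}, Q (u j.1) (v j.1) := by
    intro u v
    rw [hprod]
    have a : ∏ j : {j // p j}, (if p j.1 then 1 else Q (u j.1) (v j.1)) = 1 :=
      Finset.prod_eq_one fun j _ => by simp [j.2]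
    rw [a, one_mul]
    exact Finset.prod_congr rfl fun j _ => by simp [j.2]
  have hR : ∏ j : {j // ¬ p j}, ∑ a, ∑ b, A j.1 a * Q a b * B j.1 b
      = ∑ g : {j // ¬ p j} → κ, ∑ h : {j // ¬ p j} → κ,
        ∏ j : {j // ¬ p j}, (A j.1 (g j) * Q (g j) (h j) * B j.1 (h j)) := by
    rw [prod_sum_fun]
    exact Finset.sum_congr rfl fun g _ => prod_sum_fun _
  rw [hR, sum_split p]
  have e1 : ∀ (f : {j // p j} → κ) (g : {j // ¬ p j} → κ),
      ∑ v : ι → κ, (∏ j, A j ((Equiv.piEquivPiSubtypeProd p (fun _ => κ)).symm (f, g) j))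
        * (ρ (fun j => (Equiv.piEquivPiSubtypeProd p (fun _ => κ)).symm (f, g) j.1) (fun j => v j.1)
          * ∏ j, (if p j then 1 else Q ((Equiv.piEquivPiSubtypeProd p (fun _ => κ)).symm (f, g) j) (v j)))
        * ∏ j, B j (v j)
      = ∑ f' : {j // p j} → κ, ∑ g' : {j // ¬ p j} → κ,
        ((∏ j, A j.1 (f j)) * ρ f f' * ∏ j, B j.1 (f' j))
        * ∏ j : {j // ¬ p j}, (A j.1 (g j) * Q (g j) (g' j) * B j.1 (g' j)) := by
    intro f g
    rw [sum_split p]
    refine Finset.sum_congr rfl fun f' _ => Finset.sum_congr rfl fun g' _ => ?_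
    rw [hQ, hprod (fun j => A j ((Equiv.piEquivPiSubtypeProd p (fun _ => κ)).symm (f, g) j)),
      hprod (fun j => B j ((Equiv.piEquivPiSubtypeProd p (fun _ => κ)).symm (f', g') j))]
    simp only [glue_pos, glue_neg]
    rw [Finset.prod_mul_distrib, Finset.prod_mul_distrib]
    ring
  simp only [e1]
  rw [Finset.sum_mul]
  refine Finset.sum_congr rfl fun f _ => ?_
  rw [Finset.sum_mul, Finset.sum_comm]
  refine Finset.sum_congr rfl fun f' _ => ?_
  rw [Finset.mul_sum]
  refine Finset.sum_congr rfl fun g _ => ?_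
  rw [Finset.mul_sum]

end sp

/-- the rows of a unitary matrix give the trace -/
lemma row_trace {κ : Type*} [Fintype κ] [DecidableEq κ] {e : Matrix κ κ ℂ} (he : e * star e = 1)
    (Q : Matrix κ κ ℂ) : ∑ x, ∑ a, ∑ b, star (e x a) * Q a b * e x b = Q.trace := by
  have he' : star e * e = 1 := mul_eq_one_comm.mp he
  rw [Finset.sum_comm, Matrix.trace]
  refine Finset.sum_congr rfl fun a _ => ?_
  rw [Finset.sum_comm, Finset.sum_eq_single a]
  · have h1 := congrFun (congrFun he' a) a
    rw [Matrix.mul_apply, Matrix.one_apply_eq] at h1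
    simp only [Matrix.star_apply] at h1
    rw [Matrix.diag_apply]
    calc ∑ x, star (e x a) * Q a a * e x a = (∑ x, star (e x a) * e x a) * Q a a := by
          rw [Finset.sum_mul]; exact Finset.sum_congr rfl fun x _ => by ring
      _ = _ := by rw [h1, one_mul]
  · intro b _ hb
    have h1 := congrFun (congrFun he' a) b
    rw [Matrix.mul_apply, Matrix.one_apply_ne (Ne.symm hb)] at h1
    simp only [Matrix.star_apply] at h1
    calc ∑ x, star (e x a) * Q a b * e x b = (∑ x, star (e x a) * e x b) * Q a b := by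
          rw [Finset.sum_mul]; exact Finset.sum_congr rfl fun x _ => by ring
      _ = _ := by rw [h1, zero_mul]
  · simp

end Run7.h455
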