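import Pool.Agent.Run7.h455.Final2
import Pool.Agent.Run7.h455.Conv
import Pool.Agent.Run7.h455.Split

set_option autoImplicit false
open Matrix
open scoped ComplexOrder MatrixOrder Kronecker

namespace Run7.h455

section good
lemma tr2_nx {n : ℕ} (W : (Fin (n+1) → Bool) → Fin (n+1) → Prop) (k : Fin n) :
    (Tr2 (nx W) k).ncard ≤ (Tr2 W k.succ).ncard := by
  apply Set.ncard_le_ncard_of_injOn (fun s => (Fin.cons false s : Fin (n+1) → Bool))
  · rintro u ⟨s, h1, h2, ⟨j, hj, hj2⟩, ⟨i, hi, hi2⟩, rfl⟩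
    have key : ∀ b : Bool, W (Fin.cons b s) k.succ →
        (Fin.cons false (trc k s) : Fin (n+1) → Bool) ∈ Tr2 W k.succ := by
      intro b hb
      refine ⟨Fin.cons b s, hb, by simpa using h2, ⟨j.succ, by simpa using hj, by simpa using hj2⟩,
        ⟨i.succ, by simpa using hi, by simpa using hi2⟩, ?_⟩
      ext l
      refine Fin.cases ?_ (fun l => ?_) l
      · have : ¬ (k.succ ≤ (0 : Fin (n+1))) := by
          rw [not_le]; exact Fin.succ_pos k
        simp [trc]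
      · simp [trc, Fin.succ_le_succ_iff]
    rcases h1 with h1 | h1
    · exact key _ h1
    · exact key _ h1
  · intro s _ s' _ hss
    exact (Fin.cons_injective2 hss).2

theorem good3_of_tr : ∀ (m : ℕ) {n : ℕ} {W : (Fin n → Bool) → Fin n → Prop},
    (∀ k : Fin n, m ≤ (k : ℕ) → (Tr2 W k).ncard ≤ 3) → Good3 m n W
  | 0, _, _, h => good2_of_tr fun k => h k (Nat.zero_le _)
  | _ + 1, 0, _, _ => trivial
  | m + 1, n + 1, W, h =>
    good3_of_tr m (n := n) (W := nx W) fun k hk =>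
      le_trans (tr2_nx W k) (h k.succ (by rw [Fin.val_succ]; exact Nat.succ_le_succ hk))

end good

section inst
variable {κ ι : Type*} [Fintype κ] [DecidableEq κ] [Fintype ι] [DecidableEq ι]

lemma sum_weight_inst (p : ι → Prop) [DecidablePred p] [F1 : Fintype {j // p j}]
    (G : ({j // p j} → κ) → ℂ)
    (q : {j // ¬ p j} → κ → ℂ) (hq : ∀ j, ∑ a, q j a = 1) :
    ∑ x : ι → κ, G (fun j => x j.1) * ∏ j : {j // ¬ p j}, q j (x j.1) = ∑ f, G f := by
  obtain rfl : F1 = Subtype.fintype p := Subsingleton.elim _ _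
  exact sum_weight p G q hq

lemma dg_split_inst (p : ι → Prop) [DecidablePred p] [F1 : Fintype {j // p j}]
    (A B : ι → κ → ℂ) (Q : Matrix κ κ ℂ)
    (ρ : Matrix ({j // p j} → κ) ({j // p j} → κ) ℂ) :
    ∑ u : ι → κ, ∑ v : ι → κ, (∏ j, A j (u j))
        * (ρ (fun j => u j.1) (fun j => v j.1) * ∏ j, (if p j then 1 else Q (u j) (v j)))
        * ∏ j, B j (v j)
      = (∑ u : {j // p j} → κ, ∑ v : {j // p j} → κ, (∏ j, A j.1 (u j)) * ρ u v * ∏ j, B j.1 (v j))
        * ∏ j : {j // ¬ p j}, ∑ a, ∑ b, A j.1 a * Q a b * B j.1 b := by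
  obtain rfl : F1 = Subtype.fintype p := Subsingleton.elim _ _
  exact dg_split p A B Q ρ

end inst

variable {d n : ℕ}

/-- diagonal entry of `ρ` in the product of the orthonormal bases given by the rows of `e j` -/
def dgI {I : Finset (Fin n)} (e : Fin n → Matrix (Fin d) (Fin d) ℂ)
    (ρ : Matrix ({j // j ∈ I} → Fin d) ({j // j ∈ I} → Fin d) ℂ) (x : {j // j ∈ I} → Fin d) : ℂ :=
  ∑ u, ∑ v, (∏ j : {j // j ∈ I}, star (e j.1 (x j) (u j))) * ρ u v
    * ∏ j : {j // j ∈ I}, e j.1 (x j) (v j)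

/-- the summands of `wI` -/
def smd {I : Finset (Fin n)} (π : Equiv.Perm (Fin n)) (e : Fin n → Matrix (Fin d) (Fin d) ℂ)
    (ρ : Matrix ({j // j ∈ I} → Fin d) ({j // j ∈ I} → Fin d) ℂ) (k : {j // j ∈ I})
    (y : {j // j ∈ I} → Fin d) (a : Fin d) (x : {j // j ∈ I} → Fin d) : ℂ :=
  if (∀ j : {j // j ∈ I}, π j.1 < π k.1 → x j = y j) ∧ x k = a then dgI e ρ x else 0

/-- diagonal weights of `ρ`: the sites of `I` before `k` are fixed by `y` -/
def wI {I : Finset (Fin n)} (π : Equiv.Perm (Fin n)) (e : Fin n → Matrix (Fin d) (Fin d) ℂ)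
    (ρ : Matrix ({j // j ∈ I} → Fin d) ({j // j ∈ I} → Fin d) ℂ) (k : {j // j ∈ I})
    (y : {j // j ∈ I} → Fin d) (a : Fin d) : ℂ :=
  ∑ x : {j // j ∈ I} → Fin d, smd π e ρ k y a x

/-- version for a general finite set of sites -/
lemma sum_smd {Q : Matrix (Fin d) (Fin d) ℂ} (hQ1 : Q.trace = 1) (π : Equiv.Perm (Fin n))
    (e : Fin n → Matrix (Fin d) (Fin d) ℂ) (he : ∀ k, e k * star (e k) = 1)
    (I : Finset (Fin n)) (ρ : Matrix ({j // j ∈ I} → Fin d) ({j // j ∈ I} → Fin d) ℂ)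
    (k : {j // j ∈ I}) (y : {j // j ∈ I} → Fin d) (a : Fin d) :
    ∑ x : Fin n → Fin d, smd π e ρ k y a (fun i => x i.1) * ∏ i : {i // ¬ i ∈ I}, ∑ b, ∑ c,
          star (e i.1 (x i.1) b) * Q b c * e i.1 (x i.1) c = wI π e ρ k y a := by
  have hg : ∀ i : {i // ¬ i ∈ I}, ∑ b, ∑ c, ∑ f, star (e i.1 b c) * Q c f * e i.1 b f = 1 :=
    fun i => by rw [row_trace (he i.1), hQ1]
  rw [wI]
  exact @sum_weight_inst (Fin d) (Fin n) _ _ _ _ (fun i => i ∈ I) _ _
    (smd π e ρ k y a) (fun i b => ∑ c, ∑ f, star (e i.1 b c) * Q c f * e i.1 b f) hg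

lemma rd_eq_dgI {Q : Matrix (Fin d) (Fin d) ℂ} (π : Equiv.Perm (Fin n))
    (e : Fin n → Matrix (Fin d) (Fin d) ℂ) (s : Fin n → Bool)
    (ρ : Matrix ({i // i ∈ setEquiv π s} → Fin d) ({i // i ∈ setEquiv π s} → Fin d) ℂ)
    (x : Fin n → Fin d) :
    rd (fun i => e (π.symm i))
      ((ρ.submatrix (fun (x : Fin n → Fin d) i => x (π i.1)) (fun (x : Fin n → Fin d) i => x (π i.1)))
        ⊙ kerD Q s) x
      = dgI e ρ (fun i => x (π i.1)) * ∏ i : {i // ¬ i ∈ setEquiv π s}, ∑ b, ∑ c,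
          star (e i.1 (x (π i.1)) b) * Q b c * e i.1 (x (π i.1)) c := by
  have hker : ∀ x y : Fin n → Fin d, kerD Q s x y
      = ∏ i, (if i ∈ setEquiv π s then 1 else Q (x (π i)) (y (π i))) := by
    intro x y
    rw [kerD, ← Equiv.prod_comp π]
    refine Finset.prod_congr rfl fun i _ => ?_
    simp only [mem_setEquiv]
  rw [dgI]
  refine Eq.trans ?_ (@dg_split_inst (Fin d) (Fin n) _ _ _ _ (fun i => i ∈ setEquiv π s) _ _
    (fun i b => star (e i (x (π i)) b)) (fun i b => e i (x (π i)) b) Q ρ)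
  rw [rd, ← Equiv.sum_comp (cfgEquiv d π).symm]
  refine Finset.sum_congr rfl fun u _ => ?_
  rw [← Equiv.sum_comp (cfgEquiv d π).symm]
  refine Finset.sum_congr rfl fun v _ => ?_
  have hc : ∀ (z : Fin n → Fin d) (i : Fin n), (cfgEquiv d π).symm z (π i) = z i := by
    intro z i
    have := cfgEquiv_apply (d := d) π ((cfgEquiv d π).symm z) i
    rw [Equiv.apply_symm_apply] at this
    exact this.symm
  rw [Matrix.hadamard_apply, Matrix.submatrix_apply, hker,
    ← Equiv.prod_comp π (fun j => star (e (π.symm j) (x j) ((cfgEquiv d π).symm u j))),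
    ← Equiv.prod_comp π (fun j => e (π.symm j) (x j) ((cfgEquiv d π).symm v j))]
  simp only [hc, Equiv.symm_apply_apply]

lemma wt_eq_wI {Q : Matrix (Fin d) (Fin d) ℂ} (hQ1 : Q.trace = 1) (π : Equiv.Perm (Fin n))
    (e : Fin n → Matrix (Fin d) (Fin d) ℂ) (he : ∀ k, e k * star (e k) = 1)
    (s : Fin n → Bool) (j : Fin n)
    (ρ : Matrix ({i // i ∈ setEquiv π s} → Fin d) ({i // i ∈ setEquiv π s} → Fin d) ℂ)
    (hk : π.symm j ∈ setEquiv π s) (Y : Fin n → Fin d) (a : Fin d) :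
    wt (fun i => e (π.symm i)) s
      ((ρ.submatrix (fun (x : Fin n → Fin d) i => x (π i.1)) (fun (x : Fin n → Fin d) i => x (π i.1)))
        ⊙ kerD Q s) j Y a
      = wI π e ρ ⟨π.symm j, hk⟩ (fun i => Y (π i.1)) a := by
  have hc : ∀ (z : Fin n → Fin d) (i : Fin n), (cfgEquiv d π).symm z (π i) = z i := by
    intro z i
    have := cfgEquiv_apply (d := d) π ((cfgEquiv d π).symm z) i
    rw [Equiv.apply_symm_apply] at this
    exact this.symm
  rw [← sum_smd hQ1 π e he, wt, ← Equiv.sum_comp (cfgEquiv d π).symm]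
  refine Finset.sum_congr rfl fun z _ => ?_
  rw [rd_eq_dgI, smd]
  simp only [hc]
  have hcond : ((∀ i, i < j → s i = true → (cfgEquiv d π).symm z i = Y i) ∧
        (cfgEquiv d π).symm z j = a)
      ↔ ((∀ i : {i // i ∈ setEquiv π s}, π i.1 < π (π.symm j) → z i.1 = Y (π i.1))
        ∧ z (π.symm j) = a) := by
    constructor
    · rintro ⟨h3, h4⟩
      refine ⟨fun i hi => ?_, ?_⟩
      · have h5 := h3 (π i.1) (by simpa using hi) ((mem_setEquiv π s i.1).mp i.2)
        rw [hc] at h5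
        exact h5
      · rw [← hc z (π.symm j), Equiv.apply_symm_apply]; exact h4
    · rintro ⟨h3, h4⟩
      refine ⟨fun i hi hsi => ?_, ?_⟩
      · have hmem : π.symm i ∈ setEquiv π s := by
          rw [mem_setEquiv, Equiv.apply_symm_apply]; exact hsi
        have h5 := h3 ⟨π.symm i, hmem⟩ (by simpa using hi)
        simp only [Equiv.apply_symm_apply] at h5
        rw [← h5, ← hc z (π.symm i), Equiv.apply_symm_apply]
      · rw [← h4, ← hc z (π.symm j), Equiv.apply_symm_apply]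
  by_cases h6 : (∀ i : {i // i ∈ setEquiv π s}, π i.1 < π (π.symm j) → z i.1 = Y (π i.1))
      ∧ z (π.symm j) = a
  · rw [if_pos (hcond.mpr h6), if_pos h6]
  · rw [if_neg (fun h => h6 (hcond.mp h)), if_neg h6, zero_mul]

/-- the determinant form of spin alignment, most general form -/
theorem sac_order3
    (Q : Matrix (Fin d) (Fin d) ℂ) (hQ : Q.PosSemidef) (hQ1 : Q.trace = 1)
    (q : Fin d → ℂ) (c : ℝ) (hq : star q ⬝ᵥ q = 1) (hc : Q *ᵥ q = (c : ℂ) • q)
    (hmax : ∀ v : Fin d → ℂ, (star v ⬝ᵥ (Q *ᵥ v)).re ≤ c * (star v ⬝ᵥ v).re)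
    (μ : Finset (Fin n) → ℝ) (hμ : ∀ I, 0 ≤ μ I)
    (ρ : (I : Finset (Fin n)) → Matrix ({j // j ∈ I} → Fin d) ({j // j ∈ I} → Fin d) ℂ)
    (hρ : ∀ I, (ρ I).PosSemidef ∧ (ρ I).trace = 1)
    (π : Equiv.Perm (Fin n)) (m : ℕ) (e : Fin n → Matrix (Fin d) (Fin d) ℂ)
    (he : ∀ k, e k * star (e k) = 1) (p : Fin n → Fin d → ℝ) (hp0 : ∀ k a, 0 ≤ p k a)
    (hp1 : ∀ k, ∑ a, p k a = 1)
    (hflat : ∀ I, μ I ≠ 0 →
      (∀ k, ∀ h : k ∈ I, (π k : ℕ) < m → (∃ j ∈ I, π k < π j) → (∃ j, j ∉ I ∧ π k < π j) →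
        (rdm ⟨k, h⟩ (ρ I)).PosSemidef) ∨
      (∀ k, ∀ h : k ∈ I, (π k : ℕ) < m → (∃ j ∈ I, π k < π j) → (∃ j, j ∉ I ∧ π k < π j) →
        ∀ y, (∀ a, wI π e (ρ I) ⟨k, h⟩ y a = (p k a : ℂ) * ∑ b, wI π e (ρ I) ⟨k, h⟩ y b) ∨
          ∃ b, ∀ a, a ≠ b → wI π e (ρ I) ⟨k, h⟩ y a = 0))
    (hcond : ∀ k : Fin n, m ≤ (π k : ℕ) →
      Set.ncard {J : Finset (Fin n) | ∃ I : Finset (Fin n), μ I ≠ 0 ∧
        (∃ h : k ∈ I, ¬ (rdm ⟨k, h⟩ (ρ I)).PosSemidef) ∧
        (∃ j ∈ I, π k < π j) ∧ (∃ j, j ∉ I ∧ π k < π j) ∧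
        J = I.filter (fun j => π k ≤ π j)} ≤ 3)
    (A A0 : Matrix (Fin n → Fin d) (Fin n → Fin d) ℂ)
    (hA : ∀ x y, A x y = ∑ I, (μ I : ℂ) * ρ I (fun i => x i.1) (fun i => y i.1)
        * ∏ j ∈ Iᶜ, Q (x j) (y j))
    (hA0 : ∀ x y, A0 x y = ∑ I, (μ I : ℂ) * (∏ i ∈ I, q (x i) * star (q (y i)))
        * ∏ j ∈ Iᶜ, Q (x j) (y j)) :
    A.PosSemidef ∧ A0.PosSemidef ∧ A.trace = A0.trace ∧
      ∀ t : ℝ, 0 < t → dt ((t : ℂ) • (1 : Matrix (Fin n → Fin d) (Fin n → Fin d) ℂ) + A0)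
        ≤ dt ((t : ℂ) • (1 : Matrix (Fin n → Fin d) (Fin n → Fin d) ℂ) + A) := by
  classical
  obtain ⟨V, lam, k0, hV, hQV, hPV, hlam, hlam0⟩ := spectral_top hQ hq hc hmax
  set P := Matrix.vecMulVec q (star q) with hP
  have hPp : P.PosSemidef := Matrix.posSemidef_vecMulVec_self_star q
  have hP1 : P.trace = 1 := by
    rw [hP, Matrix.trace_vecMulVec, dotProduct_comm, hq]
  have hcQ : (((lam k0 : ℝ) : ℂ) • (1 : Matrix (Fin d) (Fin d) ℂ) - Q).PosSemidef := by
    rw [hlam0]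
    have hherm : (((c : ℝ) : ℂ) • (1 : Matrix (Fin d) (Fin d) ℂ) - Q).IsHermitian := by
      have a1 : (((c : ℝ) : ℂ) • (1 : Matrix (Fin d) (Fin d) ℂ)).IsHermitian := by
        rw [Matrix.IsHermitian, Matrix.conjTranspose_smul]; simp
      exact a1.sub hQ.1
    refine Matrix.PosSemidef.of_dotProduct_mulVec_nonneg hherm fun v => ?_
    have h1 := hmax v
    have him : (star v ⬝ᵥ ((((c : ℝ) : ℂ) • (1 : Matrix (Fin d) (Fin d) ℂ) - Q) *ᵥ v)).im = 0 := by
      have := hherm.im_star_dotProduct_mulVec_self v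
      exact this
    rw [Complex.nonneg_iff]
    refine ⟨?_, him.symm⟩
    rw [Matrix.sub_mulVec, Matrix.smul_mulVec, Matrix.one_mulVec, dotProduct_sub, dotProduct_smul,
      Complex.sub_re, smul_eq_mul, Complex.re_ofReal_mul]
    linarith
  set ec := cfgEquiv d π with hec
  set μb : (Fin n → Bool) → ℝ := fun s => μ (setEquiv π s) with hμb
  -- the operators
  set R : (Fin n → Bool) → Matrix (Fin n → Fin d) (Fin n → Fin d) ℂ := fun s =>
    (ρ (setEquiv π s)).submatrix (fun x i => x (π i.1)) (fun x i => x (π i.1)) with hR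
  set σ : (Fin n → Bool) → Matrix (Fin n → Fin d) (Fin n → Fin d) ℂ := fun s =>
    (μb s : ℂ) • (R s ⊙ kerD Q s) with hσ
  have hAdm1 : ∀ s, Adm Q s (R s ⊙ kerD Q s) := by
    intro s
    refine ⟨R s, (hρ _).1.submatrix _, ?_, rfl⟩
    intro x x' y y' hx hy
    rw [hR]
    simp only [Matrix.submatrix_apply]
    congr 1
    · funext i; exact hx _ ((mem_setEquiv π s i.1).mp i.2)
    · funext i; exact hy _ ((mem_setEquiv π s i.1).mp i.2)
  have hAdm : ∀ s, Adm Q s (σ s) := fun s => (hAdm1 s).smul (hμ _)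
  have hker : ∀ (s : Fin n → Bool) (x y : Fin n → Fin d), kerD Q s x y
      = ∏ j, (if j ∈ setEquiv π s then 1 else Q (x (π j)) (y (π j))) := by
    intro s x y
    rw [kerD, ← Equiv.prod_comp π]
    refine Finset.prod_congr rfl fun j _ => ?_
    simp only [mem_setEquiv]
  have htr : ∀ s, (σ s).trace = (μb s : ℂ) := by
    intro s
    rw [hσ]
    simp only
    rw [Matrix.trace_smul]
    have h1 : (R s ⊙ kerD Q s).trace = 1 := by
      have h2 := (trace_split_inst (fun j => j ∈ setEquiv π s) Q hQ1 (ρ (setEquiv π s)) _).trans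
        (hρ (setEquiv π s)).2
      rw [← Equiv.sum_comp ec] at h2
      rw [← h2, Matrix.trace]
      refine Finset.sum_congr rfl fun x _ => ?_
      rw [Matrix.diag_apply, Matrix.hadamard_apply, hker]
      rfl
    rw [h1, smul_eq_mul, mul_one]
  have hsumA : A.submatrix ec ec = ∑ s, σ s := by
    ext x y
    rw [Matrix.submatrix_apply, hA, Matrix.sum_apply, ← Equiv.sum_comp (setEquiv π)]
    refine Finset.sum_congr rfl fun s _ => ?_
    rw [hσ]
    simp only
    rw [Matrix.smul_apply, Matrix.hadamard_apply, hker, prod_compl, smul_eq_mul, mul_assoc]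
    rfl
  have hsumA0 : A0.submatrix ec ec = ∑ s, (μb s : ℂ) • al Q P s := by
    ext x y
    rw [Matrix.submatrix_apply, hA0, Matrix.sum_apply, ← Equiv.sum_comp (setEquiv π)]
    refine Finset.sum_congr rfl fun s _ => ?_
    rw [mul_assoc, prod_two, Matrix.smul_apply, smul_eq_mul]
    congr 1
    have h2 : al Q P s x y = ∏ j, (if s (π j) then P (x (π j)) (y (π j)) else Q (x (π j)) (y (π j))) := by
      rw [al]
      exact (Equiv.prod_comp π (fun j => if s j then P (x j) (y j) else Q (x j) (y j))).symm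
    rw [h2]
    refine Finset.prod_congr rfl fun j _ => ?_
    simp only [mem_setEquiv]
    rfl
  set W : (Fin n → Bool) → Fin n → Prop := fun s j => μb s ≠ 0 ∧
    ∃ h : π.symm j ∈ setEquiv π s, ¬ (rdm ⟨π.symm j, h⟩ (ρ (setEquiv π s))).PosSemidef with hW
  have hGood : Good3 m n W := by
    apply good3_of_tr
    intro k hkm
    refine le_trans ?_ (hcond (π.symm k) (by rw [Equiv.apply_symm_apply]; exact hkm))
    apply Set.ncard_le_ncard_of_injOn (setEquiv π)
    · rintro u ⟨s, ⟨h1, h1'⟩, h2, ⟨j, hj, hj2⟩, ⟨i, hi, hi2⟩, rfl⟩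
      refine ⟨setEquiv π s, h1, h1', ⟨π.symm j, ?_, ?_⟩, ⟨π.symm i, ?_, ?_⟩, ?_⟩
      · rw [mem_setEquiv, Equiv.apply_symm_apply]; exact hj2
      · simpa using hj
      · rw [mem_setEquiv, Equiv.apply_symm_apply, hi2]; simp
      · simpa using hi
      · ext l
        rw [Finset.mem_filter, mem_setEquiv, mem_setEquiv, Equiv.apply_symm_apply, trc]
        by_cases hk : k ≤ π l
        · simp [hk]
        · simp [hk]
    · exact (setEquiv π).injective.injOn
  -- nontrivial positions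
  have hnt : ∀ (s : Fin n → Bool) (k : Fin n), (∃ j, k < j ∧ s j = true) → (∃ j, k < j ∧ s j = false) →
      (∃ j ∈ setEquiv π s, π (π.symm k) < π j) ∧ (∃ j, j ∉ setEquiv π s ∧ π (π.symm k) < π j) := by
    rintro s k ⟨j, hj, hj2⟩ ⟨i, hi, hi2⟩
    refine ⟨⟨π.symm j, ?_, ?_⟩, ⟨π.symm i, ?_, ?_⟩⟩
    · rw [mem_setEquiv, Equiv.apply_symm_apply]; exact hj2
    · simpa using hj
    · rw [mem_setEquiv, Equiv.apply_symm_apply, hi2]; simp
    · simpa using hi
  have hCls : ∀ s, Cls Q m n (fun i => e (π.symm i)) (fun i => p (π.symm i)) W s (σ s) := by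
    intro s
    by_cases h0 : μb s = 0
    · rw [hσ]; simp only; rw [h0, Complex.ofReal_zero, zero_smul]; exact Cls.zero Q _ _ _ _ _ _
    have hR1 : ∀ j, s j = true → ¬ W s j → Rd j (R s ⊙ kerD Q s) := by
      intro j hs hw
      have hk : π.symm j ∈ setEquiv π s := by
        rw [mem_setEquiv, Equiv.apply_symm_apply]; exact hs
      have h1 : (rdm ⟨π.symm j, hk⟩ (ρ (setEquiv π s))).PosSemidef := by
        by_contra h2
        exact hw ⟨h0, hk, h2⟩
      exact rd_of_rdm hQ π s j hs (ρ (setEquiv π s)) hk h1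
    rw [hσ]
    simp only
    apply Cls.smul Q (hμ (setEquiv π s))
    rcases hflat (setEquiv π s) h0 with h1 | h1
    · apply cls_of_red hQ hQ1 k0 _ _ _ _ _ _ _ (hAdm1 s) _ hR1
      intro k hk hsk h2 h3
      have hmem : π.symm k ∈ setEquiv π s := by
        rw [mem_setEquiv, Equiv.apply_symm_apply]; exact hsk
      obtain ⟨h4, h5⟩ := hnt s k h2 h3
      exact rd_of_rdm hQ π s k hsk (ρ (setEquiv π s)) hmem
        (h1 (π.symm k) hmem (by rw [Equiv.apply_symm_apply]; exact hk) h4 h5)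
    · apply cls_of_flat hQ hQ1 k0 _ _ _ _ _ _ _ (fun i => he _) (hAdm1 s) _ hR1
      intro k hk hsk h2 h3 y
      have hmem : π.symm k ∈ setEquiv π s := by
        rw [mem_setEquiv, Equiv.apply_symm_apply]; exact hsk
      obtain ⟨h4, h5⟩ := hnt s k h2 h3
      have h6 := h1 (π.symm k) hmem (by rw [Equiv.apply_symm_apply]; exact hk) h4 h5
        (fun i => y (π i.1))
      have h7 : ∀ a, wt (fun i => e (π.symm i)) s (R s ⊙ kerD Q s) k y a
          = wI π e (ρ (setEquiv π s)) ⟨π.symm k, hmem⟩ (fun i => y (π i.1)) a :=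
        fun a => wt_eq_wI hQ1 π e he s k (ρ (setEquiv π s)) hmem y a
      simp only [h7]
      exact h6
  have hApsd' : (A.submatrix ec ec).PosSemidef := by
    rw [hsumA]; exact Matrix.posSemidef_sum _ fun s _ => (hAdm s).psd hQ
  have hA0psd' : (A0.submatrix ec ec).PosSemidef := by
    rw [hsumA0]
    exact Matrix.posSemidef_sum _ fun s _ => (al_psd hQ hPp s).smul (by
      have := hμ (setEquiv π s)
      exact_mod_cast this)
  have back : ∀ M : Matrix (Fin n → Fin d) (Fin n → Fin d) ℂ, (M.submatrix ec ec).submatrix ec.symm ec.symm = M := by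
    intro M; ext x y; simp
  have htrM : ∀ M : Matrix (Fin n → Fin d) (Fin n → Fin d) ℂ, (M.submatrix ec ec).trace = M.trace := by
    intro M
    rw [Matrix.trace, Matrix.trace]
    exact Equiv.sum_comp ec (fun x => M x x)
  have hdtM : ∀ (t : ℝ) (M : Matrix (Fin n → Fin d) (Fin n → Fin d) ℂ),
      dt ((t : ℂ) • (1 : Matrix (Fin n → Fin d) (Fin n → Fin d) ℂ) + M)
        = dt ((t : ℂ) • (1 : Matrix (Fin n → Fin d) (Fin n → Fin d) ℂ) + M.submatrix ec ec) := by
    intro t M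
    have e1 : (t : ℂ) • (1 : Matrix (Fin n → Fin d) (Fin n → Fin d) ℂ) + M.submatrix ec ec
        = ((t : ℂ) • (1 : Matrix (Fin n → Fin d) (Fin n → Fin d) ℂ) + M).submatrix ec ec := by
      rw [Matrix.submatrix_add, Matrix.submatrix_smul]
      simp only [Pi.add_apply, Pi.smul_apply, Matrix.submatrix_one_equiv]
    rw [dt, dt, e1, Matrix.det_submatrix_equiv_self]
  refine ⟨?_, ?_, ?_, ?_⟩
  · rw [← back A]; exact hApsd'.submatrix _
  · rw [← back A0]; exact hA0psd'.submatrix _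
  · rw [← htrM A, ← htrM A0, hsumA, hsumA0, Matrix.trace_sum, Matrix.trace_sum]
    refine Finset.sum_congr rfl fun s _ => ?_
    rw [htr, Matrix.trace_smul, al_trace hQ1 hP1, smul_eq_mul, mul_one]
  · intro t ht
    rw [hdtM t A, hdtM t A0, hsumA, hsumA0, al_dt hQ.1 hPp.1 hV hQV hPV t n μb]
    exact dsac3 hQ hQ1 hV hQV hPV hcQ hlam ht m n _ _ μb σ W (fun i => he _) (fun i => hp0 _)
      (fun i => hp1 _) hAdm htr hGood hCls

end Run7.h455
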