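import Pool.Agent.Run7.h455.Final
import Pool.Agent.Run7.h455.DsacC

set_option autoImplicit false
open Matrix
open scoped ComplexOrder MatrixOrder Kronecker

namespace Run7.h455

variable {d n : ℕ}

/-- the recursive cut condition from the spans of the columns -/
lemma goodC_of : ∀ (n : ℕ) (ℋ : Type) [Finite ℋ] (ν : ℋ → (Fin n → Bool) → ℝ),
    (∀ k : Fin n, Module.finrank ℝ (Submodule.span ℝ {c : ℋ → (Fin n → Bool) → ℝ |
      ∃ J : Fin n → Bool, J k = true ∧ (∀ i, i < k → J i = false) ∧ (∃ i, k < i ∧ J i = true) ∧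
        (∃ i, k < i ∧ J i = false) ∧
        c = fun H S => if (∀ i, k ≤ i → S i = false) then ν H (fun i => S i || J i) else 0}) ≤ 3) →
    GoodC n ℋ ν
  | 0, _, _, _, _ => trivial
  | n + 1, ℋ, _, ν, h => by
    refine ⟨?_, ?_⟩
    · let Ψ : (ℋ → (Fin (n+1) → Bool) → ℝ) →ₗ[ℝ] (ℋ → ℝ) :=
        { toFun := fun c H => c H (fun _ => false)
          map_add' := fun _ _ => rfl
          map_smul' := fun _ _ => rfl }
      refine le_trans ?_ (h 0)
      refine le_trans ?_ (Submodule.finrank_map_le Ψ _)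
      apply Submodule.finrank_mono
      rw [Submodule.span_le]
      rintro c ⟨s, h1, h2, rfl⟩
      obtain ⟨i, hi⟩ := Function.ne_iff.mp h1
      obtain ⟨j, hj⟩ := Function.ne_iff.mp h2
      refine ⟨fun H S => if (∀ i, (0 : Fin (n+1)) ≤ i → S i = false) then
          ν H (fun i => S i || (Fin.cons true s : Fin (n+1) → Bool) i) else 0,
        Submodule.subset_span ⟨Fin.cons true s, by simp, fun i hi => absurd hi (by simp),
          ⟨i.succ, Fin.succ_pos i, by simpa using hi⟩, ⟨j.succ, Fin.succ_pos j, by simpa using hj⟩, rfl⟩, ?_⟩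
      funext H
      show (if (∀ i, (0 : Fin (n+1)) ≤ i → (false : Bool) = false) then
          ν H (fun i => false || (Fin.cons true s : Fin (n+1) → Bool) i) else 0) = _
      rw [if_pos (fun _ _ => rfl)]
      simp
    · apply goodC_of n (ℋ × Bool)
      intro k
      let Φ : (ℋ → (Fin (n+1) → Bool) → ℝ) →ₗ[ℝ] (ℋ × Bool → (Fin n → Bool) → ℝ) :=
        { toFun := fun c H S => c H.1 (Fin.cons H.2 S)
          map_add' := fun _ _ => rfl
          map_smul' := fun _ _ => rfl }
      refine le_trans ?_ (h k.succ)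
      refine le_trans ?_ (Submodule.finrank_map_le Φ _)
      apply Submodule.finrank_mono
      rw [Submodule.span_le]
      rintro c ⟨J, h1, h2, ⟨i, hi, hi2⟩, ⟨j, hj, hj2⟩, rfl⟩
      refine ⟨fun H S => if (∀ i, k.succ ≤ i → S i = false) then
          ν H (fun i => S i || (Fin.cons false J : Fin (n+1) → Bool) i) else 0,
        Submodule.subset_span ⟨Fin.cons false J, by simpa using h1, ?_,
          ⟨i.succ, Fin.succ_lt_succ_iff.mpr hi, by simpa using hi2⟩,
          ⟨j.succ, Fin.succ_lt_succ_iff.mpr hj, by simpa using hj2⟩, rfl⟩, ?_⟩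
      · intro l hl
        refine Fin.cases ?_ (fun l => ?_) l hl
        · intro _; simp
        · intro hl; simpa using h2 l (Fin.succ_lt_succ_iff.mp hl)
      · funext H S
        show (if (∀ i, k.succ ≤ i → (Fin.cons H.2 S : Fin (n+1) → Bool) i = false) then
          ν H.1 (fun i => (Fin.cons H.2 S : Fin (n+1) → Bool) i
            || (Fin.cons false J : Fin (n+1) → Bool) i) else 0) = _
        have e1 : (∀ i, k.succ ≤ i → (Fin.cons H.2 S : Fin (n+1) → Bool) i = false)
            ↔ (∀ i, k ≤ i → S i = false) := by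
          rw [Fin.forall_fin_succ]
          simp only [Fin.cons_succ, Fin.succ_le_succ_iff]
          constructor
          · intro h; exact h.2
          · intro h
            refine ⟨fun h0 => ?_, h⟩
            exact absurd h0 (by rw [not_le]; exact Fin.succ_pos k)
        have e2 : (fun i => (Fin.cons H.2 S : Fin (n+1) → Bool) i
            || (Fin.cons false J : Fin (n+1) → Bool) i) = Fin.cons H.2 (fun i => S i || J i) := by
          funext i; refine Fin.cases ?_ (fun i => ?_) i <;> simp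
        rw [e2]
        exact if_congr e1 rfl rfl

/-- the recursive cut condition from the ranks of the cut matrices -/
lemma goodC_rank {m : ℕ} (π : Equiv.Perm (Fin n)) (ν : Fin m → Finset (Fin n) → ℝ)
    (hcond : ∀ k : Fin n, (Matrix.of fun (H : Fin m × {H : Finset (Fin n) // ∀ i ∈ H, π i < π k})
        (J : {J : Finset (Fin n) // k ∈ J ∧ (∀ i ∈ J, π k ≤ π i) ∧ (∃ i ∈ J, π k < π i) ∧
          ∃ i, i ∉ J ∧ π k < π i}) =>
        ν H.1 (H.2.1 ∪ J.1)).rank ≤ 3) :
    GoodC n (Fin m) (fun a s => ν a (setEquiv π s)) := by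
  classical
  apply goodC_of
  intro k
  have hmem : ∀ (s : Fin n → Bool) (j : Fin n), j ∈ setEquiv π s ↔ s (π j) = true :=
    fun s j => mem_setEquiv π s j
  let Θ : ((Fin m × {H : Finset (Fin n) // ∀ i ∈ H, π i < π (π.symm k)}) → ℝ)
      →ₗ[ℝ] (Fin m → (Fin n → Bool) → ℝ) :=
    { toFun := fun v a S => if h : (∀ i, k ≤ i → S i = false) then
        v (a, ⟨setEquiv π S, fun i hi => by
          by_contra hik
          rw [Equiv.apply_symm_apply, not_lt] at hik
          have h1 := h (π i) hik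
          rw [(hmem S i).mp hi] at h1
          exact Bool.noConfusion h1⟩) else 0
      map_add' := fun v w => by
        funext a S
        simp only [Pi.add_apply]
        split_ifs <;> simp
      map_smul' := fun r v => by
        funext a S
        simp only [Pi.smul_apply, RingHom.id_apply, smul_eq_mul]
        split_ifs <;> simp }
  refine le_trans ?_ (hcond (π.symm k))
  rw [Matrix.rank_eq_finrank_span_cols]
  refine le_trans ?_ (Submodule.finrank_map_le Θ _)
  apply Submodule.finrank_mono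
  rw [Submodule.span_le]
  rintro c ⟨J, h1, h2, ⟨i, hi, hi2⟩, ⟨j, hj, hj2⟩, rfl⟩
  refine ⟨_, Submodule.subset_span ⟨⟨setEquiv π J, (hmem J _).mpr (by rw [Equiv.apply_symm_apply]; exact h1), ?_,
    ⟨π.symm i, (hmem J _).mpr (by rw [Equiv.apply_symm_apply]; exact hi2), by
      rw [Equiv.apply_symm_apply, Equiv.apply_symm_apply]; exact hi⟩,
    ⟨π.symm j, ?_, by rw [Equiv.apply_symm_apply, Equiv.apply_symm_apply]; exact hj⟩⟩, rfl⟩, ?_⟩
  · intro l hl
    rw [Equiv.apply_symm_apply]
    by_contra hlk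
    have h3 := h2 (π l) (not_le.mp hlk)
    rw [(hmem J l).mp hl] at h3
    exact Bool.noConfusion h3
  · rw [hmem, Equiv.apply_symm_apply, hj2]; simp
  · funext a S
    show (if h : (∀ i, k ≤ i → S i = false) then ν a (setEquiv π S ∪ setEquiv π J) else 0) = _
    by_cases h : ∀ i, k ≤ i → S i = false
    · rw [dif_pos h, if_pos h]
      congr 1
      ext l
      rw [Finset.mem_union, hmem, hmem, hmem]
      simp
    · rw [dif_neg h, if_neg h]

/-- the determinant form of spin alignment for combinations of families of marginals -/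
theorem sac_cons
    (Q : Matrix (Fin d) (Fin d) ℂ) (hQ : Q.PosSemidef) (hQ1 : Q.trace = 1)
    (q : Fin d → ℂ) (c : ℝ) (hq : star q ⬝ᵥ q = 1) (hc : Q *ᵥ q = (c : ℂ) • q)
    (hmax : ∀ v : Fin d → ℂ, (star v ⬝ᵥ (Q *ᵥ v)).re ≤ c * (star v ⬝ᵥ v).re)
    (μ : Finset (Fin n) → ℝ) (hμ : ∀ I, 0 ≤ μ I)
    (ρ : (I : Finset (Fin n)) → Matrix ({j // j ∈ I} → Fin d) ({j // j ∈ I} → Fin d) ℂ)
    (hρ : ∀ I, (ρ I).PosSemidef ∧ (ρ I).trace = 1)
    (m : ℕ) (Ω : Fin m → Matrix (Fin n → Fin d) (Fin n → Fin d) ℂ)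
    (ν : Fin m → Finset (Fin n) → ℝ)
    (hΩ : ∀ I x y, (μ I : ℂ) * ρ I x y = ∑ a, (ν a I : ℂ) * ∑ z : Fin n → Fin d,
      if (∀ j : {j // j ∈ I}, z j.1 = x j) then
        Ω a z (fun j => if h : j ∈ I then y ⟨j, h⟩ else z j) else 0)
    (π : Equiv.Perm (Fin n))
    (hcond : ∀ k : Fin n, (Matrix.of fun (H : Fin m × {H : Finset (Fin n) // ∀ i ∈ H, π i < π k})
        (J : {J : Finset (Fin n) // k ∈ J ∧ (∀ i ∈ J, π k ≤ π i) ∧ (∃ i ∈ J, π k < π i) ∧
          ∃ i, i ∉ J ∧ π k < π i}) =>
        ν H.1 (H.2.1 ∪ J.1)).rank ≤ 3)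
    (A A0 : Matrix (Fin n → Fin d) (Fin n → Fin d) ℂ)
    (hA : ∀ x y, A x y = ∑ I, (μ I : ℂ) * ρ I (fun i => x i.1) (fun i => y i.1)
        * ∏ j ∈ Iᶜ, Q (x j) (y j))
    (hA0 : ∀ x y, A0 x y = ∑ I, (μ I : ℂ) * (∏ i ∈ I, q (x i) * star (q (y i)))
        * ∏ j ∈ Iᶜ, Q (x j) (y j)) :
    A.PosSemidef ∧ A0.PosSemidef ∧ A.trace = A0.trace ∧
      ∀ t : ℝ, 0 < t → dt ((t : ℂ) • (1 : Matrix (Fin n → Fin d) (Fin n → Fin d) ℂ) + A0)
        ≤ dt ((t : ℂ) • (1 : Matrix (Fin n → Fin d) (Fin n → Fin d) ℂ) + A) := by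
  classical
  obtain ⟨V, lam, k0, hV, hQV, hPV, hlam, hlam0⟩ := spectral_top hQ hq hc hmax
  set P := Matrix.vecMulVec q (star q) with hP
  have hPp : P.PosSemidef := Matrix.posSemidef_vecMulVec_self_star q
  have hP1 : P.trace = 1 := by
    rw [hP, Matrix.trace_vecMulVec, dotProduct_comm, hq]
  have hcQ : (((lam k0 : ℝ) : ℂ) • (1 : Matrix (Fin d) (Fin d) ℂ) - Q).PosSemidef := by
    rw [hlam0]
    have hherm : (((c : ℝ) : ℂ) • (1 : Matrix (Fin d) (Fin d) ℂ) - Q).IsHermitian := by
      have a1 : (((c : ℝ) : ℂ) • (1 : Matrix (Fin d) (Fin d) ℂ)).IsHermitian := by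
        rw [Matrix.IsHermitian, Matrix.conjTranspose_smul]; simp
      exact a1.sub hQ.1
    refine Matrix.PosSemidef.of_dotProduct_mulVec_nonneg hherm fun v => ?_
    have h1 := hmax v
    have him : (star v ⬝ᵥ ((((c : ℝ) : ℂ) • (1 : Matrix (Fin d) (Fin d) ℂ) - Q) *ᵥ v)).im = 0 := by
      have := hherm.im_star_dotProduct_mulVec_self v
      exact this
    rw [Complex.nonneg_iff]
    refine ⟨?_, him.symm⟩
    rw [Matrix.sub_mulVec, Matrix.smul_mulVec, Matrix.one_mulVec, dotProduct_sub, dotProduct_smul,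
      Complex.sub_re, smul_eq_mul, Complex.re_ofReal_mul]
    linarith
  set e := cfgEquiv d π with he
  set μb : (Fin n → Bool) → ℝ := fun s => μ (setEquiv π s) with hμb
  -- the operators
  set R : (Fin n → Bool) → Matrix (Fin n → Fin d) (Fin n → Fin d) ℂ := fun s =>
    (ρ (setEquiv π s)).submatrix (fun x i => x (π i.1)) (fun x i => x (π i.1)) with hR
  set σ : (Fin n → Bool) → Matrix (Fin n → Fin d) (Fin n → Fin d) ℂ := fun s =>
    (μb s : ℂ) • (R s ⊙ kerD Q s) with hσ
  have hAdm : ∀ s, Adm Q s (σ s) := by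
    intro s
    have h1 : Adm Q s (R s ⊙ kerD Q s) := by
      refine ⟨R s, (hρ _).1.submatrix _, ?_, rfl⟩
      intro x x' y y' hx hy
      rw [hR]
      simp only [Matrix.submatrix_apply]
      congr 1
      · funext i; exact hx _ ((mem_setEquiv π s i.1).mp i.2)
      · funext i; exact hy _ ((mem_setEquiv π s i.1).mp i.2)
    exact h1.smul (hμ _)
  have hker : ∀ (s : Fin n → Bool) (x y : Fin n → Fin d), kerD Q s x y
      = ∏ j, (if j ∈ setEquiv π s then 1 else Q (x (π j)) (y (π j))) := by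
    intro s x y
    rw [kerD, ← Equiv.prod_comp π]
    refine Finset.prod_congr rfl fun j _ => ?_
    simp only [mem_setEquiv]
  have htr : ∀ s, (σ s).trace = (μb s : ℂ) := by
    intro s
    rw [hσ]
    simp only
    rw [Matrix.trace_smul]
    have h1 : (R s ⊙ kerD Q s).trace = 1 := by
      have h2 := (trace_split_inst (fun j => j ∈ setEquiv π s) Q hQ1 (ρ (setEquiv π s)) _).trans
        (hρ (setEquiv π s)).2
      rw [← Equiv.sum_comp e] at h2
      rw [← h2, Matrix.trace]
      refine Finset.sum_congr rfl fun x _ => ?_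
      rw [Matrix.diag_apply, Matrix.hadamard_apply, hker]
      rfl
    rw [h1, smul_eq_mul, mul_one]
  have hsumA : A.submatrix e e = ∑ s, σ s := by
    ext x y
    rw [Matrix.submatrix_apply, hA, Matrix.sum_apply, ← Equiv.sum_comp (setEquiv π)]
    refine Finset.sum_congr rfl fun s _ => ?_
    rw [hσ]
    simp only
    rw [Matrix.smul_apply, Matrix.hadamard_apply, hker, prod_compl, smul_eq_mul, mul_assoc]
    rfl
  have hsumA0 : A0.submatrix e e = ∑ s, (μb s : ℂ) • al Q P s := by
    ext x y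
    rw [Matrix.submatrix_apply, hA0, Matrix.sum_apply, ← Equiv.sum_comp (setEquiv π)]
    refine Finset.sum_congr rfl fun s _ => ?_
    rw [mul_assoc, prod_two, Matrix.smul_apply, smul_eq_mul]
    congr 1
    have h2 : al Q P s x y = ∏ j, (if s (π j) then P (x (π j)) (y (π j)) else Q (x (π j)) (y (π j))) := by
      rw [al]
      exact (Equiv.prod_comp π (fun j => if s j then P (x j) (y j) else Q (x j) (y j))).symm
    rw [h2]
    refine Finset.prod_congr rfl fun j _ => ?_
    simp only [mem_setEquiv]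
    rfl
  have hGood : GoodC n (Fin m) (fun a s => ν a (setEquiv π s)) := goodC_rank π ν hcond
  have hfam : ∀ s, s ≠ (fun _ => false) → s ≠ (fun _ => true) →
      σ s = ∑ a, (ν a (setEquiv π s) : ℂ) • pr Q s ((Ω a).submatrix e e) := by
    intro s _ _
    ext x y
    rw [Matrix.sum_apply, hσ]
    simp only
    rw [Matrix.smul_apply, Matrix.hadamard_apply, smul_eq_mul, ← mul_assoc]
    have h1 : (μb s : ℂ) * R s x y = ∑ a, (ν a (setEquiv π s) : ℂ) * rdS s ((Ω a).submatrix e e) x y := by
      rw [hR]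
      simp only
      rw [Matrix.submatrix_apply, hμb]
      simp only
      rw [hΩ]
      refine Finset.sum_congr rfl fun a _ => ?_
      congr 1
      rw [rdS, ← Equiv.sum_comp e]
      refine Finset.sum_congr rfl fun z _ => ?_
      have hmem : ∀ j, j ∈ setEquiv π s ↔ s (π j) = true := fun j => mem_setEquiv π s j
      have he1 : ∀ (w : Fin n → Fin d) (j : Fin n), e w j = w (π j) := fun w j => rfl
      have h2 : (fun j => if h : j ∈ setEquiv π s then y (π (⟨j, h⟩ : {j // j ∈ setEquiv π s}).1) else e z j)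
          = e (fun j => if s j = true then y j else z j) := by
        funext j
        by_cases hj : s (π j) = true
        · rw [dif_pos ((hmem j).mpr hj)]
          show y (π j) = (if s (π j) = true then y (π j) else z (π j))
          rw [if_pos hj]
        · rw [dif_neg (fun h => hj ((hmem j).mp h))]
          show z (π j) = (if s (π j) = true then y (π j) else z (π j))
          rw [if_neg hj]
      by_cases hz : ∀ j, s j = true → z j = x j
      · have hz' : ∀ j : {j // j ∈ setEquiv π s}, e z j.1 = x (π j.1) :=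
          fun j => hz (π j.1) ((hmem j.1).mp j.2)
        rw [if_pos hz, if_pos hz', h2, Matrix.submatrix_apply]
      · have hz' : ¬ ∀ j : {j // j ∈ setEquiv π s}, e z j.1 = x (π j.1) := by
          intro h
          apply hz
          intro j hj
          have h3 := h ⟨π.symm j, (hmem _).mpr (by rw [Equiv.apply_symm_apply]; exact hj)⟩
          rw [he1] at h3
          simpa using h3
        rw [if_neg hz, if_neg hz']
    rw [h1, Finset.sum_mul]
    refine Finset.sum_congr rfl fun a _ => ?_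
    rw [Matrix.smul_apply, pr, Matrix.hadamard_apply, smul_eq_mul, mul_assoc]
  have hApsd' : (A.submatrix e e).PosSemidef := by
    rw [hsumA]; exact Matrix.posSemidef_sum _ fun s _ => (hAdm s).psd hQ
  have hA0psd' : (A0.submatrix e e).PosSemidef := by
    rw [hsumA0]
    exact Matrix.posSemidef_sum _ fun s _ => (al_psd hQ hPp s).smul (by
      have := hμ (setEquiv π s)
      exact_mod_cast this)
  have back : ∀ M : Matrix (Fin n → Fin d) (Fin n → Fin d) ℂ, (M.submatrix e e).submatrix e.symm e.symm = M := by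
    intro M; ext x y; simp
  have htrM : ∀ M : Matrix (Fin n → Fin d) (Fin n → Fin d) ℂ, (M.submatrix e e).trace = M.trace := by
    intro M
    rw [Matrix.trace, Matrix.trace]
    exact Equiv.sum_comp e (fun x => M x x)
  have hdtM : ∀ (t : ℝ) (M : Matrix (Fin n → Fin d) (Fin n → Fin d) ℂ),
      dt ((t : ℂ) • (1 : Matrix (Fin n → Fin d) (Fin n → Fin d) ℂ) + M)
        = dt ((t : ℂ) • (1 : Matrix (Fin n → Fin d) (Fin n → Fin d) ℂ) + M.submatrix e e) := by
    intro t M
    have e1 : (t : ℂ) • (1 : Matrix (Fin n → Fin d) (Fin n → Fin d) ℂ) + M.submatrix e e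
        = ((t : ℂ) • (1 : Matrix (Fin n → Fin d) (Fin n → Fin d) ℂ) + M).submatrix e e := by
      rw [Matrix.submatrix_add, Matrix.submatrix_smul]
      simp only [Pi.add_apply, Pi.smul_apply, Matrix.submatrix_one_equiv]
    rw [dt, dt, e1, Matrix.det_submatrix_equiv_self]
  refine ⟨?_, ?_, ?_, ?_⟩
  · rw [← back A]; exact hApsd'.submatrix _
  · rw [← back A0]; exact hA0psd'.submatrix _
  · rw [← htrM A, ← htrM A0, hsumA, hsumA0, Matrix.trace_sum, Matrix.trace_sum]
    refine Finset.sum_congr rfl fun s _ => ?_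
    rw [htr, Matrix.trace_smul, al_trace hQ1 hP1, smul_eq_mul, mul_one]
  · intro t ht
    rw [hdtM t A, hdtM t A0, hsumA, hsumA0, al_dt hQ.1 hPp.1 hV hQV hPV t n μb]
    exact dsacC hQ hQ1 hV hQV hPV hcQ hlam ht n (Fin m) (fun a s => ν a (setEquiv π s))
      (fun a => (Ω a).submatrix e e) μb σ hAdm htr hGood hfam

end Run7.h455
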