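import Pool.Agent.Run7.h455.Final2
import Pool.Agent.Run7.h455.FinalC
import Pool.Agent.Run7.h455.DsacR

set_option autoImplicit false
open Matrix
open scoped ComplexOrder MatrixOrder Kronecker

namespace Run7.h455

variable {d n : ℕ}

/-- the determinant form of spin alignment for sums of operators satisfying the reduction criterion and
combinations of families of marginals -/
theorem sac_red
    (Q : Matrix (Fin d) (Fin d) ℂ) (hQ : Q.PosSemidef) (hQ1 : Q.trace = 1)
    (q : Fin d → ℂ) (c : ℝ) (hq : star q ⬝ᵥ q = 1) (hc : Q *ᵥ q = (c : ℂ) • q)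
    (hmax : ∀ v : Fin d → ℂ, (star v ⬝ᵥ (Q *ᵥ v)).re ≤ c * (star v ⬝ᵥ v).re)
    (μ : Finset (Fin n) → ℝ) (hμ : ∀ I, 0 ≤ μ I)
    (ρ : (I : Finset (Fin n)) → Matrix ({j // j ∈ I} → Fin d) ({j // j ∈ I} → Fin d) ℂ)
    (hρ : ∀ I, (ρ I).PosSemidef ∧ (ρ I).trace = 1)
    (b : (I : Finset (Fin n)) → Matrix ({j // j ∈ I} → Fin d) ({j // j ∈ I} → Fin d) ℂ)
    (hb : ∀ I : Finset (Fin n), 2 ≤ I.card → I ≠ Finset.univ → (b I).PosSemidef ∧
      ((μ I : ℂ) • ρ I - b I).PosSemidef ∧
      ∀ k (h : k ∈ I), (rdm ⟨k, h⟩ ((μ I : ℂ) • ρ I - b I)).PosSemidef)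
    (m : ℕ) (Ω : Fin m → Matrix (Fin n → Fin d) (Fin n → Fin d) ℂ)
    (ν : Fin m → Finset (Fin n) → ℝ)
    (hΩ : ∀ I : Finset (Fin n), 2 ≤ I.card → I ≠ Finset.univ → ∀ x y, b I x y
      = ∑ a, (ν a I : ℂ) * ∑ z : Fin n → Fin d,
      if (∀ j : {j // j ∈ I}, z j.1 = x j) then
        Ω a z (fun j => if h : j ∈ I then y ⟨j, h⟩ else z j) else 0)
    (π : Equiv.Perm (Fin n))
    (hcond : ∀ k : Fin n, (Matrix.of fun (H : Fin m × {H : Finset (Fin n) // ∀ i ∈ H, π i < π k})
        (J : {J : Finset (Fin n) // k ∈ J ∧ (∀ i ∈ J, π k ≤ π i) ∧ (∃ i ∈ J, π k < π i) ∧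
          ∃ i, i ∉ J ∧ π k < π i}) =>
        ν H.1 (H.2.1 ∪ J.1)).rank ≤ 3)
    (A A0 : Matrix (Fin n → Fin d) (Fin n → Fin d) ℂ)
    (hA : ∀ x y, A x y = ∑ I, (μ I : ℂ) * ρ I (fun i => x i.1) (fun i => y i.1)
        * ∏ j ∈ Iᶜ, Q (x j) (y j))
    (hA0 : ∀ x y, A0 x y = ∑ I, (μ I : ℂ) * (∏ i ∈ I, q (x i) * star (q (y i)))
        * ∏ j ∈ Iᶜ, Q (x j) (y j)) :
    A.PosSemidef ∧ A0.PosSemidef ∧ A.trace = A0.trace ∧
      ∀ t : ℝ, 0 < t → dt ((t : ℂ) • (1 : Matrix (Fin n → Fin d) (Fin n → Fin d) ℂ) + A0)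
        ≤ dt ((t : ℂ) • (1 : Matrix (Fin n → Fin d) (Fin n → Fin d) ℂ) + A) := by
  classical
  obtain ⟨V, lam, k0, hV, hQV, hPV, hlam, hlam0⟩ := spectral_top hQ hq hc hmax
  set P := Matrix.vecMulVec q (star q) with hP
  have hPp : P.PosSemidef := Matrix.posSemidef_vecMulVec_self_star q
  have hP1 : P.trace = 1 := by
    rw [hP, Matrix.trace_vecMulVec, dotProduct_comm, hq]
  have hcQ : (((lam k0 : ℝ) : ℂ) • (1 : Matrix (Fin d) (Fin d) ℂ) - Q).PosSemidef := by
    rw [hlam0]
    have hherm : (((c : ℝ) : ℂ) • (1 : Matrix (Fin d) (Fin d) ℂ) - Q).IsHermitian := by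
      have a1 : (((c : ℝ) : ℂ) • (1 : Matrix (Fin d) (Fin d) ℂ)).IsHermitian := by
        rw [Matrix.IsHermitian, Matrix.conjTranspose_smul]; simp
      exact a1.sub hQ.1
    refine Matrix.PosSemidef.of_dotProduct_mulVec_nonneg hherm fun v => ?_
    have h1 := hmax v
    have him : (star v ⬝ᵥ ((((c : ℝ) : ℂ) • (1 : Matrix (Fin d) (Fin d) ℂ) - Q) *ᵥ v)).im = 0 := by
      have := hherm.im_star_dotProduct_mulVec_self v
      exact this
    rw [Complex.nonneg_iff]
    refine ⟨?_, him.symm⟩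
    rw [Matrix.sub_mulVec, Matrix.smul_mulVec, Matrix.one_mulVec, dotProduct_sub, dotProduct_smul,
      Complex.sub_re, smul_eq_mul, Complex.re_ofReal_mul]
    linarith
  set e := cfgEquiv d π with he
  set μb : (Fin n → Bool) → ℝ := fun s => μ (setEquiv π s) with hμb
  -- the operators
  set R : (Fin n → Bool) → Matrix (Fin n → Fin d) (Fin n → Fin d) ℂ := fun s =>
    (ρ (setEquiv π s)).submatrix (fun x i => x (π i.1)) (fun x i => x (π i.1)) with hR
  set σ : (Fin n → Bool) → Matrix (Fin n → Fin d) (Fin n → Fin d) ℂ := fun s =>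
    (μb s : ℂ) • (R s ⊙ kerD Q s) with hσ
  have hAdmG : ∀ (s : Fin n → Bool) (M : Matrix ({j // j ∈ setEquiv π s} → Fin d)
      ({j // j ∈ setEquiv π s} → Fin d) ℂ), M.PosSemidef →
      Adm Q s ((M.submatrix (fun (x : Fin n → Fin d) i => x (π i.1)) (fun (x : Fin n → Fin d) i => x (π i.1)))
        ⊙ kerD Q s) := by
    intro s M hM
    refine ⟨_, hM.submatrix _, ?_, rfl⟩
    intro x x' y y' hx hy
    simp only [Matrix.submatrix_apply]
    congr 1
    · funext i; exact hx _ ((mem_setEquiv π s i.1).mp i.2)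
    · funext i; exact hy _ ((mem_setEquiv π s i.1).mp i.2)
  have hAdm : ∀ s, Adm Q s (σ s) := fun s => (hAdmG s _ (hρ _).1).smul (hμ _)
  have hcard : ∀ s : Fin n → Bool, Two s → 2 ≤ (setEquiv π s).card := by
    rintro s ⟨i, j, hij, hi, hj⟩
    have h1 : 1 < (setEquiv π s).card := by
      rw [Finset.one_lt_card]
      refine ⟨π.symm i, (mem_setEquiv π s _).mpr (by rw [Equiv.apply_symm_apply]; exact hi),
        π.symm j, (mem_setEquiv π s _).mpr (by rw [Equiv.apply_symm_apply]; exact hj), ?_⟩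
      intro h
      exact hij.ne (π.symm.injective h)
    exact h1
  have huniv : ∀ s : Fin n → Bool, s ≠ (fun _ => true) → setEquiv π s ≠ Finset.univ := by
    intro s hs h
    apply hs
    funext j
    have h1 : π.symm j ∈ setEquiv π s := by rw [h]; exact Finset.mem_univ _
    rw [mem_setEquiv, Equiv.apply_symm_apply] at h1
    exact h1
  set αs : (Fin n → Bool) → Matrix (Fin n → Fin d) (Fin n → Fin d) ℂ := fun s =>
    if Two s ∧ s ≠ (fun _ => true) then
      (((μ (setEquiv π s) : ℂ) • ρ (setEquiv π s) - b (setEquiv π s)).submatrix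
        (fun (x : Fin n → Fin d) i => x (π i.1)) (fun (x : Fin n → Fin d) i => x (π i.1))) ⊙ kerD Q s
    else 0 with hαs
  set βs : (Fin n → Bool) → Matrix (Fin n → Fin d) (Fin n → Fin d) ℂ := fun s =>
    if Two s ∧ s ≠ (fun _ => true) then
      ((b (setEquiv π s)).submatrix
        (fun (x : Fin n → Fin d) i => x (π i.1)) (fun (x : Fin n → Fin d) i => x (π i.1))) ⊙ kerD Q s
    else σ s with hβs
  have hadd : ∀ s, αs s + βs s = σ s := by
    intro s
    rw [hαs, hβs]
    simp only
    by_cases h : Two s ∧ s ≠ (fun _ => true)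
    · rw [if_pos h, if_pos h, hσ]
      simp only
      ext x y
      simp only [Matrix.add_apply, Matrix.hadamard_apply, Matrix.submatrix_apply, Matrix.sub_apply,
        Matrix.smul_apply, smul_eq_mul, hR, hμb]
      ring
    · rw [if_neg h, if_neg h, zero_add]
  have hαA : ∀ s, Adm Q s (αs s) := by
    intro s
    rw [hαs]
    simp only
    by_cases h : Two s ∧ s ≠ (fun _ => true)
    · rw [if_pos h]
      exact hAdmG s _ (hb _ (hcard s h.1) (huniv s h.2)).2.1
    · rw [if_neg h]; exact Adm.zero _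
  have hβA : ∀ s, Adm Q s (βs s) := by
    intro s
    rw [hβs]
    simp only
    by_cases h : Two s ∧ s ≠ (fun _ => true)
    · rw [if_pos h]
      exact hAdmG s _ (hb _ (hcard s h.1) (huniv s h.2)).1
    · rw [if_neg h]; exact hAdm s
  have hαR : ∀ s j, s j = true → Rd j (αs s) := by
    intro s j hj
    rw [hαs]
    simp only
    by_cases h : Two s ∧ s ≠ (fun _ => true)
    · rw [if_pos h]
      have hk : π.symm j ∈ setEquiv π s := by
        rw [mem_setEquiv, Equiv.apply_symm_apply]; exact hj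
      exact rd_of_rdm hQ π s j hj _ hk ((hb _ (hcard s h.1) (huniv s h.2)).2.2 _ hk)
    · rw [if_neg h]; exact Rd.zero j
  have hker : ∀ (s : Fin n → Bool) (x y : Fin n → Fin d), kerD Q s x y
      = ∏ j, (if j ∈ setEquiv π s then 1 else Q (x (π j)) (y (π j))) := by
    intro s x y
    rw [kerD, ← Equiv.prod_comp π]
    refine Finset.prod_congr rfl fun j _ => ?_
    simp only [mem_setEquiv]
  have htr : ∀ s, (σ s).trace = (μb s : ℂ) := by
    intro s
    rw [hσ]
    simp only
    rw [Matrix.trace_smul]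
    have h1 : (R s ⊙ kerD Q s).trace = 1 := by
      have h2 := (trace_split_inst (fun j => j ∈ setEquiv π s) Q hQ1 (ρ (setEquiv π s)) _).trans
        (hρ (setEquiv π s)).2
      rw [← Equiv.sum_comp e] at h2
      rw [← h2, Matrix.trace]
      refine Finset.sum_congr rfl fun x _ => ?_
      rw [Matrix.diag_apply, Matrix.hadamard_apply, hker]
      rfl
    rw [h1, smul_eq_mul, mul_one]
  have hsumA : A.submatrix e e = ∑ s, σ s := by
    ext x y
    rw [Matrix.submatrix_apply, hA, Matrix.sum_apply, ← Equiv.sum_comp (setEquiv π)]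
    refine Finset.sum_congr rfl fun s _ => ?_
    rw [hσ]
    simp only
    rw [Matrix.smul_apply, Matrix.hadamard_apply, hker, prod_compl, smul_eq_mul, mul_assoc]
    rfl
  have hsumA0 : A0.submatrix e e = ∑ s, (μb s : ℂ) • al Q P s := by
    ext x y
    rw [Matrix.submatrix_apply, hA0, Matrix.sum_apply, ← Equiv.sum_comp (setEquiv π)]
    refine Finset.sum_congr rfl fun s _ => ?_
    rw [mul_assoc, prod_two, Matrix.smul_apply, smul_eq_mul]
    congr 1
    have h2 : al Q P s x y = ∏ j, (if s (π j) then P (x (π j)) (y (π j)) else Q (x (π j)) (y (π j))) := by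
      rw [al]
      exact (Equiv.prod_comp π (fun j => if s j then P (x j) (y j) else Q (x j) (y j))).symm
    rw [h2]
    refine Finset.prod_congr rfl fun j _ => ?_
    simp only [mem_setEquiv]
    rfl
  have hGood : GoodC n (Fin m) (fun a s => ν a (setEquiv π s)) := goodC_rank π ν hcond
  have hfam : ∀ s, Two s → s ≠ (fun _ => true) →
      βs s = ∑ a, (ν a (setEquiv π s) : ℂ) • pr Q s ((Ω a).submatrix e e) := by
    intro s hs1 hs2
    ext x y
    rw [Matrix.sum_apply, hβs]
    simp only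
    rw [if_pos ⟨hs1, hs2⟩, Matrix.hadamard_apply]
    have h1 : (b (setEquiv π s)).submatrix (fun (x : Fin n → Fin d) i => x (π i.1))
        (fun (x : Fin n → Fin d) i => x (π i.1)) x y
        = ∑ a, (ν a (setEquiv π s) : ℂ) * rdS s ((Ω a).submatrix e e) x y := by
      rw [Matrix.submatrix_apply]
      rw [hΩ _ (hcard s hs1) (huniv s hs2)]
      refine Finset.sum_congr rfl fun a _ => ?_
      congr 1
      rw [rdS, ← Equiv.sum_comp e]
      refine Finset.sum_congr rfl fun z _ => ?_
      have hmem : ∀ j, j ∈ setEquiv π s ↔ s (π j) = true := fun j => mem_setEquiv π s j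
      have he1 : ∀ (w : Fin n → Fin d) (j : Fin n), e w j = w (π j) := fun w j => rfl
      have h2 : (fun j => if h : j ∈ setEquiv π s then y (π (⟨j, h⟩ : {j // j ∈ setEquiv π s}).1) else e z j)
          = e (fun j => if s j = true then y j else z j) := by
        funext j
        by_cases hj : s (π j) = true
        · rw [dif_pos ((hmem j).mpr hj)]
          show y (π j) = (if s (π j) = true then y (π j) else z (π j))
          rw [if_pos hj]
        · rw [dif_neg (fun h => hj ((hmem j).mp h))]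
          show z (π j) = (if s (π j) = true then y (π j) else z (π j))
          rw [if_neg hj]
      by_cases hz : ∀ j, s j = true → z j = x j
      · have hz' : ∀ j : {j // j ∈ setEquiv π s}, e z j.1 = x (π j.1) :=
          fun j => hz (π j.1) ((hmem j.1).mp j.2)
        rw [if_pos hz, if_pos hz', h2, Matrix.submatrix_apply]
      · have hz' : ¬ ∀ j : {j // j ∈ setEquiv π s}, e z j.1 = x (π j.1) := by
          intro h
          apply hz
          intro j hj
          have h3 := h ⟨π.symm j, (hmem _).mpr (by rw [Equiv.apply_symm_apply]; exact hj)⟩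
          rw [he1] at h3
          simpa using h3
        rw [if_neg hz, if_neg hz']
    rw [h1, Finset.sum_mul]
    refine Finset.sum_congr rfl fun a _ => ?_
    rw [Matrix.smul_apply, pr, Matrix.hadamard_apply, smul_eq_mul, mul_assoc]
  have hApsd' : (A.submatrix e e).PosSemidef := by
    rw [hsumA]; exact Matrix.posSemidef_sum _ fun s _ => (hAdm s).psd hQ
  have hA0psd' : (A0.submatrix e e).PosSemidef := by
    rw [hsumA0]
    exact Matrix.posSemidef_sum _ fun s _ => (al_psd hQ hPp s).smul (by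
      have := hμ (setEquiv π s)
      exact_mod_cast this)
  have back : ∀ M : Matrix (Fin n → Fin d) (Fin n → Fin d) ℂ, (M.submatrix e e).submatrix e.symm e.symm = M := by
    intro M; ext x y; simp
  have htrM : ∀ M : Matrix (Fin n → Fin d) (Fin n → Fin d) ℂ, (M.submatrix e e).trace = M.trace := by
    intro M
    rw [Matrix.trace, Matrix.trace]
    exact Equiv.sum_comp e (fun x => M x x)
  have hdtM : ∀ (t : ℝ) (M : Matrix (Fin n → Fin d) (Fin n → Fin d) ℂ),
      dt ((t : ℂ) • (1 : Matrix (Fin n → Fin d) (Fin n → Fin d) ℂ) + M)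
        = dt ((t : ℂ) • (1 : Matrix (Fin n → Fin d) (Fin n → Fin d) ℂ) + M.submatrix e e) := by
    intro t M
    have e1 : (t : ℂ) • (1 : Matrix (Fin n → Fin d) (Fin n → Fin d) ℂ) + M.submatrix e e
        = ((t : ℂ) • (1 : Matrix (Fin n → Fin d) (Fin n → Fin d) ℂ) + M).submatrix e e := by
      rw [Matrix.submatrix_add, Matrix.submatrix_smul]
      simp only [Pi.add_apply, Pi.smul_apply, Matrix.submatrix_one_equiv]
    rw [dt, dt, e1, Matrix.det_submatrix_equiv_self]
  refine ⟨?_, ?_, ?_, ?_⟩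
  · rw [← back A]; exact hApsd'.submatrix _
  · rw [← back A0]; exact hA0psd'.submatrix _
  · rw [← htrM A, ← htrM A0, hsumA, hsumA0, Matrix.trace_sum, Matrix.trace_sum]
    refine Finset.sum_congr rfl fun s _ => ?_
    rw [htr, Matrix.trace_smul, al_trace hQ1 hP1, smul_eq_mul, mul_one]
  · intro t ht
    rw [hdtM t A, hdtM t A0, hsumA, hsumA0, al_dt hQ.1 hPp.1 hV hQV hPV t n μb]
    have h1 := dsacR hQ hQ1 hV hQV hPV hcQ hlam ht n (Fin m) (fun a s => ν a (setEquiv π s))
      (fun a => (Ω a).submatrix e e) μb αs βs hαA hβA (fun s => by rw [hadd]; exact htr s) hαR hGood hfam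
    simp only [hadd] at h1
    exact h1

end Run7.h455
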