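import Pool.Agent.Run7.h455.Span

set_option autoImplicit false
open Matrix
open scoped ComplexOrder MatrixOrder Kronecker

namespace Run7.h455

variable {κ : Type} [Fintype κ] [DecidableEq κ]

lemma card_two : ∀ n, n + 1 ≤ 3 →
    (Finset.univ.filter (fun s : Fin n → Bool => s ≠ (fun _ => false) ∧ s ≠ (fun _ => true))).card ≤ 3 := by
  intro n hn
  have h : n ≤ 2 := by omega
  interval_cases n <;> decide +kernel

lemma goodM_small : ∀ (n : ℕ), n ≤ 3 → ∀ (β : (Fin n → Bool) → Matrix (Fin n → κ) (Fin n → κ) ℂ),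
    GoodM n β
  | 0, _, _ => trivial
  | n + 1, hn, β => by
    classical
    refine ⟨?_, fun x c _ => goodM_small n (by omega) (nxt x c β)⟩
    have hset : {X : Matrix κ κ ℂ | ∃ s : Fin n → Bool,
        s ≠ (fun _ => false) ∧ s ≠ (fun _ => true) ∧ X = mg (tl (β (Fin.cons true s)))}
        = (((Finset.univ.filter (fun s : Fin n → Bool => s ≠ (fun _ => false) ∧ s ≠ (fun _ => true))).image
          (fun s => mg (tl (β (Fin.cons true s)))) : Finset (Matrix κ κ ℂ)) : Set (Matrix κ κ ℂ)) := by
      ext X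
      rw [Finset.mem_coe, Finset.mem_image]
      constructor
      · rintro ⟨s, a, b, rfl⟩
        exact ⟨s, by rw [Finset.mem_filter]; exact ⟨Finset.mem_univ _, a, b⟩, rfl⟩
      · rintro ⟨s, a, rfl⟩
        rw [Finset.mem_filter] at a
        exact ⟨s, a.2.1, a.2.2, rfl⟩
    rw [hset]
    exact (finrank_span_finset_le_card _).trans (Finset.card_image_le.trans (card_two n hn))

/-- the condition on the marginals -/
lemma goodM_of2 : ∀ (n : ℕ) (β : (Fin n → Bool) → Matrix (Fin n → κ) (Fin n → κ) ℂ),
    (∀ k : Fin n, (k : ℕ) + 3 < n → Module.finrank ℝ (Submodule.span ℝ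
      {T : (Fin n → Bool) → Matrix (Fin n → κ) (Fin n → κ) ℂ | ∃ J, PropTr k J ∧ T = tvec β k J}) ≤ 3) →
    GoodM n β
  | 0, _, _ => trivial
  | n + 1, β, h => by
    by_cases hn3 : n + 1 ≤ 3
    · exact goodM_small (n + 1) hn3 β
    refine ⟨?_, fun x c _ => goodM_of2 n (nxt x c β) fun k hk3 => ?_⟩
    · let Ψ : ((Fin (n+1) → Bool) → Matrix (Fin (n+1) → κ) (Fin (n+1) → κ) ℂ) →ₗ[ℝ] Matrix κ κ ℂ :=
        { toFun := fun T => Matrix.of fun a b => T (fun _ => false) (fun _ => a) (fun _ => b)
          map_add' := fun _ _ => rfl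
          map_smul' := fun _ _ => rfl }
      refine le_trans ?_ (h 0 (by rw [Fin.val_zero]; omega))
      refine le_trans ?_ (Submodule.finrank_map_le Ψ _)
      apply Submodule.finrank_mono
      rw [Submodule.span_le]
      rintro X ⟨s, h1, h2, rfl⟩
      obtain ⟨i, hi⟩ := Function.ne_iff.mp h1
      obtain ⟨j, hj⟩ := Function.ne_iff.mp h2
      refine ⟨tvec β 0 (Fin.cons true s), Submodule.subset_span ⟨_, ⟨by simp, fun i hi => absurd hi (by simp),
          ⟨i.succ, Fin.succ_pos i, by simpa using hi⟩, ⟨j.succ, Fin.succ_pos j, by simpa using hj⟩⟩, rfl⟩, ?_⟩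
      ext a b
      show tvec β 0 (Fin.cons true s) (fun _ => false) (fun _ => a) (fun _ => b) = _
      rw [tvec, if_pos (fun _ _ => rfl)]
      have e : (fun i : Fin (n+1) => (false || (Fin.cons true s : Fin (n+1) → Bool) i)) = Fin.cons true s := by
        funext i; simp
      rw [e, rdS_upto_zero]
    · refine le_trans ?_ (h k.succ (by rw [Fin.val_succ]; omega))
      refine le_trans ?_ (Submodule.finrank_map_le (nxtL (κ := κ) (n := n) x c) _)
      apply Submodule.finrank_mono
      rw [Submodule.span_le]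
      rintro T ⟨J, ⟨h1, h2, ⟨i, hi, hi2⟩, ⟨j, hj, hj2⟩⟩, rfl⟩
      refine ⟨tvec β k.succ (Fin.cons false J), Submodule.subset_span ⟨_, ⟨by simpa using h1, ?_,
          ⟨i.succ, Fin.succ_lt_succ_iff.mpr hi, by simpa using hi2⟩,
          ⟨j.succ, Fin.succ_lt_succ_iff.mpr hj, by simpa using hj2⟩⟩, rfl⟩, ?_⟩
      · intro l hl
        refine Fin.cases ?_ (fun l => ?_) l hl
        · intro _; simp
        · intro hl; simpa using h2 l (Fin.succ_lt_succ_iff.mp hl)
      · funext S
        show nxt x c (tvec β k.succ (Fin.cons false J)) S = tvec (nxt x c β) k J S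
        have e1 : ∀ b : Bool, (∀ i, k.succ ≤ i → (Fin.cons b S : Fin (n+1) → Bool) i = false)
            ↔ (∀ i, k ≤ i → S i = false) := by
          intro b
          rw [Fin.forall_fin_succ]
          simp only [Fin.cons_succ, Fin.succ_le_succ_iff]
          constructor
          · intro h; exact h.2
          · intro h
            refine ⟨fun h0 => ?_, h⟩
            exact absurd h0 (by rw [not_le]; exact Fin.succ_pos k)
        have e2 : ∀ b : Bool, (fun i => (Fin.cons b S : Fin (n+1) → Bool) i
            || (Fin.cons false J : Fin (n+1) → Bool) i) = Fin.cons b (fun i => S i || J i) := by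
          intro b
          funext i; refine Fin.cases ?_ (fun i => ?_) i <;> simp
        rw [nxt, tvec, tvec, tvec]
        by_cases hS : ∀ i, k ≤ i → S i = false
        · rw [if_pos ((e1 false).mpr hS), if_pos ((e1 true).mpr hS), if_pos hS, e2, e2, upto_succ,
            ptr_rdS, cmp_rdS, nxt, rdS_add, rdS_smul]
        · rw [if_neg (fun h => hS ((e1 false).mp h)), if_neg (fun h => hS ((e1 true).mp h)), if_neg hS]
          rw [tl_zeroS, ptr_zero, smul_zero, zero_add, cmp, Matrix.mul_zero, Matrix.zero_mul]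

end Run7.h455
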