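import Pool.Agent.Run7.h455.Final3
import Pool.Agent.Run7.h455.FinalR
import Pool.Agent.Run7.h455.Span2
import Pool.Agent.Run7.h455.DsacN

set_option autoImplicit false
open Matrix
open scoped ComplexOrder MatrixOrder Kronecker

namespace Run7.h455

variable {d n : ℕ}

/-- the marginal of `M` on the sites of `I` up to `k` -/
def early (π : Equiv.Perm (Fin n)) (k : Fin n) {I : Finset (Fin n)}
    (M : Matrix ({j // j ∈ I} → Fin d) ({j // j ∈ I} → Fin d) ℂ) :
    Matrix (Fin n → Fin d) (Fin n → Fin d) ℂ := fun x y =>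
  ∑ w : {j // j ∈ I} → Fin d, if (∀ j : {j // j ∈ I}, π j.1 ≤ π k → w j = x j.1) then
    M w (fun j => if π j.1 ≤ π k then y j.1 else w j) else 0

lemma prod_not (p : Fin n → Prop) [DecidablePred p] [F : Fintype {j // ¬ p j}] (g : Fin n → ℂ) :
    ∏ j : {j // ¬ p j}, g j.1 = ∏ j, if p j then 1 else g j := by
  have h1 : ∏ j : {j // ¬ p j}, g j.1 = ∏ j ∈ Finset.univ.filter (fun j => ¬ p j), g j :=
    (Finset.prod_subtype _ (by simp) g).symm
  rw [h1, Finset.prod_filter]
  refine Finset.prod_congr rfl fun j _ => ?_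
  by_cases h : p j <;> simp [h]

lemma rdS_early {Q : Matrix (Fin d) (Fin d) ℂ} (hQ1 : Q.trace = 1) (π : Equiv.Perm (Fin n))
    (k : Fin n) (s S : Fin n → Bool) (hk : s k = true) (hs : ∀ j, j < k → s j = S j)
    (I : Finset (Fin n)) (hI : ∀ j, j ∈ I ↔ s (π j) = true)
    (M : Matrix ({i // i ∈ I} → Fin d) ({i // i ∈ I} → Fin d) ℂ)
    (x y : Fin n → Fin d) :
    rdS (upto k) ((M.submatrix (fun (x : Fin n → Fin d) i => x (π i.1)) (fun (x : Fin n → Fin d) i => x (π i.1)))
      ⊙ kerD Q s) x y
      = early π (π.symm k) M (cfgEquiv d π x) (cfgEquiv d π y)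
        * ∏ j, (if π j < k ∧ S (π j) = false then Q (x (π j)) (y (π j)) else 1) := by
  have hker : ∀ x y : Fin n → Fin d, kerD Q s x y
      = ∏ i, (if i ∈ I then 1 else Q (x (π i)) (y (π i))) := by
    intro x y
    rw [kerD, ← Equiv.prod_comp π]
    refine Finset.prod_congr rfl fun i _ => ?_
    simp only [hI]
  have he1 : ∀ (w : Fin n → Fin d) (j : Fin n), cfgEquiv d π w j = w (π j) := fun w j => rfl
  have he2 : ∀ (w : Fin n → Fin d) (j : Fin n), (cfgEquiv d π).symm w (π j) = w j := by
    intro w j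
    exact congrFun ((cfgEquiv d π).apply_symm_apply w) j
  set KQ : ℂ := ∏ j, (if π j < k ∧ S (π j) = false then Q (x (π j)) (y (π j)) else 1) with hKQ
  set G : ({j // j ∈ I} → Fin d) → ℂ := fun w =>
    if (∀ j : {j // j ∈ I}, π j.1 ≤ k → w j = x (π j.1)) then
      M w (fun j => if π j.1 ≤ k then y (π j.1) else w j) else 0 with hG
  set qq : Fin n → Fin d → ℂ := fun j a =>
    if π j ≤ k then (if a = x (π j) then 1 else 0) else Q a a with hqq
  have hq1 : ∀ j : {j // ¬ j ∈ I}, ∑ a, qq j.1 a = 1 := by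
    intro j
    rw [hqq]
    simp only
    by_cases h : π j.1 ≤ k
    · simp [h]
    · simp only [if_neg h]
      exact hQ1
  have hsw := @sum_weight_inst (Fin d) (Fin n) _ _ _ _ (fun i => i ∈ I) _ _ G
    (fun j a => qq j.1 a) hq1
  have hE : early π (π.symm k) M (cfgEquiv d π x) (cfgEquiv d π y) = ∑ w, G w := by
    rw [early]
    refine Finset.sum_congr rfl fun w _ => ?_
    rw [hG]
    simp only [Equiv.apply_symm_apply, he1]
  rw [hE, ← hsw, Finset.sum_mul, rdS, ← Equiv.sum_comp (cfgEquiv d π).symm]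
  refine Finset.sum_congr rfl fun z _ => ?_
  rw [prod_not (fun j => j ∈ I) (fun j => qq j (z j))]
  by_cases hz : ∀ j, upto k j = true → (cfgEquiv d π).symm z j = x j
  · have hz2 : ∀ j, π j ≤ k → z j = x (π j) := by
      intro j hj
      rw [← he2 z j]
      exact hz (π j) (by simpa [upto] using hj)
    rw [if_pos hz, Matrix.hadamard_apply, Matrix.submatrix_apply, hker, hG]
    simp only
    have hc1 : ∀ j : {j // j ∈ I}, π j.1 ≤ k → z j.1 = x (π j.1) := fun j hj => hz2 j.1 hj
    rw [if_pos hc1, mul_assoc]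
    congr 1
    · congr 1
      · funext i; exact he2 z i.1
      · funext i
        rw [he2]
        by_cases h : π i.1 ≤ k
        · rw [if_pos (by simpa [upto] using h), if_pos h]
        · rw [if_neg (by simpa [upto] using h), if_neg h]
    · rw [hKQ, ← Finset.prod_mul_distrib]
      refine Finset.prod_congr rfl fun j _ => ?_
      by_cases hj : j ∈ I
      · rw [if_pos hj, if_pos hj, if_neg, mul_one]
        rintro ⟨h1, h2⟩
        rw [hI, hs _ h1, h2] at hj
        exact Bool.noConfusion hj
      · rw [if_neg hj, if_neg hj, he2, hqq]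
        simp only
        by_cases h : π j ≤ k
        · have h3 : π j ≠ k := by
            intro h4
            apply hj
            rw [hI, h4]; exact hk
          have h5 : π j < k := lt_of_le_of_ne h h3
          have h6 : S (π j) = false := by
            rw [← hs _ h5]
            rw [hI] at hj
            simpa using hj
          have h7 : upto k (π j) = true := by simpa [upto] using h
          have h8 : π j < k ∧ S (π j) = false := ⟨h5, h6⟩
          rw [if_pos h7, if_pos h, if_pos (hz2 j h), if_pos h8, one_mul, hz2 j h]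
        · have h7 : ¬ upto k (π j) = true := by simpa [upto] using h
          have h8 : ¬ (π j < k ∧ S (π j) = false) := fun h' => h h'.1.le
          rw [if_neg h7, if_neg h, if_neg h8, mul_one]
  · rw [if_neg hz]
    push Not at hz
    obtain ⟨j, hj1, hj2⟩ := hz
    have hj3 : π (π.symm j) ≤ k := by rw [Equiv.apply_symm_apply]; simpa [upto] using hj1
    have hj4 : z (π.symm j) ≠ x (π (π.symm j)) := by
      rw [← he2 z (π.symm j), Equiv.apply_symm_apply]
      exact hj2
    by_cases hjI : π.symm j ∈ I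
    · have : G (fun j => z j.1) = 0 := by
        rw [hG]
        simp only
        rw [if_neg]
        intro h
        exact hj4 (h ⟨π.symm j, hjI⟩ hj3)
      rw [this]; ring
    · have : (∏ j, if j ∈ I then (1:ℂ) else qq j (z j)) = 0 := by
        apply Finset.prod_eq_zero (Finset.mem_univ (π.symm j))
        rw [if_neg hjI, hqq]
        simp only
        rw [if_pos hj3, if_neg hj4]
      rw [this]; ring

/-- the determinant form of spin alignment for sums of operators satisfying the reduction criterion and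
operators whose marginals span small spaces -/
theorem sac_span
    (Q : Matrix (Fin d) (Fin d) ℂ) (hQ : Q.PosSemidef) (hQ1 : Q.trace = 1)
    (q : Fin d → ℂ) (c : ℝ) (hq : star q ⬝ᵥ q = 1) (hc : Q *ᵥ q = (c : ℂ) • q)
    (hmax : ∀ v : Fin d → ℂ, (star v ⬝ᵥ (Q *ᵥ v)).re ≤ c * (star v ⬝ᵥ v).re)
    (μ : Finset (Fin n) → ℝ) (hμ : ∀ I, 0 ≤ μ I)
    (ρ : (I : Finset (Fin n)) → Matrix ({j // j ∈ I} → Fin d) ({j // j ∈ I} → Fin d) ℂ)
    (hρ : ∀ I, (ρ I).PosSemidef ∧ (ρ I).trace = 1)
    (b : (I : Finset (Fin n)) → Matrix ({j // j ∈ I} → Fin d) ({j // j ∈ I} → Fin d) ℂ)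
    (π : Equiv.Perm (Fin n))
    (hb : ∀ I : Finset (Fin n), 2 ≤ I.card → I ≠ Finset.univ → (b I).PosSemidef ∧
      ((μ I : ℂ) • ρ I - b I).PosSemidef ∧
      ∀ k (h : k ∈ I), (π k : ℕ) + 3 < n → (∃ j ∈ I, π k < π j) → (∃ j, j ∉ I ∧ π k < π j) →
        (rdm ⟨k, h⟩ ((μ I : ℂ) • ρ I - b I)).PosSemidef)
    (hcond : ∀ k : Fin n, (π k : ℕ) + 3 < n → Module.finrank ℝ (Submodule.span ℝ (Set.range fun
        (J : {J : Finset (Fin n) // k ∈ J ∧ (∀ i ∈ J, π k ≤ π i) ∧ (∃ i ∈ J, π k < π i) ∧
          ∃ i, i ∉ J ∧ π k < π i}) (H : {H : Finset (Fin n) // ∀ i ∈ H, π i < π k}) =>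
        early π k (b (H.1 ∪ J.1)))) ≤ 3)
    (A A0 : Matrix (Fin n → Fin d) (Fin n → Fin d) ℂ)
    (hA : ∀ x y, A x y = ∑ I, (μ I : ℂ) * ρ I (fun i => x i.1) (fun i => y i.1)
        * ∏ j ∈ Iᶜ, Q (x j) (y j))
    (hA0 : ∀ x y, A0 x y = ∑ I, (μ I : ℂ) * (∏ i ∈ I, q (x i) * star (q (y i)))
        * ∏ j ∈ Iᶜ, Q (x j) (y j)) :
    A.PosSemidef ∧ A0.PosSemidef ∧ A.trace = A0.trace ∧
      ∀ t : ℝ, 0 < t → dt ((t : ℂ) • (1 : Matrix (Fin n → Fin d) (Fin n → Fin d) ℂ) + A0)
        ≤ dt ((t : ℂ) • (1 : Matrix (Fin n → Fin d) (Fin n → Fin d) ℂ) + A) := by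
  classical
  obtain ⟨V, lam, k0, hV, hQV, hPV, hlam, hlam0⟩ := spectral_top hQ hq hc hmax
  set P := Matrix.vecMulVec q (star q) with hP
  have hPp : P.PosSemidef := Matrix.posSemidef_vecMulVec_self_star q
  have hP1 : P.trace = 1 := by
    rw [hP, Matrix.trace_vecMulVec, dotProduct_comm, hq]
  have hcQ : (((lam k0 : ℝ) : ℂ) • (1 : Matrix (Fin d) (Fin d) ℂ) - Q).PosSemidef := by
    rw [hlam0]
    have hherm : (((c : ℝ) : ℂ) • (1 : Matrix (Fin d) (Fin d) ℂ) - Q).IsHermitian := by
      have a1 : (((c : ℝ) : ℂ) • (1 : Matrix (Fin d) (Fin d) ℂ)).IsHermitian := by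
        rw [Matrix.IsHermitian, Matrix.conjTranspose_smul]; simp
      exact a1.sub hQ.1
    refine Matrix.PosSemidef.of_dotProduct_mulVec_nonneg hherm fun v => ?_
    have h1 := hmax v
    have him : (star v ⬝ᵥ ((((c : ℝ) : ℂ) • (1 : Matrix (Fin d) (Fin d) ℂ) - Q) *ᵥ v)).im = 0 := by
      have := hherm.im_star_dotProduct_mulVec_self v
      exact this
    rw [Complex.nonneg_iff]
    refine ⟨?_, him.symm⟩
    rw [Matrix.sub_mulVec, Matrix.smul_mulVec, Matrix.one_mulVec, dotProduct_sub, dotProduct_smul,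
      Complex.sub_re, smul_eq_mul, Complex.re_ofReal_mul]
    linarith
  set e := cfgEquiv d π with he
  set μb : (Fin n → Bool) → ℝ := fun s => μ (setEquiv π s) with hμb
  -- the operators
  set R : (Fin n → Bool) → Matrix (Fin n → Fin d) (Fin n → Fin d) ℂ := fun s =>
    (ρ (setEquiv π s)).submatrix (fun x i => x (π i.1)) (fun x i => x (π i.1)) with hR
  set σ : (Fin n → Bool) → Matrix (Fin n → Fin d) (Fin n → Fin d) ℂ := fun s =>
    (μb s : ℂ) • (R s ⊙ kerD Q s) with hσ
  have hAdmG : ∀ (s : Fin n → Bool) (M : Matrix ({j // j ∈ setEquiv π s} → Fin d)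
      ({j // j ∈ setEquiv π s} → Fin d) ℂ), M.PosSemidef →
      Adm Q s ((M.submatrix (fun (x : Fin n → Fin d) i => x (π i.1)) (fun (x : Fin n → Fin d) i => x (π i.1)))
        ⊙ kerD Q s) := by
    intro s M hM
    refine ⟨_, hM.submatrix _, ?_, rfl⟩
    intro x x' y y' hx hy
    simp only [Matrix.submatrix_apply]
    congr 1
    · funext i; exact hx _ ((mem_setEquiv π s i.1).mp i.2)
    · funext i; exact hy _ ((mem_setEquiv π s i.1).mp i.2)
  have hAdm : ∀ s, Adm Q s (σ s) := fun s => (hAdmG s _ (hρ _).1).smul (hμ _)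
  have hcard : ∀ s : Fin n → Bool, Two s → 2 ≤ (setEquiv π s).card := by
    rintro s ⟨i, j, hij, hi, hj⟩
    have h1 : 1 < (setEquiv π s).card := by
      rw [Finset.one_lt_card]
      refine ⟨π.symm i, (mem_setEquiv π s _).mpr (by rw [Equiv.apply_symm_apply]; exact hi),
        π.symm j, (mem_setEquiv π s _).mpr (by rw [Equiv.apply_symm_apply]; exact hj), ?_⟩
      intro h
      exact hij.ne (π.symm.injective h)
    exact h1
  have huniv : ∀ s : Fin n → Bool, s ≠ (fun _ => true) → setEquiv π s ≠ Finset.univ := by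
    intro s hs h
    apply hs
    funext j
    have h1 : π.symm j ∈ setEquiv π s := by rw [h]; exact Finset.mem_univ _
    rw [mem_setEquiv, Equiv.apply_symm_apply] at h1
    exact h1
  set αs : (Fin n → Bool) → Matrix (Fin n → Fin d) (Fin n → Fin d) ℂ := fun s =>
    if Two s ∧ s ≠ (fun _ => true) then
      (((μ (setEquiv π s) : ℂ) • ρ (setEquiv π s) - b (setEquiv π s)).submatrix
        (fun (x : Fin n → Fin d) i => x (π i.1)) (fun (x : Fin n → Fin d) i => x (π i.1))) ⊙ kerD Q s
    else 0 with hαs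
  set βs : (Fin n → Bool) → Matrix (Fin n → Fin d) (Fin n → Fin d) ℂ := fun s =>
    if Two s ∧ s ≠ (fun _ => true) then
      ((b (setEquiv π s)).submatrix
        (fun (x : Fin n → Fin d) i => x (π i.1)) (fun (x : Fin n → Fin d) i => x (π i.1))) ⊙ kerD Q s
    else σ s with hβs
  have hadd : ∀ s, αs s + βs s = σ s := by
    intro s
    rw [hαs, hβs]
    simp only
    by_cases h : Two s ∧ s ≠ (fun _ => true)
    · rw [if_pos h, if_pos h, hσ]
      simp only
      ext x y
      simp only [Matrix.add_apply, Matrix.hadamard_apply, Matrix.submatrix_apply, Matrix.sub_apply,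
        Matrix.smul_apply, smul_eq_mul, hR, hμb]
      ring
    · rw [if_neg h, if_neg h, zero_add]
  have hαA : ∀ s, Adm Q s (αs s) := by
    intro s
    rw [hαs]
    simp only
    by_cases h : Two s ∧ s ≠ (fun _ => true)
    · rw [if_pos h]
      exact hAdmG s _ (hb _ (hcard s h.1) (huniv s h.2)).2.1
    · rw [if_neg h]; exact Adm.zero _
  have hβA : ∀ s, Adm Q s (βs s) := by
    intro s
    rw [hβs]
    simp only
    by_cases h : Two s ∧ s ≠ (fun _ => true)
    · rw [if_pos h]
      exact hAdmG s _ (hb _ (hcard s h.1) (huniv s h.2)).1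
    · rw [if_neg h]; exact hAdm s
  have hαR : ∀ (s : Fin n → Bool) (j : Fin n), s j = true → (∃ i, j < i ∧ s i = true) →
      (∃ i, j < i ∧ s i = false) → (j : ℕ) + 3 < n → Rd j (αs s) := by
    intro s j hj hja hjb hj3
    rw [hαs]
    simp only
    by_cases h : Two s ∧ s ≠ (fun _ => true)
    · rw [if_pos h]
      have hk : π.symm j ∈ setEquiv π s := by
        rw [mem_setEquiv, Equiv.apply_symm_apply]; exact hj
      exact rd_of_rdm hQ π s j hj _ hk ((hb _ (hcard s h.1) (huniv s h.2)).2.2 _ hk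
        (by rw [Equiv.apply_symm_apply]; exact hj3)
        (by
          obtain ⟨i, hi, hi2⟩ := hja
          exact ⟨π.symm i, by rw [mem_setEquiv, Equiv.apply_symm_apply]; exact hi2, by
            rw [Equiv.apply_symm_apply, Equiv.apply_symm_apply]; exact hi⟩)
        (by
          obtain ⟨i, hi, hi2⟩ := hjb
          exact ⟨π.symm i, by rw [mem_setEquiv, Equiv.apply_symm_apply, hi2]; simp, by
            rw [Equiv.apply_symm_apply, Equiv.apply_symm_apply]; exact hi⟩))
    · rw [if_neg h]; exact Rd.zero j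
  have hker : ∀ (s : Fin n → Bool) (x y : Fin n → Fin d), kerD Q s x y
      = ∏ j, (if j ∈ setEquiv π s then 1 else Q (x (π j)) (y (π j))) := by
    intro s x y
    rw [kerD, ← Equiv.prod_comp π]
    refine Finset.prod_congr rfl fun j _ => ?_
    simp only [mem_setEquiv]
  have htr : ∀ s, (σ s).trace = (μb s : ℂ) := by
    intro s
    rw [hσ]
    simp only
    rw [Matrix.trace_smul]
    have h1 : (R s ⊙ kerD Q s).trace = 1 := by
      have h2 := (trace_split_inst (fun j => j ∈ setEquiv π s) Q hQ1 (ρ (setEquiv π s)) _).trans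
        (hρ (setEquiv π s)).2
      rw [← Equiv.sum_comp e] at h2
      rw [← h2, Matrix.trace]
      refine Finset.sum_congr rfl fun x _ => ?_
      rw [Matrix.diag_apply, Matrix.hadamard_apply, hker]
      rfl
    rw [h1, smul_eq_mul, mul_one]
  have hsumA : A.submatrix e e = ∑ s, σ s := by
    ext x y
    rw [Matrix.submatrix_apply, hA, Matrix.sum_apply, ← Equiv.sum_comp (setEquiv π)]
    refine Finset.sum_congr rfl fun s _ => ?_
    rw [hσ]
    simp only
    rw [Matrix.smul_apply, Matrix.hadamard_apply, hker, prod_compl, smul_eq_mul, mul_assoc]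
    rfl
  have hsumA0 : A0.submatrix e e = ∑ s, (μb s : ℂ) • al Q P s := by
    ext x y
    rw [Matrix.submatrix_apply, hA0, Matrix.sum_apply, ← Equiv.sum_comp (setEquiv π)]
    refine Finset.sum_congr rfl fun s _ => ?_
    rw [mul_assoc, prod_two, Matrix.smul_apply, smul_eq_mul]
    congr 1
    have h2 : al Q P s x y = ∏ j, (if s (π j) then P (x (π j)) (y (π j)) else Q (x (π j)) (y (π j))) := by
      rw [al]
      exact (Equiv.prod_comp π (fun j => if s j then P (x j) (y j) else Q (x j) (y j))).symm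
    rw [h2]
    refine Finset.prod_congr rfl fun j _ => ?_
    simp only [mem_setEquiv]
    rfl
  have hGood : GoodM n βs := by
    apply goodM_of2
    intro k hk3
    have hmem : ∀ (s : Fin n → Bool) (j : Fin n), j ∈ setEquiv π s ↔ s (π j) = true :=
      fun s j => mem_setEquiv π s j
    let Θ : ({H : Finset (Fin n) // ∀ i ∈ H, π i < π (π.symm k)}
          → Matrix (Fin n → Fin d) (Fin n → Fin d) ℂ)
        →ₗ[ℝ] ((Fin n → Bool) → Matrix (Fin n → Fin d) (Fin n → Fin d) ℂ) :=
      { toFun := fun v S => if h : (∀ i, k ≤ i → S i = false) then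
          Matrix.of fun x y => v ⟨setEquiv π S, fun i hi => by
            by_contra hik
            rw [Equiv.apply_symm_apply, not_lt] at hik
            have h1 := h (π i) hik
            rw [(hmem S i).mp hi] at h1
            exact Bool.noConfusion h1⟩ (e x) (e y)
            * ∏ j, (if π j < k ∧ S (π j) = false then Q (x (π j)) (y (π j)) else 1) else 0
        map_add' := fun v w => by
          funext S
          simp only [Pi.add_apply]
          split_ifs
          · ext x y
            simp only [Matrix.of_apply, Matrix.add_apply, add_mul]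
          · simp
        map_smul' := fun r v => by
          funext S
          simp only [Pi.smul_apply, RingHom.id_apply]
          split_ifs
          · ext x y
            simp only [Matrix.of_apply, Matrix.smul_apply, smul_mul_assoc]
          · simp }
    refine le_trans ?_ (hcond (π.symm k) (by rw [Equiv.apply_symm_apply]; exact hk3))
    refine le_trans ?_ (Submodule.finrank_map_le Θ _)
    apply Submodule.finrank_mono
    rw [Submodule.span_le]
    rintro T ⟨J, ⟨h1, h2, ⟨i, hi, hi2⟩, ⟨j, hj, hj2⟩⟩, rfl⟩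
    refine ⟨_, Submodule.subset_span ⟨⟨setEquiv π J, (hmem J _).mpr (by rw [Equiv.apply_symm_apply]; exact h1), ?_,
      ⟨π.symm i, (hmem J _).mpr (by rw [Equiv.apply_symm_apply]; exact hi2), by
        rw [Equiv.apply_symm_apply, Equiv.apply_symm_apply]; exact hi⟩,
      ⟨π.symm j, ?_, by rw [Equiv.apply_symm_apply, Equiv.apply_symm_apply]; exact hj⟩⟩, rfl⟩, ?_⟩
    · intro l hl
      rw [Equiv.apply_symm_apply]
      by_contra hlk
      have h3 := h2 (π l) (not_le.mp hlk)
      rw [(hmem J l).mp hl] at h3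
      exact Bool.noConfusion h3
    · rw [hmem, Equiv.apply_symm_apply, hj2]; simp
    · funext S
      show (if h : (∀ i, k ≤ i → S i = false) then
          Matrix.of fun x y => early π (π.symm k) (b (setEquiv π S ∪ setEquiv π J)) (e x) (e y)
            * ∏ j, (if π j < k ∧ S (π j) = false then Q (x (π j)) (y (π j)) else 1) else 0) = _
      rw [tvec]
      by_cases h : ∀ i, k ≤ i → S i = false
      · rw [dif_pos h, if_pos h]
        have hU : setEquiv π S ∪ setEquiv π J = setEquiv π (fun i => S i || J i) := by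
          ext l
          rw [Finset.mem_union, hmem, hmem, hmem]
          simp
        have hT : Two (fun i => S i || J i) := ⟨k, i, hi, by simp [h1], by simp [hi2]⟩
        have hNF : (fun i => S i || J i) ≠ (fun _ => true) := by
          intro hh
          have h5 := congrFun hh j
          simp only [hj2, h j hj.le] at h5
          exact Bool.noConfusion h5
        rw [hU]
        ext x y
        rw [hβs]
        simp only
        rw [if_pos ⟨hT, hNF⟩, Matrix.of_apply]
        refine (rdS_early hQ1 π k (fun i => S i || J i) S (by simp [h1]) (fun l hl => ?_) _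
          (hmem _) _ x y).symm
        simp [h2 l hl]
      · rw [dif_neg h, if_neg h]
  have hApsd' : (A.submatrix e e).PosSemidef := by
    rw [hsumA]; exact Matrix.posSemidef_sum _ fun s _ => (hAdm s).psd hQ
  have hA0psd' : (A0.submatrix e e).PosSemidef := by
    rw [hsumA0]
    exact Matrix.posSemidef_sum _ fun s _ => (al_psd hQ hPp s).smul (by
      have := hμ (setEquiv π s)
      exact_mod_cast this)
  have back : ∀ M : Matrix (Fin n → Fin d) (Fin n → Fin d) ℂ, (M.submatrix e e).submatrix e.symm e.symm = M := by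
    intro M; ext x y; simp
  have htrM : ∀ M : Matrix (Fin n → Fin d) (Fin n → Fin d) ℂ, (M.submatrix e e).trace = M.trace := by
    intro M
    rw [Matrix.trace, Matrix.trace]
    exact Equiv.sum_comp e (fun x => M x x)
  have hdtM : ∀ (t : ℝ) (M : Matrix (Fin n → Fin d) (Fin n → Fin d) ℂ),
      dt ((t : ℂ) • (1 : Matrix (Fin n → Fin d) (Fin n → Fin d) ℂ) + M)
        = dt ((t : ℂ) • (1 : Matrix (Fin n → Fin d) (Fin n → Fin d) ℂ) + M.submatrix e e) := by
    intro t M
    have e1 : (t : ℂ) • (1 : Matrix (Fin n → Fin d) (Fin n → Fin d) ℂ) + M.submatrix e e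
        = ((t : ℂ) • (1 : Matrix (Fin n → Fin d) (Fin n → Fin d) ℂ) + M).submatrix e e := by
      rw [Matrix.submatrix_add, Matrix.submatrix_smul]
      simp only [Pi.add_apply, Pi.smul_apply, Matrix.submatrix_one_equiv]
    rw [dt, dt, e1, Matrix.det_submatrix_equiv_self]
  refine ⟨?_, ?_, ?_, ?_⟩
  · rw [← back A]; exact hApsd'.submatrix _
  · rw [← back A0]; exact hA0psd'.submatrix _
  · rw [← htrM A, ← htrM A0, hsumA, hsumA0, Matrix.trace_sum, Matrix.trace_sum]
    refine Finset.sum_congr rfl fun s _ => ?_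
    rw [htr, Matrix.trace_smul, al_trace hQ1 hP1, smul_eq_mul, mul_one]
  · intro t ht
    rw [hdtM t A, hdtM t A0, hsumA, hsumA0, al_dt hQ.1 hPp.1 hV hQV hPV t n μb]
    have h1 := dsacN hQ hQ1 hV hQV hPV hcQ hlam ht n μb αs βs hαA hβA
      (fun s => by rw [hadd]; exact htr s) hαR hGood
    simp only [hadd] at h1
    exact h1

end Run7.h455
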