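import Pool.Agent.Run7.h455.Dsac2
import Pool.Agent.Run7.h455.Cond2

set_option autoImplicit false
open Matrix
open scoped ComplexOrder MatrixOrder Kronecker

namespace Run7.h455

section quasi
variable {P : Type*} [Fintype P] [DecidableEq P]

/-- quasi-concavity of the determinant for finitely many summands -/
lemma dt_quasi_sum {ι : Type*} (M : ι → Matrix P P ℂ) (p : ι → ℝ) (hM : ∀ a, (M a).PosSemidef)
    (S : Finset ι) (hS : S.Nonempty) : (∀ a ∈ S, 0 < p a) →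
    ∃ a ∈ S, dt (1 + (((p a)⁻¹ : ℝ) : ℂ) • M a)
      ≤ dt (1 + (((∑ b ∈ S, p b)⁻¹ : ℝ) : ℂ) • ∑ b ∈ S, M b) := by
  classical
  induction hS using Finset.Nonempty.cons_induction with
  | singleton a => intro _; exact ⟨a, by simp, by simp⟩
  | cons a S ha hS ih =>
    intro hp
    obtain ⟨b, hb, h⟩ := ih (fun c hc => hp c (Finset.mem_cons_of_mem hc))
    have hpa := hp a (Finset.mem_cons_self a S)
    have hZ : 0 < ∑ b ∈ S, p b :=
      Finset.sum_pos (fun c hc => hp c (Finset.mem_cons_of_mem hc)) hS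
    rw [Finset.sum_cons, Finset.sum_cons]
    set Z := ∑ b ∈ S, p b with hZd
    set MS := ∑ b ∈ S, M b with hMS
    have hMSp : MS.PosSemidef := Matrix.posSemidef_sum _ fun c _ => hM c
    have hpZ : 0 < p a + Z := by positivity
    have hX : (1 + (((p a)⁻¹ : ℝ) : ℂ) • M a).PosDef :=
      Matrix.PosDef.one.add_posSemidef ((hM a).smul (by exact_mod_cast (inv_pos.mpr hpa).le))
    have hY : (1 + ((Z⁻¹ : ℝ) : ℂ) • MS).PosDef :=
      Matrix.PosDef.one.add_posSemidef (hMSp.smul (by exact_mod_cast (inv_pos.mpr hZ).le))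
    have hq := dt_quasi hX hY (θ := p a / (p a + Z)) (by positivity)
      (by rw [div_le_one hpZ]; linarith)
    have e : ((p a / (p a + Z) : ℝ) : ℂ) • (1 + (((p a)⁻¹ : ℝ) : ℂ) • M a)
        + ((1 - p a / (p a + Z) : ℝ) : ℂ) • (1 + ((Z⁻¹ : ℝ) : ℂ) • MS)
        = 1 + (((p a + Z)⁻¹ : ℝ) : ℂ) • (M a + MS) := by
      have h1 : ((p a / (p a + Z) : ℝ) : ℂ) * (((p a)⁻¹ : ℝ) : ℂ) = (((p a + Z)⁻¹ : ℝ) : ℂ) := by
        rw [← Complex.ofReal_mul]; congr 1; field_simp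
      have h2 : ((1 - p a / (p a + Z) : ℝ) : ℂ) * ((Z⁻¹ : ℝ) : ℂ) = (((p a + Z)⁻¹ : ℝ) : ℂ) := by
        rw [← Complex.ofReal_mul]; congr 1; field_simp; ring
      rw [smul_add, smul_add, smul_smul, smul_smul, h1, h2, smul_add]
      have h3 : ((p a / (p a + Z) : ℝ) : ℂ) • (1 : Matrix P P ℂ)
          + ((1 - p a / (p a + Z) : ℝ) : ℂ) • (1 : Matrix P P ℂ) = 1 := by
        rw [← add_smul, ← Complex.ofReal_add]
        have : p a / (p a + Z) + (1 - p a / (p a + Z)) = 1 := by ring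
        rw [this, Complex.ofReal_one, one_smul]
      calc _ = (((p a / (p a + Z) : ℝ) : ℂ) • (1 : Matrix P P ℂ)
            + ((1 - p a / (p a + Z) : ℝ) : ℂ) • (1 : Matrix P P ℂ))
            + ((((p a + Z)⁻¹ : ℝ) : ℂ) • M a + (((p a + Z)⁻¹ : ℝ) : ℂ) • MS) := by abel
        _ = _ := by rw [h3]
    rw [e] at hq
    rcases min_le_iff.mp hq with h1 | h1
    · exact ⟨a, Finset.mem_cons_self a S, h1⟩
    · exact ⟨b, Finset.mem_cons_of_mem hb, h.trans h1⟩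

end quasi

section peel
variable {κ : Type} {N : Type*} [Fintype κ] [DecidableEq κ] [Fintype N] [DecidableEq N]

/-- resolution of the identity by the rows of a unitary matrix -/
lemma sum_emb_row {e : Matrix κ κ ℂ} (he : e * star e = 1) (X : Matrix N N ℂ) :
    ∑ k : κ, emb N (e k) * X * (emb N (e k))ᴴ = (1 : Matrix κ κ ℂ) ⊗ₖ X := by
  have he' : star e * e = 1 := mul_eq_one_comm.mp he
  ext ⟨a, i⟩ ⟨b, j⟩
  rw [Matrix.sum_apply, Matrix.kroneckerMap_apply]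
  have h : ∀ k : κ, (emb N (e k) * X * (emb N (e k))ᴴ) (a, i) (b, j)
      = (star (e k b) * e k a) * X i j := by
    intro k
    simp only [Matrix.mul_apply, emb, Matrix.conjTranspose_apply, ite_mul, zero_mul,
      Finset.sum_ite_eq, Finset.mem_univ, if_true]
    simp only [apply_ite star, star_zero, mul_ite, mul_zero,
      Finset.sum_ite_eq, Finset.mem_univ, if_true]
    ring
  simp only [h]
  rw [← Finset.sum_mul]
  congr 1
  have h1 := congrFun (congrFun he' b) a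
  rw [Matrix.mul_apply] at h1
  simp only [Matrix.star_apply] at h1
  rw [h1]
  by_cases hab : a = b
  · subst hab; rw [Matrix.one_apply_eq]
  · rw [Matrix.one_apply_ne hab, Matrix.one_apply_ne (Ne.symm hab)]

/-- the compressions to an orthonormal basis add up to the partial trace -/
lemma sum_cmp_row {e : Matrix κ κ ℂ} (he : e * star e = 1) (C : Matrix (κ × N) (κ × N) ℂ) :
    ∑ a : κ, cmp (e a) C = ptr C := by
  have he' : star e * e = 1 := mul_eq_one_comm.mp he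
  ext i j
  rw [Matrix.sum_apply, ptr]
  have h : ∀ a : κ, cmp (e a) C i j = ∑ b, ∑ c, (star (e a b) * e a c) * C (b, i) (c, j) := by
    intro a
    rw [cmp_apply]
    refine Finset.sum_congr rfl fun b _ => Finset.sum_congr rfl fun c _ => ?_
    ring
  simp only [h]
  rw [Finset.sum_comm]
  refine Finset.sum_congr rfl fun b _ => ?_
  rw [Finset.sum_comm, Finset.sum_eq_single b]
  · rw [← Finset.sum_mul]
    have h1 := congrFun (congrFun he' b) b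
    rw [Matrix.mul_apply, Matrix.one_apply_eq] at h1
    simp only [Matrix.star_apply] at h1
    rw [h1, one_mul]
  · intro c _ hc
    rw [← Finset.sum_mul]
    have h1 := congrFun (congrFun he' b) c
    rw [Matrix.mul_apply, Matrix.one_apply_ne (Ne.symm hc)] at h1
    simp only [Matrix.star_apply] at h1
    rw [h1, zero_mul]
  · simp

/-- peeling with a fixed basis of the site -/
theorem peel_flat {e : Matrix κ κ ℂ} (he : e * star e = 1)
    {C : Matrix (κ × N) (κ × N) ℂ} (hC : C.PosSemidef) {T : Matrix N N ℂ}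
    (hT : T.PosDef) {B : Matrix (κ × N) (κ × N) ℂ} (hB : B.PosDef)
    (hBT : ((1 : Matrix κ κ ℂ) ⊗ₖ T - B).PosSemidef) (p : κ → ℝ) (hp : ∀ a, 0 ≤ p a)
    (hp1 : ∑ a, p a = 1) (hz : ∀ a, p a = 0 → cmp (e a) C = 0) :
    ∃ a : κ, 0 < p a ∧
      dt B * dt (T + (((p a)⁻¹ : ℝ) : ℂ) • cmp (e a) C) ≤ dt (B + C) * dt T := by
  obtain ⟨y, hy⟩ := posSemidef_exists hC
  have hTi : (T⁻¹).PosSemidef := hT.inv.posSemidef
  have hTT : ((1 : Matrix κ κ ℂ) ⊗ₖ T).PosDef := Matrix.PosDef.one.kronecker hT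
  have hcmp : ∀ x : κ → ℂ, cmp x C = ((emb N x)ᴴ * yᴴ) * (y * emb N x) := by
    intro x
    rw [cmp, hy, Matrix.star_eq_conjTranspose]; simp only [Matrix.mul_assoc]
  have hmm0 : ∀ x : κ → ℂ, cmp x C = 0 → mm y T⁻¹ x x = 0 := by
    intro x h1
    have h2 : (y * emb N x)ᴴ * (y * emb N x) = 0 := by
      rw [Matrix.conjTranspose_mul, ← hcmp, h1]
    rw [Matrix.conjTranspose_mul_self_eq_zero] at h2
    have h3 : mm y T⁻¹ x x = (y * emb N x) * T⁻¹ * (y * emb N x)ᴴ := by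
      rw [mm, Matrix.conjTranspose_mul]; simp only [Matrix.mul_assoc]
    rw [h3, h2]; simp
  set M : κ → Matrix (κ × N) (κ × N) ℂ := fun k => mm y T⁻¹ (e k) (e k)
    with hM
  have hMp : ∀ k, (M k).PosSemidef := fun k => mm_psd y hTi _
  set S : Finset κ := Finset.univ.filter (fun a => 0 < p a) with hS
  have hSsum : ∑ a ∈ S, p a = 1 := by
    rw [← hp1, hS, Finset.sum_filter]
    refine Finset.sum_congr rfl fun a _ => ?_
    split_ifs with h
    · rfl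
    · exact le_antisymm (hp a) (not_lt.mp h)
  have hMsum : ∑ a ∈ S, M a = ∑ a, M a := by
    rw [hS, Finset.sum_filter]
    refine Finset.sum_congr rfl fun a _ => ?_
    split_ifs with h
    · rfl
    · have h0 : p a = 0 := le_antisymm (not_lt.mp h) (hp a)
      exact (hmm0 _ (hz a h0)).symm
  have hSne : S.Nonempty := by
    rw [Finset.nonempty_iff_ne_empty]
    intro h
    rw [h, Finset.sum_empty] at hSsum
    exact zero_ne_one hSsum
  obtain ⟨a, haS, ha⟩ := dt_quasi_sum M p hMp S hSne (fun a h => by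
    rw [hS, Finset.mem_filter] at h; exact h.2)
  rw [hSsum, hMsum, inv_one, Complex.ofReal_one, one_smul] at ha
  have hpa : 0 < p a := by
    rw [hS, Finset.mem_filter] at haS; exact haS.2
  refine ⟨a, hpa, ?_⟩
  have hTu : IsUnit T.det := (Matrix.isUnit_iff_isUnit_det _).mp hT.isUnit
  have hTTu : IsUnit ((1 : Matrix κ κ ℂ) ⊗ₖ T).det := (Matrix.isUnit_iff_isUnit_det _).mp hTT.isUnit
  have hpc : (0:ℂ) ≤ (((p a)⁻¹ : ℝ) : ℂ) := by exact_mod_cast (inv_pos.mpr hpa).le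
  have hpd1 : (1 + (((p a)⁻¹ : ℝ) : ℂ) • M a).PosDef :=
    Matrix.PosDef.one.add_posSemidef ((hMp a).smul hpc)
  have hpd2 : (1 + ∑ k : κ, M k).PosDef :=
    Matrix.PosDef.one.add_posSemidef (Matrix.posSemidef_sum _ fun k _ => hMp k)
  have e1 : dt (T + (((p a)⁻¹ : ℝ) : ℂ) • cmp (e a) C)
      = dt T * dt (1 + (((p a)⁻¹ : ℝ) : ℂ) • M a) := by
    have : (T + (((p a)⁻¹ : ℝ) : ℂ) • cmp (e a) C).det
        = ((dt T * dt (1 + (((p a)⁻¹ : ℝ) : ℂ) • M a) : ℝ) : ℂ) := by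
      rw [hcmp, ← Matrix.smul_mul, Matrix.det_add_mul _ _ hTu]
      push_cast
      rw [dt_coe hT.1]
      have h5 : (dt (1 + ((p a : ℂ)⁻¹) • M a) : ℂ) = (1 + ((p a : ℂ)⁻¹) • M a).det := by
        have := dt_coe hpd1.1
        push_cast at this
        exact this
      rw [h5]
      congr 3
      rw [hM]
      simp only [mm, Matrix.mul_smul, Matrix.mul_assoc]
    rw [dt, this, Complex.ofReal_re]
  have e2 : dt ((1 : Matrix κ κ ℂ) ⊗ₖ T + C) = dt ((1 : Matrix κ κ ℂ) ⊗ₖ T)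
      * dt (1 + ∑ k : κ, M k) := by
    have : ((1 : Matrix κ κ ℂ) ⊗ₖ T + C).det = ((dt ((1 : Matrix κ κ ℂ) ⊗ₖ T)
      * dt (1 + ∑ k : κ, M k) : ℝ) : ℂ) := by
      conv_lhs => rw [hy]
      rw [Matrix.det_add_mul _ _ hTTu]
      push_cast
      rw [dt_coe hTT.1, dt_coe hpd2.1]
      congr 3
      have h1 : ((1 : Matrix κ κ ℂ) ⊗ₖ T)⁻¹ = (1 : Matrix κ κ ℂ) ⊗ₖ T⁻¹ := by
        rw [Matrix.inv_kronecker, inv_one]
      rw [h1, ← sum_emb_row he, hM]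
      simp only [mm, Matrix.mul_sum, Matrix.sum_mul, Matrix.star_eq_conjTranspose]
    rw [dt, this, Complex.ofReal_re]
  have h1 := dt_ratio hB hBT hC
  rw [e2] at h1
  rw [e1]
  have hT0 := dt_pos hT
  have hB0 := dt_pos hB
  have hTT0 := dt_pos hTT
  have h2 : dt ((1 : Matrix κ κ ℂ) ⊗ₖ T) * (dt B * dt (1 + (((p a)⁻¹ : ℝ) : ℂ) • M a))
      ≤ dt ((1 : Matrix κ κ ℂ) ⊗ₖ T) * dt (B + C) := by
    calc _ = (dt ((1 : Matrix κ κ ℂ) ⊗ₖ T) * dt (1 + (((p a)⁻¹ : ℝ) : ℂ) • M a)) * dt B := by ring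
      _ ≤ (dt ((1 : Matrix κ κ ℂ) ⊗ₖ T) * dt (1 + ∑ k : κ, M k)) * dt B := by
          gcongr
      _ ≤ dt (B + C) * dt ((1 : Matrix κ κ ℂ) ⊗ₖ T) := h1
      _ = _ := by ring
  have h3 := le_of_mul_le_mul_left h2 hTT0
  calc dt B * (dt T * dt (1 + (((p a)⁻¹ : ℝ) : ℂ) • M a))
      = (dt B * dt (1 + (((p a)⁻¹ : ℝ) : ℂ) • M a)) * dt T := by ring
    _ ≤ _ := mul_le_mul_of_nonneg_right h3 hT0.le

end peel

variable {κ : Type} [Fintype κ] [DecidableEq κ]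

/-- the one-site step with a fixed basis -/
theorem step3 {e : Matrix κ κ ℂ} (he : e * star e = 1) {Q V P : Matrix κ κ ℂ} {lam : κ → ℝ} {k0 : κ} (hQp : Q.PosSemidef)
    (hV : V * star V = 1) (hQ : Q = V * Matrix.diagonal (fun k => (lam k : ℂ)) * star V)
    (hP : P = V * Matrix.diagonal (Pi.single k0 (1:ℂ)) * star V)
    (hc : (((lam k0 : ℝ) : ℂ) • (1 : Matrix κ κ ℂ) - Q).PosSemidef) (hl0 : 0 ≤ lam k0)
    {n : ℕ} {B : Matrix (Fin n → κ) (Fin n → κ) ℂ} (hB : B.PosSemidef)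
    {Cr : Matrix (κ × (Fin n → κ)) (κ × (Fin n → κ)) ℂ} (hCr : Cr.PosSemidef) (hRC : RC Cr)
    {C : Matrix (κ × (Fin n → κ)) (κ × (Fin n → κ)) ℂ} (hC : C.PosSemidef)
    (p : κ → ℝ) (hp : ∀ a, 0 ≤ p a) (hp1 : ∑ a, p a = 1)
    (hz : ∀ a, p a = 0 → cmp (e a) C = 0) {t : ℝ} (ht : 0 < t) :
    ∃ a : κ, 0 < p a ∧
      (∏ k ∈ Finset.univ.erase k0, dt ((t : ℂ) • (1 : Matrix (Fin n → κ) (Fin n → κ) ℂ) + (lam k : ℂ) • B))
        * dt ((t : ℂ) • (1 : Matrix (Fin n → κ) (Fin n → κ) ℂ) + (((lam k0 : ℝ) : ℂ) • B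
          + ptr Cr + (((p a)⁻¹ : ℝ) : ℂ) • cmp (e a) C))
      ≤ dt ((t : ℂ) • (1 : Matrix (κ × (Fin n → κ)) (κ × (Fin n → κ)) ℂ)
          + (Q ⊗ₖ B + Cr + C)) := by
  have htc : (0:ℂ) < (t:ℂ) := by exact_mod_cast ht
  have hl0c : (0:ℂ) ≤ ((lam k0 : ℝ) : ℂ) := by exact_mod_cast hl0
  have h1 : ((t : ℂ) • (1 : Matrix (Fin n → κ) (Fin n → κ) ℂ)).PosDef := Matrix.PosDef.one.smul htc
  have h1' : ((t : ℂ) • (1 : Matrix (κ × (Fin n → κ)) (κ × (Fin n → κ)) ℂ)).PosDef :=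
    Matrix.PosDef.one.smul htc
  set T := (t : ℂ) • (1 : Matrix (Fin n → κ) (Fin n → κ) ℂ) + ((lam k0 : ℝ) : ℂ) • B with hT
  have hTp : T.PosDef := h1.add_posSemidef (hB.smul hl0c)
  set T' := T + ptr Cr with hT'
  have hT'p : T'.PosDef := hTp.add_posSemidef (ptr_psd hCr)
  set B0 := (t : ℂ) • (1 : Matrix (κ × (Fin n → κ)) (κ × (Fin n → κ)) ℂ) + Q ⊗ₖ B with hB0
  have hB0p : B0.PosDef := h1'.add_posSemidef (hQp.kronecker hB)
  have hB1p : (B0 + Cr).PosDef := hB0p.add_posSemidef hCr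
  have hd0 : ((1 : Matrix κ κ ℂ) ⊗ₖ T - B0).PosSemidef := by
    have e : (1 : Matrix κ κ ℂ) ⊗ₖ T - B0 = (((lam k0 : ℝ) : ℂ) • (1 : Matrix κ κ ℂ) - Q) ⊗ₖ B := by
      rw [hT, hB0, Matrix.kronecker_add, Matrix.kronecker_smul, Matrix.one_kronecker_one,
        Matrix.kronecker_smul]
      ext ⟨a, i⟩ ⟨b, j⟩
      simp only [Matrix.sub_apply, Matrix.add_apply, Matrix.smul_apply, Matrix.kroneckerMap_apply, smul_eq_mul]
      ring
    rw [e]; exact hc.kronecker hB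
  have hd1 : ((1 : Matrix κ κ ℂ) ⊗ₖ T' - (B0 + Cr)).PosSemidef := by
    have e : (1 : Matrix κ κ ℂ) ⊗ₖ T' - (B0 + Cr)
        = ((1 : Matrix κ κ ℂ) ⊗ₖ T - B0) + ((1 : Matrix κ κ ℂ) ⊗ₖ ptr Cr - Cr) := by
      rw [hT', Matrix.kronecker_add]; abel
    rw [e]; exact hd0.add hRC
  have hp0 := peel_red hCr hRC hTp hB0p hd0
  rw [← hT'] at hp0
  obtain ⟨a, hpa, hpl⟩ := peel_flat he hC hT'p hB1p hd1 p hp hp1 hz
  refine ⟨a, hpa, ?_⟩
  have hblk : dt B0 = (∏ k ∈ Finset.univ.erase k0, dt ((t : ℂ) • (1 : Matrix (Fin n → κ) (Fin n → κ) ℂ)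
      + (lam k : ℂ) • B)) * dt T := by
    have a := dt_block hV hQ hP t hB.1 (Matrix.isHermitian_zero (n := Fin n → κ) (α := ℂ))
    simp only [Matrix.kronecker_zero, smul_zero, add_zero] at a
    rw [hB0, a, ← Finset.prod_erase_mul _ _ (Finset.mem_univ k0)]
  set Pk := ∏ k ∈ Finset.univ.erase k0, dt ((t : ℂ) • (1 : Matrix (Fin n → κ) (Fin n → κ) ℂ)
      + (lam k : ℂ) • B) with hPk
  have hT0 := dt_pos hTp
  have hT'0 := dt_pos hT'p
  have hgoal1 : (t : ℂ) • (1 : Matrix (Fin n → κ) (Fin n → κ) ℂ) + (((lam k0 : ℝ) : ℂ) • B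
          + ptr Cr + (((p a)⁻¹ : ℝ) : ℂ) • cmp (e a) C)
        = T' + (((p a)⁻¹ : ℝ) : ℂ) • cmp (e a) C := by
    rw [hT', hT]; abel
  have hgoal2 : (t : ℂ) • (1 : Matrix (κ × (Fin n → κ)) (κ × (Fin n → κ)) ℂ)
          + (Q ⊗ₖ B + Cr + C) = B0 + Cr + C := by
    rw [hB0]; abel
  rw [hgoal1, hgoal2]
  rw [hblk] at hp0
  have hE : 0 ≤ dt (T' + (((p a)⁻¹ : ℝ) : ℂ) • cmp (e a) C) :=
    (dt_pos (hT'p.add_posSemidef ((cmp_psd _ hC).smul
      (by exact_mod_cast (inv_pos.mpr hpa).le)))).le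
  have hPkT : Pk * dt T' ≤ dt (B0 + Cr) := by
    have h2 : Pk * dt T' * dt T ≤ dt (B0 + Cr) * dt T := by
      calc Pk * dt T' * dt T = Pk * dt T * dt T' := by ring
        _ ≤ _ := hp0
    exact le_of_mul_le_mul_right h2 hT0
  have h3 : Pk * dt (T' + (((p a)⁻¹ : ℝ) : ℂ) • cmp (e a) C) * dt T'
      ≤ dt (B0 + Cr + C) * dt T' := by
    calc Pk * dt (T' + (((p a)⁻¹ : ℝ) : ℂ) • cmp (e a) C) * dt T'
        = (Pk * dt T') * dt (T' + (((p a)⁻¹ : ℝ) : ℂ) • cmp (e a) C) := by ring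
      _ ≤ dt (B0 + Cr) * dt (T' + (((p a)⁻¹ : ℝ) : ℂ) • cmp (e a) C) :=
          mul_le_mul_of_nonneg_right hPkT hE
      _ ≤ _ := hpl
  exact le_of_mul_le_mul_right h3 hT'0

end Run7.h455
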