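import Pool.Agent.Run7.h455.Final3

set_option autoImplicit false

namespace Run7.h455

/-- at the last three sites there are at most three nontrivial traces -/
lemma ncard_last {n : ℕ} (π : Equiv.Perm (Fin n)) (k : Fin n) (hk : n - 3 ≤ (π k : ℕ)) :
    Set.ncard {J : Finset (Fin n) | ∃ I : Finset (Fin n), k ∈ I ∧ (∃ j ∈ I, π k < π j) ∧
      J = I.filter (fun j => π k ≤ π j)} ≤ 3 := by
  classical
  set L : Finset (Fin n) := Finset.univ.filter (fun j => π k < π j) with hL
  have hLc : L.card ≤ 2 := by
    have h1 : L.card = (Finset.Ioi (π k)).card := by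
      apply Finset.card_bij (fun j _ => π j)
      · intro j hj
        rw [hL, Finset.mem_filter] at hj
        rw [Finset.mem_Ioi]; exact hj.2
      · intro i _ j _ hij; exact π.injective hij
      · intro b hb
        rw [Finset.mem_Ioi] at hb
        exact ⟨π.symm b, by rw [hL, Finset.mem_filter]; exact ⟨Finset.mem_univ _, by simpa using hb⟩,
          by simp⟩
    rw [h1, Fin.card_Ioi]
    omega
  have hsub : {J : Finset (Fin n) | ∃ I : Finset (Fin n), k ∈ I ∧ (∃ j ∈ I, π k < π j) ∧
      J = I.filter (fun j => π k ≤ π j)} ⊆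
      (((L.powerset.erase ∅).image (fun T => insert k T) : Finset (Finset (Fin n))) :
        Set (Finset (Fin n))) := by
    rintro J ⟨I, h1, ⟨j, hj, hj2⟩, rfl⟩
    rw [Finset.mem_coe, Finset.mem_image]
    refine ⟨I.filter (fun j => π k < π j), ?_, ?_⟩
    · rw [Finset.mem_erase, Finset.mem_powerset]
      refine ⟨?_, ?_⟩
      · rw [← Finset.nonempty_iff_ne_empty]
        exact ⟨j, by rw [Finset.mem_filter]; exact ⟨hj, hj2⟩⟩
      · intro i hi
        rw [Finset.mem_filter] at hi
        rw [hL, Finset.mem_filter]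
        exact ⟨Finset.mem_univ _, hi.2⟩
    · ext i
      rw [Finset.mem_insert, Finset.mem_filter, Finset.mem_filter]
      constructor
      · rintro (h | ⟨h2, h3⟩)
        · subst h; exact ⟨h1, le_refl _⟩
        · exact ⟨h2, h3.le⟩
      · rintro ⟨h2, h3⟩
        rcases h3.lt_or_eq with h4 | h4
        · exact Or.inr ⟨h2, h4⟩
        · exact Or.inl (π.injective h4.symm)
  refine le_trans (Set.ncard_le_ncard hsub (Finset.finite_toSet _)) ?_
  rw [Set.ncard_coe_finset]
  refine le_trans Finset.card_image_le ?_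
  rw [Finset.card_erase_of_mem (Finset.empty_mem_powerset L), Finset.card_powerset]
  have : 2 ^ L.card ≤ 2 ^ 2 := Nat.pow_le_pow_right (by norm_num) hLc
  omega

end Run7.h455
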