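import Pool.Agent.Run7.h455.Bound

set_option autoImplicit false
open Matrix
open scoped ComplexOrder MatrixOrder Kronecker

namespace Run7.h455

/-- Weierstrass product inequality -/
lemma one_add_sum_le {ι : Type*} (S : Finset ι) (a : ι → ℝ) (h : ∀ i ∈ S, 0 ≤ a i) :
    1 + ∑ i ∈ S, a i ≤ ∏ i ∈ S, (1 + a i) := by
  classical
  induction S using Finset.induction_on with
  | empty => simp
  | insert i S hi ih =>
    rw [Finset.sum_insert hi, Finset.prod_insert hi]
    have h1 := ih (fun j hj => h j (Finset.mem_insert_of_mem hj))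
    have h2 := h i (Finset.mem_insert_self i S)
    have h3 : 0 ≤ ∑ j ∈ S, a j := Finset.sum_nonneg fun j hj => h j (Finset.mem_insert_of_mem hj)
    nlinarith

/-- adding a positive matrix to a bounded one -/
lemma removal {N : Type*} [Fintype N] [DecidableEq N] {A σ : Matrix N N ℂ} (hA : A.PosSemidef)
    (hσ : σ.PosSemidef) {t Λ : ℝ} (ht : 0 < t) (hΛ : 0 ≤ Λ)
    (hb : ((Λ : ℂ) • (1 : Matrix N N ℂ) - A).PosSemidef) :
    dt ((t : ℂ) • (1 : Matrix N N ℂ) + A) * (1 + σ.trace.re / (t + Λ))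
      ≤ dt ((t : ℂ) • (1 : Matrix N N ℂ) + A + σ) := by
  have htc : (0:ℂ) < (t:ℂ) := by exact_mod_cast ht
  have h1 : ((t : ℂ) • (1 : Matrix N N ℂ)).PosDef := Matrix.PosDef.one.smul htc
  have hX : ((t : ℂ) • (1 : Matrix N N ℂ) + A).PosDef := h1.add_posSemidef hA
  have hYX : ((((t + Λ : ℝ) : ℂ) • (1 : Matrix N N ℂ)) - ((t : ℂ) • (1 : Matrix N N ℂ) + A)).PosSemidef := by
    have e : (((t + Λ : ℝ) : ℂ) • (1 : Matrix N N ℂ)) - ((t : ℂ) • (1 : Matrix N N ℂ) + A)
        = (Λ : ℂ) • (1 : Matrix N N ℂ) - A := by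
      push_cast; rw [add_smul]; abel
    rw [e]; exact hb
  have h2 := dt_ratio hX hYX hσ
  have h3 := dt_affine hσ.1 (t + Λ) 1
  simp only [Complex.ofReal_one, one_smul, one_mul] at h3
  have h4 := dt_affine (Matrix.isHermitian_one (n := N) (α := ℂ)) (t + Λ) 0
  simp only [Complex.ofReal_zero, zero_smul, add_zero, zero_mul, Finset.prod_const] at h4
  have hpos : 0 < t + Λ := by linarith
  rw [h3, h4] at h2
  have h5 : ∏ i, (t + Λ + hσ.1.eigenvalues i)
      = (t + Λ) ^ (Finset.univ : Finset N).card * ∏ i, (1 + hσ.1.eigenvalues i / (t + Λ)) := by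
    rw [← Finset.prod_const, ← Finset.prod_mul_distrib]
    refine Finset.prod_congr rfl fun i _ => ?_
    field_simp
  have h6 := one_add_sum_le Finset.univ (fun i => hσ.1.eigenvalues i / (t + Λ))
    (fun i _ => div_nonneg (hσ.eigenvalues_nonneg i) hpos.le)
  have h7 : σ.trace.re = ∑ i, hσ.1.eigenvalues i := by
    rw [hσ.1.trace_eq_sum_eigenvalues]; simp
  rw [← Finset.sum_div, ← h7] at h6
  rw [h5] at h2
  have hp : 0 < (t + Λ) ^ (Finset.univ : Finset N).card := pow_pos hpos _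
  have hd := dt_pos hX
  have h8 : dt ((t : ℂ) • (1 : Matrix N N ℂ) + A) * (1 + σ.trace.re / (t + Λ)) * (t + Λ) ^ (Finset.univ : Finset N).card
      ≤ dt ((t : ℂ) • (1 : Matrix N N ℂ) + A + σ) * (t + Λ) ^ (Finset.univ : Finset N).card := by
    refine le_trans ?_ h2
    have := mul_le_mul_of_nonneg_left h6 (mul_nonneg hp.le hd.le)
    linarith
  exact le_of_mul_le_mul_right h8 hp

variable {κ : Type} [Fintype κ] [DecidableEq κ]

/-- entries of the aligned operator in the eigenbasis -/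
noncomputable def aw (lam : κ → ℝ) (k0 : κ) {n : ℕ} (μ : (Fin n → Bool) → ℝ) (x : Fin n → κ) : ℝ :=
  ∑ s, μ s * ∏ j, (if s j then (if x j = k0 then 1 else 0) else lam (x j))

lemma sum_cons {α : Type*} [AddCommMonoid α] {n : ℕ} (f : (Fin (n+1) → Bool) → α) :
    ∑ s, f s = ∑ s : Fin n → Bool, f (Fin.cons true s) + ∑ s : Fin n → Bool, f (Fin.cons false s) := by
  rw [← Equiv.sum_comp (Fin.consEquiv (fun _ => Bool)) f, Fintype.sum_prod_type, Fintype.sum_bool]
  rfl

omit [Fintype κ] in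
lemma aw_cons (lam : κ → ℝ) (k0 : κ) {n : ℕ} (μ : (Fin (n+1) → Bool) → ℝ) (k : κ) (x : Fin n → κ) :
    aw lam k0 μ (Fin.cons k x) = aw lam k0 (fun s => lam k * μ (Fin.cons false s)
      + (if k = k0 then 1 else 0) * μ (Fin.cons true s)) x := by
  rw [aw, sum_cons, aw, ← Finset.sum_add_distrib]
  refine Finset.sum_congr rfl fun s _ => ?_
  simp only [Fin.prod_univ_succ, Fin.cons_zero, Fin.cons_succ]
  simp only [if_true, Bool.false_eq_true, if_false]
  ring

omit [DecidableEq κ] in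
lemma prod_cons {n : ℕ} (f : (Fin (n+1) → κ) → ℝ) :
    ∏ x, f x = ∏ k : κ, ∏ x : Fin n → κ, f (Fin.cons k x) := by
  rw [← Equiv.prod_comp (Fin.consEquiv (fun _ => κ)) f, Fintype.prod_prod_type]
  rfl

omit [Fintype κ] in
lemma aw_const (lam : κ → ℝ) (k0 : κ) {n : ℕ} (μ : (Fin n → Bool) → ℝ) :
    aw lam k0 μ (fun _ => k0) = ∑ s, μ s * lamS (lam k0) s := by
  rw [aw]
  refine Finset.sum_congr rfl fun s _ => ?_
  simp [lamS]

omit [Fintype κ] in
lemma aw_nonneg (lam : κ → ℝ) (hl : ∀ k, 0 ≤ lam k) (k0 : κ) {n : ℕ} (μ : (Fin n → Bool) → ℝ)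
    (hμ : ∀ s, 0 ≤ μ s) (x : Fin n → κ) : 0 ≤ aw lam k0 μ x := by
  refine Finset.sum_nonneg fun s _ => mul_nonneg (hμ s) (Finset.prod_nonneg fun j _ => ?_)
  split_ifs
  · exact zero_le_one
  · exact le_rfl
  · exact hl _

omit [Fintype κ] in
/-- dropping the weight of the full set -/
lemma aw_drop (lam : κ → ℝ) (k0 : κ) {n : ℕ} (μ : (Fin n → Bool) → ℝ) (x : Fin n → κ) :
    aw lam k0 μ x = aw lam k0 (Function.update μ (fun _ => true) 0) x
      + (if x = (fun _ => k0) then μ (fun _ => true) else 0) := by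
  rw [aw, aw, ← Finset.add_sum_erase _ _ (Finset.mem_univ (fun _ => true)),
    ← Finset.add_sum_erase (a := (fun _ => true : Fin n → Bool)) (s := Finset.univ)
      (f := fun s => Function.update μ (fun _ => true) 0 s * ∏ j, (if s j then (if x j = k0 then 1 else 0) else lam (x j)))
      (Finset.mem_univ _)]
  have h1 : ∑ s ∈ Finset.univ.erase (fun _ => true), Function.update μ (fun _ => true) 0 s
        * ∏ j, (if s j then (if x j = k0 then 1 else 0) else lam (x j))
      = ∑ s ∈ Finset.univ.erase (fun _ => true), μ s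
        * ∏ j, (if s j then (if x j = k0 then 1 else 0) else lam (x j)) := by
    refine Finset.sum_congr rfl fun s hs => ?_
    rw [Function.update_of_ne (Finset.ne_of_mem_erase hs)]
  rw [h1]
  simp only [Function.update_self, zero_mul, zero_add, if_true]
  rw [add_comm]
  congr 1
  split_ifs with hx
  · subst hx; simp
  · obtain ⟨j, hj⟩ := Function.ne_iff.mp hx
    rw [Finset.prod_eq_zero (Finset.mem_univ j) (by simp [hj]), mul_zero]

/-- elimination condition -/
def Good : (n : ℕ) → ((Fin n → Bool) → Prop) → Prop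
  | 0, _ => True
  | n + 1, P => Set.ncard {s : Fin n → Bool | P (Fin.cons true s) ∧ s ≠ (fun _ => false)
        ∧ s ≠ (fun _ => true)} ≤ 3 ∧ Good n (fun s => P (Fin.cons false s) ∨ P (Fin.cons true s))

lemma Good.mono : ∀ {n : ℕ} {P P' : (Fin n → Bool) → Prop}, (∀ s, P' s → P s) → Good n P → Good n P'
  | 0, _, _, _, _ => trivial
  | n + 1, P, P', h, hg => by
    obtain ⟨h1, h2⟩ := hg
    refine ⟨le_trans (Set.ncard_le_ncard ?_ (Set.toFinite _)) h1, Good.mono ?_ h2⟩
    · intro s hs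
      exact ⟨h _ hs.1, hs.2⟩
    · intro s hs
      rcases hs with hs | hs
      · exact Or.inl (h _ hs)
      · exact Or.inr (h _ hs)

end Run7.h455
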