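import Pool.Agent.Run7.h455.Rot

set_option autoImplicit false
open Matrix
open scoped ComplexOrder MatrixOrder Kronecker

namespace Run7.h455

variable {κ N P : Type*} [Fintype κ] [DecidableEq κ] [Fintype N] [DecidableEq N]
  [Fintype P] [DecidableEq P]

/-- the matrix of `x ⊗ 1` -/
def emb (N : Type*) [DecidableEq N] (x : κ → ℂ) : Matrix (κ × N) N ℂ :=
  fun p j => if p.2 = j then x p.1 else 0

/-- compression by a vector of the first factor -/
def cmp (x : κ → ℂ) (C : Matrix (κ × N) (κ × N) ℂ) : Matrix N N ℂ := (emb N x)ᴴ * C * emb N x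

/-- sesquilinear version of the trace of the compression -/
def ss (C : Matrix (κ × N) (κ × N) ℂ) (u v : κ → ℂ) : ℂ := ((emb N u)ᴴ * C * emb N v).trace

/-- trace of the compression -/
def qq (C : Matrix (κ × N) (κ × N) ℂ) (u : κ → ℂ) : ℝ := ((cmp u C).trace).re

/-- sesquilinear version of the compressed Gram matrix -/
def mm (Y : Matrix P (κ × N) ℂ) (Ti : Matrix N N ℂ) (u v : κ → ℂ) : Matrix P P ℂ :=
  Y * (emb N u * Ti * (emb N v)ᴴ) * Yᴴ

omit [Fintype κ] [DecidableEq κ] [Fintype N] in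
lemma emb_comb (a b : ℂ) (u v : κ → ℂ) : emb N (a • u + b • v) = a • emb N u + b • emb N v := by
  ext p j
  simp only [emb, Matrix.add_apply, Matrix.smul_apply, Pi.add_apply, Pi.smul_apply]
  split_ifs <;> simp

omit [DecidableEq κ] [Fintype P] [DecidableEq P] in
lemma mm_comb (Y : Matrix P (κ × N) ℂ) (Ti : Matrix N N ℂ) (a b : ℂ) (u v : κ → ℂ) :
    mm Y Ti (a • u + b • v) (a • u + b • v) =
      (a * star a) • mm Y Ti u u + (b * star b) • mm Y Ti v v
      + (a * star b) • mm Y Ti u v + (b * star a) • mm Y Ti v u := by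
  simp only [mm, emb_comb, Matrix.conjTranspose_add, Matrix.conjTranspose_smul, Matrix.add_mul,
    Matrix.mul_add, Matrix.smul_mul, Matrix.mul_smul]
  module

omit [DecidableEq κ] in
lemma ss_comb (C : Matrix (κ × N) (κ × N) ℂ) (a b : ℂ) (u v : κ → ℂ) :
    ss C (a • u + b • v) (a • u + b • v) =
      (star a * a) * ss C u u + (star b * b) * ss C v v
      + (star a * b) * ss C u v + (star b * a) * ss C v u := by
  simp only [ss, emb_comb, Matrix.conjTranspose_add, Matrix.conjTranspose_smul, Matrix.add_mul,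
    Matrix.mul_add, Matrix.smul_mul, Matrix.mul_smul, Matrix.trace_add, Matrix.trace_smul,
    smul_eq_mul]
  ring

omit [DecidableEq κ] in
lemma ss_conj {C : Matrix (κ × N) (κ × N) ℂ} (hC : C.IsHermitian) (u v : κ → ℂ) :
    ss C v u = star (ss C u v) := by
  rw [ss, ss, ← Matrix.trace_conjTranspose]
  congr 1
  simp only [Matrix.conjTranspose_mul, Matrix.conjTranspose_conjTranspose, hC.eq]
  rw [Matrix.mul_assoc]

omit [DecidableEq κ] in
lemma qq_comb {C : Matrix (κ × N) (κ × N) ℂ} (hC : C.IsHermitian) (a b : ℂ) (u v : κ → ℂ) :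
    qq C (a • u + b • v) = Complex.normSq a * qq C u + Complex.normSq b * qq C v
      + 2 * (star a * b * ss C u v).re := by
  have h1 : ∀ w, qq C w = (ss C w w).re := fun w => rfl
  have him : ∀ w, (ss C w w).im = 0 := by
    intro w
    have := ss_conj hC w w
    exact Complex.conj_eq_iff_im.mp this.symm
  rw [h1, h1, h1, ss_comb, ss_conj hC u v]
  simp only [Complex.add_re, Complex.mul_re, Complex.mul_im, RCLike.star_def, Complex.conj_re,
    Complex.conj_im, Complex.normSq_apply, him]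
  ring

omit [DecidableEq κ] in
lemma qq_nonneg {C : Matrix (κ × N) (κ × N) ℂ} (hC : C.PosSemidef) (u : κ → ℂ) : 0 ≤ qq C u := by
  have := (hC.conjTranspose_mul_mul_same (emb N u)).trace_nonneg
  exact (Complex.nonneg_iff.mp this).1

omit [DecidableEq κ] [DecidableEq P] in
lemma mm_psd (Y : Matrix P (κ × N) ℂ) {Ti : Matrix N N ℂ} (h : Ti.PosSemidef) (u : κ → ℂ) :
    (mm Y Ti u u).PosSemidef :=
  (h.mul_mul_conjTranspose_same (emb N u)).mul_mul_conjTranspose_same Y

omit [DecidableEq κ] in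
lemma qq_smul {C : Matrix (κ × N) (κ × N) ℂ} (hC : C.IsHermitian) (c : ℝ) (u : κ → ℂ) :
    qq C ((c : ℂ) • u) = c ^ 2 * qq C u := by
  have := qq_comb hC (c : ℂ) 0 u u
  simp only [zero_smul, add_zero] at this
  rw [this, Complex.normSq_ofReal, Complex.normSq_zero]
  simp only [mul_zero, zero_mul, Complex.zero_re, add_zero]
  ring

omit [DecidableEq κ] [Fintype P] [DecidableEq P] in
lemma mm_smul (Y : Matrix P (κ × N) ℂ) (Ti : Matrix N N ℂ) (c : ℝ) (u : κ → ℂ) :
    mm Y Ti ((c : ℂ) • u) ((c : ℂ) • u) = ((c ^ 2 : ℝ) : ℂ) • mm Y Ti u u := by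
  have := mm_comb Y Ti (c : ℂ) 0 u u
  simp only [zero_smul, add_zero, zero_mul, mul_zero, star_zero] at this
  rw [this]
  congr 1
  simp
  ring

omit [DecidableEq κ] in
/-- two vectors plus a weighted linear relation can be merged -/
lemma merge_two_aux {ι : Type*} (F : Finset ι) (C : ι → Matrix (κ × N) (κ × N) ℂ)
    (hC : ∀ i ∈ F, (C i).PosSemidef)
    (Y : Matrix P (κ × N) ℂ) {Ti : Matrix N N ℂ} (hTi : Ti.PosSemidef)
    (hker : ∀ x : κ → ℂ, (∀ i ∈ F, qq (C i) x = 0) → mm Y Ti x x = 0)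
    {R : Matrix P P ℂ} (hR : R.PosSemidef) (u v : κ → ℂ) (d e : ℝ) (hd : 0 < d)
    (hrel : ∀ i ∈ F, d * qq (C i) u + e * qq (C i) v = 0) :
    ∃ x : κ → ℂ, (∀ i ∈ F, qq (C i) x = qq (C i) u + qq (C i) v) ∧
      dt (1 + R + mm Y Ti x x) ≤ dt (1 + R + mm Y Ti u u + mm Y Ti v v) := by
  rcases le_or_gt 0 e with he | he
  · -- the form vanishes on u
    have h0 : ∀ i ∈ F, qq (C i) u = 0 := by
      intro i hi
      have h1 := hrel i hi
      have h2 := qq_nonneg (hC i hi) u
      have h3 := qq_nonneg (hC i hi) v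
      have h4 : 0 ≤ e * qq (C i) v := mul_nonneg he h3
      have h5 : d * qq (C i) u = 0 := le_antisymm (by linarith) (mul_nonneg hd.le h2)
      rcases mul_eq_zero.mp h5 with h | h
      · exact absurd h hd.ne'
      · exact h
    refine ⟨v, fun i hi => by rw [h0 i hi, zero_add], ?_⟩
    rw [hker u h0, add_zero]
  · -- genuine convex combination
    set X : Matrix P P ℂ := 1 + R + (((1 - e / d : ℝ)) : ℂ) • mm Y Ti v v with hX
    set Z : Matrix P P ℂ := 1 + R + (((1 - d / e : ℝ)) : ℂ) • mm Y Ti u u with hZ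
    have c1 : 0 ≤ 1 - e / d := by
      have : e / d < 0 := div_neg_of_neg_of_pos he hd
      linarith
    have c2 : 0 ≤ 1 - d / e := by
      have : d / e < 0 := div_neg_of_pos_of_neg hd he
      linarith
    have hsc : ∀ (c : ℝ), 0 ≤ c → ∀ w : κ → ℂ, (1 + R + (c : ℂ) • mm Y Ti w w).PosDef := by
      intro c hc w
      have h1 : ((c : ℂ) • mm Y Ti w w).PosSemidef := (mm_psd Y hTi w).smul (by exact_mod_cast hc)
      exact (Matrix.PosDef.one.add_posSemidef hR).add_posSemidef h1
    have hXp : X.PosDef := hsc _ c1 v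
    have hZp : Z.PosDef := hsc _ c2 u
    set θ : ℝ := d / (d - e) with hθ
    have hde : 0 < d - e := by linarith
    have t0 : 0 ≤ θ := by positivity
    have t1 : θ ≤ 1 := by rw [hθ, div_le_one hde]; linarith
    have hene : e ≠ 0 := he.ne
    have hcomb : (θ : ℂ) • X + ((1 - θ : ℝ) : ℂ) • Z = 1 + R + mm Y Ti u u + mm Y Ti v v := by
      have a1 : θ * (1 - e / d) = 1 := by rw [hθ]; field_simp
      have a2 : (1 - θ) * (1 - d / e) = 1 := by
        have : 1 - θ = - e / (d - e) := by rw [hθ]; field_simp; ring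
        rw [this]; field_simp; ring
      have b1 : (θ : ℂ) • X = (θ : ℂ) • (1 + R) + mm Y Ti v v := by
        rw [hX, smul_add, smul_smul, ← Complex.ofReal_mul, a1, Complex.ofReal_one, one_smul]
      have b2 : ((1 - θ : ℝ) : ℂ) • Z = ((1 - θ : ℝ) : ℂ) • (1 + R) + mm Y Ti u u := by
        rw [hZ, smul_add, smul_smul, ← Complex.ofReal_mul, a2, Complex.ofReal_one, one_smul]
      have a3 : (θ : ℂ) • (1 + R) + (((1 - θ : ℝ)) : ℂ) • (1 + R) = 1 + R := by
        rw [← add_smul, ← Complex.ofReal_add]; simp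
      calc _ = ((θ : ℂ) • (1 + R) + (((1 - θ : ℝ)) : ℂ) • (1 + R)) + mm Y Ti v v + mm Y Ti u u := by
            rw [b1, b2]; abel
        _ = _ := by rw [a3]; abel
    have hq := dt_quasi hXp hZp t0 t1
    rw [hcomb] at hq
    have hsq : ∀ c : ℝ, 0 ≤ c → (Real.sqrt c) ^ 2 = c := fun c hc => Real.sq_sqrt hc
    rcases min_le_iff.mp hq with h | h
    · refine ⟨((Real.sqrt (1 - e / d) : ℝ) : ℂ) • v, ?_, ?_⟩
      · intro i hi
        rw [qq_smul (hC i hi).1, hsq _ c1]
        have h1 := hrel i hi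
        field_simp
        linarith
      · rw [mm_smul, hsq _ c1]
        exact h
    · refine ⟨((Real.sqrt (1 - d / e) : ℝ) : ℂ) • u, ?_, ?_⟩
      · intro i hi
        rw [qq_smul (hC i hi).1, hsq _ c2]
        have h1 := hrel i hi
        field_simp
        linarith
      · rw [mm_smul, hsq _ c2]
        exact h

omit [DecidableEq κ] in
/-- two vectors can be merged into one, keeping at most three traces -/
lemma merge_two {ι : Type*} (F : Finset ι) (hF : F.card ≤ 3) (C : ι → Matrix (κ × N) (κ × N) ℂ)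
    (hC : ∀ i ∈ F, (C i).PosSemidef)
    (Y : Matrix P (κ × N) ℂ) {Ti : Matrix N N ℂ} (hTi : Ti.PosSemidef)
    (hker : ∀ x : κ → ℂ, (∀ i ∈ F, qq (C i) x = 0) → mm Y Ti x x = 0)
    {R : Matrix P P ℂ} (hR : R.PosSemidef) (u v : κ → ℂ) :
    ∃ x : κ → ℂ, (∀ i ∈ F, qq (C i) x = qq (C i) u + qq (C i) v) ∧
      dt (1 + R + mm Y Ti x x) ≤ dt (1 + R + mm Y Ti u u + mm Y Ti v v) := by
  obtain ⟨U, d, hU, hd, hrel⟩ := exists_rot F hF (fun i => qq (C i) u) (fun i => qq (C i) v)
    (fun i => ss (C i) u v)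
  set u' : κ → ℂ := U 0 0 • u + U 1 0 • v with hu'
  set v' : κ → ℂ := U 0 1 • u + U 1 1 • v with hv'
  have U00 := congrFun (congrFun hU 0) 0
  have U01 := congrFun (congrFun hU 0) 1
  have U10 := congrFun (congrFun hU 1) 0
  have U11 := congrFun (congrFun hU 1) 1
  simp only [Matrix.mul_apply, Fin.sum_univ_two, Matrix.star_apply, Matrix.one_apply_eq, ne_eq,
    zero_ne_one, one_ne_zero, not_false_eq_true, Matrix.one_apply_ne] at U00 U01 U10 U11
  have hM : mm Y Ti u' u' + mm Y Ti v' v' = mm Y Ti u u + mm Y Ti v v := by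
    rw [hu', hv', mm_comb, mm_comb]
    have e : ((U 0 0 * star (U 0 0)) • mm Y Ti u u + (U 1 0 * star (U 1 0)) • mm Y Ti v v
        + (U 0 0 * star (U 1 0)) • mm Y Ti u v + (U 1 0 * star (U 0 0)) • mm Y Ti v u)
        + ((U 0 1 * star (U 0 1)) • mm Y Ti u u + (U 1 1 * star (U 1 1)) • mm Y Ti v v
        + (U 0 1 * star (U 1 1)) • mm Y Ti u v + (U 1 1 * star (U 0 1)) • mm Y Ti v u)
        = (U 0 0 * star (U 0 0) + U 0 1 * star (U 0 1)) • mm Y Ti u u
        + (U 1 0 * star (U 1 0) + U 1 1 * star (U 1 1)) • mm Y Ti v v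
        + (U 0 0 * star (U 1 0) + U 0 1 * star (U 1 1)) • mm Y Ti u v
        + (U 1 0 * star (U 0 0) + U 1 1 * star (U 0 1)) • mm Y Ti v u := by
      module
    rw [e, U00, U11, U01, U10]
    simp
  have hQ : ∀ i ∈ F, qq (C i) u' + qq (C i) v' = qq (C i) u + qq (C i) v := by
    intro i hi
    rw [hu', hv', qq_comb (hC i hi).1, qq_comb (hC i hi).1]
    have r00 := congrArg Complex.re U00
    have r11 := congrArg Complex.re U11
    have r01 := congrArg Complex.re U01
    have i01 := congrArg Complex.im U01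
    simp only [Complex.add_re, Complex.mul_re, Complex.mul_im, Complex.add_im, RCLike.star_def,
      Complex.conj_re, Complex.conj_im, Complex.one_re, Complex.zero_re, Complex.zero_im] at r00 r11 r01 i01 ⊢
    simp only [Complex.normSq_apply]
    linear_combination r00 * qq (C i) u + r11 * qq (C i) v + 2 * r01 * (ss (C i) u v).re
      + 2 * i01 * (ss (C i) u v).im
  have hrel' : ∀ i ∈ F, d 0 * qq (C i) u' + d 1 * qq (C i) v' = 0 := by
    intro i hi
    have := hrel i hi
    rw [Fin.sum_univ_two] at this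
    rw [hu', hv', qq_comb (hC i hi).1, qq_comb (hC i hi).1]
    exact this
  have e3 : 1 + R + mm Y Ti v' v' + mm Y Ti u' u' = 1 + R + mm Y Ti u' u' + mm Y Ti v' v' :=
    add_right_comm _ _ _
  -- now split on signs
  have fin : (∃ x : κ → ℂ, (∀ i ∈ F, qq (C i) x = qq (C i) u' + qq (C i) v') ∧
      dt (1 + R + mm Y Ti x x) ≤ dt (1 + R + mm Y Ti u' u' + mm Y Ti v' v')) := by
    rcases lt_trichotomy (d 0) 0 with h | h | h
    · exact merge_two_aux F C hC Y hTi hker hR u' v' (-d 0) (-d 1) (by linarith)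
        (fun i hi => by linarith [hrel' i hi])
    · rcases lt_trichotomy (d 1) 0 with g | g | g
      · obtain ⟨x, h1, h2⟩ := merge_two_aux F C hC Y hTi hker hR v' u' (-d 1) (-d 0) (by linarith)
          (fun i hi => by linarith [hrel' i hi])
        refine ⟨x, fun i hi => by rw [h1 i hi]; ring, ?_⟩
        rw [e3] at h2; exact h2
      · exfalso; apply hd; ext i; fin_cases i <;> assumption
      · obtain ⟨x, h1, h2⟩ := merge_two_aux F C hC Y hTi hker hR v' u' (d 1) (d 0) (by linarith)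
          (fun i hi => by linarith [hrel' i hi])
        refine ⟨x, fun i hi => by rw [h1 i hi]; ring, ?_⟩
        rw [e3] at h2; exact h2
    · exact merge_two_aux F C hC Y hTi hker hR u' v' (d 0) (d 1) h hrel'
  obtain ⟨x, h1, h2⟩ := fin
  refine ⟨x, fun i hi => by rw [h1 i hi, hQ i hi], ?_⟩
  have e2 : 1 + R + mm Y Ti u' u' + mm Y Ti v' v' = 1 + R + mm Y Ti u u + mm Y Ti v v := by
    rw [add_assoc, hM, ← add_assoc]
  rw [e2] at h2
  exact h2

omit [DecidableEq κ] in
/-- finitely many vectors can be merged into one -/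
lemma merge_many {ι τ : Type*} [DecidableEq τ] (F : Finset ι) (hF : F.card ≤ 3)
    (C : ι → Matrix (κ × N) (κ × N) ℂ)
    (hC : ∀ i ∈ F, (C i).PosSemidef)
    (Y : Matrix P (κ × N) ℂ) {Ti : Matrix N N ℂ} (hTi : Ti.PosSemidef)
    (hker : ∀ x : κ → ℂ, (∀ i ∈ F, qq (C i) x = 0) → mm Y Ti x x = 0)
    (w : τ → κ → ℂ) (S : Finset τ) :
    ∀ {R : Matrix P P ℂ}, R.PosSemidef →
    ∃ x : κ → ℂ, (∀ i ∈ F, qq (C i) x = ∑ k ∈ S, qq (C i) (w k)) ∧
      dt (1 + R + mm Y Ti x x) ≤ dt (1 + R + ∑ k ∈ S, mm Y Ti (w k) (w k)) := by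
  induction S using Finset.induction_on with
  | empty =>
    intro R hR
    refine ⟨0, fun i hi => ?_, ?_⟩
    · have := qq_smul (hC i hi).1 0 (0 : κ → ℂ)
      simp only [smul_zero] at this
      rw [this]; simp
    · have := mm_smul Y Ti 0 (0 : κ → ℂ)
      simp only [smul_zero] at this
      rw [this]; simp
  | insert k S hk ih =>
    intro R hR
    obtain ⟨y, hy1, hy2⟩ := ih (R := R + mm Y Ti (w k) (w k)) (hR.add (mm_psd Y hTi (w k)))
    obtain ⟨x, hx1, hx2⟩ := merge_two F hF C hC Y hTi hker hR (w k) y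
    refine ⟨x, fun i hi => ?_, ?_⟩
    · rw [hx1 i hi, hy1 i hi, Finset.sum_insert hk]
    · refine hx2.trans ?_
      rw [Finset.sum_insert hk]
      have e1 : 1 + (R + mm Y Ti (w k) (w k)) = 1 + R + mm Y Ti (w k) (w k) := by abel
      rw [e1] at hy2
      refine hy2.trans (le_of_eq ?_)
      congr 1
      abel

end Run7.h455
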