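import Pool.Agent.Run7.h455.Peel

set_option autoImplicit false
open Matrix
open scoped ComplexOrder MatrixOrder Kronecker

namespace Run7.h455

lemma rot_of_kernel {ι : Type*} (F : Finset ι) (A B : ι → ℝ) (S : ι → ℂ) (v : Fin 4 → ℝ) (hv0 : v ≠ 0)
    (hv : ∀ i ∈ F, v 0 * A i + v 1 * B i + 2 * (v 2 * (S i).re + v 3 * (S i).im) = 0) :
    ∃ (U : Matrix (Fin 2) (Fin 2) ℂ) (d : Fin 2 → ℝ), U * star U = 1 ∧ d ≠ 0 ∧
      ∀ i ∈ F, ∑ k, d k * (Complex.normSq (U 0 k) * A i + Complex.normSq (U 1 k) * B i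
        + 2 * (star (U 0 k) * U 1 k * S i).re) = 0 := by
  let D : Matrix (Fin 2) (Fin 2) ℂ := !![(v 0 : ℂ), v 2 + v 3 * Complex.I; v 2 - v 3 * Complex.I, v 1]
  have hD : D.IsHermitian := by
    ext i j
    fin_cases i <;> fin_cases j <;> (simp [D, Matrix.conjTranspose_apply]; try ring)
  refine ⟨hD.eigenvectorUnitary, hD.eigenvalues, Unitary.coe_mul_star_self _, ?_, ?_⟩
  · intro h0
    have h1 := hD.spectral_theorem
    rw [h0, Unitary.conjStarAlgAut_apply] at h1
    have h2 : D = 0 := by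
      rw [h1]
      have : (RCLike.ofReal ∘ (0 : Fin 2 → ℝ) : Fin 2 → ℂ) = 0 := by ext; simp
      rw [this]; simp
    apply hv0
    have a00 := congrFun (congrFun h2 0) 0
    have a01 := congrFun (congrFun h2 0) 1
    have a11 := congrFun (congrFun h2 1) 1
    simp [D] at a00 a01 a11
    have b1 := congrArg Complex.re a01
    have b2 := congrArg Complex.im a01
    simp at b1 b2
    ext i
    fin_cases i <;> simp [a00, a11, b1, b2]
  · intro i hi
    have h1 := hD.spectral_theorem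
    rw [Unitary.conjStarAlgAut_apply] at h1
    set U : Matrix (Fin 2) (Fin 2) ℂ := (hD.eigenvectorUnitary : Matrix (Fin 2) (Fin 2) ℂ) with hU
    have hent : ∀ a b : Fin 2, D a b = ∑ k, U a k * (hD.eigenvalues k : ℂ) * star (U b k) := by
      intro a b
      conv_lhs => rw [h1]
      rw [Matrix.mul_apply]
      refine Finset.sum_congr rfl fun k _ => ?_
      rw [Matrix.mul_diagonal, Matrix.star_apply]
      simp
    have e00 := hent 0 0
    have e11 := hent 1 1
    have e01 := hent 0 1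
    simp only [Fin.sum_univ_two] at e00 e11 e01 ⊢
    have f00 := congrArg Complex.re e00
    have f11 := congrArg Complex.re e11
    have f01 := congrArg Complex.re e01
    have g01 := congrArg Complex.im e01
    simp [D] at f00 f11 f01 g01
    have hvi := hv i hi
    simp only [Complex.normSq_apply, Complex.mul_re, Complex.mul_im, RCLike.star_def, Complex.conj_re, Complex.conj_im]
    linear_combination hvi - A i * f00 - B i * f11 - 2 * (S i).re * f01 - 2 * (S i).im * g01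


variable {κ N P : Type*} [Fintype κ] [DecidableEq κ] [Fintype N] [DecidableEq N]
  [Fintype P] [DecidableEq P]

/-- marginal on the first factor -/
def mg (C : Matrix (κ × N) (κ × N) ℂ) : Matrix κ κ ℂ := fun a b => ∑ j, C (a, j) (b, j)

omit [DecidableEq κ] in
lemma ss_mg (C : Matrix (κ × N) (κ × N) ℂ) (u v : κ → ℂ) :
    ss C u v = ∑ a, ∑ b, star (u a) * mg C a b * v b := by
  rw [ss, Matrix.trace]
  have h : ∀ i, ((emb N u)ᴴ * C * emb N v).diag i = ∑ a, ∑ b, star (u a) * C (a, i) (b, i) * v b := by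
    intro i
    rw [Matrix.diag_apply, Matrix.mul_apply, Fintype.sum_prod_type]
    have h1 : ∀ (b : κ) (j : N), ((emb N u)ᴴ * C) i (b, j) = ∑ a, star (u a) * C (a, i) (b, j) := by
      intro b j
      rw [Matrix.mul_apply, Fintype.sum_prod_type]
      refine Finset.sum_congr rfl fun a _ => ?_
      rw [Finset.sum_eq_single i]
      · rw [Matrix.conjTranspose_apply, emb]; simp
      · intro k _ hk; rw [Matrix.conjTranspose_apply, emb]; simp [hk]
      · simp
    rw [Finset.sum_comm]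
    simp only [h1]
    have h2 : ∀ (b : κ), ∑ j : N, (∑ a, star (u a) * C (a, i) (b, j)) * emb N v (b, j) i
        = ∑ a, star (u a) * C (a, i) (b, i) * v b := by
      intro b
      rw [Finset.sum_eq_single i]
      · rw [emb]; simp only [if_true]; rw [Finset.sum_mul]
      · intro k _ hk; rw [emb]; simp [hk]
      · simp
    rw [Finset.sum_comm]
    simp only [h2]
    rw [Finset.sum_comm]
  simp only [h]
  rw [Finset.sum_comm]
  refine Finset.sum_congr rfl fun a _ => ?_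
  rw [Finset.sum_comm]
  refine Finset.sum_congr rfl fun b _ => ?_
  rw [mg, Finset.mul_sum, Finset.sum_mul]

/-- the sesquilinear form of a matrix as a linear map -/
noncomputable def bl (u v : κ → ℂ) : Matrix κ κ ℂ →ₗ[ℝ] ℂ where
  toFun M := ∑ a, ∑ b, star (u a) * M a b * v b
  map_add' M M' := by
    rw [← Finset.sum_add_distrib]
    refine Finset.sum_congr rfl fun a _ => ?_
    rw [← Finset.sum_add_distrib]
    refine Finset.sum_congr rfl fun b _ => ?_
    rw [Matrix.add_apply]; ring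
  map_smul' c M := by
    rw [RingHom.id_apply, Complex.real_smul, Finset.mul_sum]
    refine Finset.sum_congr rfl fun a _ => ?_
    rw [Finset.mul_sum]
    refine Finset.sum_congr rfl fun b _ => ?_
    rw [Matrix.smul_apply, Complex.real_smul]; ring

omit [DecidableEq κ] in
lemma bl_apply (u v : κ → ℂ) (M : Matrix κ κ ℂ) : bl u v M = ∑ a, ∑ b, star (u a) * M a b * v b := rfl

omit [DecidableEq κ] in
lemma exists_kernelS (L : Submodule ℝ (Matrix κ κ ℂ)) (hL : Module.finrank ℝ L ≤ 3) (u v : κ → ℂ) :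
    ∃ w : Fin 4 → ℝ, w ≠ 0 ∧ ∀ M ∈ L, w 0 * (bl u u M).re + w 1 * (bl v v M).re
      + 2 * (w 2 * (bl u v M).re + w 3 * (bl u v M).im) = 0 := by
  let a1 : Module.Dual ℝ L := Complex.reLm.comp ((bl u u).comp L.subtype)
  let a2 : Module.Dual ℝ L := Complex.reLm.comp ((bl v v).comp L.subtype)
  let a3 : Module.Dual ℝ L := Complex.reLm.comp ((bl u v).comp L.subtype)
  let a4 : Module.Dual ℝ L := Complex.imLm.comp ((bl u v).comp L.subtype)
  let g : (Fin 4 → ℝ) →ₗ[ℝ] Module.Dual ℝ L :=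
    { toFun := fun w => w 0 • a1 + w 1 • a2 + (2 * w 2) • a3 + (2 * w 3) • a4
      map_add' := fun w w' => by
        simp only [Pi.add_apply, mul_add, add_smul]; abel
      map_smul' := fun c w => by
        simp only [Pi.smul_apply, smul_eq_mul, RingHom.id_apply, smul_add, smul_smul]
        have e1 : ∀ x : ℝ, 2 * (c * x) = c * (2 * x) := fun x => by ring
        simp only [e1] }
  have hlt : Module.finrank ℝ (Module.Dual ℝ L) < Module.finrank ℝ (Fin 4 → ℝ) := by
    rw [Subspace.dual_finrank_eq, Module.finrank_fintype_fun_eq_card, Fintype.card_fin]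
    omega
  have hk := LinearMap.ker_ne_bot_of_finrank_lt (f := g) hlt
  obtain ⟨w, hw, hw0⟩ := Submodule.exists_mem_ne_zero_of_ne_bot hk
  refine ⟨w, hw0, fun M hM => ?_⟩
  rw [LinearMap.mem_ker] at hw
  have h1 := LinearMap.congr_fun hw ⟨M, hM⟩
  have h2 : w 0 * (bl u u M).re + w 1 * (bl v v M).re + (2 * w 2) * (bl u v M).re
      + (2 * w 3) * (bl u v M).im = 0 := h1
  linarith

omit [DecidableEq κ] in
lemma exists_rotS {ι : Type*} (F : Finset ι) (C : ι → Matrix (κ × N) (κ × N) ℂ)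
    (L : Submodule ℝ (Matrix κ κ ℂ)) (hL : Module.finrank ℝ L ≤ 3) (hF : ∀ i ∈ F, mg (C i) ∈ L)
    (u v : κ → ℂ) :
    ∃ (U : Matrix (Fin 2) (Fin 2) ℂ) (d : Fin 2 → ℝ), U * star U = 1 ∧ d ≠ 0 ∧
      ∀ i ∈ F, ∑ k, d k * (Complex.normSq (U 0 k) * qq (C i) u + Complex.normSq (U 1 k) * qq (C i) v
        + 2 * (star (U 0 k) * U 1 k * ss (C i) u v).re) = 0 := by
  obtain ⟨w, hw0, hw⟩ := exists_kernelS L hL u v
  refine rot_of_kernel F (fun i => qq (C i) u) (fun i => qq (C i) v) (fun i => ss (C i) u v) w hw0 ?_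
  intro i hi
  have h1 := hw _ (hF i hi)
  have h2 : ∀ x, qq (C i) x = (ss (C i) x x).re := fun _ => rfl
  simp only [h2, ss_mg]
  simp only [bl_apply] at h1
  exact h1

omit [DecidableEq κ] in
/-- two vectors can be merged into one, keeping the traces, when the marginals lie in a small space -/
lemma merge_twoS {ι : Type*} (F : Finset ι) (C : ι → Matrix (κ × N) (κ × N) ℂ)
    (L : Submodule ℝ (Matrix κ κ ℂ)) (hL : Module.finrank ℝ L ≤ 3) (hF : ∀ i ∈ F, mg (C i) ∈ L)
    (hC : ∀ i ∈ F, (C i).PosSemidef)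
    (Y : Matrix P (κ × N) ℂ) {Ti : Matrix N N ℂ} (hTi : Ti.PosSemidef)
    (hker : ∀ x : κ → ℂ, (∀ i ∈ F, qq (C i) x = 0) → mm Y Ti x x = 0)
    {R : Matrix P P ℂ} (hR : R.PosSemidef) (u v : κ → ℂ) :
    ∃ x : κ → ℂ, (∀ i ∈ F, qq (C i) x = qq (C i) u + qq (C i) v) ∧
      dt (1 + R + mm Y Ti x x) ≤ dt (1 + R + mm Y Ti u u + mm Y Ti v v) := by
  obtain ⟨U, d, hU, hd, hrel⟩ := exists_rotS F C L hL hF u v
  set u' : κ → ℂ := U 0 0 • u + U 1 0 • v with hu'
  set v' : κ → ℂ := U 0 1 • u + U 1 1 • v with hv'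
  have U00 := congrFun (congrFun hU 0) 0
  have U01 := congrFun (congrFun hU 0) 1
  have U10 := congrFun (congrFun hU 1) 0
  have U11 := congrFun (congrFun hU 1) 1
  simp only [Matrix.mul_apply, Fin.sum_univ_two, Matrix.star_apply, Matrix.one_apply_eq, ne_eq,
    zero_ne_one, one_ne_zero, not_false_eq_true, Matrix.one_apply_ne] at U00 U01 U10 U11
  have hM : mm Y Ti u' u' + mm Y Ti v' v' = mm Y Ti u u + mm Y Ti v v := by
    rw [hu', hv', mm_comb, mm_comb]
    have e : ((U 0 0 * star (U 0 0)) • mm Y Ti u u + (U 1 0 * star (U 1 0)) • mm Y Ti v v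
        + (U 0 0 * star (U 1 0)) • mm Y Ti u v + (U 1 0 * star (U 0 0)) • mm Y Ti v u)
        + ((U 0 1 * star (U 0 1)) • mm Y Ti u u + (U 1 1 * star (U 1 1)) • mm Y Ti v v
        + (U 0 1 * star (U 1 1)) • mm Y Ti u v + (U 1 1 * star (U 0 1)) • mm Y Ti v u)
        = (U 0 0 * star (U 0 0) + U 0 1 * star (U 0 1)) • mm Y Ti u u
        + (U 1 0 * star (U 1 0) + U 1 1 * star (U 1 1)) • mm Y Ti v v
        + (U 0 0 * star (U 1 0) + U 0 1 * star (U 1 1)) • mm Y Ti u v
        + (U 1 0 * star (U 0 0) + U 1 1 * star (U 0 1)) • mm Y Ti v u := by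
      module
    rw [e, U00, U11, U01, U10]
    simp
  have hQ : ∀ i ∈ F, qq (C i) u' + qq (C i) v' = qq (C i) u + qq (C i) v := by
    intro i hi
    rw [hu', hv', qq_comb (hC i hi).1, qq_comb (hC i hi).1]
    have r00 := congrArg Complex.re U00
    have r11 := congrArg Complex.re U11
    have r01 := congrArg Complex.re U01
    have i01 := congrArg Complex.im U01
    simp only [Complex.add_re, Complex.mul_re, Complex.mul_im, Complex.add_im, RCLike.star_def,
      Complex.conj_re, Complex.conj_im, Complex.one_re, Complex.zero_re, Complex.zero_im] at r00 r11 r01 i01 ⊢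
    simp only [Complex.normSq_apply]
    linear_combination r00 * qq (C i) u + r11 * qq (C i) v + 2 * r01 * (ss (C i) u v).re
      + 2 * i01 * (ss (C i) u v).im
  have hrel' : ∀ i ∈ F, d 0 * qq (C i) u' + d 1 * qq (C i) v' = 0 := by
    intro i hi
    have := hrel i hi
    rw [Fin.sum_univ_two] at this
    rw [hu', hv', qq_comb (hC i hi).1, qq_comb (hC i hi).1]
    exact this
  have e3 : 1 + R + mm Y Ti v' v' + mm Y Ti u' u' = 1 + R + mm Y Ti u' u' + mm Y Ti v' v' :=
    add_right_comm _ _ _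
  -- now split on signs
  have fin : (∃ x : κ → ℂ, (∀ i ∈ F, qq (C i) x = qq (C i) u' + qq (C i) v') ∧
      dt (1 + R + mm Y Ti x x) ≤ dt (1 + R + mm Y Ti u' u' + mm Y Ti v' v')) := by
    rcases lt_trichotomy (d 0) 0 with h | h | h
    · exact merge_two_aux F C hC Y hTi hker hR u' v' (-d 0) (-d 1) (by linarith)
        (fun i hi => by linarith [hrel' i hi])
    · rcases lt_trichotomy (d 1) 0 with g | g | g
      · obtain ⟨x, h1, h2⟩ := merge_two_aux F C hC Y hTi hker hR v' u' (-d 1) (-d 0) (by linarith)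
          (fun i hi => by linarith [hrel' i hi])
        refine ⟨x, fun i hi => by rw [h1 i hi]; ring, ?_⟩
        rw [e3] at h2; exact h2
      · exfalso; apply hd; ext i; fin_cases i <;> assumption
      · obtain ⟨x, h1, h2⟩ := merge_two_aux F C hC Y hTi hker hR v' u' (d 1) (d 0) (by linarith)
          (fun i hi => by linarith [hrel' i hi])
        refine ⟨x, fun i hi => by rw [h1 i hi]; ring, ?_⟩
        rw [e3] at h2; exact h2
    · exact merge_two_aux F C hC Y hTi hker hR u' v' (d 0) (d 1) h hrel'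
  obtain ⟨x, h1, h2⟩ := fin
  refine ⟨x, fun i hi => by rw [h1 i hi, hQ i hi], ?_⟩
  have e2 : 1 + R + mm Y Ti u' u' + mm Y Ti v' v' = 1 + R + mm Y Ti u u + mm Y Ti v v := by
    rw [add_assoc, hM, ← add_assoc]
  rw [e2] at h2
  exact h2

omit [DecidableEq κ] in
/-- finitely many vectors can be merged into one -/
lemma merge_manyS {ι τ : Type*} [DecidableEq τ] (F : Finset ι)
    (C : ι → Matrix (κ × N) (κ × N) ℂ)
    (L : Submodule ℝ (Matrix κ κ ℂ)) (hL : Module.finrank ℝ L ≤ 3) (hF : ∀ i ∈ F, mg (C i) ∈ L)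
    (hC : ∀ i ∈ F, (C i).PosSemidef)
    (Y : Matrix P (κ × N) ℂ) {Ti : Matrix N N ℂ} (hTi : Ti.PosSemidef)
    (hker : ∀ x : κ → ℂ, (∀ i ∈ F, qq (C i) x = 0) → mm Y Ti x x = 0)
    (w : τ → κ → ℂ) (S : Finset τ) :
    ∀ {R : Matrix P P ℂ}, R.PosSemidef →
    ∃ x : κ → ℂ, (∀ i ∈ F, qq (C i) x = ∑ k ∈ S, qq (C i) (w k)) ∧
      dt (1 + R + mm Y Ti x x) ≤ dt (1 + R + ∑ k ∈ S, mm Y Ti (w k) (w k)) := by
  induction S using Finset.induction_on with
  | empty =>
    intro R hR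
    refine ⟨0, fun i hi => ?_, ?_⟩
    · have := qq_smul (hC i hi).1 0 (0 : κ → ℂ)
      simp only [smul_zero] at this
      rw [this]; simp
    · have := mm_smul Y Ti 0 (0 : κ → ℂ)
      simp only [smul_zero] at this
      rw [this]; simp
  | insert k S hk ih =>
    intro R hR
    obtain ⟨y, hy1, hy2⟩ := ih (R := R + mm Y Ti (w k) (w k)) (hR.add (mm_psd Y hTi (w k)))
    obtain ⟨x, hx1, hx2⟩ := merge_twoS F C L hL hF hC Y hTi hker hR (w k) y
    refine ⟨x, fun i hi => ?_, ?_⟩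
    · rw [hx1 i hi, hy1 i hi, Finset.sum_insert hk]
    · refine hx2.trans ?_
      rw [Finset.sum_insert hk]
      have e1 : 1 + (R + mm Y Ti (w k) (w k)) = 1 + R + mm Y Ti (w k) (w k) := by abel
      rw [e1] at hy2
      refine hy2.trans (le_of_eq ?_)
      congr 1
      abel


/-- peeling lemma -/
theorem peelS {ι : Type*} (F : Finset ι) (C : ι → Matrix (κ × N) (κ × N) ℂ)
    (L : Submodule ℝ (Matrix κ κ ℂ)) (hL : Module.finrank ℝ L ≤ 3) (hF : ∀ i ∈ F, mg (C i) ∈ L)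
    (hC : ∀ i ∈ F, (C i).PosSemidef) {T : Matrix N N ℂ} (hT : T.PosDef)
    {B : Matrix (κ × N) (κ × N) ℂ} (hB : B.PosDef)
    (hBT : ((1 : Matrix κ κ ℂ) ⊗ₖ T - B).PosSemidef) :
    ∃ x : κ → ℂ, (∀ i ∈ F, (cmp x (C i)).trace = (C i).trace) ∧
      dt B * dt (T + ∑ i ∈ F, cmp x (C i)) ≤ dt (B + ∑ i ∈ F, C i) * dt T := by
  set CC := ∑ i ∈ F, C i with hCC
  have hCCp : CC.PosSemidef := Matrix.posSemidef_sum F hC
  obtain ⟨y, hy⟩ := posSemidef_exists hCCp
  have hTi : (T⁻¹).PosSemidef := hT.inv.posSemidef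
  have hTT : ((1 : Matrix κ κ ℂ) ⊗ₖ T).PosDef := Matrix.PosDef.one.kronecker hT
  have hker : ∀ x : κ → ℂ, (∀ i ∈ F, qq (C i) x = 0) → mm y T⁻¹ x x = 0 := by
    intro x hx
    have h1 : cmp x CC = 0 := by
      rw [hCC, cmp_sum]
      exact Finset.sum_eq_zero fun i hi => cmp_eq_zero (hC i hi) (hx i hi)
    have h2 : (y * emb N x)ᴴ * (y * emb N x) = 0 := by
      rw [← h1, cmp, hy, Matrix.conjTranspose_mul, Matrix.star_eq_conjTranspose]
      simp only [Matrix.mul_assoc]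
    rw [Matrix.conjTranspose_mul_self_eq_zero] at h2
    have h3 : mm y T⁻¹ x x = (y * emb N x) * T⁻¹ * (y * emb N x)ᴴ := by
      rw [mm, Matrix.conjTranspose_mul]; simp only [Matrix.mul_assoc]
    rw [h3, h2]; simp
  obtain ⟨x, hx1, hx2⟩ := merge_manyS F C L hL hF hC y hTi hker (fun k => Pi.single k (1:ℂ))
    (Finset.univ : Finset κ) (R := 0) Matrix.PosSemidef.zero
  refine ⟨x, ?_, ?_⟩
  · intro i hi
    have h1 := hx1 i hi
    rw [trace_emb] at h1
    have h2 := (Complex.nonneg_iff.mp (cmp_psd x (hC i hi)).trace_nonneg).2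
    have h3 := (Complex.nonneg_iff.mp (hC i hi).trace_nonneg).2
    exact Complex.ext h1 (by rw [← h2, ← h3])
  · have hTu : IsUnit T.det := (Matrix.isUnit_iff_isUnit_det _).mp hT.isUnit
    have hTTu : IsUnit ((1 : Matrix κ κ ℂ) ⊗ₖ T).det := (Matrix.isUnit_iff_isUnit_det _).mp hTT.isUnit
    have hpd1 : (1 + mm y T⁻¹ x x).PosDef := Matrix.PosDef.one.add_posSemidef (mm_psd y hTi x)
    have hpd2 : (1 + ∑ k : κ, mm y T⁻¹ (Pi.single k (1:ℂ)) (Pi.single k (1:ℂ))).PosDef :=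
      Matrix.PosDef.one.add_posSemidef (Matrix.posSemidef_sum _ fun k _ => mm_psd y hTi _)
    have e1 : dt (T + ∑ i ∈ F, cmp x (C i)) = dt T * dt (1 + mm y T⁻¹ x x) := by
      have : (T + ∑ i ∈ F, cmp x (C i)).det = ((dt T * dt (1 + mm y T⁻¹ x x) : ℝ) : ℂ) := by
        rw [← cmp_sum, ← hCC]
        have h1 : cmp x CC = ((emb N x)ᴴ * yᴴ) * (y * emb N x) := by
          rw [cmp, hy, Matrix.star_eq_conjTranspose]; simp only [Matrix.mul_assoc]
        rw [h1, Matrix.det_add_mul _ _ hTu]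
        push_cast
        rw [dt_coe hT.1, dt_coe hpd1.1]
        congr 3
        rw [mm]; simp only [Matrix.mul_assoc]
      rw [dt, this, Complex.ofReal_re]
    have e2 : dt ((1 : Matrix κ κ ℂ) ⊗ₖ T + CC) = dt ((1 : Matrix κ κ ℂ) ⊗ₖ T)
        * dt (1 + ∑ k : κ, mm y T⁻¹ (Pi.single k (1:ℂ)) (Pi.single k (1:ℂ))) := by
      have : ((1 : Matrix κ κ ℂ) ⊗ₖ T + CC).det = ((dt ((1 : Matrix κ κ ℂ) ⊗ₖ T)
        * dt (1 + ∑ k : κ, mm y T⁻¹ (Pi.single k (1:ℂ)) (Pi.single k (1:ℂ))) : ℝ) : ℂ) := by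
        rw [hy, Matrix.det_add_mul _ _ hTTu]
        push_cast
        rw [dt_coe hTT.1, dt_coe hpd2.1]
        congr 3
        have h1 : ((1 : Matrix κ κ ℂ) ⊗ₖ T)⁻¹ = (1 : Matrix κ κ ℂ) ⊗ₖ T⁻¹ := by
          rw [Matrix.inv_kronecker, inv_one]
        rw [h1, ← sum_emb]
        simp only [mm, Matrix.mul_sum, Matrix.sum_mul, Matrix.star_eq_conjTranspose]
      rw [dt, this, Complex.ofReal_re]
    have h1 := dt_ratio hB hBT hCCp
    rw [e2] at h1
    rw [e1]
    have hT0 := dt_pos hT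
    have hB0 := dt_pos hB
    have hTT0 := dt_pos hTT
    simp only [add_zero] at hx2
    have h2 : dt ((1 : Matrix κ κ ℂ) ⊗ₖ T) * (dt B * dt (1 + mm y T⁻¹ x x))
        ≤ dt ((1 : Matrix κ κ ℂ) ⊗ₖ T) * dt (B + CC) := by
      calc _ = (dt ((1 : Matrix κ κ ℂ) ⊗ₖ T) * dt (1 + mm y T⁻¹ x x)) * dt B := by ring
        _ ≤ (dt ((1 : Matrix κ κ ℂ) ⊗ₖ T)
          * dt (1 + ∑ k : κ, mm y T⁻¹ (Pi.single k (1:ℂ)) (Pi.single k (1:ℂ)))) * dt B := by
            gcongr
        _ ≤ dt (B + CC) * dt ((1 : Matrix κ κ ℂ) ⊗ₖ T) := h1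
        _ = _ := by ring
    have h3 := le_of_mul_le_mul_left h2 hTT0
    calc dt B * (dt T * dt (1 + mm y T⁻¹ x x)) = (dt B * dt (1 + mm y T⁻¹ x x)) * dt T := by ring
      _ ≤ _ := mul_le_mul_of_nonneg_right h3 hT0.le

end Run7.h455
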