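import Pool.Agent.Run7.h455.Merge

set_option autoImplicit false
open Matrix
open scoped ComplexOrder MatrixOrder Kronecker

namespace Run7.h455

variable {κ N : Type*} [Fintype κ] [DecidableEq κ] [Fintype N] [DecidableEq N]

omit [DecidableEq κ] in
lemma cmp_psd (x : κ → ℂ) {C : Matrix (κ × N) (κ × N) ℂ} (hC : C.PosSemidef) :
    (cmp x C).PosSemidef := hC.conjTranspose_mul_mul_same (emb N x)

omit [DecidableEq κ] in
lemma cmp_sum {ι : Type*} (F : Finset ι) (x : κ → ℂ) (C : ι → Matrix (κ × N) (κ × N) ℂ) :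
    cmp x (∑ i ∈ F, C i) = ∑ i ∈ F, cmp x (C i) := by
  simp only [cmp, Matrix.mul_sum, Matrix.sum_mul]

omit [DecidableEq κ] in
lemma cmp_eq_zero {x : κ → ℂ} {C : Matrix (κ × N) (κ × N) ℂ} (hC : C.PosSemidef)
    (h : qq C x = 0) : cmp x C = 0 := by
  have h1 := cmp_psd x hC
  rw [← h1.trace_eq_zero_iff]
  have h2 := (Complex.nonneg_iff.mp h1.trace_nonneg).2
  exact Complex.ext h h2.symm

lemma sum_emb (X : Matrix N N ℂ) :
    ∑ k : κ, emb N (Pi.single k (1:ℂ)) * X * (emb N (Pi.single k (1:ℂ)))ᴴ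
      = (1 : Matrix κ κ ℂ) ⊗ₖ X := by
  ext ⟨a, i⟩ ⟨b, j⟩
  rw [Matrix.sum_apply, Matrix.kroneckerMap_apply]
  have h : ∀ k : κ, (emb N (Pi.single k (1:ℂ)) * X * (emb N (Pi.single k (1:ℂ)))ᴴ) (a, i) (b, j)
      = (if k = a then 1 else 0) * (if k = b then 1 else 0) * X i j := by
    intro k
    simp only [Matrix.mul_apply, emb, Matrix.conjTranspose_apply, ite_mul, zero_mul,
      Finset.sum_ite_eq, Finset.mem_univ, if_true]
    simp only [Pi.single_apply, apply_ite star, star_zero, mul_ite, mul_zero,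
      Finset.sum_ite_eq, Finset.mem_univ, if_true, star_one]
    by_cases h1 : a = k <;> by_cases h2 : b = k <;> simp [h1, h2, eq_comm]
  simp only [h]
  by_cases hab : a = b
  · subst hab; simp
  · rw [Matrix.one_apply_ne hab, zero_mul]
    apply Finset.sum_eq_zero
    intro k _
    by_cases h1 : k = a
    · subst h1; simp [hab]
    · simp [h1]

lemma trace_emb (C : Matrix (κ × N) (κ × N) ℂ) :
    ∑ k : κ, qq C (Pi.single k (1:ℂ)) = (C.trace).re := by
  have h : ∀ k : κ, (cmp (Pi.single k (1:ℂ)) C).trace = ∑ i : N, C (k, i) (k, i) := by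
    intro k
    rw [Matrix.trace]
    refine Finset.sum_congr rfl fun i _ => ?_
    rw [Matrix.diag_apply, cmp, Matrix.mul_apply, Fintype.sum_prod_type]
    simp only [Matrix.mul_apply, Fintype.sum_prod_type, emb, Matrix.conjTranspose_apply]
    rw [Finset.sum_eq_single k]
    · rw [Finset.sum_eq_single i]
      · rw [Finset.sum_eq_single k]
        · rw [Finset.sum_eq_single i]
          · simp
          · intro b _ hb; simp [hb]
          · simp
        · intro b _ hb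
          apply Finset.sum_eq_zero; intro j _
          simp [hb]
        · simp
      · intro b _ hb; simp [hb]
      · simp
    · intro b _ hb
      apply Finset.sum_eq_zero; intro j _
      simp [hb]
    · simp
  simp only [qq, h]
  rw [← Complex.re_sum, Matrix.trace, Fintype.sum_prod_type]
  simp

/-- peeling lemma -/
theorem peel {ι : Type*} (F : Finset ι) (hF : F.card ≤ 3) (C : ι → Matrix (κ × N) (κ × N) ℂ)
    (hC : ∀ i ∈ F, (C i).PosSemidef) {T : Matrix N N ℂ} (hT : T.PosDef)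
    {B : Matrix (κ × N) (κ × N) ℂ} (hB : B.PosDef)
    (hBT : ((1 : Matrix κ κ ℂ) ⊗ₖ T - B).PosSemidef) :
    ∃ x : κ → ℂ, (∀ i ∈ F, (cmp x (C i)).trace = (C i).trace) ∧
      dt B * dt (T + ∑ i ∈ F, cmp x (C i)) ≤ dt (B + ∑ i ∈ F, C i) * dt T := by
  set CC := ∑ i ∈ F, C i with hCC
  have hCCp : CC.PosSemidef := Matrix.posSemidef_sum F hC
  obtain ⟨y, hy⟩ := posSemidef_exists hCCp
  have hTi : (T⁻¹).PosSemidef := hT.inv.posSemidef
  have hTT : ((1 : Matrix κ κ ℂ) ⊗ₖ T).PosDef := Matrix.PosDef.one.kronecker hT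
  have hker : ∀ x : κ → ℂ, (∀ i ∈ F, qq (C i) x = 0) → mm y T⁻¹ x x = 0 := by
    intro x hx
    have h1 : cmp x CC = 0 := by
      rw [hCC, cmp_sum]
      exact Finset.sum_eq_zero fun i hi => cmp_eq_zero (hC i hi) (hx i hi)
    have h2 : (y * emb N x)ᴴ * (y * emb N x) = 0 := by
      rw [← h1, cmp, hy, Matrix.conjTranspose_mul, Matrix.star_eq_conjTranspose]
      simp only [Matrix.mul_assoc]
    rw [Matrix.conjTranspose_mul_self_eq_zero] at h2
    have h3 : mm y T⁻¹ x x = (y * emb N x) * T⁻¹ * (y * emb N x)ᴴ := by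
      rw [mm, Matrix.conjTranspose_mul]; simp only [Matrix.mul_assoc]
    rw [h3, h2]; simp
  obtain ⟨x, hx1, hx2⟩ := merge_many F hF C hC y hTi hker (fun k => Pi.single k (1:ℂ))
    (Finset.univ : Finset κ) (R := 0) Matrix.PosSemidef.zero
  refine ⟨x, ?_, ?_⟩
  · intro i hi
    have h1 := hx1 i hi
    rw [trace_emb] at h1
    have h2 := (Complex.nonneg_iff.mp (cmp_psd x (hC i hi)).trace_nonneg).2
    have h3 := (Complex.nonneg_iff.mp (hC i hi).trace_nonneg).2
    exact Complex.ext h1 (by rw [← h2, ← h3])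
  · have hTu : IsUnit T.det := (Matrix.isUnit_iff_isUnit_det _).mp hT.isUnit
    have hTTu : IsUnit ((1 : Matrix κ κ ℂ) ⊗ₖ T).det := (Matrix.isUnit_iff_isUnit_det _).mp hTT.isUnit
    have hpd1 : (1 + mm y T⁻¹ x x).PosDef := Matrix.PosDef.one.add_posSemidef (mm_psd y hTi x)
    have hpd2 : (1 + ∑ k : κ, mm y T⁻¹ (Pi.single k (1:ℂ)) (Pi.single k (1:ℂ))).PosDef :=
      Matrix.PosDef.one.add_posSemidef (Matrix.posSemidef_sum _ fun k _ => mm_psd y hTi _)
    have e1 : dt (T + ∑ i ∈ F, cmp x (C i)) = dt T * dt (1 + mm y T⁻¹ x x) := by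
      have : (T + ∑ i ∈ F, cmp x (C i)).det = ((dt T * dt (1 + mm y T⁻¹ x x) : ℝ) : ℂ) := by
        rw [← cmp_sum, ← hCC]
        have h1 : cmp x CC = ((emb N x)ᴴ * yᴴ) * (y * emb N x) := by
          rw [cmp, hy, Matrix.star_eq_conjTranspose]; simp only [Matrix.mul_assoc]
        rw [h1, Matrix.det_add_mul _ _ hTu]
        push_cast
        rw [dt_coe hT.1, dt_coe hpd1.1]
        congr 3
        rw [mm]; simp only [Matrix.mul_assoc]
      rw [dt, this, Complex.ofReal_re]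
    have e2 : dt ((1 : Matrix κ κ ℂ) ⊗ₖ T + CC) = dt ((1 : Matrix κ κ ℂ) ⊗ₖ T)
        * dt (1 + ∑ k : κ, mm y T⁻¹ (Pi.single k (1:ℂ)) (Pi.single k (1:ℂ))) := by
      have : ((1 : Matrix κ κ ℂ) ⊗ₖ T + CC).det = ((dt ((1 : Matrix κ κ ℂ) ⊗ₖ T)
        * dt (1 + ∑ k : κ, mm y T⁻¹ (Pi.single k (1:ℂ)) (Pi.single k (1:ℂ))) : ℝ) : ℂ) := by
        rw [hy, Matrix.det_add_mul _ _ hTTu]
        push_cast
        rw [dt_coe hTT.1, dt_coe hpd2.1]
        congr 3
        have h1 : ((1 : Matrix κ κ ℂ) ⊗ₖ T)⁻¹ = (1 : Matrix κ κ ℂ) ⊗ₖ T⁻¹ := by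
          rw [Matrix.inv_kronecker, inv_one]
        rw [h1, ← sum_emb]
        simp only [mm, Matrix.mul_sum, Matrix.sum_mul, Matrix.star_eq_conjTranspose]
      rw [dt, this, Complex.ofReal_re]
    have h1 := dt_ratio hB hBT hCCp
    rw [e2] at h1
    rw [e1]
    have hT0 := dt_pos hT
    have hB0 := dt_pos hB
    have hTT0 := dt_pos hTT
    simp only [add_zero] at hx2
    have h2 : dt ((1 : Matrix κ κ ℂ) ⊗ₖ T) * (dt B * dt (1 + mm y T⁻¹ x x))
        ≤ dt ((1 : Matrix κ κ ℂ) ⊗ₖ T) * dt (B + CC) := by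
      calc _ = (dt ((1 : Matrix κ κ ℂ) ⊗ₖ T) * dt (1 + mm y T⁻¹ x x)) * dt B := by ring
        _ ≤ (dt ((1 : Matrix κ κ ℂ) ⊗ₖ T)
          * dt (1 + ∑ k : κ, mm y T⁻¹ (Pi.single k (1:ℂ)) (Pi.single k (1:ℂ)))) * dt B := by
            gcongr
        _ ≤ dt (B + CC) * dt ((1 : Matrix κ κ ℂ) ⊗ₖ T) := h1
        _ = _ := by ring
    have h3 := le_of_mul_le_mul_left h2 hTT0
    calc dt B * (dt T * dt (1 + mm y T⁻¹ x x)) = (dt B * dt (1 + mm y T⁻¹ x x)) * dt T := by ring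
      _ ≤ _ := mul_le_mul_of_nonneg_right h3 hT0.le

end Run7.h455
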