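import Pool.Agent.Run7.h455.Peel

set_option autoImplicit false
open Matrix
open scoped ComplexOrder MatrixOrder Kronecker

namespace Run7.h455

variable {κ N : Type*} [Fintype κ] [DecidableEq κ] [Fintype N] [DecidableEq N]

/-- partial trace over the first factor -/
def ptr (C : Matrix (κ × N) (κ × N) ℂ) : Matrix N N ℂ := fun i j => ∑ a, C (a, i) (a, j)

omit [DecidableEq N] in
/-- Jensen for the logarithm with total weight at most one -/
lemma jensen_log (D y : N → ℝ) (hD : ∀ k, 0 ≤ D k) (hs : ∑ k, D k ≤ 1) (hy : ∀ k, 0 ≤ y k) :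
    ∑ k, D k * Real.log (1 + y k) ≤ Real.log (1 + ∑ k, D k * y k) := by
  have h := strictConcaveOn_log_Ioi.concaveOn.le_map_sum (t := (Finset.univ : Finset (Option N)))
    (w := fun o => Option.elim o (1 - ∑ k, D k) D) (p := fun o => Option.elim o 1 (fun k => 1 + y k))
    (by
      intro o _
      cases o with
      | none => simpa using hs
      | some k => exact hD k)
    (by rw [Fintype.sum_option]; simp)
    (by
      intro o _
      cases o with
      | none => simp
      | some k => have := hy k; simp only [Option.elim, Set.mem_Ioi]; linarith)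
  rw [Fintype.sum_option, Fintype.sum_option] at h
  simp only [Option.elim, smul_eq_mul, Real.log_one, mul_zero, zero_add, mul_one] at h
  have e : 1 - ∑ k, D k + ∑ k, D k * (1 + y k) = 1 + ∑ k, D k * y k := by
    have : ∑ k, D k * (1 + y k) = ∑ k, D k + ∑ k, D k * y k := by
      rw [← Finset.sum_add_distrib]
      exact Finset.sum_congr rfl fun k _ => by ring
    rw [this]; ring
  rw [e] at h
  exact h

/-- the determinant inequality behind the reduction criterion, diagonal marginal -/
lemma red_core {X : Matrix (κ × N) (κ × N) ℂ} (hX : X.PosSemidef) (y : N → ℝ) (hy : ∀ k, 0 ≤ y k)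
    (htr : ∀ k, ∑ a, X (a, k) (a, k) = (y k : ℂ))
    (hred : ((1 : Matrix κ κ ℂ) ⊗ₖ Matrix.diagonal (fun k => (y k : ℂ)) - X).PosSemidef) :
    ∏ k, (1 + y k) ≤ ∏ i, (1 + hX.1.eigenvalues i) := by
  set m := hX.1.eigenvalues with hm
  set U : Matrix (κ × N) (κ × N) ℂ := (hX.1.eigenvectorUnitary : Matrix (κ × N) (κ × N) ℂ) with hU
  have hm0 : ∀ i, 0 ≤ m i := hX.eigenvalues_nonneg
  have hspec : X = U * Matrix.diagonal (fun i => (m i : ℂ)) * star U := by
    have h1 := hX.1.spectral_theorem
    rw [Unitary.conjStarAlgAut_apply] at h1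
    exact h1
  have hUU : star U * U = 1 := Unitary.coe_star_mul_self _
  set w : κ × N → N → ℝ := fun i k => ∑ a, Complex.normSq (U (a, k) i) with hw
  have hw0 : ∀ i k, 0 ≤ w i k := fun i k => Finset.sum_nonneg fun a _ => Complex.normSq_nonneg _
  -- column sums of the diagonal of X
  have hcol : ∀ k, ∑ i, m i * w i k = y k := by
    intro k
    have h1 := htr k
    have h2 : ∀ a, X (a, k) (a, k) = ((∑ i, m i * Complex.normSq (U (a, k) i) : ℝ) : ℂ) := by
      intro a
      conv_lhs => rw [hspec]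
      rw [Matrix.mul_apply]
      push_cast
      refine Finset.sum_congr rfl fun i _ => ?_
      rw [Matrix.mul_diagonal, Matrix.star_apply, Complex.normSq_eq_conj_mul_self]
      simp only [RCLike.star_def]
      ring
    simp only [h2] at h1
    rw [← Complex.ofReal_sum] at h1
    have h3 : ∑ a, ∑ i, m i * Complex.normSq (U (a, k) i) = y k := by exact_mod_cast h1
    rw [← h3, Finset.sum_comm]
    refine Finset.sum_congr rfl fun i _ => ?_
    rw [hw, Finset.mul_sum]
  set D : κ × N → N → ℝ := fun i k => m i * w i k / y k with hD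
  have hD0 : ∀ i k, 0 ≤ D i k := fun i k => div_nonneg (mul_nonneg (hm0 i) (hw0 i k)) (hy k)
  -- row sums of D
  have hrow : ∀ i, ∑ k, D i k ≤ 1 := by
    intro i
    set s : ℝ := ∑ k, w i k / y k with hs
    have hs0 : 0 ≤ s := Finset.sum_nonneg fun k _ => div_nonneg (hw0 i k) (hy k)
    have hsD : ∑ k, D i k = m i * s := by
      rw [hs, Finset.mul_sum]
      exact Finset.sum_congr rfl fun k _ => by rw [hD]; ring
    set v : κ × N → ℂ := fun p => U p i * (((y p.2)⁻¹ : ℝ) : ℂ) with hv
    have hpos := hred.dotProduct_mulVec_nonneg v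
    rw [Matrix.sub_mulVec, dotProduct_sub] at hpos
    have e1 : star v ⬝ᵥ (((1 : Matrix κ κ ℂ) ⊗ₖ Matrix.diagonal (fun k => (y k : ℂ))) *ᵥ v) = (s : ℂ) := by
      have hmv : ∀ p, (((1 : Matrix κ κ ℂ) ⊗ₖ Matrix.diagonal (fun k => (y k : ℂ))) *ᵥ v) p
          = (y p.2 : ℂ) * v p := by
        rintro ⟨a, k⟩
        have : (1 : Matrix κ κ ℂ) ⊗ₖ Matrix.diagonal (fun k => (y k : ℂ))
            = Matrix.diagonal (fun p : κ × N => (y p.2 : ℂ)) := by
          rw [← Matrix.diagonal_one, Matrix.diagonal_kronecker_diagonal]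
          simp
        rw [this, Matrix.mulVec_diagonal]
      rw [dotProduct, hs]
      simp only [hmv]
      rw [Fintype.sum_prod_type, Finset.sum_comm]
      push_cast
      refine Finset.sum_congr rfl fun k _ => ?_
      rw [hw]
      push_cast
      rw [Finset.sum_div]
      refine Finset.sum_congr rfl fun a _ => ?_
      simp only [hv, Pi.star_apply, star_mul', RCLike.star_def, Complex.conj_ofReal]
      rw [Complex.normSq_eq_conj_mul_self]
      by_cases h0 : y k = 0
      · simp [h0]
      · have : (y k : ℂ) ≠ 0 := by exact_mod_cast h0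
        push_cast
        field_simp
    have e2 : (m i * s ^ 2 : ℝ) ≤ (star v ⬝ᵥ (X *ᵥ v)).re := by
      have h1 : star v ⬝ᵥ (X *ᵥ v) = ∑ l, (m l : ℂ) * (Complex.normSq ((star U *ᵥ v) l) : ℂ) := by
        conv_lhs => rw [hspec]
        rw [← Matrix.mulVec_mulVec, ← Matrix.mulVec_mulVec, Matrix.dotProduct_mulVec]
        have : star v ᵥ* U = star (star U *ᵥ v) := by
          rw [Matrix.star_mulVec, ← Matrix.star_eq_conjTranspose, star_star]
        rw [this, dotProduct]
        refine Finset.sum_congr rfl fun l _ => ?_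
        rw [Matrix.mulVec_diagonal, Complex.normSq_eq_conj_mul_self, Pi.star_apply, RCLike.star_def]
        ring
      have h2 : (star v ⬝ᵥ (X *ᵥ v)).re = ∑ l, m l * Complex.normSq ((star U *ᵥ v) l) := by
        rw [h1, ← Complex.ofReal_re (∑ l, m l * Complex.normSq ((star U *ᵥ v) l))]
        push_cast
        rfl
      have h3 : (star U *ᵥ v) i = (s : ℂ) := by
        rw [Matrix.mulVec, dotProduct, hs, Fintype.sum_prod_type, Finset.sum_comm]
        push_cast
        refine Finset.sum_congr rfl fun k _ => ?_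
        rw [hw]
        push_cast
        rw [Finset.sum_div]
        refine Finset.sum_congr rfl fun a _ => ?_
        rw [Matrix.star_apply, hv, Complex.normSq_eq_conj_mul_self]
        simp only [RCLike.star_def]
        push_cast
        rw [div_eq_mul_inv]; ring
      rw [h2]
      have h4 : m i * Complex.normSq ((star U *ᵥ v) i) ≤ ∑ l, m l * Complex.normSq ((star U *ᵥ v) l) :=
        Finset.single_le_sum (f := fun l => m l * Complex.normSq ((star U *ᵥ v) l))
          (fun l _ => mul_nonneg (hm0 l) (Complex.normSq_nonneg _)) (Finset.mem_univ i)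
      rw [h3, Complex.normSq_ofReal] at h4
      nlinarith [h4]
    rw [e1] at hpos
    have hre := (Complex.nonneg_iff.mp hpos).1
    rw [Complex.sub_re, Complex.ofReal_re] at hre
    have hfin : m i * s ^ 2 ≤ s := by linarith
    rw [hsD]
    rcases hs0.eq_or_lt with h | h
    · rw [← h]; simp
    · by_contra hcon
      push Not at hcon
      nlinarith [mul_lt_mul_of_pos_right hcon h]
  -- mean values
  have hmean : ∀ i, ∑ k, D i k * y k = m i := by
    intro i
    have h1 : ∀ k, D i k * y k = m i * w i k := by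
      intro k
      by_cases h0 : y k = 0
      · have h2 : ∑ i, m i * w i k = 0 := by rw [hcol, h0]
        have h3 := (Finset.sum_eq_zero_iff_of_nonneg (fun i _ => mul_nonneg (hm0 i) (hw0 i k))).mp h2 i
          (Finset.mem_univ i)
        rw [h3, h0, mul_zero]
      · rw [hD]; field_simp
    simp only [h1]
    rw [← Finset.mul_sum]
    have h2 : ∑ k, w i k = 1 := by
      have h3 := congrFun (congrFun hUU i) i
      rw [Matrix.mul_apply, Matrix.one_apply_eq, Fintype.sum_prod_type, Finset.sum_comm] at h3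
      have h4 : ((∑ k, w i k : ℝ) : ℂ) = 1 := by
        rw [← h3, hw]
        push_cast
        refine Finset.sum_congr rfl fun k _ => Finset.sum_congr rfl fun a _ => ?_
        rw [Matrix.star_apply, Complex.normSq_eq_conj_mul_self]
        simp only [RCLike.star_def]
      exact_mod_cast h4
    rw [h2, mul_one]
  -- conclusion through logarithms
  have hlog : ∑ k, Real.log (1 + y k) ≤ ∑ i, Real.log (1 + m i) := by
    have h1 : ∀ i, ∑ k, D i k * Real.log (1 + y k) ≤ Real.log (1 + m i) := by
      intro i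
      have := jensen_log (D i) y (hD0 i) (hrow i) hy
      rwa [hmean] at this
    have h2 : ∑ k, Real.log (1 + y k) = ∑ i, ∑ k, D i k * Real.log (1 + y k) := by
      rw [Finset.sum_comm]
      refine Finset.sum_congr rfl fun k _ => ?_
      rw [← Finset.sum_mul]
      by_cases h0 : y k = 0
      · rw [h0]; simp
      · have : ∑ i, D i k = 1 := by
          rw [hD]
          simp only
          rw [← Finset.sum_div, hcol, div_self h0]
        rw [this, one_mul]
    rw [h2]
    exact Finset.sum_le_sum fun i _ => h1 i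
  have p1 : 0 < ∏ k, (1 + y k) := Finset.prod_pos fun k _ => by linarith [hy k]
  have p2 : 0 < ∏ i, (1 + m i) := Finset.prod_pos fun i _ => by linarith [hm0 i]
  rw [← Real.log_le_log_iff p1 p2, Real.log_prod (fun k _ => by linarith [hy k]),
    Real.log_prod (fun i _ => by linarith [hm0 i])]
  exact hlog


lemma ptr_add (C D : Matrix (κ × N) (κ × N) ℂ) : ptr (C + D) = ptr C + ptr D := by
  ext i j; simp [ptr, Finset.sum_add_distrib]

lemma ptr_sum {ι : Type*} (S : Finset ι) (C : ι → Matrix (κ × N) (κ × N) ℂ) :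
    ptr (∑ s ∈ S, C s) = ∑ s ∈ S, ptr (C s) := by
  ext i j
  simp only [ptr, Matrix.sum_apply]
  rw [Finset.sum_comm]

lemma ptr_zero : ptr (0 : Matrix (κ × N) (κ × N) ℂ) = 0 := by
  ext i j; simp [ptr]

lemma ptr_trace (C : Matrix (κ × N) (κ × N) ℂ) : (ptr C).trace = C.trace := by
  rw [Matrix.trace, Matrix.trace, Fintype.sum_prod_type, Finset.sum_comm]
  rfl

lemma ptr_herm {C : Matrix (κ × N) (κ × N) ℂ} (h : C.IsHermitian) : (ptr C).IsHermitian := by
  ext i j
  rw [Matrix.conjTranspose_apply, ptr, ptr, star_sum]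
  exact Finset.sum_congr rfl fun a _ => h.apply _ _

lemma ptr_psd {C : Matrix (κ × N) (κ × N) ℂ} (h : C.PosSemidef) : (ptr C).PosSemidef := by
  have e : ptr C = ∑ a : κ, C.submatrix (fun i => (a, i)) (fun i => (a, i)) := by
    ext i j; simp [ptr, Matrix.sum_apply]
  rw [e]
  exact Matrix.posSemidef_sum _ fun a _ => h.submatrix _

/-- partial trace and congruence on the second factor -/
lemma ptr_congr (M : Matrix N N ℂ) (C : Matrix (κ × N) (κ × N) ℂ) :
    ptr (star ((1 : Matrix κ κ ℂ) ⊗ₖ M) * C * ((1 : Matrix κ κ ℂ) ⊗ₖ M)) = star M * ptr C * M := by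
  ext i j
  have h : ∀ a, (star ((1 : Matrix κ κ ℂ) ⊗ₖ M) * C * ((1 : Matrix κ κ ℂ) ⊗ₖ M)) (a, i) (a, j)
      = ∑ l, (∑ k, star (M k i) * C (a, k) (a, l)) * M l j := by
    intro a
    rw [Matrix.mul_apply, Fintype.sum_prod_type, Finset.sum_eq_single a]
    · refine Finset.sum_congr rfl fun l _ => ?_
      rw [Matrix.mul_apply, Fintype.sum_prod_type, Finset.sum_eq_single a]
      · simp [Matrix.star_apply, Matrix.kroneckerMap_apply]
      · intro b _ hb
        apply Finset.sum_eq_zero
        intro k _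
        simp [Matrix.star_apply, Matrix.kroneckerMap_apply, Matrix.one_apply_ne hb]
      · simp
    · intro b _ hb
      apply Finset.sum_eq_zero
      intro l _
      simp [Matrix.kroneckerMap_apply, Matrix.one_apply_ne hb]
    · simp
  rw [ptr]
  simp only [h]
  rw [Matrix.mul_apply, Finset.sum_comm]
  refine Finset.sum_congr rfl fun l _ => ?_
  rw [← Finset.sum_mul]
  congr 1
  rw [Matrix.mul_apply, Finset.sum_comm]
  refine Finset.sum_congr rfl fun k _ => ?_
  rw [Matrix.star_apply, ptr, Finset.mul_sum]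

/-- the reduction criterion for the first factor -/
def RC (C : Matrix (κ × N) (κ × N) ℂ) : Prop := ((1 : Matrix κ κ ℂ) ⊗ₖ ptr C - C).PosSemidef

lemma one_kron_star (M : Matrix N N ℂ) :
    star ((1 : Matrix κ κ ℂ) ⊗ₖ M) = (1 : Matrix κ κ ℂ) ⊗ₖ star M := by
  rw [Matrix.star_eq_conjTranspose, Matrix.conjTranspose_kronecker, Matrix.conjTranspose_one]
  rfl

lemma RC.congr {C : Matrix (κ × N) (κ × N) ℂ} (h : RC C) (M : Matrix N N ℂ) :
    RC (star ((1 : Matrix κ κ ℂ) ⊗ₖ M) * C * ((1 : Matrix κ κ ℂ) ⊗ₖ M)) := by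
  have h1 := h.conjTranspose_mul_mul_same ((1 : Matrix κ κ ℂ) ⊗ₖ M)
  rw [RC, ptr_congr]
  have e : (1 : Matrix κ κ ℂ) ⊗ₖ (star M * ptr C * M)
      = star ((1 : Matrix κ κ ℂ) ⊗ₖ M) * ((1 : Matrix κ κ ℂ) ⊗ₖ ptr C) * ((1 : Matrix κ κ ℂ) ⊗ₖ M) := by
    rw [one_kron_star, ← Matrix.mul_kronecker_mul, ← Matrix.mul_kronecker_mul, one_mul, one_mul]
  rw [e, ← Matrix.sub_mul, ← Matrix.mul_sub, Matrix.star_eq_conjTranspose]
  exact h1

/-- determinant inequality for operators satisfying the reduction criterion -/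
lemma dt_red_one {X : Matrix (κ × N) (κ × N) ℂ} (hX : X.PosSemidef) (h : RC X) :
    dt (1 + ptr X) ≤ dt (1 + X) := by
  have hY := ptr_psd hX
  set W : Matrix N N ℂ := (hY.1.eigenvectorUnitary : Matrix N N ℂ) with hW
  set y := hY.1.eigenvalues with hy
  have hWW : star W * W = 1 := Unitary.coe_star_mul_self _
  have hWW' : W * star W = 1 := Unitary.coe_mul_star_self _
  set E := (1 : Matrix κ κ ℂ) ⊗ₖ W with hE
  have hEE : E * star E = 1 := by
    rw [hE, one_kron_star, ← Matrix.mul_kronecker_mul, hWW', one_mul, Matrix.one_kronecker_one]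
  set X' := star E * X * E with hX'
  have hX'p : X'.PosSemidef := by
    have := hX.conjTranspose_mul_mul_same E
    simpa [hX', Matrix.star_eq_conjTranspose] using this
  have hptr : ptr X' = Matrix.diagonal (fun k => (y k : ℂ)) := by
    rw [hX', hE, ptr_congr]
    have h1 := hY.1.spectral_theorem
    rw [Unitary.conjStarAlgAut_apply] at h1
    rw [← hW] at h1
    conv_lhs => rw [h1]
    calc star W * (W * Matrix.diagonal (RCLike.ofReal ∘ hY.1.eigenvalues) * star W) * W
        = (star W * W) * Matrix.diagonal (RCLike.ofReal ∘ hY.1.eigenvalues) * (star W * W) := by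
          simp only [mul_assoc]
      _ = _ := by rw [hWW, one_mul, mul_one]; rfl
  have hRC : RC X' := by rw [hX', hE]; exact h.congr W
  rw [RC, hptr] at hRC
  have hcore := red_core hX'p y hY.eigenvalues_nonneg (fun k => by
    have := congrFun (congrFun hptr k) k
    rw [Matrix.diagonal_apply_eq] at this
    exact this) hRC
  have e1 : dt (1 + ptr X) = ∏ k, (1 + y k) := by
    have := dt_affine hY.1 1 1
    simpa using this
  have e2 : dt (1 + X') = ∏ i, (1 + hX'p.1.eigenvalues i) := by
    have := dt_affine hX'p.1 1 1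
    simpa using this
  have e3 : dt (1 + X') = dt (1 + X) := by
    have : (1 + X').det = (1 + X).det := by
      have e4 : 1 + X' = star E * (1 + X) * E := by
        have : star E * E = 1 := mul_eq_one_comm.mp hEE
        rw [mul_add, add_mul, mul_one, this]
      rw [e4, Matrix.det_mul, Matrix.det_mul, mul_right_comm, ← Matrix.det_mul,
        mul_eq_one_comm.mp hEE, Matrix.det_one, one_mul]
    rw [dt, dt, this]
  rw [e1, ← e3, e2]
  exact hcore

/-- general version with a background operator -/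
lemma dt_red {T : Matrix N N ℂ} (hT : T.PosDef) {C : Matrix (κ × N) (κ × N) ℂ} (hC : C.PosSemidef)
    (h : RC C) :
    dt ((1 : Matrix κ κ ℂ) ⊗ₖ T) * dt (T + ptr C) ≤ dt ((1 : Matrix κ κ ℂ) ⊗ₖ T + C) * dt T := by
  obtain ⟨y, hy, rfl⟩ := posDef_exists hT
  set E := (1 : Matrix κ κ ℂ) ⊗ₖ y with hE
  set F := (1 : Matrix κ κ ℂ) ⊗ₖ y⁻¹ with hF
  have hyy : y⁻¹ * y = 1 := Matrix.nonsing_inv_mul y hy
  have hEu : IsUnit E.det := by
    rw [hE, Matrix.det_kronecker, Matrix.det_one, one_pow, one_mul]
    exact hy.pow _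
  have hFE : F * E = 1 := by
    rw [hF, hE, ← Matrix.mul_kronecker_mul, hyy, one_mul, Matrix.one_kronecker_one]
  have hFi : E⁻¹ = F := Matrix.inv_eq_left_inv hFE
  set X := star F * C * F with hX
  have hXp : X.PosSemidef := by
    have := hC.conjTranspose_mul_mul_same F
    simpa [hX, Matrix.star_eq_conjTranspose] using this
  have hCe : C = star E * X * E := by
    have := congr_back E C hEu
    rw [hFi] at this
    exact this
  have hRC : RC X := by rw [hX, hF]; exact h.congr y⁻¹
  have e0 : (1 : Matrix κ κ ℂ) ⊗ₖ (star y * y) = star E * 1 * E := by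
    rw [mul_one, hE, one_kron_star, ← Matrix.mul_kronecker_mul, one_mul]
  have e1 : (1 : Matrix κ κ ℂ) ⊗ₖ (star y * y) + C = star E * (1 + X) * E := by
    rw [e0, mul_add, add_mul, ← hCe]
  have hptrC : ptr C = star y * ptr X * y := by
    conv_lhs => rw [hCe, hE]
    rw [ptr_congr]
  have e2 : star y * y + ptr C = star y * (1 + ptr X) * y := by
    rw [hptrC, mul_add, add_mul, mul_one]
  have i1 : (1 + X).IsHermitian := Matrix.isHermitian_one.add hXp.1
  have i2 : (1 + ptr X).IsHermitian := Matrix.isHermitian_one.add (ptr_psd hXp).1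
  have h3 : dt (1 : Matrix (κ × N) (κ × N) ℂ) = 1 := by simp [dt]
  have h4 : dt (1 : Matrix N N ℂ) = 1 := by simp [dt]
  have e5 : dt (star y * y) = Complex.normSq y.det := by
    have : star y * y = star y * 1 * y := by rw [mul_one]
    rw [this, dt_congr _ _ Matrix.isHermitian_one, h4, mul_one]
  rw [e1, e0, e2, dt_congr _ _ i1, dt_congr _ _ i2, dt_congr _ _ Matrix.isHermitian_one, e5, h3, mul_one]
  have hk := dt_red_one hXp hRC
  have n1 : 0 ≤ Complex.normSq E.det := Complex.normSq_nonneg _
  have n2 : 0 ≤ Complex.normSq y.det := Complex.normSq_nonneg _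
  calc Complex.normSq E.det * (Complex.normSq y.det * dt (1 + ptr X))
      = (Complex.normSq E.det * Complex.normSq y.det) * dt (1 + ptr X) := by ring
    _ ≤ (Complex.normSq E.det * Complex.normSq y.det) * dt (1 + X) :=
        mul_le_mul_of_nonneg_left hk (mul_nonneg n1 n2)
    _ = _ := by ring

/-- peeling an operator that satisfies the reduction criterion -/
theorem peel_red {C : Matrix (κ × N) (κ × N) ℂ} (hC : C.PosSemidef) (h : RC C)
    {T : Matrix N N ℂ} (hT : T.PosDef) {B : Matrix (κ × N) (κ × N) ℂ} (hB : B.PosDef)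
    (hBT : ((1 : Matrix κ κ ℂ) ⊗ₖ T - B).PosSemidef) :
    dt B * dt (T + ptr C) ≤ dt (B + C) * dt T := by
  have hTT : ((1 : Matrix κ κ ℂ) ⊗ₖ T).PosDef := Matrix.PosDef.one.kronecker hT
  have h1 := dt_ratio hB hBT hC
  have h2 := dt_red hT hC h
  have p1 := dt_pos hTT
  have p2 := dt_pos hB
  have p3 := dt_pos hT
  have h3 : dt ((1 : Matrix κ κ ℂ) ⊗ₖ T) * (dt B * dt (T + ptr C))
      ≤ dt ((1 : Matrix κ κ ℂ) ⊗ₖ T) * (dt (B + C) * dt T) := by
    calc dt ((1 : Matrix κ κ ℂ) ⊗ₖ T) * (dt B * dt (T + ptr C))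
        = (dt ((1 : Matrix κ κ ℂ) ⊗ₖ T) * dt (T + ptr C)) * dt B := by ring
      _ ≤ (dt ((1 : Matrix κ κ ℂ) ⊗ₖ T + C) * dt T) * dt B := mul_le_mul_of_nonneg_right h2 p2.le
      _ = (dt ((1 : Matrix κ κ ℂ) ⊗ₖ T + C) * dt B) * dt T := by ring
      _ ≤ (dt (B + C) * dt ((1 : Matrix κ κ ℂ) ⊗ₖ T)) * dt T := mul_le_mul_of_nonneg_right h1 p3.le
      _ = _ := by ring
  exact le_of_mul_le_mul_left h3 p1

end Run7.h455
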