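import Pool.Agent.Run7.h455.Det

set_option autoImplicit false
open Matrix
open scoped ComplexOrder MatrixOrder

namespace Run7.h455

lemma exists_kernel {ι : Type*} (F : Finset ι) (hF : F.card ≤ 3) (A B : ι → ℝ) (S : ι → ℂ) :
    ∃ v : Fin 4 → ℝ, v ≠ 0 ∧ ∀ i ∈ F, v 0 * A i + v 1 * B i + 2 * (v 2 * (S i).re + v 3 * (S i).im) = 0 := by
  classical
  let M : Matrix F (Fin 4) ℝ := fun i => ![A i.1, B i.1, 2 * (S i.1).re, 2 * (S i.1).im]
  have hlt : Module.finrank ℝ (F → ℝ) < Module.finrank ℝ (Fin 4 → ℝ) := by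
    simp only [Module.finrank_fintype_fun_eq_card, Fintype.card_coe, Fintype.card_fin]
    omega
  have hk := LinearMap.ker_ne_bot_of_finrank_lt (f := M.mulVecLin) hlt
  obtain ⟨v, hv, hv0⟩ := Submodule.exists_mem_ne_zero_of_ne_bot hk
  refine ⟨v, hv0, fun i hi => ?_⟩
  rw [LinearMap.mem_ker] at hv
  have := congrFun hv ⟨i, hi⟩
  simp only [Matrix.mulVecLin_apply, Matrix.mulVec, dotProduct, Fin.sum_univ_four, M, Pi.zero_apply] at this
  simp at this
  linarith

lemma exists_rot {ι : Type*} (F : Finset ι) (hF : F.card ≤ 3) (A B : ι → ℝ) (S : ι → ℂ) :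
    ∃ (U : Matrix (Fin 2) (Fin 2) ℂ) (d : Fin 2 → ℝ), U * star U = 1 ∧ d ≠ 0 ∧
      ∀ i ∈ F, ∑ k, d k * (Complex.normSq (U 0 k) * A i + Complex.normSq (U 1 k) * B i
        + 2 * (star (U 0 k) * U 1 k * S i).re) = 0 := by
  obtain ⟨v, hv0, hv⟩ := exists_kernel F hF A B S
  let D : Matrix (Fin 2) (Fin 2) ℂ := !![(v 0 : ℂ), v 2 + v 3 * Complex.I; v 2 - v 3 * Complex.I, v 1]
  have hD : D.IsHermitian := by
    ext i j
    fin_cases i <;> fin_cases j <;> (simp [D, Matrix.conjTranspose_apply]; try ring)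
  refine ⟨hD.eigenvectorUnitary, hD.eigenvalues, Unitary.coe_mul_star_self _, ?_, ?_⟩
  · intro h0
    have h1 := hD.spectral_theorem
    rw [h0, Unitary.conjStarAlgAut_apply] at h1
    have h2 : D = 0 := by
      rw [h1]
      have : (RCLike.ofReal ∘ (0 : Fin 2 → ℝ) : Fin 2 → ℂ) = 0 := by ext; simp
      rw [this]; simp
    apply hv0
    have a00 := congrFun (congrFun h2 0) 0
    have a01 := congrFun (congrFun h2 0) 1
    have a11 := congrFun (congrFun h2 1) 1
    simp [D] at a00 a01 a11
    have b1 := congrArg Complex.re a01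
    have b2 := congrArg Complex.im a01
    simp at b1 b2
    ext i
    fin_cases i <;> simp [a00, a11, b1, b2]
  · intro i hi
    have h1 := hD.spectral_theorem
    rw [Unitary.conjStarAlgAut_apply] at h1
    set U : Matrix (Fin 2) (Fin 2) ℂ := (hD.eigenvectorUnitary : Matrix (Fin 2) (Fin 2) ℂ) with hU
    have hent : ∀ a b : Fin 2, D a b = ∑ k, U a k * (hD.eigenvalues k : ℂ) * star (U b k) := by
      intro a b
      conv_lhs => rw [h1]
      rw [Matrix.mul_apply]
      refine Finset.sum_congr rfl fun k _ => ?_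
      rw [Matrix.mul_diagonal, Matrix.star_apply]
      simp
    have e00 := hent 0 0
    have e11 := hent 1 1
    have e01 := hent 0 1
    simp only [Fin.sum_univ_two] at e00 e11 e01 ⊢
    have f00 := congrArg Complex.re e00
    have f11 := congrArg Complex.re e11
    have f01 := congrArg Complex.re e01
    have g01 := congrArg Complex.im e01
    simp [D] at f00 f11 f01 g01
    have hvi := hv i hi
    simp only [Complex.normSq_apply, Complex.mul_re, Complex.mul_im, RCLike.star_def, Complex.conj_re, Complex.conj_im]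
    linear_combination hvi - A i * f00 - B i * f11 - 2 * (S i).re * f01 - 2 * (S i).im * g01

end Run7.h455
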