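import Pool.Agent.Run7.h455.Final

set_option autoImplicit false
open Matrix
open scoped ComplexOrder

namespace Run7.h455.SiteOrder

/-- Spin alignment for the von Neumann entropy, for all local dimensions, all noise states and all
weights, whenever there are at most three sites, or the sites can be removed one after another so
that each time at most three different nontrivial traces (other than the singleton and the full
set of remaining sites) of sets of positive weight contain the removed site. -/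
theorem result :
    ∀ (d n : ℕ), 2 ≤ d → 1 ≤ n →
    ∀ (Q : Matrix (Fin d) (Fin d) ℂ), Q.PosSemidef → Q.trace = 1 →
    ∀ (q : Fin d → ℂ) (c : ℝ), star q ⬝ᵥ q = 1 → Q *ᵥ q = (c : ℂ) • q →
    (∀ v : Fin d → ℂ, (star v ⬝ᵥ (Q *ᵥ v)).re ≤ c * (star v ⬝ᵥ v).re) →
    ∀ (μ : Finset (Fin n) → ℝ), (∀ I, 0 ≤ μ I) → ∑ I, μ I = 1 →
    (n ≤ 3 ∨ ∃ π : Equiv.Perm (Fin n), ∀ k : Fin n,
      ((Finset.univ.filter (fun I : Finset (Fin n) => μ I ≠ 0 ∧ k ∈ I ∧
          (∃ j ∈ I, π k < π j) ∧ (∃ j, j ∉ I ∧ π k < π j))).image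
        (fun I => I.filter (fun j => π k ≤ π j))).card ≤ 3) →
    ∀ (ρ : (I : Finset (Fin n)) →
        Matrix ({j // j ∈ I} → Fin d) ({j // j ∈ I} → Fin d) ℂ),
    (∀ I, (ρ I).PosSemidef ∧ (ρ I).trace = 1) →
    ∀ (A A0 : Matrix (Fin n → Fin d) (Fin n → Fin d) ℂ),
    (∀ x y, A x y = ∑ I, (μ I : ℂ) * ρ I (fun i => x i.1) (fun i => y i.1)
        * ∏ j ∈ Iᶜ, Q (x j) (y j)) →
    (∀ x y, A0 x y = ∑ I, (μ I : ℂ) * (∏ i ∈ I, q (x i) * star (q (y i)))
        * ∏ j ∈ Iᶜ, Q (x j) (y j)) →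
    ∀ (hA : A.IsHermitian) (hA0 : A0.IsHermitian),
    ∑ x, Real.negMulLog (hA0.eigenvalues x) ≤ ∑ x, Real.negMulLog (hA.eigenvalues x) := by
  intro d n _ _ Q hQ hQ1 q c hq hc hmax μ hμ _ hcond ρ hρ A A0 hA hA0 hAh hA0h
  have hc2 : ∃ π : Equiv.Perm (Fin n), ∀ k : Fin n,
      ((Finset.univ.filter (fun I : Finset (Fin n) => μ I ≠ 0 ∧ k ∈ I ∧
          (∃ j ∈ I, π k < π j) ∧ (∃ j, j ∉ I ∧ π k < π j))).image
        (fun I => I.filter (fun j => π k ≤ π j))).card ≤ 3 := by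
    rcases hcond with h | h
    · exact ⟨Equiv.refl _, fun k => Run7.h455.cond_small h μ k⟩
    · exact h
  obtain ⟨π, hπ⟩ := hc2
  obtain ⟨h1, h2, h3, h4⟩ := Run7.h455.sac_order Q hQ hQ1 q c hq hc hmax μ hμ π hπ ρ hρ A A0 hA hA0
  exact Run7.h455.ent_of_dt h1 h2 h3 h4

end Run7.h455.SiteOrder
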