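import Pool.Agent.Run7.h455.DsacM

set_option autoImplicit false
open Matrix
open scoped ComplexOrder MatrixOrder Kronecker

namespace Run7.h455

variable {κ : Type} [Fintype κ] [DecidableEq κ]

lemma rdS_add {n : ℕ} (s : Fin n → Bool) (Ω Ω' : Matrix (Fin n → κ) (Fin n → κ) ℂ) :
    rdS s (Ω + Ω') = rdS s Ω + rdS s Ω' := by
  ext x y
  simp only [rdS, Matrix.add_apply]
  rw [← Finset.sum_add_distrib]
  refine Finset.sum_congr rfl fun z _ => ?_
  split_ifs <;> simp

lemma rdS_smul {n : ℕ} (s : Fin n → Bool) (c : ℂ) (Ω : Matrix (Fin n → κ) (Fin n → κ) ℂ) :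
    rdS s (c • Ω) = c • rdS s Ω := by
  ext x y
  simp only [rdS, Matrix.smul_apply, smul_eq_mul, Finset.mul_sum]
  refine Finset.sum_congr rfl fun z _ => ?_
  split_ifs <;> simp

lemma rdS_zero {n : ℕ} (s : Fin n → Bool) : rdS s (0 : Matrix (Fin n → κ) (Fin n → κ) ℂ) = 0 := by
  have := rdS_smul s 0 (0 : Matrix (Fin n → κ) (Fin n → κ) ℂ)
  rwa [smul_zero, zero_smul] at this

lemma rdS_sum {n : ℕ} (s : Fin n → Bool) {ι : Type*} (S : Finset ι)
    (Ω : ι → Matrix (Fin n → κ) (Fin n → κ) ℂ) : rdS s (∑ i ∈ S, Ω i) = ∑ i ∈ S, rdS s (Ω i) := by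
  classical
  induction S using Finset.induction_on with
  | empty => rw [Finset.sum_empty, Finset.sum_empty, rdS_zero]
  | insert a S ha ih => rw [Finset.sum_insert ha, Finset.sum_insert ha, rdS_add, ih]

/-- the initial segment up to `k` -/
def upto {n : ℕ} (k : Fin n) : Fin n → Bool := fun i => decide (i ≤ k)

lemma upto_succ {n : ℕ} (k : Fin n) : upto k.succ = Fin.cons true (upto k) := by
  funext i
  refine Fin.cases ?_ (fun i => ?_) i
  · simp [upto]
  · simp [upto, Fin.succ_le_succ_iff]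

lemma tl_rdS {n : ℕ} (u : Fin n → Bool) (M : Matrix (Fin (n+1) → κ) (Fin (n+1) → κ) ℂ)
    (a b : κ) (x y : Fin n → κ) :
    tl (rdS (Fin.cons true u) M) (a, x) (b, y) = rdS u (blk a b (tl M)) x y := by
  rw [tl_apply, rdS_cons_true]

lemma ptr_rdS {n : ℕ} (u : Fin n → Bool) (M : Matrix (Fin (n+1) → κ) (Fin (n+1) → κ) ℂ) :
    ptr (tl (rdS (Fin.cons true u) M)) = rdS u (ptr (tl M)) := by
  have h : ptr (tl M) = ∑ a, blk a a (tl M) := by
    ext i j
    rw [Matrix.sum_apply]
    rfl
  rw [h, rdS_sum]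
  ext x y
  rw [Matrix.sum_apply]
  exact Finset.sum_congr rfl fun a _ => tl_rdS u M a a x y

lemma cmp_rdS {n : ℕ} (v : κ → ℂ) (u : Fin n → Bool) (M : Matrix (Fin (n+1) → κ) (Fin (n+1) → κ) ℂ) :
    cmp v (tl (rdS (Fin.cons true u) M)) = rdS u (cmp v (tl M)) := by
  rw [cmp_blk, cmp_blk, rdS_sum]
  refine Finset.sum_congr rfl fun a _ => ?_
  rw [rdS_sum]
  refine Finset.sum_congr rfl fun b _ => ?_
  rw [rdS_smul]
  congr 1
  ext i j
  exact tl_rdS u M a b i j

lemma rdS_upto_zero {n : ℕ} (M : Matrix (Fin (n+1) → κ) (Fin (n+1) → κ) ℂ) (a b : κ) :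
    rdS (upto 0) M (fun _ => a) (fun _ => b) = mg (tl M) a b := by
  rw [mg_tl, marg, rdS]
  refine Finset.sum_congr rfl fun z _ => ?_
  have h1 : (∀ j : Fin (n+1), upto 0 j = true → z j = a) ↔ z 0 = a := by
    constructor
    · intro h; exact h 0 (by simp [upto])
    · intro h j hj
      have h2 : j = 0 := by simpa [upto] using hj
      rw [h2, h]
  have h2 : (fun j : Fin (n+1) => if upto 0 j = true then b else z j) = Function.update z 0 b := by
    funext j
    by_cases hj : j = 0
    · subst hj; simp [upto]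
    · rw [Function.update_of_ne hj, if_neg]
      simpa [upto] using hj
  rw [h2]
  exact if_congr h1 rfl rfl

/-- the traces which matter at the site `k` -/
def PropTr {n : ℕ} (k : Fin n) (J : Fin n → Bool) : Prop :=
  J k = true ∧ (∀ i, i < k → J i = false) ∧ (∃ i, k < i ∧ J i = true) ∧ (∃ i, k < i ∧ J i = false)

/-- the marginals, on the sites up to `k`, of the operators of the sets with the trace `J` -/
def tvec {n : ℕ} (β : (Fin n → Bool) → Matrix (Fin n → κ) (Fin n → κ) ℂ) (k : Fin n) (J : Fin n → Bool) :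
    (Fin n → Bool) → Matrix (Fin n → κ) (Fin n → κ) ℂ :=
  fun S => if (∀ i, k ≤ i → S i = false) then rdS (upto k) (β (fun i => S i || J i)) else 0

/-- contraction as a linear map -/
def nxtL {n : ℕ} (x : κ → ℂ) (c : ℝ) :
    ((Fin (n+1) → Bool) → Matrix (Fin (n+1) → κ) (Fin (n+1) → κ) ℂ) →ₗ[ℝ]
      ((Fin n → Bool) → Matrix (Fin n → κ) (Fin n → κ) ℂ) where
  toFun β := nxt x c β
  map_add' β γ := by
    funext s
    simp only [nxt, Pi.add_apply]
    ext i j
    simp only [Matrix.add_apply, Matrix.smul_apply, smul_eq_mul, ptr, cmp_apply, tl_apply]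
    simp only [mul_add, add_mul, Finset.sum_add_distrib]
    ring
  map_smul' r β := by
    funext s
    simp only [nxt, Pi.smul_apply, RingHom.id_apply]
    ext i j
    simp only [Matrix.add_apply, Matrix.smul_apply, smul_eq_mul, ptr, cmp_apply, tl_apply, Complex.real_smul]
    rw [mul_add, ← Finset.mul_sum]
    congr 1
    · ring
    · rw [Finset.mul_sum]
      refine Finset.sum_congr rfl fun a _ => ?_
      rw [Finset.mul_sum]
      refine Finset.sum_congr rfl fun b _ => ?_
      ring

/-- the condition on the marginals -/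
lemma goodM_of : ∀ (n : ℕ) (β : (Fin n → Bool) → Matrix (Fin n → κ) (Fin n → κ) ℂ),
    (∀ k : Fin n, Module.finrank ℝ (Submodule.span ℝ
      {T : (Fin n → Bool) → Matrix (Fin n → κ) (Fin n → κ) ℂ | ∃ J, PropTr k J ∧ T = tvec β k J}) ≤ 3) →
    GoodM n β
  | 0, _, _ => trivial
  | n + 1, β, h => by
    refine ⟨?_, fun x c _ => goodM_of n (nxt x c β) fun k => ?_⟩
    · let Ψ : ((Fin (n+1) → Bool) → Matrix (Fin (n+1) → κ) (Fin (n+1) → κ) ℂ) →ₗ[ℝ] Matrix κ κ ℂ :=
        { toFun := fun T => Matrix.of fun a b => T (fun _ => false) (fun _ => a) (fun _ => b)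
          map_add' := fun _ _ => rfl
          map_smul' := fun _ _ => rfl }
      refine le_trans ?_ (h 0)
      refine le_trans ?_ (Submodule.finrank_map_le Ψ _)
      apply Submodule.finrank_mono
      rw [Submodule.span_le]
      rintro X ⟨s, h1, h2, rfl⟩
      obtain ⟨i, hi⟩ := Function.ne_iff.mp h1
      obtain ⟨j, hj⟩ := Function.ne_iff.mp h2
      refine ⟨tvec β 0 (Fin.cons true s), Submodule.subset_span ⟨_, ⟨by simp, fun i hi => absurd hi (by simp),
          ⟨i.succ, Fin.succ_pos i, by simpa using hi⟩, ⟨j.succ, Fin.succ_pos j, by simpa using hj⟩⟩, rfl⟩, ?_⟩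
      ext a b
      show tvec β 0 (Fin.cons true s) (fun _ => false) (fun _ => a) (fun _ => b) = _
      rw [tvec, if_pos (fun _ _ => rfl)]
      have e : (fun i : Fin (n+1) => (false || (Fin.cons true s : Fin (n+1) → Bool) i)) = Fin.cons true s := by
        funext i; simp
      rw [e, rdS_upto_zero]
    · refine le_trans ?_ (h k.succ)
      refine le_trans ?_ (Submodule.finrank_map_le (nxtL (κ := κ) (n := n) x c) _)
      apply Submodule.finrank_mono
      rw [Submodule.span_le]
      rintro T ⟨J, ⟨h1, h2, ⟨i, hi, hi2⟩, ⟨j, hj, hj2⟩⟩, rfl⟩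
      refine ⟨tvec β k.succ (Fin.cons false J), Submodule.subset_span ⟨_, ⟨by simpa using h1, ?_,
          ⟨i.succ, Fin.succ_lt_succ_iff.mpr hi, by simpa using hi2⟩,
          ⟨j.succ, Fin.succ_lt_succ_iff.mpr hj, by simpa using hj2⟩⟩, rfl⟩, ?_⟩
      · intro l hl
        refine Fin.cases ?_ (fun l => ?_) l hl
        · intro _; simp
        · intro hl; simpa using h2 l (Fin.succ_lt_succ_iff.mp hl)
      · funext S
        show nxt x c (tvec β k.succ (Fin.cons false J)) S = tvec (nxt x c β) k J S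
        have e1 : ∀ b : Bool, (∀ i, k.succ ≤ i → (Fin.cons b S : Fin (n+1) → Bool) i = false)
            ↔ (∀ i, k ≤ i → S i = false) := by
          intro b
          rw [Fin.forall_fin_succ]
          simp only [Fin.cons_succ, Fin.succ_le_succ_iff]
          constructor
          · intro h; exact h.2
          · intro h
            refine ⟨fun h0 => ?_, h⟩
            exact absurd h0 (by rw [not_le]; exact Fin.succ_pos k)
        have e2 : ∀ b : Bool, (fun i => (Fin.cons b S : Fin (n+1) → Bool) i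
            || (Fin.cons false J : Fin (n+1) → Bool) i) = Fin.cons b (fun i => S i || J i) := by
          intro b
          funext i; refine Fin.cases ?_ (fun i => ?_) i <;> simp
        rw [nxt, tvec, tvec, tvec]
        by_cases hS : ∀ i, k ≤ i → S i = false
        · rw [if_pos ((e1 false).mpr hS), if_pos ((e1 true).mpr hS), if_pos hS, e2, e2, upto_succ,
            ptr_rdS, cmp_rdS, nxt, rdS_add, rdS_smul]
        · rw [if_neg (fun h => hS ((e1 false).mp h)), if_neg (fun h => hS ((e1 true).mp h)), if_neg hS]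
          rw [tl_zeroS, ptr_zero, smul_zero, zero_add, cmp, Matrix.mul_zero, Matrix.zero_mul]

end Run7.h455
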