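import Pool.Agent.Run7.h455.Main

set_option autoImplicit false
open Matrix
open scoped ComplexOrder MatrixOrder Kronecker

namespace Run7.h455

/-- determinant of a block sum after a one-site change of basis -/
lemma det_block {κ N : Type*} [Fintype κ] [DecidableEq κ] [Fintype N] [DecidableEq N]
    {V Q P : Matrix κ κ ℂ} {lam : κ → ℝ} {k0 : κ} (hV : V * star V = 1)
    (hQ : Q = V * Matrix.diagonal (fun k => (lam k : ℂ)) * star V)
    (hP : P = V * Matrix.diagonal (Pi.single k0 (1:ℂ)) * star V) (t : ℝ) (B C : Matrix N N ℂ) :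
    ((t : ℂ) • (1 : Matrix (κ × N) (κ × N) ℂ) + Q ⊗ₖ B + P ⊗ₖ C).det
      = ∏ k, ((t : ℂ) • (1 : Matrix N N ℂ) + (lam k : ℂ) • B + (if k = k0 then (1:ℂ) else 0) • C).det := by
  set M : κ → Matrix N N ℂ := fun k => (t : ℂ) • (1 : Matrix N N ℂ) + (lam k : ℂ) • B
    + (if k = k0 then (1:ℂ) else 0) • C with hM
  have h1 : (t : ℂ) • (1 : Matrix (κ × N) (κ × N) ℂ) + Q ⊗ₖ B + P ⊗ₖ C
      = (V ⊗ₖ (1 : Matrix N N ℂ)) * ((Matrix.blockDiagonal M).submatrix (Equiv.prodComm κ N) (Equiv.prodComm κ N))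
        * (star V ⊗ₖ (1 : Matrix N N ℂ)) := by
    have e : (Matrix.blockDiagonal M).submatrix (Equiv.prodComm κ N) (Equiv.prodComm κ N)
        = (t : ℂ) • ((1 : Matrix κ κ ℂ) ⊗ₖ (1 : Matrix N N ℂ))
          + Matrix.diagonal (fun k => (lam k : ℂ)) ⊗ₖ B + Matrix.diagonal (Pi.single k0 (1:ℂ)) ⊗ₖ C := by
      ext ⟨a, i⟩ ⟨b, j⟩
      simp only [Matrix.submatrix_apply, Equiv.prodComm_apply, Prod.swap_prod_mk,
        Matrix.blockDiagonal_apply, Matrix.add_apply, Matrix.smul_apply, Matrix.kroneckerMap_apply, hM]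
      by_cases hab : a = b
      · subst hab
        simp [Pi.single_apply]
      · simp [hab]
    rw [e]
    rw [Matrix.mul_add, Matrix.mul_add, Matrix.add_mul, Matrix.add_mul, Matrix.mul_smul, Matrix.smul_mul,
      ← Matrix.mul_kronecker_mul, ← Matrix.mul_kronecker_mul, ← Matrix.mul_kronecker_mul,
      ← Matrix.mul_kronecker_mul, ← Matrix.mul_kronecker_mul, ← Matrix.mul_kronecker_mul]
    simp only [Matrix.mul_one, Matrix.one_mul]
    rw [hV, ← hQ, ← hP, Matrix.one_kronecker_one]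
  rw [h1, Matrix.det_mul, Matrix.det_mul, mul_right_comm, ← Matrix.det_mul, ← Matrix.mul_kronecker_mul, hV,
    Matrix.one_mul, Matrix.one_kronecker_one, Matrix.det_one, one_mul, Matrix.det_submatrix_equiv_self,
    Matrix.det_blockDiagonal]

/-- real version for Hermitian blocks -/
lemma dt_block {κ N : Type*} [Fintype κ] [DecidableEq κ] [Fintype N] [DecidableEq N]
    {V Q P : Matrix κ κ ℂ} {lam : κ → ℝ} {k0 : κ} (hV : V * star V = 1)
    (hQ : Q = V * Matrix.diagonal (fun k => (lam k : ℂ)) * star V)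
    (hP : P = V * Matrix.diagonal (Pi.single k0 (1:ℂ)) * star V) (t : ℝ) {B C : Matrix N N ℂ}
    (hB : B.IsHermitian) (hC : C.IsHermitian) :
    dt ((t : ℂ) • (1 : Matrix (κ × N) (κ × N) ℂ) + Q ⊗ₖ B + P ⊗ₖ C)
      = ∏ k, dt ((t : ℂ) • (1 : Matrix N N ℂ) + (lam k : ℂ) • B + (if k = k0 then (1:ℂ) else 0) • C) := by
  have h : ∀ k, ((dt ((t : ℂ) • (1 : Matrix N N ℂ) + (lam k : ℂ) • B
      + (if k = k0 then (1:ℂ) else 0) • C) : ℝ) : ℂ)
      = ((t : ℂ) • (1 : Matrix N N ℂ) + (lam k : ℂ) • B + (if k = k0 then (1:ℂ) else 0) • C).det := by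
    intro k
    apply dt_coe
    have a1 : ((t : ℂ) • (1 : Matrix N N ℂ)).IsHermitian := by
      rw [Matrix.IsHermitian, Matrix.conjTranspose_smul]; simp
    have a2 : ((lam k : ℂ) • B).IsHermitian := by
      rw [Matrix.IsHermitian, Matrix.conjTranspose_smul, hB.eq]; simp
    have a3 : ((if k = k0 then (1:ℂ) else 0) • C).IsHermitian := by
      rw [Matrix.IsHermitian, Matrix.conjTranspose_smul, hC.eq]; split_ifs <;> simp
    exact (a1.add a2).add a3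
  have h2 := det_block hV hQ hP t B C
  simp only [← h] at h2
  rw [← Complex.ofReal_prod] at h2
  rw [dt, h2, Complex.ofReal_re]

variable {κ : Type} [Fintype κ] [DecidableEq κ]

omit [DecidableEq κ] in
lemma kerD_bot_trace {Q : Matrix κ κ ℂ} (hQ1 : Q.trace = 1) (n : ℕ) :
    (kerD Q (fun _ : Fin n => false)).trace = 1 := by
  rw [Matrix.trace]
  have h : ∀ x : Fin n → κ, (kerD Q (fun _ : Fin n => false)).diag x = ∏ j, Q (x j) (x j) := by
    intro x; simp [kerD, Matrix.diag_apply]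
  simp only [h]
  have := Finset.prod_univ_sum (fun _ : Fin n => (Finset.univ : Finset κ)) (fun _ a => Q a a)
  classical
  rw [Fintype.piFinset_univ] at this
  rw [← this]
  apply Finset.prod_eq_one
  intro _ _
  exact hQ1

omit [Fintype κ] [DecidableEq κ] in
/-- shape of the operator of a singleton set -/
lemma Adm.single {Q : Matrix κ κ ℂ} {n : ℕ} (k0 : κ)
    {σ : Matrix (Fin (n+1) → κ) (Fin (n+1) → κ) ℂ}
    (h : Adm Q (Fin.cons true (fun _ => false) : Fin (n+1) → Bool) σ) :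
    ∃ r : Matrix κ κ ℂ, r.PosSemidef ∧ tl σ = r ⊗ₖ kerD Q (fun _ : Fin n => false) := by
  obtain ⟨R, hR, hl, rfl⟩ := h
  refine ⟨R.submatrix (fun a => (Fin.cons a (fun _ => k0) : Fin (n+1) → κ))
    (fun a => Fin.cons a (fun _ => k0)), hR.submatrix _, ?_⟩
  ext ⟨a, x⟩ ⟨b, y⟩
  rw [tl_apply, Matrix.hadamard_apply, Matrix.kroneckerMap_apply, Matrix.submatrix_apply]
  simp only
  rw [kerD_cons_true]
  congr 1
  apply hl
  · intro j hj
    refine Fin.cases ?_ (fun i hi => ?_) j hj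
    · simp
    · simp at hi
  · intro j hj
    refine Fin.cases ?_ (fun i hi => ?_) j hj
    · simp
    · simp at hi

omit [DecidableEq κ] in
lemma cmp_kron {N : Type*} [Fintype N] [DecidableEq N] (x : κ → ℂ) (r : Matrix κ κ ℂ) (Z : Matrix N N ℂ) :
    cmp x (r ⊗ₖ Z) = (∑ a, ∑ b, star (x a) * r a b * x b) • Z := by
  ext i j
  rw [cmp_apply, Matrix.smul_apply, smul_eq_mul, Finset.sum_mul]
  refine Finset.sum_congr rfl fun a _ => ?_
  rw [Finset.sum_mul]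
  refine Finset.sum_congr rfl fun b _ => ?_
  rw [Matrix.kroneckerMap_apply]
  ring

omit [DecidableEq κ] in
lemma Adm.kerD_bot {Q : Matrix κ κ ℂ} (n : ℕ) :
    Adm Q (fun _ : Fin n => false) (kerD Q (fun _ : Fin n => false)) :=
  ⟨onesK _, ones_psd, fun _ _ _ _ _ _ => rfl, by ext x y; simp [Matrix.hadamard_apply, onesK]⟩

/-- the one-site step: everything on the site `0` is peeled off -/
theorem step {Q V P : Matrix κ κ ℂ} {lam : κ → ℝ} {k0 : κ} (hQp : Q.PosSemidef) (hQ1 : Q.trace = 1)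
    (hV : V * star V = 1) (hQ : Q = V * Matrix.diagonal (fun k => (lam k : ℂ)) * star V)
    (hP : P = V * Matrix.diagonal (Pi.single k0 (1:ℂ)) * star V)
    (hc : (((lam k0 : ℝ) : ℂ) • (1 : Matrix κ κ ℂ) - Q).PosSemidef) (hl0 : 0 ≤ lam k0)
    {n : ℕ} {B : Matrix (Fin n → κ) (Fin n → κ) ℂ} (hB : B.PosSemidef)
    {r : Matrix κ κ ℂ} (hr : r.PosSemidef)
    (F : Finset (Fin n → Bool)) (hF : F.card ≤ 3)
    (C : (Fin n → Bool) → Matrix (κ × (Fin n → κ)) (κ × (Fin n → κ)) ℂ)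
    (hC : ∀ s ∈ F, (C s).PosSemidef) {t : ℝ} (ht : 0 < t) :
    ∃ x : κ → ℂ, (∀ s ∈ F, (cmp x (C s)).trace = (C s).trace) ∧
      (∏ k ∈ Finset.univ.erase k0, dt ((t : ℂ) • (1 : Matrix (Fin n → κ) (Fin n → κ) ℂ) + (lam k : ℂ) • B))
        * dt ((t : ℂ) • (1 : Matrix (Fin n → κ) (Fin n → κ) ℂ) + (((lam k0 : ℝ) : ℂ) • B
          + r.trace • kerD Q (fun _ : Fin n => false) + ∑ s ∈ F, cmp x (C s)))
      ≤ dt ((t : ℂ) • (1 : Matrix (κ × (Fin n → κ)) (κ × (Fin n → κ)) ℂ)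
          + (Q ⊗ₖ B + r ⊗ₖ kerD Q (fun _ : Fin n => false) + ∑ s ∈ F, C s)) := by
  set Z := kerD Q (fun _ : Fin n => false) with hZ
  have hZp : Z.PosSemidef := kerD_psd hQp _
  have hZ1 : Z.trace = 1 := kerD_bot_trace hQ1 n
  have htc : (0:ℂ) < (t:ℂ) := by exact_mod_cast ht
  have hr0 : (0:ℂ) ≤ r.trace := hr.trace_nonneg
  have hl0c : (0:ℂ) ≤ ((lam k0 : ℝ) : ℂ) := by exact_mod_cast hl0
  have h1 : ((t : ℂ) • (1 : Matrix (Fin n → κ) (Fin n → κ) ℂ)).PosDef := Matrix.PosDef.one.smul htc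
  have h1' : ((t : ℂ) • (1 : Matrix (κ × (Fin n → κ)) (κ × (Fin n → κ)) ℂ)).PosDef :=
    Matrix.PosDef.one.smul htc
  set T := (t : ℂ) • (1 : Matrix (Fin n → κ) (Fin n → κ) ℂ) + ((lam k0 : ℝ) : ℂ) • B with hT
  have hTp : T.PosDef := h1.add_posSemidef (hB.smul hl0c)
  set T' := T + r.trace • Z with hT'
  have hT'p : T'.PosDef := hTp.add_posSemidef (hZp.smul hr0)
  set B0 := (t : ℂ) • (1 : Matrix (κ × (Fin n → κ)) (κ × (Fin n → κ)) ℂ) + Q ⊗ₖ B with hB0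
  have hB0p : B0.PosDef := h1'.add_posSemidef (hQp.kronecker hB)
  have hrZ : (r ⊗ₖ Z).PosSemidef := hr.kronecker hZp
  have hB1p : (B0 + r ⊗ₖ Z).PosDef := hB0p.add_posSemidef hrZ
  have hd0 : ((1 : Matrix κ κ ℂ) ⊗ₖ T - B0).PosSemidef := by
    have e : (1 : Matrix κ κ ℂ) ⊗ₖ T - B0 = (((lam k0 : ℝ) : ℂ) • (1 : Matrix κ κ ℂ) - Q) ⊗ₖ B := by
      rw [hT, hB0, Matrix.kronecker_add, Matrix.kronecker_smul, Matrix.one_kronecker_one,
        Matrix.kronecker_smul]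
      ext ⟨a, i⟩ ⟨b, j⟩
      simp only [Matrix.sub_apply, Matrix.add_apply, Matrix.smul_apply, Matrix.kroneckerMap_apply, smul_eq_mul]
      ring
    rw [e]; exact hc.kronecker hB
  have hd1 : ((1 : Matrix κ κ ℂ) ⊗ₖ T' - (B0 + r ⊗ₖ Z)).PosSemidef := by
    have e : (1 : Matrix κ κ ℂ) ⊗ₖ T' - (B0 + r ⊗ₖ Z)
        = ((1 : Matrix κ κ ℂ) ⊗ₖ T - B0) + (r.trace • (1 : Matrix κ κ ℂ) - r) ⊗ₖ Z := by
      rw [hT', Matrix.kronecker_add, Matrix.kronecker_smul]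
      ext ⟨a, i⟩ ⟨b, j⟩
      simp only [Matrix.sub_apply, Matrix.add_apply, Matrix.smul_apply, Matrix.kroneckerMap_apply, smul_eq_mul]
      ring
    rw [e]; exact hd0.add ((trace_sub_psd hr).kronecker hZp)
  -- first peeling : the singleton
  obtain ⟨x0, hx0, hp0⟩ := peel (Finset.univ : Finset Unit) (by simp) (fun _ => r ⊗ₖ Z)
    (fun _ _ => hrZ) hTp hB0p hd0
  have hc0 : cmp x0 (r ⊗ₖ Z) = r.trace • Z := by
    have a := hx0 () (Finset.mem_univ _)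
    rw [cmp_kron, Matrix.trace_smul, Matrix.trace_kronecker, hZ1, smul_eq_mul, mul_one, mul_one] at a
    rw [cmp_kron, a]
  simp only [Finset.univ_unique, Finset.sum_singleton, hc0] at hp0
  -- second peeling
  obtain ⟨x, hx, hp1⟩ := peel F hF C hC hT'p hB1p hd1
  refine ⟨x, hx, ?_⟩
  -- block determinant
  have hblk : dt B0 = (∏ k ∈ Finset.univ.erase k0, dt ((t : ℂ) • (1 : Matrix (Fin n → κ) (Fin n → κ) ℂ)
      + (lam k : ℂ) • B)) * dt T := by
    have a := dt_block hV hQ hP t hB.1 (Matrix.isHermitian_zero (n := Fin n → κ) (α := ℂ))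
    simp only [Matrix.kronecker_zero, smul_zero, add_zero] at a
    rw [hB0, a, ← Finset.prod_erase_mul _ _ (Finset.mem_univ k0)]
  set Pk := ∏ k ∈ Finset.univ.erase k0, dt ((t : ℂ) • (1 : Matrix (Fin n → κ) (Fin n → κ) ℂ)
      + (lam k : ℂ) • B) with hPk
  have hT0 := dt_pos hTp
  have hT'0 := dt_pos hT'p
  have hgoal1 : (t : ℂ) • (1 : Matrix (Fin n → κ) (Fin n → κ) ℂ) + (((lam k0 : ℝ) : ℂ) • B
          + r.trace • Z + ∑ s ∈ F, cmp x (C s)) = T' + ∑ s ∈ F, cmp x (C s) := by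
    rw [hT', hT]; abel
  have hgoal2 : (t : ℂ) • (1 : Matrix (κ × (Fin n → κ)) (κ × (Fin n → κ)) ℂ)
          + (Q ⊗ₖ B + r ⊗ₖ Z + ∑ s ∈ F, C s) = B0 + r ⊗ₖ Z + ∑ s ∈ F, C s := by
    rw [hB0]; abel
  rw [hgoal1, hgoal2]
  rw [hblk] at hp0
  have hE : 0 ≤ dt (T' + ∑ s ∈ F, cmp x (C s)) :=
    (dt_pos (hT'p.add_posSemidef (Matrix.posSemidef_sum F fun s hs => cmp_psd x (hC s hs)))).le
  have hPkT : Pk * dt T' ≤ dt (B0 + r ⊗ₖ Z) := by
    have h2 : Pk * dt T' * dt T ≤ dt (B0 + r ⊗ₖ Z) * dt T := by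
      calc Pk * dt T' * dt T = Pk * dt T * dt (T + r.trace • Z) := by rw [hT']; ring
        _ ≤ _ := hp0
    exact le_of_mul_le_mul_right h2 hT0
  have h3 : Pk * dt (T' + ∑ s ∈ F, cmp x (C s)) * dt T' ≤ dt (B0 + r ⊗ₖ Z + ∑ s ∈ F, C s) * dt T' := by
    calc Pk * dt (T' + ∑ s ∈ F, cmp x (C s)) * dt T' = (Pk * dt T') * dt (T' + ∑ s ∈ F, cmp x (C s)) := by ring
      _ ≤ dt (B0 + r ⊗ₖ Z) * dt (T' + ∑ s ∈ F, cmp x (C s)) := mul_le_mul_of_nonneg_right hPkT hE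
      _ ≤ _ := hp1
  exact le_of_mul_le_mul_right h3 hT'0

end Run7.h455
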