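import Pool.Agent.Run7.h455.Red
import Pool.Agent.Run7.h455.Dsac

set_option autoImplicit false
open Matrix
open scoped ComplexOrder MatrixOrder Kronecker

namespace Run7.h455

variable {κ : Type} [Fintype κ] [DecidableEq κ]

/-- the one-site step with operators satisfying the reduction criterion -/
theorem step2 {Q V P : Matrix κ κ ℂ} {lam : κ → ℝ} {k0 : κ} (hQp : Q.PosSemidef)
    (hV : V * star V = 1) (hQ : Q = V * Matrix.diagonal (fun k => (lam k : ℂ)) * star V)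
    (hP : P = V * Matrix.diagonal (Pi.single k0 (1:ℂ)) * star V)
    (hc : (((lam k0 : ℝ) : ℂ) • (1 : Matrix κ κ ℂ) - Q).PosSemidef) (hl0 : 0 ≤ lam k0)
    {n : ℕ} {B : Matrix (Fin n → κ) (Fin n → κ) ℂ} (hB : B.PosSemidef)
    {Cr : Matrix (κ × (Fin n → κ)) (κ × (Fin n → κ)) ℂ} (hCr : Cr.PosSemidef) (hRC : RC Cr)
    (F : Finset (Fin n → Bool)) (hF : F.card ≤ 3)
    (C : (Fin n → Bool) → Matrix (κ × (Fin n → κ)) (κ × (Fin n → κ)) ℂ)
    (hC : ∀ s ∈ F, (C s).PosSemidef) {t : ℝ} (ht : 0 < t) :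
    ∃ x : κ → ℂ, (∀ s ∈ F, (cmp x (C s)).trace = (C s).trace) ∧
      (∏ k ∈ Finset.univ.erase k0, dt ((t : ℂ) • (1 : Matrix (Fin n → κ) (Fin n → κ) ℂ) + (lam k : ℂ) • B))
        * dt ((t : ℂ) • (1 : Matrix (Fin n → κ) (Fin n → κ) ℂ) + (((lam k0 : ℝ) : ℂ) • B
          + ptr Cr + ∑ s ∈ F, cmp x (C s)))
      ≤ dt ((t : ℂ) • (1 : Matrix (κ × (Fin n → κ)) (κ × (Fin n → κ)) ℂ)
          + (Q ⊗ₖ B + Cr + ∑ s ∈ F, C s)) := by
  have htc : (0:ℂ) < (t:ℂ) := by exact_mod_cast ht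
  have hl0c : (0:ℂ) ≤ ((lam k0 : ℝ) : ℂ) := by exact_mod_cast hl0
  have h1 : ((t : ℂ) • (1 : Matrix (Fin n → κ) (Fin n → κ) ℂ)).PosDef := Matrix.PosDef.one.smul htc
  have h1' : ((t : ℂ) • (1 : Matrix (κ × (Fin n → κ)) (κ × (Fin n → κ)) ℂ)).PosDef :=
    Matrix.PosDef.one.smul htc
  set T := (t : ℂ) • (1 : Matrix (Fin n → κ) (Fin n → κ) ℂ) + ((lam k0 : ℝ) : ℂ) • B with hT
  have hTp : T.PosDef := h1.add_posSemidef (hB.smul hl0c)
  set T' := T + ptr Cr with hT'
  have hT'p : T'.PosDef := hTp.add_posSemidef (ptr_psd hCr)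
  set B0 := (t : ℂ) • (1 : Matrix (κ × (Fin n → κ)) (κ × (Fin n → κ)) ℂ) + Q ⊗ₖ B with hB0
  have hB0p : B0.PosDef := h1'.add_posSemidef (hQp.kronecker hB)
  have hB1p : (B0 + Cr).PosDef := hB0p.add_posSemidef hCr
  have hd0 : ((1 : Matrix κ κ ℂ) ⊗ₖ T - B0).PosSemidef := by
    have e : (1 : Matrix κ κ ℂ) ⊗ₖ T - B0 = (((lam k0 : ℝ) : ℂ) • (1 : Matrix κ κ ℂ) - Q) ⊗ₖ B := by
      rw [hT, hB0, Matrix.kronecker_add, Matrix.kronecker_smul, Matrix.one_kronecker_one,
        Matrix.kronecker_smul]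
      ext ⟨a, i⟩ ⟨b, j⟩
      simp only [Matrix.sub_apply, Matrix.add_apply, Matrix.smul_apply, Matrix.kroneckerMap_apply, smul_eq_mul]
      ring
    rw [e]; exact hc.kronecker hB
  have hd1 : ((1 : Matrix κ κ ℂ) ⊗ₖ T' - (B0 + Cr)).PosSemidef := by
    have e : (1 : Matrix κ κ ℂ) ⊗ₖ T' - (B0 + Cr)
        = ((1 : Matrix κ κ ℂ) ⊗ₖ T - B0) + ((1 : Matrix κ κ ℂ) ⊗ₖ ptr Cr - Cr) := by
      rw [hT', Matrix.kronecker_add]; abel
    rw [e]; exact hd0.add hRC
  have hp0 := peel_red hCr hRC hTp hB0p hd0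
  rw [← hT'] at hp0
  obtain ⟨x, hx, hp1⟩ := peel F hF C hC hT'p hB1p hd1
  refine ⟨x, hx, ?_⟩
  have hblk : dt B0 = (∏ k ∈ Finset.univ.erase k0, dt ((t : ℂ) • (1 : Matrix (Fin n → κ) (Fin n → κ) ℂ)
      + (lam k : ℂ) • B)) * dt T := by
    have a := dt_block hV hQ hP t hB.1 (Matrix.isHermitian_zero (n := Fin n → κ) (α := ℂ))
    simp only [Matrix.kronecker_zero, smul_zero, add_zero] at a
    rw [hB0, a, ← Finset.prod_erase_mul _ _ (Finset.mem_univ k0)]
  set Pk := ∏ k ∈ Finset.univ.erase k0, dt ((t : ℂ) • (1 : Matrix (Fin n → κ) (Fin n → κ) ℂ)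
      + (lam k : ℂ) • B) with hPk
  have hT0 := dt_pos hTp
  have hT'0 := dt_pos hT'p
  have hgoal1 : (t : ℂ) • (1 : Matrix (Fin n → κ) (Fin n → κ) ℂ) + (((lam k0 : ℝ) : ℂ) • B
          + ptr Cr + ∑ s ∈ F, cmp x (C s)) = T' + ∑ s ∈ F, cmp x (C s) := by
    rw [hT', hT]; abel
  have hgoal2 : (t : ℂ) • (1 : Matrix (κ × (Fin n → κ)) (κ × (Fin n → κ)) ℂ)
          + (Q ⊗ₖ B + Cr + ∑ s ∈ F, C s) = B0 + Cr + ∑ s ∈ F, C s := by
    rw [hB0]; abel
  rw [hgoal1, hgoal2]
  rw [hblk] at hp0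
  have hE : 0 ≤ dt (T' + ∑ s ∈ F, cmp x (C s)) :=
    (dt_pos (hT'p.add_posSemidef (Matrix.posSemidef_sum F fun s hs => cmp_psd x (hC s hs)))).le
  have hPkT : Pk * dt T' ≤ dt (B0 + Cr) := by
    have h2 : Pk * dt T' * dt T ≤ dt (B0 + Cr) * dt T := by
      calc Pk * dt T' * dt T = Pk * dt T * dt T' := by ring
        _ ≤ _ := hp0
    exact le_of_mul_le_mul_right h2 hT0
  have h3 : Pk * dt (T' + ∑ s ∈ F, cmp x (C s)) * dt T' ≤ dt (B0 + Cr + ∑ s ∈ F, C s) * dt T' := by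
    calc Pk * dt (T' + ∑ s ∈ F, cmp x (C s)) * dt T' = (Pk * dt T') * dt (T' + ∑ s ∈ F, cmp x (C s)) := by ring
      _ ≤ dt (B0 + Cr) * dt (T' + ∑ s ∈ F, cmp x (C s)) := mul_le_mul_of_nonneg_right hPkT hE
      _ ≤ _ := hp1
  exact le_of_mul_le_mul_right h3 hT'0

/-- `1 ⊗ tr_j M` on the site `j` -/
def spread {n : ℕ} (j : Fin n) (M : Matrix (Fin n → κ) (Fin n → κ) ℂ) :
    Matrix (Fin n → κ) (Fin n → κ) ℂ :=
  fun x y => if x j = y j then ∑ a, M (Function.update x j a) (Function.update y j a) else 0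

/-- the reduction criterion at the site `j` -/
def Rd {n : ℕ} (j : Fin n) (M : Matrix (Fin n → κ) (Fin n → κ) ℂ) : Prop := (spread j M - M).PosSemidef

lemma spread_add {n : ℕ} (j : Fin n) (M M' : Matrix (Fin n → κ) (Fin n → κ) ℂ) :
    spread j (M + M') = spread j M + spread j M' := by
  ext x y
  simp only [spread, Matrix.add_apply]
  split_ifs
  · rw [Finset.sum_add_distrib]
  · simp

lemma spread_smul {n : ℕ} (j : Fin n) (c : ℂ) (M : Matrix (Fin n → κ) (Fin n → κ) ℂ) :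
    spread j (c • M) = c • spread j M := by
  ext x y
  simp only [spread, Matrix.smul_apply]
  split_ifs
  · rw [Finset.smul_sum]
  · simp

lemma Rd.add {n : ℕ} {j : Fin n} {M M' : Matrix (Fin n → κ) (Fin n → κ) ℂ} (h : Rd j M) (h' : Rd j M') :
    Rd j (M + M') := by
  rw [Rd, spread_add]
  have e : spread j M + spread j M' - (M + M') = (spread j M - M) + (spread j M' - M') := by abel
  rw [e]; exact Matrix.PosSemidef.add h h'

lemma Rd.smul {n : ℕ} {j : Fin n} {M : Matrix (Fin n → κ) (Fin n → κ) ℂ} (h : Rd j M) {c : ℝ}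
    (hc : 0 ≤ c) : Rd j ((c : ℂ) • M) := by
  rw [Rd, spread_smul, ← smul_sub]
  exact Matrix.PosSemidef.smul h (by exact_mod_cast hc)

lemma Rd.zero {n : ℕ} (j : Fin n) : Rd j (0 : Matrix (Fin n → κ) (Fin n → κ) ℂ) := by
  rw [Rd]
  have : spread j (0 : Matrix (Fin n → κ) (Fin n → κ) ℂ) = 0 := by
    ext x y; simp [spread]
  rw [this, sub_zero]; exact Matrix.PosSemidef.zero

/-- at the first site -/
lemma Rd.first {n : ℕ} {M : Matrix (Fin (n+1) → κ) (Fin (n+1) → κ) ℂ} (h : Rd 0 M) : RC (tl M) := by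
  have e : (1 : Matrix κ κ ℂ) ⊗ₖ ptr (tl M) - tl M = tl (spread 0 M - M) := by
    ext ⟨a, x⟩ ⟨b, y⟩
    rw [Matrix.sub_apply, Matrix.kroneckerMap_apply, tl_apply, tl_apply, Matrix.sub_apply, spread]
    congr 1
    simp only [Fin.cons_zero]
    by_cases hab : a = b
    · subst hab
      rw [Matrix.one_apply_eq, one_mul, if_pos rfl, ptr]
      refine Finset.sum_congr rfl fun c _ => ?_
      rw [tl_apply, Fin.update_cons_zero, Fin.update_cons_zero]
    · rw [Matrix.one_apply_ne hab, zero_mul, if_neg hab]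
  rw [RC, e]
  exact Matrix.PosSemidef.submatrix h _

/-- later sites after a compression of the first site -/
lemma Rd.cmp {n : ℕ} {j : Fin n} {M : Matrix (Fin (n+1) → κ) (Fin (n+1) → κ) ℂ} (h : Rd j.succ M)
    (x : κ → ℂ) : Rd j (cmp x (tl M)) := by
  have e : spread j (Run7.h455.cmp x (tl M)) - Run7.h455.cmp x (tl M)
      = Run7.h455.cmp x (tl (spread j.succ M - M)) := by
    ext u v
    rw [Matrix.sub_apply, spread, cmp_apply, cmp_apply]
    have h1 : ∀ a b, star (x a) * tl (spread j.succ M - M) (a, u) (b, v) * x b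
        = (if u j = v j then ∑ c, star (x a) * tl M (a, Function.update u j c) (b, Function.update v j c) * x b
            else 0) - star (x a) * tl M (a, u) (b, v) * x b := by
      intro a b
      rw [tl_apply, Matrix.sub_apply, spread, tl_apply]
      simp only [Fin.cons_succ]
      split_ifs with huv
      · rw [mul_sub, sub_mul, Finset.mul_sum, Finset.sum_mul]
        congr 1
        refine Finset.sum_congr rfl fun c _ => ?_
        rw [tl_apply, ← Fin.cons_update, ← Fin.cons_update]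
      · ring
    simp only [h1, Finset.sum_sub_distrib]
    congr 1
    split_ifs with huv
    · simp only [cmp_apply]
      rw [Finset.sum_comm]
      refine Finset.sum_congr rfl fun a _ => ?_
      rw [Finset.sum_comm]
    · simp
  rw [Rd, e]
  exact cmp_psd x (Matrix.PosSemidef.submatrix h _)

/-- later sites after a partial trace over the first site -/
lemma Rd.ptr {n : ℕ} {j : Fin n} {M : Matrix (Fin (n+1) → κ) (Fin (n+1) → κ) ℂ} (h : Rd j.succ M) :
    Rd j (ptr (tl M)) := by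
  have e : spread j (Run7.h455.ptr (tl M)) - Run7.h455.ptr (tl M)
      = Run7.h455.ptr (tl (spread j.succ M - M)) := by
    ext u v
    rw [Matrix.sub_apply, spread, Run7.h455.ptr, Run7.h455.ptr]
    have h1 : ∀ a, tl (spread j.succ M - M) (a, u) (a, v)
        = (if u j = v j then ∑ c, tl M (a, Function.update u j c) (a, Function.update v j c)
            else 0) - tl M (a, u) (a, v) := by
      intro a
      rw [tl_apply, Matrix.sub_apply, spread, tl_apply]
      simp only [Fin.cons_succ]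
      split_ifs with huv
      · congr 1
        refine Finset.sum_congr rfl fun c _ => ?_
        rw [tl_apply, ← Fin.cons_update, ← Fin.cons_update]
      · rfl
    simp only [h1, Finset.sum_sub_distrib]
    congr 1
    split_ifs with huv
    · simp only [Run7.h455.ptr]
      rw [Finset.sum_comm]
    · simp
  rw [Rd, e]
  exact ptr_psd (Matrix.PosSemidef.submatrix h _)

end Run7.h455
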