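import Pool.Agent.Run7.h455.Mspan
import Pool.Agent.Run7.h455.Dsac2

set_option autoImplicit false
open Matrix
open scoped ComplexOrder MatrixOrder Kronecker

namespace Run7.h455

variable {κ : Type} [Fintype κ] [DecidableEq κ]

/-- the one-site step with operators satisfying the reduction criterion -/
theorem stepS {Q V P : Matrix κ κ ℂ} {lam : κ → ℝ} {k0 : κ} (hQp : Q.PosSemidef)
    (hV : V * star V = 1) (hQ : Q = V * Matrix.diagonal (fun k => (lam k : ℂ)) * star V)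
    (hP : P = V * Matrix.diagonal (Pi.single k0 (1:ℂ)) * star V)
    (hc : (((lam k0 : ℝ) : ℂ) • (1 : Matrix κ κ ℂ) - Q).PosSemidef) (hl0 : 0 ≤ lam k0)
    {n : ℕ} {B : Matrix (Fin n → κ) (Fin n → κ) ℂ} (hB : B.PosSemidef)
    {Cr : Matrix (κ × (Fin n → κ)) (κ × (Fin n → κ)) ℂ} (hCr : Cr.PosSemidef) (hRC : RC Cr)
    (F : Finset (Fin n → Bool))
    (C : (Fin n → Bool) → Matrix (κ × (Fin n → κ)) (κ × (Fin n → κ)) ℂ)
    (L : Submodule ℝ (Matrix κ κ ℂ)) (hL : Module.finrank ℝ L ≤ 3) (hF : ∀ s ∈ F, mg (C s) ∈ L)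
    (hC : ∀ s ∈ F, (C s).PosSemidef) {t : ℝ} (ht : 0 < t) :
    ∃ x : κ → ℂ, (∀ s ∈ F, (cmp x (C s)).trace = (C s).trace) ∧
      (∏ k ∈ Finset.univ.erase k0, dt ((t : ℂ) • (1 : Matrix (Fin n → κ) (Fin n → κ) ℂ) + (lam k : ℂ) • B))
        * dt ((t : ℂ) • (1 : Matrix (Fin n → κ) (Fin n → κ) ℂ) + (((lam k0 : ℝ) : ℂ) • B
          + ptr Cr + ∑ s ∈ F, cmp x (C s)))
      ≤ dt ((t : ℂ) • (1 : Matrix (κ × (Fin n → κ)) (κ × (Fin n → κ)) ℂ)
          + (Q ⊗ₖ B + Cr + ∑ s ∈ F, C s)) := by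
  have htc : (0:ℂ) < (t:ℂ) := by exact_mod_cast ht
  have hl0c : (0:ℂ) ≤ ((lam k0 : ℝ) : ℂ) := by exact_mod_cast hl0
  have h1 : ((t : ℂ) • (1 : Matrix (Fin n → κ) (Fin n → κ) ℂ)).PosDef := Matrix.PosDef.one.smul htc
  have h1' : ((t : ℂ) • (1 : Matrix (κ × (Fin n → κ)) (κ × (Fin n → κ)) ℂ)).PosDef :=
    Matrix.PosDef.one.smul htc
  set T := (t : ℂ) • (1 : Matrix (Fin n → κ) (Fin n → κ) ℂ) + ((lam k0 : ℝ) : ℂ) • B with hT
  have hTp : T.PosDef := h1.add_posSemidef (hB.smul hl0c)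
  set T' := T + ptr Cr with hT'
  have hT'p : T'.PosDef := hTp.add_posSemidef (ptr_psd hCr)
  set B0 := (t : ℂ) • (1 : Matrix (κ × (Fin n → κ)) (κ × (Fin n → κ)) ℂ) + Q ⊗ₖ B with hB0
  have hB0p : B0.PosDef := h1'.add_posSemidef (hQp.kronecker hB)
  have hB1p : (B0 + Cr).PosDef := hB0p.add_posSemidef hCr
  have hd0 : ((1 : Matrix κ κ ℂ) ⊗ₖ T - B0).PosSemidef := by
    have e : (1 : Matrix κ κ ℂ) ⊗ₖ T - B0 = (((lam k0 : ℝ) : ℂ) • (1 : Matrix κ κ ℂ) - Q) ⊗ₖ B := by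
      rw [hT, hB0, Matrix.kronecker_add, Matrix.kronecker_smul, Matrix.one_kronecker_one,
        Matrix.kronecker_smul]
      ext ⟨a, i⟩ ⟨b, j⟩
      simp only [Matrix.sub_apply, Matrix.add_apply, Matrix.smul_apply, Matrix.kroneckerMap_apply, smul_eq_mul]
      ring
    rw [e]; exact hc.kronecker hB
  have hd1 : ((1 : Matrix κ κ ℂ) ⊗ₖ T' - (B0 + Cr)).PosSemidef := by
    have e : (1 : Matrix κ κ ℂ) ⊗ₖ T' - (B0 + Cr)
        = ((1 : Matrix κ κ ℂ) ⊗ₖ T - B0) + ((1 : Matrix κ κ ℂ) ⊗ₖ ptr Cr - Cr) := by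
      rw [hT', Matrix.kronecker_add]; abel
    rw [e]; exact hd0.add hRC
  have hp0 := peel_red hCr hRC hTp hB0p hd0
  rw [← hT'] at hp0
  obtain ⟨x, hx, hp1⟩ := peelS F C L hL hF hC hT'p hB1p hd1
  refine ⟨x, hx, ?_⟩
  have hblk : dt B0 = (∏ k ∈ Finset.univ.erase k0, dt ((t : ℂ) • (1 : Matrix (Fin n → κ) (Fin n → κ) ℂ)
      + (lam k : ℂ) • B)) * dt T := by
    have a := dt_block hV hQ hP t hB.1 (Matrix.isHermitian_zero (n := Fin n → κ) (α := ℂ))
    simp only [Matrix.kronecker_zero, smul_zero, add_zero] at a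
    rw [hB0, a, ← Finset.prod_erase_mul _ _ (Finset.mem_univ k0)]
  set Pk := ∏ k ∈ Finset.univ.erase k0, dt ((t : ℂ) • (1 : Matrix (Fin n → κ) (Fin n → κ) ℂ)
      + (lam k : ℂ) • B) with hPk
  have hT0 := dt_pos hTp
  have hT'0 := dt_pos hT'p
  have hgoal1 : (t : ℂ) • (1 : Matrix (Fin n → κ) (Fin n → κ) ℂ) + (((lam k0 : ℝ) : ℂ) • B
          + ptr Cr + ∑ s ∈ F, cmp x (C s)) = T' + ∑ s ∈ F, cmp x (C s) := by
    rw [hT', hT]; abel
  have hgoal2 : (t : ℂ) • (1 : Matrix (κ × (Fin n → κ)) (κ × (Fin n → κ)) ℂ)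
          + (Q ⊗ₖ B + Cr + ∑ s ∈ F, C s) = B0 + Cr + ∑ s ∈ F, C s := by
    rw [hB0]; abel
  rw [hgoal1, hgoal2]
  rw [hblk] at hp0
  have hE : 0 ≤ dt (T' + ∑ s ∈ F, cmp x (C s)) :=
    (dt_pos (hT'p.add_posSemidef (Matrix.posSemidef_sum F fun s hs => cmp_psd x (hC s hs)))).le
  have hPkT : Pk * dt T' ≤ dt (B0 + Cr) := by
    have h2 : Pk * dt T' * dt T ≤ dt (B0 + Cr) * dt T := by
      calc Pk * dt T' * dt T = Pk * dt T * dt T' := by ring
        _ ≤ _ := hp0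
    exact le_of_mul_le_mul_right h2 hT0
  have h3 : Pk * dt (T' + ∑ s ∈ F, cmp x (C s)) * dt T' ≤ dt (B0 + Cr + ∑ s ∈ F, C s) * dt T' := by
    calc Pk * dt (T' + ∑ s ∈ F, cmp x (C s)) * dt T' = (Pk * dt T') * dt (T' + ∑ s ∈ F, cmp x (C s)) := by ring
      _ ≤ dt (B0 + Cr) * dt (T' + ∑ s ∈ F, cmp x (C s)) := mul_le_mul_of_nonneg_right hPkT hE
      _ ≤ _ := hp1
  exact le_of_mul_le_mul_right h3 hT'0


/-- marginal of an operator at the site `j` -/
def marg {n : ℕ} (j : Fin n) (M : Matrix (Fin n → κ) (Fin n → κ) ℂ) : Matrix κ κ ℂ :=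
  fun a b => ∑ x, if x j = a then M x (Function.update x j b) else 0

lemma marg_smul {n : ℕ} (j : Fin n) (c : ℂ) (M : Matrix (Fin n → κ) (Fin n → κ) ℂ) :
    marg j (c • M) = c • marg j M := by
  ext a b
  rw [marg, Matrix.smul_apply, marg, smul_eq_mul, Finset.mul_sum]
  refine Finset.sum_congr rfl fun x _ => ?_
  split_ifs <;> simp

lemma sum_consP {M : Type*} [AddCommMonoid M] {n : ℕ} (f : (Fin (n+1) → κ) → M) :
    ∑ x, f x = ∑ a : κ, ∑ y : Fin n → κ, f (Fin.cons a y) := by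
  rw [← Equiv.sum_comp (Fin.consEquiv (fun _ => κ)) f, Fintype.sum_prod_type]
  rfl

/-- at the first site -/
lemma mg_tl {n : ℕ} (M : Matrix (Fin (n+1) → κ) (Fin (n+1) → κ) ℂ) : mg (tl M) = marg 0 M := by
  ext a b
  rw [mg, marg, sum_consP]
  simp only [Fin.cons_zero]
  rw [Finset.sum_eq_single a]
  · refine Finset.sum_congr rfl fun y _ => ?_
    rw [if_pos rfl, tl_apply, Fin.update_cons_zero]
  · intro c _ hc
    exact Finset.sum_eq_zero fun y _ => by rw [if_neg hc]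
  · simp

/-- at a later site, the first site carrying its own state -/
lemma marg_strip {n : ℕ} {Q : Matrix κ κ ℂ} (hQ1 : Q.trace = 1)
    {M : Matrix (Fin (n+1) → κ) (Fin (n+1) → κ) ℂ} {τ : Matrix (Fin n → κ) (Fin n → κ) ℂ}
    (h : tl M = Q ⊗ₖ τ) (j : Fin n) : marg j τ = marg j.succ M := by
  ext a b
  rw [marg, marg, sum_consP]
  simp only [Fin.cons_succ]
  have h1 : ∀ (c : κ) (y : Fin n → κ), (if y j = a then M (Fin.cons c y) (Function.update (Fin.cons c y) j.succ b) else 0)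
      = Q c c * (if y j = a then τ y (Function.update y j b) else 0) := by
    intro c y
    have h2 := congrFun (congrFun h (c, y)) (c, Function.update y j b)
    rw [tl_apply, Matrix.kroneckerMap_apply] at h2
    simp only at h2
    rw [← Fin.cons_update, h2]
    split_ifs <;> simp
  simp only [h1]
  rw [Finset.sum_comm]
  refine Finset.sum_congr rfl fun y _ => ?_
  rw [← Finset.sum_mul]
  have : ∑ c, Q c c = 1 := hQ1
  rw [this, one_mul]

omit [Fintype κ] [DecidableEq κ] in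
lemma tl_zeroS {n : ℕ} : tl (0 : Matrix (Fin (n+1) → κ) (Fin (n+1) → κ) ℂ) = 0 := by
  ext i j; rfl

/-- three different sites -/
def Three {n : ℕ} (s : Fin n → Bool) : Prop := ∃ i j k : Fin n, i < j ∧ j < k ∧ s i = true ∧ s j = true ∧ s k = true

lemma Three.cons {n : ℕ} {s : Fin n → Bool} (h : Three s) (b : Bool) : Three (Fin.cons b s : Fin (n+1) → Bool) := by
  obtain ⟨i, j, k, h1, h2, h3, h4, h5⟩ := h
  exact ⟨i.succ, j.succ, k.succ, Fin.succ_lt_succ_iff.mpr h1, Fin.succ_lt_succ_iff.mpr h2,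
    by simpa using h3, by simpa using h4, by simpa using h5⟩

lemma Three.two {n : ℕ} {s : Fin n → Bool} {i j : Fin n} (h : i < j) (hi : s i = true) (hj : s j = true) :
    Three (Fin.cons true s : Fin (n+1) → Bool) :=
  ⟨0, i.succ, j.succ, Fin.succ_pos i, Fin.succ_lt_succ_iff.mpr h, by simp, by simpa using hi, by simpa using hj⟩

lemma cons_full {n : ℕ} : (Fin.cons true (fun _ : Fin n => true) : Fin (n+1) → Bool) = (fun _ => true) := by
  ext j; refine Fin.cases ?_ (fun i => ?_) j <;> simp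

lemma cons_ne_full {n : ℕ} {s : Fin n → Bool} (h : s ≠ fun _ => true) (b : Bool) :
    (Fin.cons b s : Fin (n+1) → Bool) ≠ fun _ => true := by
  intro h1
  apply h
  ext j
  have := congrFun h1 j.succ
  simpa using this

lemma cons_false_ne {n : ℕ} (s : Fin n → Bool) : (Fin.cons false s : Fin (n+1) → Bool) ≠ fun _ => true := by
  intro h1
  have := congrFun h1 0
  simp at this

/-- the pairs: at the first of its sites the marginal lies in a given space, or the reduction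
criterion holds there -/
def Prs {n : ℕ} (L : Fin n → Submodule ℝ (Matrix κ κ ℂ)) (β : (Fin n → Bool) → Matrix (Fin n → κ) (Fin n → κ) ℂ) : Prop :=
  ∀ (s : Fin n → Bool) (j : Fin n), s j = true → (∀ i, i < j → s i = false) → (∃ i, j < i ∧ s i = true) →
    s ≠ (fun _ => true) → Rd j (β s) ∨ marg j (β s) ∈ L j

end Run7.h455
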